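import Mathlib

/-!
# Constant depth circuits for distance `k` connectivity: definitions
-/

set_option autoImplicit false

namespace P28cd

open Finset

/-! ## Functions on the cube -/

section cube

variable {I : Type}

/-- `f` has, at every point, a certificate of size at most `t` -/
def Cert (t : ℕ) (f : (I → Bool) → Bool) : Prop :=
  ∀ x, ∃ K : Finset I, K.card ≤ t ∧ ∀ x', (∀ i ∈ K, x' i = x i) → f x' = f x

/-- `f` has, at every point where it is true, a certificate of size at most `t` -/
def OneC (t : ℕ) (f : (I → Bool) → Bool) : Prop :=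
  ∀ x, f x = true → ∃ K : Finset I, K.card ≤ t ∧ ∀ x', (∀ i ∈ K, x' i = x i) → f x' = true

/-- `f` depends on at most one variable -/
def Dep1 (f : (I → Bool) → Bool) : Prop :=
  ∃ K : Finset I, K.card ≤ 1 ∧ ∀ x x', (∀ i ∈ K, x i = x' i) → f x = f x'

end cube

/-! ## Product weights -/

open scoped Classical in
/-- indicator of a proposition -/
noncomputable def ind (p : Prop) : ℝ := if p then 1 else 0

section prob

variable {I : Type} [Fintype I] [DecidableEq I]

/-- weight of the point `x` for the product weights `w` -/
noncomputable def wt (w : I → Bool → ℝ) (x : I → Bool) : ℝ := ∏ i, w i (x i)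

/-- total weight of the points with `P` -/
noncomputable def pr (w : I → Bool → ℝ) (P : (I → Bool) → Prop) : ℝ :=
  ∑ x, wt w x * ind (P x)

end prob

/-- Bernoulli weights: `true` with probability `p` -/
noncomputable def bw {I : Type} (p : ℝ) : I → Bool → ℝ := fun _ b => if b then p else 1 - p

/-! ## Gates and circuits -/

/-- `f` is the AND or the OR of the functions in `T` -/
def IsGate {X : Type} (T : Set (X → Bool)) (f : X → Bool) : Prop :=
  (∀ x, f x = true ↔ ∀ h ∈ T, h x = true) ∨ (∀ x, f x = true ↔ ∃ h ∈ T, h x = true)

/-- the functions which may be fed into a gate of level `ℓ`: the functions in `P` and the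
gates of lower level and their negations -/
def Avail {X : Type} {S : ℕ} (P : Set (X → Bool)) (level : Fin S → ℕ) (val : Fin S → X → Bool)
    (ℓ : ℕ) : Set (X → Bool) :=
  {f | f ∈ P ∨ ∃ g, level g < ℓ ∧ (f = val g ∨ f = fun x => !val g x)}

/-- a family of gates; those of level `0` have certificates of size `t`, those of higher level
are gates over functions with certificates of size `t` and gates of lower level -/
def Fam {I : Type} {S : ℕ} (t : ℕ) (level : Fin S → ℕ) (val : Fin S → (I → Bool) → Bool) :
    Prop :=
  (∀ g, level g = 0 → Cert t (val g)) ∧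
  (∀ g, level g ≠ 0 → ∃ T ⊆ Avail {f | Cert t f} level val (level g), IsGate T (val g))

/-! ## One stage: blocks `B`, groups `B × U`, positions `(B × U) × M` -/

section stage

variable {B U M X : Type}

/-- the input in which the groups `x` with `z x` have the ones of `A` -/
def lift (A : X × M → Bool) (z : X → Bool) : X × M → Bool := fun i => A i && z i.1

/-- the state of the groups: `V` marks the groups under control, alive blocks follow `z` -/
def full (V : B × U → Bool) (al z : B → Bool) : B × U → Bool :=
  fun x => !V x || (al x.1 && z x.1)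

/-- `z` with the groups of `Y` switched on -/
def up [DecidableEq X] (z : X → Bool) (Y : Finset X) : X → Bool := fun x => z x || decide (x ∈ Y)

/-- the state when the blocks in `Q` follow `z`, other controlled groups are off
except for those in `W` -/
def st [DecidableEq B] [DecidableEq U] (V : B × U → Bool) (Q : Finset B) (z : B → Bool)
    (W : Finset (B × U)) : B × U → Bool :=
  fun x => !V x || (decide (x.1 ∈ Q) && z x.1) || decide (x ∈ W)

/-- admissible sets of groups to be switched on -/
structure Adm [DecidableEq B] [DecidableEq U] (r L : ℕ) (V : B × U → Bool) (al : B → Bool)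
    (Q : Finset B) (W : Finset (B × U)) : Prop where
  mem : ∀ x ∈ W, x.1 ∉ Q ∧ al x.1 = true ∧ V x = true
  row : ∀ b, (W.filter fun x => x.1 = b).card ≤ r
  count : W = ∅ ∨ (W.image Prod.fst).card + Q.card ≤ L

/-- candidates for certificates: a set of groups and values on it -/
abbrev Ct (B U : Type) := Finset (B × U) × (B × U → Bool)

/-- `κ` is a certificate of size at most `w` for `H = false` -/
def IsC (H : (B × U → Bool) → Bool) (w : ℕ) (κ : Ct B U) : Prop :=
  κ.1.card ≤ w ∧ ∀ z, (∀ x ∈ κ.1, z x = κ.2 x) → H z = false

/-- the blocks touched by `κ` -/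
def tou [DecidableEq B] (κ : Ct B U) : Finset B := κ.1.image Prod.fst

/-- `κ` is a short certificate that agrees with the state after switching on some admissible
set of groups -/
def Mat [DecidableEq B] [DecidableEq U] (H : (B × U → Bool) → Bool) (w r L : ℕ)
    (V : B × U → Bool) (al : B → Bool) (Q : Finset B) (z : B → Bool) (κ : Ct B U) : Prop :=
  IsC H w κ ∧ ∃ W, Adm r L V al Q W ∧ ∀ x ∈ κ.1, st V Q z W x = κ.2 x

/-- one step of the canonical procedure: the first matching certificate is taken and all the
alive blocks it touches are queried -/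
def Step [DecidableEq B] [DecidableEq U] (H : (B × U → Bool) → Bool) (w r L : ℕ)
    (rk : Ct B U → ℕ) (V : B × U → Bool) (al z : B → Bool) (Q Q' : Finset B) : Prop :=
  ∃ κ, Mat H w r L V al Q z κ ∧ (∀ κ', rk κ' < rk κ → ¬ Mat H w r L V al Q z κ') ∧
    Q' = Q ∪ (tou κ).filter (fun b => al b = true) ∧ Q' ≠ Q

/-- `k` steps from `Q` to the last set; all sets except the last one have less than `s`
elements -/
inductive Chain [DecidableEq B] [DecidableEq U] (H : (B × U → Bool) → Bool) (w r L s : ℕ)
    (rk : Ct B U → ℕ) (V : B × U → Bool) (al z : B → Bool) :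
    ℕ → Finset B → Finset B → Prop
  | nil (Q : Finset B) : Chain H w r L s rk V al z 0 Q Q
  | cons {k : ℕ} {Q Q' Q'' : Finset B} : Q.card < s → Step H w r L rk V al z Q Q' →
      Chain H w r L s rk V al z k Q' Q'' → Chain H w r L s rk V al z (k + 1) Q Q''

/-- the canonical procedure makes at least `s` queries for some answers `z` -/
def EvBad [DecidableEq B] [DecidableEq U] (H : (B × U → Bool) → Bool) (w r L s : ℕ)
    (rk : Ct B U → ℕ) (V : B × U → Bool) (al : B → Bool) : Prop :=
  ∃ z k Q, Chain H w r L s rk V al z k ∅ Q ∧ s ≤ Q.card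

/-- the state `¬ V` overwritten by `c` on the blocks in `F` -/
def ov [DecidableEq B] (V : B × U → Bool) (F : Finset B) (c : B × U → Bool) : B × U → Bool :=
  fun x => if x.1 ∈ F then c x else !V x

/-- after overwriting at most `L` blocks, `D` is false without a certificate of size `w` -/
def EvShort [DecidableEq B] (D : ((B × U) × M → Bool) → Bool) (w L : ℕ)
    (A : (B × U) × M → Bool) (V : B × U → Bool) : Prop :=
  ∃ F : Finset B, F.card ≤ L ∧ ∃ c : B × U → Bool, D (lift A (ov V F c)) = false ∧
    ¬ ∃ K : Finset (B × U), K.card ≤ w ∧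
      ∀ z', (∀ x ∈ K, z' x = ov V F c x) → D (lift A z') = false

/-- switching on the groups of some `Y` makes `D` false, but this is not achieved by any subset
of size at most `r` -/
def EvNegAt [DecidableEq X] (D : (X × M → Bool) → Bool) (r : ℕ) (z0 : X → Bool)
    (A : X × M → Bool) : Prop :=
  ∃ Y : Finset X, (∀ x ∈ Y, z0 x = false) ∧ D (lift A (up z0 Y)) = false ∧
    ∀ W ⊆ Y, W.card ≤ r → D (lift A (up z0 W)) = true

/-- the event `EvNegAt` after switching on at most `s` blocks -/
def EvNeg [DecidableEq B] [DecidableEq U] (D : ((B × U) × M → Bool) → Bool) (s r : ℕ)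
    (V : B × U → Bool) (A : (B × U) × M → Bool) : Prop :=
  ∃ O : Finset B, O.card ≤ s ∧ EvNegAt D r (st V O (fun _ => true) ∅) A

end stage

/-! ## The formula -/

/-- OR nodes above the leaves; `rest` lists the fan-ins of the OR nodes above, bottom first -/
def Grp (u : ℕ) : List ℕ → Type
  | [] => Unit
  | m :: rest => (Grp u rest × Fin m) × Fin u

/-- leaves below the OR nodes with fan-in `m` -/
abbrev Leaf (u m : ℕ) (rest : List ℕ) : Type := Grp u rest × Fin m

/-- the formula OR AND_u OR AND_u ... OR on the leaves -/
def Fo (u : ℕ) : (rest : List ℕ) → (m : ℕ) → (Leaf u m rest → Bool) → Bool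
  | [], _, y => decide (∃ i, y ((), i) = true)
  | m' :: rest, m, y =>
      Fo u rest m' (fun B => decide (∀ b : Fin u, ∃ i : Fin m, y ((B, b), i) = true))

instance instDecGrp (u : ℕ) : (l : List ℕ) → DecidableEq (Grp u l)
  | [] => inferInstanceAs (DecidableEq Unit)
  | m :: rest => by
      haveI := instDecGrp u rest
      exact inferInstanceAs (DecidableEq ((Grp u rest × Fin m) × Fin u))

instance instFinGrp (u : ℕ) : (l : List ℕ) → Fintype (Grp u l)
  | [] => inferInstanceAs (Fintype Unit)
  | m :: rest => by
      haveI := instFinGrp u rest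
      exact inferInstanceAs (Fintype ((Grp u rest × Fin m) × Fin u))

/-- the exponents -/
def ex : ℕ → ℕ
  | 0 => 0
  | i + 1 => 3 * ex i + 7

/-- the fan-ins of the OR nodes, bottom first -/
def ms (ν : ℕ) : ℕ → List ℕ
  | 0 => []
  | i + 1 => ν ^ (2 * ex i + 6) :: ms ν i

/-- restriction of the first stage: alive leaves have one free edge, dead leaves exactly one
present edge -/
def sub0 {Λ : Type} (al side : Λ → Bool) (y : Λ → Bool) : Λ × Bool → Bool :=
  fun i => if al i.1 then (if i.2 then true else y i.1) else decide (i.2 = side i.1)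

end P28cd
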