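import Mathlib
import Pool.Agent.Lib.P28cd.Defs

/-!
# Constant depth circuits: graphs, walks, circuits on graphs
-/

set_option autoImplicit false

namespace P28cd

/-- there is a walk from `s` to `t` with at most `k` arcs -/
def Walk {n : ℕ} (E : Fin n → Fin n → Bool) (k : ℕ) (s t : Fin n) : Prop :=
  ∃ j ≤ k, ∃ p : ℕ → Fin n, p 0 = s ∧ p j = t ∧ ∀ i < j, E (p i) (p (i + 1)) = true

/-- the literals: an arc or its negation -/
def Lits (n : ℕ) : Set ((Fin n → Fin n → Bool) → Bool) :=
  {f | ∃ u v, (f = fun E => E u v) ∨ f = fun E => !E u v}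

/-- `f` is computed by a circuit of depth `d` with `S` gates over the functions `P` -/
def Circ {X : Type} (P : Set (X → Bool)) (d S : ℕ) (f : X → Bool) : Prop :=
  ∃ (level : Fin S → ℕ) (val : Fin S → X → Bool) (out : Fin S), (∀ g, level g < d) ∧
    (∀ g, ∃ T ⊆ Avail P level val (level g), IsGate T (val g)) ∧ f = val out

end P28cd
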