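import Mathlib
import Pool.Agent.Lib.P28cd.GDefs

/-!
# Module P28cd.Emb : a layered graph placed on `Fin n`

PROOF.  Let `ψ : W → Fin n` be injective with `ψ a = s`, `ψ b = t` (any injection, corrected by `Equiv.swap`s:
first swap `ψ a` with `s`, then `ψ b` with `t`; note `t ≠ s`).  `Ed x v w` = there are `p, q` with `ψ p = v`,
`ψ q = w` and `arc x p q` (given `v, w` in the range `p, q` are unique; else `false`); `Es x v w = Ed x v w || Ed x w v`.
`Dep1`: `Ed x v w` is `arc x p q` or constantly false.  `Es x v w`: if `lay q ≠ lay p + 1` then `arc x p q` is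
false for all `x` by `hlay`; both `lay q = lay p + 1` and `lay p = lay q + 1` is impossible, so at most one of the two terms is
not constantly false.
A path of `W` gives a walk with exactly `K` arcs.  If `φ` exists: directed: along a walk starting at `s = ψ a`
all vertices are `ψ p` with `φ p = true` (induction), `t = ψ b` is not.  For `Es`: along a walk `ψ (p 0), .., ψ (p j)` from `a` to `b`,
`j ≤ K`, the layer changes by `±1`, so `lay (p i) ≤ i` and, counting from the end, `lay (p i) ≥ K - (j - i) ≥ i`; hence `j = K`,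
`lay (p i) = i`, every arc is used forward, and `φ` is true along the walk, contradiction.
-/

set_option autoImplicit false

namespace P28cd

namespace EmbAux

theorem exists_inj {W : Type} [Fintype W] (n : ℕ) (hn : Fintype.card W ≤ n) (a b : W) (hab : a ≠ b)
    (s t : Fin n) (hst : s ≠ t) : ∃ ψ : W → Fin n, Function.Injective ψ ∧ ψ a = s ∧ ψ b = t := by
  classical
  obtain ⟨e⟩ : Nonempty (W ↪ Fin n) :=
    Function.Embedding.nonempty_of_card_le (by rw [Fintype.card_fin]; exact hn)
  let ψ1 : W → Fin n := fun w => Equiv.swap (e a) s (e w)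
  have h1 : Function.Injective ψ1 := (Equiv.swap (e a) s).injective.comp e.injective
  have h1a : ψ1 a = s := Equiv.swap_apply_left _ _
  have hb : ψ1 b ≠ s := fun h => hab (h1 (h1a.trans h.symm))
  refine ⟨fun w => Equiv.swap (ψ1 b) t (ψ1 w), (Equiv.swap (ψ1 b) t).injective.comp h1, ?_, ?_⟩
  · show Equiv.swap (ψ1 b) t (ψ1 a) = s
    rw [h1a]
    exact Equiv.swap_apply_of_ne_of_ne hb.symm hst
  · exact Equiv.swap_apply_left _ _

open scoped Classical in
/-- the directed graph on `Fin n` -/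
noncomputable def Ed {W J : Type} {n : ℕ} (arc : (J → Bool) → W → W → Bool) (ψ : W → Fin n)
    (x : J → Bool) (v w : Fin n) : Bool :=
  decide (∃ p q, ψ p = v ∧ ψ q = w ∧ arc x p q = true)

section

variable {W J : Type} {n : ℕ} {arc : (J → Bool) → W → W → Bool} {ψ : W → Fin n}

theorem ed_iff (x : J → Bool) (v w : Fin n) :
    Ed arc ψ x v w = true ↔ ∃ p q, ψ p = v ∧ ψ q = w ∧ arc x p q = true := by
  classical
  unfold Ed
  exact decide_eq_true_iff

theorem ed_eq (hψ : Function.Injective ψ) (x : J → Bool) (p q : W) :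
    Ed arc ψ x (ψ p) (ψ q) = arc x p q := by
  rw [Bool.eq_iff_iff, ed_iff]
  constructor
  · rintro ⟨p', q', h1, h2, h3⟩
    rw [← hψ h1, ← hψ h2]
    exact h3
  · intro h
    exact ⟨p, q, rfl, rfl, h⟩

theorem ed_false {v w : Fin n} (h : ¬ ∃ p q, ψ p = v ∧ ψ q = w) (x : J → Bool) :
    Ed arc ψ x v w = false := by
  rw [Bool.eq_false_iff, ne_eq, ed_iff]
  rintro ⟨p, q, h1, h2, -⟩
  exact h ⟨p, q, h1, h2⟩

theorem dep_const (c : Bool) : Dep1 (fun _ : J → Bool => c) :=
  ⟨∅, by simp, fun _ _ _ => rfl⟩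

theorem dep_ed (hψ : Function.Injective ψ) (hdep : ∀ p q, Dep1 (fun x => arc x p q))
    (v w : Fin n) : Dep1 (fun x => Ed arc ψ x v w) := by
  by_cases h : ∃ p q, ψ p = v ∧ ψ q = w
  · obtain ⟨p, q, rfl, rfl⟩ := h
    simp only [ed_eq hψ]
    exact hdep p q
  · simp only [ed_false h]
    exact dep_const false

theorem dep_es (hψ : Function.Injective ψ) (hdep : ∀ p q, Dep1 (fun x => arc x p q))
    (lay : W → ℕ) (hlay : ∀ x p q, arc x p q = true → lay q = lay p + 1) (v w : Fin n) :
    Dep1 (fun x => Ed arc ψ x v w || Ed arc ψ x w v) := by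
  by_cases h : ∃ p q, ψ p = v ∧ ψ q = w
  · obtain ⟨p, q, rfl, rfl⟩ := h
    simp only [ed_eq hψ]
    by_cases hl : lay q = lay p + 1
    · have : ∀ x, arc x q p = false := by
        intro x
        rw [Bool.eq_false_iff]
        intro h'
        have := hlay x q p h'
        omega
      simp only [this, Bool.or_false]
      exact hdep p q
    · have : ∀ x, arc x p q = false := by
        intro x
        rw [Bool.eq_false_iff]
        intro h'
        exact hl (hlay x p q h')
      simp only [this, Bool.false_or]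
      exact hdep q p
  · have h' : ¬ ∃ p q, ψ p = w ∧ ψ q = v := by
      rintro ⟨p, q, h1, h2⟩
      exact h ⟨q, p, h2, h1⟩
    simp only [ed_false h, ed_false h', Bool.or_false]
    exact dep_const false

theorem no_walk (hψ : Function.Injective ψ) {a b : W} {x : J → Bool}
    (h : ∃ φ : W → Bool, φ a = true ∧ φ b = false ∧
      ∀ p q, arc x p q = true → φ p = true → φ q = true) (k : ℕ) :
    ¬ Walk (Ed arc ψ x) k (ψ a) (ψ b) := by
  rintro ⟨j, -, p, hp0, hpj, hp⟩
  obtain ⟨φ, ha, hb, hφ⟩ := h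
  have key : ∀ i ≤ j, ∃ r, ψ r = p i ∧ φ r = true := by
    intro i
    induction i with
    | zero => exact fun _ => ⟨a, hp0.symm, ha⟩
    | succ i ih =>
      intro hi
      obtain ⟨r, hr, hr'⟩ := ih (by omega)
      obtain ⟨p', q', h1, h2, h3⟩ := (ed_iff x _ _).1 (hp i (by omega))
      have : p' = r := hψ (h1.trans hr.symm)
      subst this
      exact ⟨q', h2, hφ _ _ h3 hr'⟩
  obtain ⟨r, hr, hr'⟩ := key j le_rfl
  have : r = b := hψ (hr.trans hpj)
  subst this
  rw [hb] at hr'
  exact absurd hr' (by simp)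

theorem to_ed (hψ : Function.Injective ψ) {lay : W → ℕ}
    (hlay : ∀ x p q, arc x p q = true → lay q = lay p + 1) {a b : W} {x : J → Bool} {K : ℕ}
    (ha : lay a = 0) (hb : lay b = K)
    (h : Walk (fun v w => Ed arc ψ x v w || Ed arc ψ x w v) K (ψ a) (ψ b)) :
    Walk (Ed arc ψ x) K (ψ a) (ψ b) := by
  obtain ⟨j, hj, p, hp0, hpj, hp⟩ := h
  have hp' : ∀ i < j, ∃ u v, ψ u = p i ∧ ψ v = p (i + 1) ∧ (arc x u v = true ∨ arc x v u = true) := by
    intro i hi
    have := hp i hi
    simp only [Bool.or_eq_true, ed_iff] at this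
    rcases this with ⟨u, v, h1, h2, h3⟩ | ⟨u, v, h1, h2, h3⟩
    · exact ⟨u, v, h1, h2, Or.inl h3⟩
    · exact ⟨v, u, h2, h1, Or.inr h3⟩
  have key1 : ∀ i ≤ j, ∃ r, ψ r = p i ∧ lay r ≤ i := by
    intro i
    induction i with
    | zero => exact fun _ => ⟨a, hp0.symm, ha.le⟩
    | succ i ih =>
      intro hi
      obtain ⟨r, hr, hr'⟩ := ih (by omega)
      obtain ⟨u, v, h1, h2, h3⟩ := hp' i (by omega)
      have : u = r := hψ (h1.trans hr.symm)
      subst this
      refine ⟨v, h2, ?_⟩
      rcases h3 with h3 | h3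
      · have := hlay _ _ _ h3
        omega
      · have := hlay _ _ _ h3
        omega
  have key2 : ∀ i ≤ j, ∃ r, ψ r = p (j - i) ∧ K ≤ lay r + i := by
    intro i
    induction i with
    | zero => exact fun _ => ⟨b, by simpa using hpj.symm, by omega⟩
    | succ i ih =>
      intro hi
      obtain ⟨r, hr, hr'⟩ := ih (by omega)
      obtain ⟨u, v, h1, h2, h3⟩ := hp' (j - (i + 1)) (by omega)
      have e : j - (i + 1) + 1 = j - i := by omega
      rw [e] at h2
      have : v = r := hψ (h2.trans hr.symm)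
      subst this
      refine ⟨u, h1, ?_⟩
      rcases h3 with h3 | h3
      · have := hlay _ _ _ h3
        omega
      · have := hlay _ _ _ h3
        omega
  have key3 : ∀ i ≤ j, ∀ r, ψ r = p i → lay r = i := by
    intro i hi r hr
    obtain ⟨r1, h1, h1'⟩ := key1 i hi
    obtain ⟨r2, h2, h2'⟩ := key2 (j - i) (by omega)
    have e : j - (j - i) = i := by omega
    rw [e] at h2
    have e1 : r1 = r := hψ (h1.trans hr.symm)
    have e2 : r2 = r := hψ (h2.trans hr.symm)
    subst e1
    subst e2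
    omega
  refine ⟨j, hj, p, hp0, hpj, fun i hi => ?_⟩
  obtain ⟨u, v, h1, h2, h3⟩ := hp' i hi
  rw [ed_iff]
  rcases h3 with h3 | h3
  · exact ⟨u, v, h1, h2, h3⟩
  · exfalso
    have e1 := key3 i hi.le u h1
    have e2 := key3 (i + 1) hi v h2
    have := hlay _ _ _ h3
    omega

end

end EmbAux

theorem embed_graph {W J : Type} [Fintype W] [DecidableEq W] (n : ℕ)
    (hn : Fintype.card W ≤ n) (arc : (J → Bool) → W → W → Bool)
    (hdep : ∀ p q, Dep1 (fun x => arc x p q)) (lay : W → ℕ)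
    (hlay : ∀ x p q, arc x p q = true → lay q = lay p + 1) (a b : W) (hab : a ≠ b)
    (K : ℕ) (ha : lay a = 0) (hb : lay b = K) (s t : Fin n) (hst : s ≠ t) :
    ∃ (Ed Es : (J → Bool) → Fin n → Fin n → Bool),
      (∀ v w, Dep1 (fun x => Ed x v w)) ∧ (∀ v w, Dep1 (fun x => Es x v w)) ∧
      (∀ x v w, Es x v w = Es x w v) ∧
      ∀ x,
        ((∃ p : ℕ → W, p 0 = a ∧ p K = b ∧ ∀ i < K, arc x (p i) (p (i + 1)) = true) →
          Walk (Ed x) K s t ∧ Walk (Es x) K s t) ∧
        ((∃ φ : W → Bool, φ a = true ∧ φ b = false ∧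
          ∀ p q, arc x p q = true → φ p = true → φ q = true) →
          (∀ k, ¬ Walk (Ed x) k s t) ∧ ¬ Walk (Es x) K s t) := by
  obtain ⟨ψ, hψ, rfl, rfl⟩ := EmbAux.exists_inj n hn a b hab s t hst
  refine ⟨EmbAux.Ed arc ψ, fun x v w => EmbAux.Ed arc ψ x v w || EmbAux.Ed arc ψ x w v,
    fun v w => EmbAux.dep_ed hψ hdep v w, fun v w => EmbAux.dep_es hψ hdep lay hlay v w,
    fun x v w => Bool.or_comm _ _, fun x => ⟨?_, ?_⟩⟩
  · rintro ⟨p, hp0, hpK, hp⟩
    have hE : ∀ i < K, EmbAux.Ed arc ψ x (ψ (p i)) (ψ (p (i + 1))) = true := by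
      intro i hi
      rw [EmbAux.ed_eq hψ]
      exact hp i hi
    refine ⟨⟨K, le_rfl, fun i => ψ (p i), congrArg ψ hp0, congrArg ψ hpK, hE⟩,
      ⟨K, le_rfl, fun i => ψ (p i), congrArg ψ hp0, congrArg ψ hpK, fun i hi => ?_⟩⟩
    show (_ || _) = true
    rw [hE i hi, Bool.true_or]
  · intro h
    exact ⟨EmbAux.no_walk hψ h, fun hw => EmbAux.no_walk hψ h K (EmbAux.to_ed hψ hlay ha hb hw)⟩

end P28cd
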