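import Mathlib
import Pool.Agent.Lib.P28cd.GDefs

/-!
# Module P28cd.Up : the upper bound (Savitch's recursion with `a` levels)

PROOF.  `WL E L v w` : a walk with at most `L` arcs from `v` to `w` (`Walk E L v w`).
Splitting: for `L ≤ ℓ^(j+1)` put `L_i = min (ℓ^j) (L - i ℓ^j)` (`i < ℓ`, truncated subtraction); then `L_i ≤ ℓ^j`, `∑_{i<ℓ} L_i = L`, and
`Walk E L v w ↔ ∃ q : Fin (ℓ+1) → Fin n, q 0 = v ∧ q ℓ = w ∧ ∀ i < ℓ, Walk E L_i (q i) (q (i+1))`
(cut a walk with `≤ L` arcs after `L_0 + .. + L_(i-1)` arcs, staying at the end vertex when it is over; conversely concatenate).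
Gates: for each `j < a`, `L ≤ k`: an AND gate for each `q : Fin (ℓ+1) → Fin n`, value: `L ≤ ℓ^(j+1)` and `∀ i < ℓ, Walk E L_i (q i) (q (i+1))`
(level `2j`; if `¬ L ≤ ℓ^(j+1)` any gate will do, e.g. the constant true AND of the empty set), and an OR gate for each `(v, w)`, value
`Walk E L v w` for `L ≤ ℓ^(j+1)` (level `2j+1`): the OR of the AND gates with `q 0 = v`, `q ℓ = w`.
The inputs of the AND gate `(j, L, q)`: for `j ≥ 1` the OR gates `(j-1, L_i, (q i, q (i+1)))`, level `2j - 1 < 2j`; for `j = 0`: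
`L_i ≤ 1`, `Walk E 0 v w ↔ v = w`, `Walk E 1 v w ↔ v = w ∨ E v w`; so if `q i = q (i+1)` no input is needed, if
`q i ≠ q (i+1)` and `L_i = 1` the literal `E (q i) (q (i+1))`; if `q i ≠ q (i+1)` and `L_i = 0` the gate has to be constantly false:
let it be the OR of the empty set.
Number of gates: `a (k+1) (n^(ℓ+1) + n^2) ≤ 2 a (k+1) n^(ℓ+1)` (`ℓ ≥ 1`), index type
`Fin a × Fin (k+1) × ((Fin (ℓ+1) → Fin n) ⊕ (Fin n × Fin n))`, transported to `Fin S` by `Fintype.equivFin`.  Output: the OR gate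
`(a-1, k, (s,t))`; all levels are `< 2a`.  (The empty cases are harmless: `n ≥ 1` because of `s`.)
-/

set_option autoImplicit false

namespace P28cd

namespace UpAux

variable {n : ℕ} {E : Fin n → Fin n → Bool}

theorem walk_zero {v w : Fin n} : Walk E 0 v w ↔ v = w := by
  constructor
  · rintro ⟨j, hj, p, h0, h1, -⟩
    obtain rfl : j = 0 := by omega
    rw [← h0, h1]
  · rintro rfl
    exact ⟨0, le_rfl, fun _ => v, rfl, rfl, fun i hi => absurd hi (by omega)⟩

theorem walk_one {v w : Fin n} : Walk E 1 v w ↔ v = w ∨ E v w = true := by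
  constructor
  · rintro ⟨j, hj, p, h0, h1, h2⟩
    rcases Nat.eq_zero_or_pos j with rfl | hj0
    · left
      rw [← h0, h1]
    · obtain rfl : j = 1 := by omega
      right
      have := h2 0 (by omega)
      rw [h0, h1] at this
      exact this
  · rintro (rfl | h)
    · exact ⟨0, by omega, fun _ => v, rfl, rfl, fun i hi => absurd hi (by omega)⟩
    · refine ⟨1, le_rfl, fun i => if i = 0 then v else w, by simp, by simp, ?_⟩
      intro i hi
      obtain rfl : i = 0 := by omega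
      simpa using h

theorem walk_add {L₁ L₂ : ℕ} {v w : Fin n} :
    Walk E (L₁ + L₂) v w ↔ ∃ m, Walk E L₁ v m ∧ Walk E L₂ m w := by
  constructor
  · rintro ⟨j, hj, p, h0, h1, h2⟩
    by_cases hj1 : j ≤ L₁
    · exact ⟨w, ⟨j, hj1, p, h0, h1, h2⟩,
        ⟨0, Nat.zero_le _, fun _ => w, rfl, rfl, fun i hi => absurd hi (by omega)⟩⟩
    · push Not at hj1
      refine ⟨p L₁, ⟨L₁, le_rfl, p, h0, rfl, fun i hi => h2 i (by omega)⟩,
        ⟨j - L₁, by omega, fun i => p (L₁ + i), rfl, ?_, ?_⟩⟩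
      · change p (L₁ + (j - L₁)) = w
        rw [show L₁ + (j - L₁) = j by omega, h1]
      · intro i hi
        exact h2 (L₁ + i) (by omega)
  · rintro ⟨m, ⟨j₁, hj₁, p₁, h10, h11, h12⟩, ⟨j₂, hj₂, p₂, h20, h21, h22⟩⟩
    refine ⟨j₁ + j₂, by omega, fun i => if i ≤ j₁ then p₁ i else p₂ (i - j₁), by simp [h10],
      ?_, ?_⟩
    · by_cases h : j₂ = 0
      · subst h
        simp only [Nat.add_zero, le_refl, if_true]
        rw [h11, ← h20, h21]
      · have h3 : ¬ (j₁ + j₂ ≤ j₁) := by omega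
        simp only [h3, if_false]
        rw [show j₁ + j₂ - j₁ = j₂ by omega, h21]
    · intro i hi
      rcases lt_trichotomy i j₁ with h | h | h
      · have h3 : i ≤ j₁ := h.le
        have h4 : i + 1 ≤ j₁ := h
        simp only [h3, h4, if_true]
        exact h12 i h
      · subst h
        have h4 : ¬ (i + 1 ≤ i) := by omega
        simp only [le_refl, if_true, h4, if_false]
        rw [show i + 1 - i = 0 + 1 by omega, h11, ← h20]
        exact h22 0 (by omega)
      · have h3 : ¬ (i ≤ j₁) := by omega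
        have h4 : ¬ (i + 1 ≤ j₁) := by omega
        simp only [h3, h4, if_false]
        rw [show i + 1 - j₁ = (i - j₁) + 1 by omega]
        exact h22 (i - j₁) (by omega)

theorem walk_sum (L : ℕ → ℕ) (m : ℕ) (v w : Fin n) :
    Walk E (∑ i ∈ Finset.range m, L i) v w ↔
      ∃ q : ℕ → Fin n, q 0 = v ∧ q m = w ∧ ∀ i < m, Walk E (L i) (q i) (q (i + 1)) := by
  induction m generalizing w with
  | zero =>
    rw [Finset.sum_range_zero, walk_zero]
    constructor
    · rintro rfl
      exact ⟨fun _ => v, rfl, rfl, fun i hi => absurd hi (by omega)⟩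
    · rintro ⟨q, h0, h1, -⟩
      rw [← h0, h1]
  | succ m ih =>
    rw [Finset.sum_range_succ, walk_add]
    constructor
    · rintro ⟨x, hx, hw⟩
      obtain ⟨q, h0, h1, h2⟩ := (ih x).1 hx
      refine ⟨Function.update q (m + 1) w, ?_, ?_, ?_⟩
      · rw [Function.update_of_ne (by omega), h0]
      · simp
      · intro i hi
        rcases Nat.lt_succ_iff_lt_or_eq.1 hi with h | h
        · rw [Function.update_of_ne (by omega), Function.update_of_ne (by omega)]
          exact h2 i h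
        · subst h
          rw [Function.update_of_ne (by omega), Function.update_self, h1]
          exact hw
    · rintro ⟨q, h0, h1, h2⟩
      refine ⟨q m, (ih (q m)).2 ⟨q, h0, rfl, fun i hi => h2 i (by omega)⟩, ?_⟩
      rw [← h1]
      exact h2 m (by omega)

/-- the lengths of the pieces -/
def Li (c L i : ℕ) : ℕ := min c (L - i * c)

theorem sum_Li (c L m : ℕ) : ∑ i ∈ Finset.range m, Li c L i = min (m * c) L := by
  induction m with
  | zero => simp
  | succ m ih =>
    rw [Finset.sum_range_succ, ih, Li, Nat.succ_mul]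
    omega

theorem walk_split {ℓ j L : ℕ} (hL : L ≤ ℓ ^ (j + 1)) (v w : Fin n) :
    Walk E L v w ↔ ∃ q : Fin (ℓ + 1) → Fin n, q 0 = v ∧ q (Fin.last ℓ) = w ∧
      ∀ i : Fin ℓ, Walk E (Li (ℓ ^ j) L i) (q i.castSucc) (q i.succ) := by
  have h1 : ∑ i ∈ Finset.range ℓ, Li (ℓ ^ j) L i = L := by
    rw [sum_Li, min_eq_right]
    rw [pow_succ'] at hL
    exact hL
  have h2 := walk_sum (E := E) (Li (ℓ ^ j) L) ℓ v w
  rw [h1] at h2
  rw [h2]
  constructor
  · rintro ⟨q, h0, h3, h4⟩
    exact ⟨fun i => q i, h0, h3, fun i => h4 i i.2⟩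
  · rintro ⟨q, h0, h3, h4⟩
    refine ⟨fun i => if h : i < ℓ + 1 then q ⟨i, h⟩ else v, ?_, ?_, ?_⟩
    · simp only [dif_pos (show 0 < ℓ + 1 by omega)]
      exact h0
    · simp only [dif_pos (show ℓ < ℓ + 1 by omega)]
      exact h3
    · intro i hi
      simp only [dif_pos (show i < ℓ + 1 by omega), dif_pos (show i + 1 < ℓ + 1 by omega)]
      exact h4 ⟨i, hi⟩

/-- the gates -/
abbrev Ix (n k a ℓ : ℕ) : Type :=
  Fin a × Fin (k + 1) × ((Fin (ℓ + 1) → Fin n) ⊕ (Fin n × Fin n))

/-- the levels -/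
def lev {n k a ℓ : ℕ} : Ix n k a ℓ → ℕ
  | (j, _, Sum.inl _) => 2 * j
  | (j, _, Sum.inr _) => 2 * j + 1

open scoped Classical in
/-- the values -/
noncomputable def vl {n k a ℓ : ℕ} : Ix n k a ℓ → (Fin n → Fin n → Bool) → Bool
  | (j, L, Sum.inl q) => fun E => decide ((L : ℕ) ≤ ℓ ^ ((j : ℕ) + 1) ∧
      ∀ i : Fin ℓ, Walk E (Li (ℓ ^ (j : ℕ)) L i) (q i.castSucc) (q i.succ))
  | (j, L, Sum.inr v) => fun E => decide ((L : ℕ) ≤ ℓ ^ ((j : ℕ) + 1) ∧ Walk E L v.1 v.2)

/-- the possible inputs of a gate -/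
def Av {n k a ℓ : ℕ} (g : Ix n k a ℓ) : Set ((Fin n → Fin n → Bool) → Bool) :=
  {f | f ∈ Lits n ∨ ∃ g' : Ix n k a ℓ, lev g' < lev g ∧ f = vl g'}

theorem gate_false {X : Type} {f : X → Bool} (h : ∀ x, ¬ (f x = true)) :
    IsGate (∅ : Set (X → Bool)) f := by
  right
  intro x
  simp [h x]

theorem gate {n k a ℓ : ℕ} (g : Ix n k a ℓ) : ∃ T ⊆ Av g, IsGate T (vl g) := by
  classical
  obtain ⟨j, L, q | ⟨v, w⟩⟩ := g
  · by_cases hL : (L : ℕ) ≤ ℓ ^ ((j : ℕ) + 1)
    swap
    · refine ⟨∅, Set.empty_subset _, gate_false ?_⟩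
      intro E
      simp [vl, hL]
    by_cases hj : (j : ℕ) = 0
    · by_cases hbad : ∃ i : Fin ℓ, q i.castSucc ≠ q i.succ ∧ Li (ℓ ^ (j : ℕ)) L i = 0
      · refine ⟨∅, Set.empty_subset _, gate_false ?_⟩
        intro E hE
        obtain ⟨i, h1, h2⟩ := hbad
        have h3 := (of_decide_eq_true hE).2 i
        rw [h2, walk_zero] at h3
        exact h1 h3
      · push Not at hbad
        refine ⟨{f | ∃ i : Fin ℓ, q i.castSucc ≠ q i.succ ∧
          f = fun E => E (q i.castSucc) (q i.succ)}, ?_, Or.inl ?_⟩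
        · rintro f ⟨i, hi, rfl⟩
          exact Or.inl ⟨_, _, Or.inl rfl⟩
        · intro E
          have h1 : ∀ i : Fin ℓ, q i.castSucc ≠ q i.succ → Li (ℓ ^ (j : ℕ)) L i = 1 := by
            intro i hi
            have h2 := hbad i hi
            have h3 : Li (ℓ ^ (j : ℕ)) L i ≤ 1 := by
              rw [hj, pow_zero]
              exact min_le_left _ _
            omega
          constructor
          · rintro hE f ⟨i, hi, rfl⟩
            have h3 := (of_decide_eq_true hE).2 i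
            rw [h1 i hi, walk_one] at h3
            rcases h3 with h3 | h3
            · exact absurd h3 hi
            · exact h3
          · intro hE
            apply decide_eq_true
            refine ⟨hL, fun i => ?_⟩
            by_cases hi : q i.castSucc = q i.succ
            · rw [hi]
              exact ⟨0, Nat.zero_le _, fun _ => q i.succ, rfl, rfl,
                fun i hi => absurd hi (by omega)⟩
            · rw [h1 i hi, walk_one]
              exact Or.inr (hE _ ⟨i, hi, rfl⟩)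
    · have hLi : ∀ i : Fin ℓ, Li (ℓ ^ (j : ℕ)) L i ≤ ℓ ^ (j : ℕ) ∧
          Li (ℓ ^ (j : ℕ)) L i < k + 1 := by
        intro i
        refine ⟨min_le_left _ _, ?_⟩
        have h1 : Li (ℓ ^ (j : ℕ)) L i ≤ L - i * ℓ ^ (j : ℕ) := min_le_right _ _
        have h2 := L.2
        omega
      have hj1 : (j : ℕ) - 1 < a := by
        have := j.2
        omega
      have hj2 : (j : ℕ) - 1 + 1 = j := by omega
      have hval : ∀ (i : Fin ℓ) (E : Fin n → Fin n → Bool),
          vl ((⟨(j : ℕ) - 1, hj1⟩, ⟨Li (ℓ ^ (j : ℕ)) L i, (hLi i).2⟩,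
            Sum.inr (q i.castSucc, q i.succ)) : Ix n k a ℓ) E = true ↔
          Walk E (Li (ℓ ^ (j : ℕ)) L i) (q i.castSucc) (q i.succ) := by
        intro i E
        simp only [vl, decide_eq_true_eq, hj2]
        exact and_iff_right (hLi i).1
      refine ⟨{f | ∃ i : Fin ℓ, f = vl ((⟨(j : ℕ) - 1, hj1⟩,
        ⟨Li (ℓ ^ (j : ℕ)) L i, (hLi i).2⟩, Sum.inr (q i.castSucc, q i.succ)) : Ix n k a ℓ)},
        ?_, Or.inl ?_⟩
      · rintro f ⟨i, rfl⟩
        right
        refine ⟨_, ?_, rfl⟩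
        simp only [lev]
        omega
      · intro E
        constructor
        · rintro hE f ⟨i, rfl⟩
          exact (hval i E).2 ((of_decide_eq_true hE).2 i)
        · intro hE
          apply decide_eq_true
          exact ⟨hL, fun i => (hval i E).1 (hE _ ⟨i, rfl⟩)⟩
  · by_cases hL : (L : ℕ) ≤ ℓ ^ ((j : ℕ) + 1)
    swap
    · refine ⟨∅, Set.empty_subset _, gate_false ?_⟩
      intro E
      simp [vl, hL]
    refine ⟨{f | ∃ q : Fin (ℓ + 1) → Fin n, q 0 = v ∧ q (Fin.last ℓ) = w ∧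
      f = vl ((j, L, Sum.inl q) : Ix n k a ℓ)}, ?_, Or.inr ?_⟩
    · rintro f ⟨q, -, -, rfl⟩
      right
      refine ⟨_, ?_, rfl⟩
      simp only [lev]
      omega
    · intro E
      constructor
      · intro hE
        obtain ⟨q, h0, h1, h2⟩ := (walk_split hL v w).1 (of_decide_eq_true hE).2
        exact ⟨_, ⟨q, h0, h1, rfl⟩, decide_eq_true ⟨hL, h2⟩⟩
      · rintro ⟨_, ⟨q, h0, h1, rfl⟩, hE⟩
        apply decide_eq_true
        exact ⟨hL, (walk_split hL v w).2 ⟨q, h0, h1, (of_decide_eq_true hE).2⟩⟩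

end UpAux

theorem upper_circuit (n k a ℓ : ℕ) (ha : 1 ≤ a) (hℓ : 1 ≤ ℓ) (hk : k ≤ ℓ ^ a)
    (s t : Fin n) :
    ∃ S ≤ 2 * a * (k + 1) * n ^ (ℓ + 1), ∃ f : (Fin n → Fin n → Bool) → Bool,
      Circ (Lits n) (2 * a) S f ∧ ∀ E, f E = true ↔ Walk E k s t := by
  classical
  have hn : 1 ≤ n := by
    have := s.2
    omega
  have hcard : Fintype.card (UpAux.Ix n k a ℓ) = a * ((k + 1) * (n ^ (ℓ + 1) + n * n)) := by
    simp
  let e := Fintype.equivFin (UpAux.Ix n k a ℓ)
  refine ⟨Fintype.card (UpAux.Ix n k a ℓ), ?_,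
    UpAux.vl (((⟨a - 1, by omega⟩ : Fin a), (⟨k, by omega⟩ : Fin (k + 1)),
      Sum.inr (s, t)) : UpAux.Ix n k a ℓ), ?_, ?_⟩
  · rw [hcard]
    have h1 : n * n ≤ n ^ (ℓ + 1) := by
      rw [← sq]
      exact Nat.pow_le_pow_right hn (by omega)
    calc a * ((k + 1) * (n ^ (ℓ + 1) + n * n))
        ≤ a * ((k + 1) * (n ^ (ℓ + 1) + n ^ (ℓ + 1))) := by gcongr
      _ = 2 * a * (k + 1) * n ^ (ℓ + 1) := by ring
  · refine ⟨fun g => UpAux.lev (e.symm g), fun g => UpAux.vl (e.symm g),
      e (((⟨a - 1, by omega⟩ : Fin a), (⟨k, by omega⟩ : Fin (k + 1)),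
      Sum.inr (s, t)) : UpAux.Ix n k a ℓ), ?_, ?_,
      (congrArg UpAux.vl (e.symm_apply_apply _)).symm⟩
    · intro g
      change UpAux.lev (e.symm g) < 2 * a
      generalize e.symm g = x
      obtain ⟨j, L, q | v⟩ := x
      · simp only [UpAux.lev]
        have := j.2
        omega
      · simp only [UpAux.lev]
        have := j.2
        omega
    · intro g
      obtain ⟨T, hT, hg⟩ := UpAux.gate (e.symm g)
      refine ⟨T, ?_, hg⟩
      intro f hf
      rcases hT hf with h | ⟨g', h1, h2⟩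
      · exact Or.inl h
      · right
        refine ⟨e g', ?_, Or.inl ?_⟩
        · simp only [Equiv.symm_apply_apply]
          exact h1
        · simp only [Equiv.symm_apply_apply]
          exact h2
  · intro E
    have h1 : a - 1 + 1 = a := by omega
    simp only [UpAux.vl, decide_eq_true_eq, h1]
    exact and_iff_right hk

end P28cd
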