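import Mathlib
import Pool.Agent.Lib.P28cd.Defs

/-!
# Module P28cd.Comp : certificates, gates and substitutions

PROOF. `cert_comp`: if `K` is a certificate of `f` at `R y` then the union over `i ∈ K` of the sets `K_i`,
`|K_i| ≤ 1`, on which `fun y => R y i` depends, is a certificate of `fun y => f (R y)` at `y`.
`isGate_comp`: with `T' = {h' | ∃ h ∈ T, h' = fun y => h (R y)}`.  `fam_shift`: let `g` have
`level g ≥ 3` (if `level g ≤ 2` use `h`); `val g` is a gate over `T ⊆ Avail {Cert t} level val (level g)`;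
by `isGate_comp` `fun y => val g (R y)` is a gate over `T'`; an element `fun y => h (R y)` of `T'` has
`Cert t` if `h` has (`cert_comp`); if `h = val g'` or its negation, `level g' < level g`, then
`level g' - 2 < level g - 2` because `level g ≥ 3`.
-/

set_option autoImplicit false

namespace P28cd

open Finset

theorem Cert.mono {I : Type} {t t' : ℕ} (htt : t ≤ t') {f : (I → Bool) → Bool} (hf : Cert t f) :
    Cert t' f := by
  intro x
  obtain ⟨K, hK, h⟩ := hf x
  exact ⟨K, hK.trans htt, h⟩

theorem Cert.not {I : Type} {t : ℕ} {f : (I → Bool) → Bool} (hf : Cert t f) :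
    Cert t (fun x => !f x) := by
  intro x
  obtain ⟨K, hK, h⟩ := hf x
  exact ⟨K, hK, fun x' hx' => by simp only [h x' hx']⟩

theorem Cert.oneC {I : Type} {t : ℕ} {f : (I → Bool) → Bool} (hf : Cert t f) : OneC t f := by
  intro x hx
  obtain ⟨K, hK, h⟩ := hf x
  exact ⟨K, hK, fun x' hx' => by rw [h x' hx', hx]⟩

/-- an OR of functions with 1-certificates of size `t` has them too -/
theorem oneC_or {I : Type} {t : ℕ} {T : Set ((I → Bool) → Bool)} (hT : ∀ h ∈ T, OneC t h)
    {f : (I → Bool) → Bool} (hf : ∀ x, f x = true ↔ ∃ h ∈ T, h x = true) : OneC t f := by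
  intro x hx
  obtain ⟨h, hh, hhx⟩ := (hf x).1 hx
  obtain ⟨K, hK, h2⟩ := hT h hh x hhx
  exact ⟨K, hK, fun x' hx' => (hf x').2 ⟨h, hh, h2 x' hx'⟩⟩

theorem cert_comp {I J : Type} [DecidableEq J] {t : ℕ} {f : (I → Bool) → Bool} (hf : Cert t f)
    (R : (J → Bool) → I → Bool) (hR : ∀ i, Dep1 (fun y => R y i)) :
    Cert t (fun y => f (R y)) := by
  intro y
  obtain ⟨K, hK, h⟩ := hf (R y)
  choose k hk1 hk2 using hR
  refine ⟨K.biUnion k, ?_, ?_⟩
  · refine Finset.card_biUnion_le.trans ((Finset.sum_le_card_nsmul K _ 1 fun i _ => hk1 i).trans ?_)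
    simpa using hK
  · intro y' hy'
    apply h
    intro i hi
    exact hk2 i y' y (fun j hj => hy' j (Finset.mem_biUnion.2 ⟨i, hi, hj⟩))

theorem isGate_comp {X Y : Type} {T : Set (X → Bool)} {f : X → Bool} (hf : IsGate T f)
    (R : Y → X) :
    IsGate {h' : Y → Bool | ∃ h ∈ T, h' = fun y => h (R y)} (fun y => f (R y)) := by
  rcases hf with hf | hf
  · left
    intro y
    rw [hf (R y)]
    constructor
    · rintro h _ ⟨g, hg, rfl⟩
      exact h g hg
    · intro h g hg
      exact h _ ⟨g, hg, rfl⟩
  · right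
    intro y
    rw [hf (R y)]
    constructor
    · rintro ⟨g, hg, h⟩
      exact ⟨_, ⟨g, hg, rfl⟩, h⟩
    · rintro ⟨_, ⟨g, hg, rfl⟩, h⟩
      exact ⟨g, hg, h⟩

namespace CompAux

theorem avail_comp {I J : Type} [DecidableEq J] {S t : ℕ} {level : Fin S → ℕ}
    {val : Fin S → (I → Bool) → Bool}
    (R : (J → Bool) → I → Bool) (hR : ∀ i, Dep1 (fun y => R y i)) {l l' : ℕ}
    (level' : Fin S → ℕ) (hl : ∀ g, level g < l → level' g < l') {h : (I → Bool) → Bool}
    (hh : h ∈ Avail {f | Cert t f} level val l) :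
    (fun y => h (R y)) ∈ Avail {f | Cert t f} level' (fun g y => val g (R y)) l' := by
  rcases hh with hh | ⟨g, hg, rfl | rfl⟩
  · exact Or.inl (cert_comp hh R hR)
  · exact Or.inr ⟨g, hl g hg, Or.inl rfl⟩
  · exact Or.inr ⟨g, hl g hg, Or.inr rfl⟩

end CompAux

theorem fam_comp {I J : Type} [DecidableEq J] {S t : ℕ} {level : Fin S → ℕ}
    {val : Fin S → (I → Bool) → Bool} (hF : Fam t level val)
    (R : (J → Bool) → I → Bool) (hR : ∀ i, Dep1 (fun y => R y i)) :
    Fam t level (fun g y => val g (R y)) := by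
  refine ⟨fun g hg => cert_comp (hF.1 g hg) R hR, fun g hg => ?_⟩
  obtain ⟨T, hT, hgate⟩ := hF.2 g hg
  refine ⟨_, ?_, isGate_comp hgate R⟩
  rintro _ ⟨h, hh, rfl⟩
  exact CompAux.avail_comp R hR level (fun _ h => h) (hT hh)

/-- two levels disappear -/
theorem fam_shift {I J : Type} [DecidableEq J] {S t : ℕ} {level : Fin S → ℕ}
    {val : Fin S → (I → Bool) → Bool} (hF : Fam t level val)
    (R : (J → Bool) → I → Bool) (hR : ∀ i, Dep1 (fun y => R y i))
    (h : ∀ g, level g ≤ 2 → Cert t (fun y => val g (R y))) :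
    Fam t (fun g => level g - 2) (fun g y => val g (R y)) := by
  refine ⟨fun g hg => h g (by simp only at hg; omega), fun g hg => ?_⟩
  simp only at hg
  obtain ⟨T, hT, hgate⟩ := hF.2 g (by omega)
  refine ⟨_, ?_, isGate_comp hgate R⟩
  rintro _ ⟨h, hh, rfl⟩
  exact CompAux.avail_comp R hR (fun g => level g - 2) (fun g' h => by simp only; omega) (hT hh)

/-- the DNFs and the ANDs of a family -/
theorem fam_parts {I : Type} {S t : ℕ} {level : Fin S → ℕ}
    {val : Fin S → (I → Bool) → Bool} (hF : Fam t level val) :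
    ∃ (D G : Fin S → (I → Bool) → Bool), (∀ j, OneC t (D j)) ∧
      (∀ g, ∃ T : Set ((I → Bool) → Bool),
        (∀ h ∈ T, Cert t h ∨ ∃ j, h = D j ∨ h = fun y => !D j y) ∧
        ∀ y, G g y = true ↔ ∀ h ∈ T, h y = true) ∧
      ∀ g, level g ≤ 2 → (∀ y, G g y = val g y) ∨ (∀ y, G g y = !val g y) := by
  have h1 : ∀ g, ∃ D : (I → Bool) → Bool, OneC t D ∧
      (level g = 1 → (D = val g ∨ D = fun y => !val g y)) := by
    intro g
    by_cases hg : level g = 1
    · obtain ⟨T, hT, hgate⟩ := hF.2 g (by omega)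
      have hcert : ∀ h ∈ T, Cert t h := by
        intro h hh
        rcases hT hh with h2 | ⟨g', hg', rfl | rfl⟩
        · exact h2
        · exact hF.1 g' (by omega)
        · exact (hF.1 g' (by omega)).not
      rcases hgate with hgate | hgate
      · refine ⟨fun y => !val g y, ?_, fun _ => Or.inr rfl⟩
        apply oneC_or (T := {h' | ∃ h ∈ T, h' = fun y => !h y})
        · rintro _ ⟨h, hh, rfl⟩
          exact (hcert h hh).not.oneC
        · intro x
          rw [Bool.not_eq_true', ← Bool.not_eq_true, hgate x]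
          push Not
          constructor
          · rintro ⟨h, hh, hx⟩
            exact ⟨_, ⟨h, hh, rfl⟩, by simpa using hx⟩
          · rintro ⟨_, ⟨h, hh, rfl⟩, hx⟩
            exact ⟨h, hh, by simpa using hx⟩
      · exact ⟨val g, oneC_or (fun h hh => (hcert h hh).oneC) hgate, fun _ => Or.inl rfl⟩
    · exact ⟨fun _ => false, fun x hx => absurd hx (by simp), fun h => absurd h hg⟩
  choose D hD1 hD2 using h1
  have h3 : ∀ g, ∃ G : (I → Bool) → Bool, (∃ T : Set ((I → Bool) → Bool),
        (∀ h ∈ T, Cert t h ∨ ∃ j, h = D j ∨ h = fun y => !D j y) ∧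
        ∀ y, G y = true ↔ ∀ h ∈ T, h y = true) ∧
      (level g ≤ 2 → (∀ y, G y = val g y) ∨ (∀ y, G y = !val g y)) := by
    intro g
    by_cases hg0 : level g = 0
    · refine ⟨val g, ⟨{val g}, ?_, ?_⟩, fun _ => Or.inl fun _ => rfl⟩
      · rintro h rfl
        exact Or.inl (hF.1 g hg0)
      · intro y
        simp
    by_cases hg2 : level g ≤ 2
    · obtain ⟨T, hT, hgate⟩ := hF.2 g hg0
      have hgood : ∀ h ∈ T, Cert t h ∨ ∃ j, h = D j ∨ h = fun y => !D j y := by
        intro h hh
        rcases hT hh with h2 | ⟨g', hg', h2⟩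
        · exact Or.inl h2
        by_cases hg'0 : level g' = 0
        · left
          rcases h2 with rfl | rfl
          · exact hF.1 g' hg'0
          · exact (hF.1 g' hg'0).not
        · right
          refine ⟨g', ?_⟩
          rcases hD2 g' (by omega) with h4 | h4
          · rcases h2 with rfl | rfl
            · exact Or.inl h4.symm
            · right
              rw [h4]
          · rcases h2 with rfl | rfl
            · right
              rw [h4]
              funext y
              simp
            · left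
              rw [h4]
      rcases hgate with hgate | hgate
      · exact ⟨val g, ⟨T, hgood, hgate⟩, fun _ => Or.inl fun _ => rfl⟩
      · refine ⟨fun y => !val g y, ⟨{h' | ∃ h ∈ T, h' = fun y => !h y}, ?_, ?_⟩,
          fun _ => Or.inr fun _ => rfl⟩
        · rintro _ ⟨h, hh, rfl⟩
          rcases hgood h hh with h2 | ⟨j, rfl | rfl⟩
          · exact Or.inl h2.not
          · exact Or.inr ⟨j, Or.inr rfl⟩
          · right
            refine ⟨j, Or.inl ?_⟩
            funext y
            simp
        · intro y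
          rw [Bool.not_eq_true', ← Bool.not_eq_true, hgate y]
          push Not
          constructor
          · rintro h _ ⟨g', hg', rfl⟩
            simpa using h g' hg'
          · intro h g' hg'
            simpa using h _ ⟨g', hg', rfl⟩
    · exact ⟨fun _ => true, ⟨∅, by simp, by simp⟩, fun h => absurd h hg2⟩
  choose G hG1 hG2 using h3
  exact ⟨D, G, hD1, hG1, hG2⟩

end P28cd
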