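import Mathlib
import Pool.Agent.Lib.P28cd.Defs

/-!
# Module P28cd.LeafL : a short canonical procedure gives certificates

PROOF.  Fix `z`.  Since `EvBad` fails, every `Q` with `Chain .. k ∅ Q` has `Q.card < s`; all elements
of such a `Q` are alive (induction on the chain; it is convenient to append a step at the end of a chain).  Steps strictly
enlarge `Q`, so there is a chain `∅ → Q` such that no step from `Q` exists (take one with the largest `Q.card`).
Claim: `Q` is a certificate for `fun z => H (full V al z)` at `z` (and `Q.card ≤ s`).  Let `z' = z` on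
`Q`; we show `H (full V al z') = H (full V al z)`; it is enough to show that
either `H (full V al z') = false` for all `z'` equal to `z` on `Q`, or `= true` for all of them.
Case 1: some `κ` matches (`Mat .. Q z κ`).  Take the one of least rank, and an admissible `W` with
`st V Q z W = κ.2` on `κ.1` with the least number of elements; then `W ⊆ κ.1`.  As there is no step from
`Q`, `Q ∪ (tou κ).filter alive = Q`: all alive blocks touched by `κ` are in `Q`.  So `W = ∅` (its elements are in
alive blocks outside `Q` touched by `κ`).  For `z' = z` on `Q` and `x ∈ κ.1`: `full V al z' x = st V Q z ∅ x`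
(if `al x.1` then `x.1 ∈ Q`; if not, `x.1 ∉ Q` as elements of `Q` are alive, both are `!V x`).  So
`full V al z' = κ.2` on `κ.1` and `H (full V al z') = false`.
Case 2: no `κ` matches.  Then `H (st V Q z W) = true` for all admissible `W` (else `hshort` gives `K` and
`κ = (K, st V Q z W)` matches).  By `hneg`, `H (full V al z') = true` for all `z'` equal to `z` on `Q`.
-/

set_option autoImplicit false

namespace P28cd

open Finset

namespace LeafLAux

variable {B U : Type} [DecidableEq B] [DecidableEq U]
  {H : (B × U → Bool) → Bool} {w r L s : ℕ} {rk : Ct B U → ℕ} {V : B × U → Bool}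
  {al z : B → Bool}

theorem snoc {k : ℕ} {Q Q' : Finset B} (h : Chain H w r L s rk V al z k Q Q') :
    ∀ Q'', Q'.card < s → Step H w r L rk V al z Q' Q'' →
      Chain H w r L s rk V al z (k + 1) Q Q'' := by
  induction h with
  | nil Q =>
    intro Q'' h1 h2
    exact Chain.cons h1 h2 (Chain.nil _)
  | cons h1 h2 _ ih =>
    intro R h4 h5
    exact Chain.cons h1 h2 (ih R h4 h5)

theorem alive {k : ℕ} {Q Q' : Finset B} (h : Chain H w r L s rk V al z k Q Q') :
    (∀ b ∈ Q, al b = true) → ∀ b ∈ Q', al b = true := by
  induction h with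
  | nil Q => exact fun h => h
  | cons h1 h2 _ ih =>
    intro h4
    apply ih
    obtain ⟨κ, _, _, h5, _⟩ := h2
    intro b hb
    rw [h5, Finset.mem_union, Finset.mem_filter] at hb
    rcases hb with hb | hb
    · exact h4 b hb
    · exact hb.2

end LeafLAux

theorem leaf_cert {B U : Type} [Fintype B] [DecidableEq B] [Fintype U] [DecidableEq U]
    (H : (B × U → Bool) → Bool) (w r L s : ℕ) (rk : Ct B U → ℕ)
    (hrk : Function.Injective rk) (V : B × U → Bool) (al : B → Bool)
    (hbad : ¬ EvBad H w r L s rk V al)
    (hshort : ∀ (Q : Finset B) (z : B → Bool) (W : Finset (B × U)),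
      (∀ b ∈ Q, al b = true) → Q.card < s → Adm r L V al Q W → H (st V Q z W) = false →
      ∃ K : Finset (B × U), K.card ≤ w ∧
        ∀ z', (∀ x ∈ K, z' x = st V Q z W x) → H z' = false)
    (hneg : ∀ (Q : Finset B) (z z' : B → Bool), (∀ b ∈ Q, al b = true) → Q.card < s →
      (∀ b ∈ Q, z' b = z b) → H (full V al z') = false →
      ∃ W, Adm r L V al Q W ∧ H (st V Q z W) = false) :
    Cert s (fun z => H (full V al z)) := by
  classical
  intro z
  have hlt : ∀ k Q, Chain H w r L s rk V al z k ∅ Q → Q.card < s := by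
    intro k Q h
    by_contra hc
    exact hbad ⟨z, k, Q, h, not_lt.1 hc⟩
  obtain ⟨Q, hQ, hmax⟩ := Finset.exists_max_image
    (Finset.univ.filter fun Q : Finset B => ∃ k, Chain H w r L s rk V al z k ∅ Q) Finset.card
    ⟨∅, by
      rw [Finset.mem_filter]
      exact ⟨Finset.mem_univ _, 0, Chain.nil _⟩⟩
  rw [Finset.mem_filter] at hQ
  obtain ⟨_, k, hk⟩ := hQ
  have hQs : Q.card < s := hlt k Q hk
  have hal : ∀ b ∈ Q, al b = true :=
    LeafLAux.alive hk (fun b hb => absurd hb (Finset.notMem_empty b))
  have hno : ∀ Q', ¬ Step H w r L rk V al z Q Q' := by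
    intro Q' hst
    have h1 : Q'.card ≤ Q.card := hmax Q' (by
      rw [Finset.mem_filter]
      exact ⟨Finset.mem_univ _, k + 1, LeafLAux.snoc hk Q' hQs hst⟩)
    obtain ⟨κ, _, _, h2, h3⟩ := hst
    have h4 : Q ⊆ Q' := by
      rw [h2]
      exact Finset.subset_union_left
    exact h3 (Finset.eq_of_subset_of_card_le h4 h1).symm
  refine ⟨Q, hQs.le, ?_⟩
  by_cases hm : ∃ κ, Mat H w r L V al Q z κ
  · have hex : ∃ n, ∃ κ, rk κ = n ∧ Mat H w r L V al Q z κ := by
      obtain ⟨κ, hκ⟩ := hm
      exact ⟨rk κ, κ, rfl, hκ⟩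
    obtain ⟨κ, hκn, hκ⟩ := Nat.find_spec hex
    have hmin : ∀ κ', rk κ' < rk κ → ¬ Mat H w r L V al Q z κ' := by
      intro κ' h1 h2
      rw [hκn] at h1
      exact Nat.find_min hex h1 ⟨κ', rfl, h2⟩
    have hsub : ∀ b ∈ tou κ, al b = true → b ∈ Q := by
      by_contra hc
      push Not at hc
      obtain ⟨b, hb, hb1, hb2⟩ := hc
      refine hno _ ⟨κ, hκ, hmin, rfl, ?_⟩
      intro he
      apply hb2
      rw [← he, Finset.mem_union, Finset.mem_filter]
      exact Or.inr ⟨hb, hb1⟩
    obtain ⟨hC, W, hW, hag⟩ := hκ
    have key : ∀ z' : B → Bool, (∀ i ∈ Q, z' i = z i) → H (full V al z') = false := by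
      intro z' hz'
      apply hC.2
      intro x hx
      rw [← hag x hx]
      have hxt : x.1 ∈ tou κ := Finset.mem_image_of_mem _ hx
      have hxW : x ∉ W := by
        intro hxW
        obtain ⟨h1, h2, _⟩ := hW.mem x hxW
        exact h1 (hsub x.1 hxt h2)
      unfold full st
      cases hax : al x.1 with
      | true =>
        have hxQ := hsub x.1 hxt hax
        simp [hxQ, hxW, hz' x.1 hxQ]
      | false =>
        have hxQ : x.1 ∉ Q := by
          intro h
          rw [hal x.1 h] at hax
          exact Bool.noConfusion hax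
        simp [hxQ, hxW]
    intro z' hz'
    show H (full V al z') = H (full V al z)
    rw [key z' hz', key z (fun _ _ => rfl)]
  · have htrue : ∀ W, Adm r L V al Q W → H (st V Q z W) = true := by
      intro W hW
      by_contra hc
      rw [Bool.not_eq_true] at hc
      obtain ⟨K, hK, hK'⟩ := hshort Q z W hal hQs hW hc
      exact hm ⟨(K, st V Q z W), ⟨hK, hK'⟩, W, hW, fun _ _ => rfl⟩
    have key : ∀ z' : B → Bool, (∀ i ∈ Q, z' i = z i) → H (full V al z') = true := by
      intro z' hz'
      by_contra hc
      rw [Bool.not_eq_true] at hc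
      obtain ⟨W, hW, hW'⟩ := hneg Q z z' hal hQs hz' hc
      rw [htrue W hW] at hW'
      exact Bool.noConfusion hW'
    intro z' hz'
    show H (full V al z') = H (full V al z)
    rw [key z' hz', key z (fun _ _ => rfl)]

end P28cd
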