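import Mathlib
import Pool.Agent.Lib.P28cd.LeafL

/-!
# Module P28cd.Cond : an AND of literals, DNFs and negated DNFs becomes simple

`G` is the AND of the functions in `T`; each of them has certificates of size `t`, or is one of the
DNFs `D j` of width `t`, or the negation of one of them.  Apply `leaf_cert` to
`H z = G (lift A z)`.

`hshort`: let `Q, z, W` be as there and `G (lift A (st V Q z W)) = false`; some `h ∈ T` is false at
this point.  * `Cert t h`: a certificate `K` of `h` at `lift A (st V Q z W)`; `K.image Prod.fst` works (if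
`z' = st V Q z W` on it then `lift A z' = lift A (st ..)` on `K`), `t ≤ w`.  * `h = ¬ D j`: the same with a 1-certificate of `D j`.
* `h = D j`: `st V Q z W = ov V F c` for `F = Q ∪ W.image Prod.fst`, `c = st V Q z W` (outside `F` the state is `!V x`), `F.card ≤ L`
(by `Adm.count`, or `W = ∅` and `Q.card < s ≤ L`); as `EvShort (D j) w L A V` fails there is a certificate.
`hneg`: let `z' = z` on `Q` and `h ∈ T` false at `lift A (full V al z')`.  Let
`Y = {x | x.1 ∉ Q, al x.1, V x, z' x.1}`.  Then `full V al z' = up (st V Q z ∅) Y` and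
`st V Q z W = up (st V Q z ∅) W` for all `W`.  * `Cert t h` (or `h = ¬ D j`): with a certificate `K` at
`lift A (full V al z')` put `W = Y ∩ K.image Prod.fst`, `|W| ≤ t ≤ r`; `st V Q z W = full V al z'` on `K.image Prod.fst`,
so `h` is false there.  `Adm`: members clear, rows `≤ |W| ≤ r`, `|blocks W| + |Q| ≤ r + s ≤ L`.
* `h = D j`: with `O = {b ∈ Q | z b}`, `st V Q z ∅ = st V O (fun _ => true) ∅`, `|O| ≤ s`, the
elements of `Y` are off there, `D j (lift A (up _ Y)) = false`; as `EvNeg (D j) s r V A` fails there is `W ⊆ Y`,
`|W| ≤ r` with `D j (lift A (up _ W)) = false`.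
-/

set_option autoImplicit false

namespace P28cd

open Finset

theorem cert_of_good {B U M : Type} [Fintype B] [DecidableEq B] [Fintype U] [DecidableEq U]
    {S t s r L w : ℕ} (htw : t ≤ w) (htr : t ≤ r) (hL : s + r ≤ L)
    (rk : Ct B U → ℕ) (hrk : Function.Injective rk)
    (D : Fin S → ((B × U) × M → Bool) → Bool) (hD : ∀ j, OneC t (D j))
    (G : ((B × U) × M → Bool) → Bool) (T : Set (((B × U) × M → Bool) → Bool))
    (hT : ∀ h ∈ T, Cert t h ∨ ∃ j, h = D j ∨ h = fun y => !D j y)
    (hG : ∀ y, G y = true ↔ ∀ h ∈ T, h y = true)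
    (A : (B × U) × M → Bool) (V : B × U → Bool) (al : B → Bool)
    (hsh : ∀ j, ¬ EvShort (D j) w L A V) (hng : ∀ j, ¬ EvNeg (D j) s r V A)
    (hbad : ¬ EvBad (fun z => G (lift A z)) w r L s rk V al) :
    Cert s (fun z => G (lift A (full V al z))) := by
  have hfalse : ∀ y, G y = false → ∃ h ∈ T, h y = false := by
    intro y hy
    by_contra hno
    have : G y = true := (hG y).2 (fun h hh => by
      by_contra hne
      exact hno ⟨h, hh, by simpa using hne⟩)
    rw [this] at hy
    exact absurd hy (by decide)
  have hback : ∀ y, ∀ h ∈ T, h y = false → G y = false := by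
    intro y h hh hy
    by_contra hne
    have hGt : G y = true := by simpa using hne
    have := (hG y).1 hGt h hh
    rw [this] at hy
    exact absurd hy (by decide)
  -- certificates of a false member which is not a positive DNF
  have hcert : ∀ h ∈ T, ∀ y, h y = false →
      (∃ K : Finset ((B × U) × M), K.card ≤ t ∧ ∀ x', (∀ i ∈ K, x' i = y i) → h x' = false) ∨
      ∃ j, h = D j := by
    intro h hh y hy
    rcases hT h hh with hc | ⟨j, hj | hj⟩
    · obtain ⟨K, hK1, hK2⟩ := hc y
      exact Or.inl ⟨K, hK1, fun x' hx' => (hK2 x' hx').trans hy⟩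
    · exact Or.inr ⟨j, hj⟩
    · left
      rw [hj] at hy
      have hDy : D j y = true := by simpa using hy
      obtain ⟨K, hK1, hK2⟩ := hD j y hDy
      refine ⟨K, hK1, fun x' hx' => ?_⟩
      rw [hj]
      simp [hK2 x' hx']
  refine leaf_cert (fun z => G (lift A z)) w r L s rk hrk V al hbad ?_ ?_
  · intro Q z W hQ hQs hAdm hf
    obtain ⟨h, hh, hy⟩ := hfalse _ hf
    rcases hcert h hh _ hy with ⟨K, hK1, hK2⟩ | ⟨j, hj⟩
    · refine ⟨K.image Prod.fst, (card_image_le.trans hK1).trans htw, fun z' hz' => ?_⟩
      apply hback _ h hh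
      apply hK2
      intro i hi
      simp only [lift]
      rw [hz' i.1 (mem_image_of_mem _ hi)]
    · have hov : st V Q z W = ov V (Q ∪ W.image Prod.fst) (st V Q z W) := by
        funext x
        unfold ov
        by_cases hx : x.1 ∈ Q ∪ W.image Prod.fst
        · rw [if_pos hx]
        · rw [if_neg hx]
          rw [mem_union, not_or] at hx
          have h2 : x ∉ W := fun hw => hx.2 (mem_image_of_mem _ hw)
          simp [st, hx.1, h2]
      have hFc : (Q ∪ W.image Prod.fst).card ≤ L := by
        rcases hAdm.count with h0 | h1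
        · rw [h0, image_empty, union_empty]
          omega
        · refine (card_union_le _ _).trans ?_
          omega
      have hns := hsh j
      unfold EvShort at hns
      have : ∃ K : Finset (B × U), K.card ≤ w ∧
          ∀ z', (∀ x ∈ K, z' x = ov V (Q ∪ W.image Prod.fst) (st V Q z W) x) →
            D j (lift A z') = false := by
        by_contra hno
        apply hns
        refine ⟨_, hFc, st V Q z W, ?_, hno⟩
        rw [← hov, ← hj]
        exact hy
      obtain ⟨K, hK1, hK2⟩ := this
      rw [← hov] at hK2
      refine ⟨K, hK1, fun z' hz' => ?_⟩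
      apply hback _ h hh
      rw [hj]
      exact hK2 z' hz'
  · intro Q z z' hQ hQs hzz hf
    obtain ⟨h, hh, hy⟩ := hfalse _ hf
    obtain ⟨Y, memY⟩ : ∃ Y : Finset (B × U), ∀ x, x ∈ Y ↔
        (x.1 ∉ Q ∧ al x.1 = true ∧ V x = true ∧ z' x.1 = true) :=
      ⟨univ.filter (fun x => x.1 ∉ Q ∧ al x.1 = true ∧ V x = true ∧ z' x.1 = true),
        fun x => by simp⟩
    have hfull : full V al z' = up (st V Q z ∅) Y := by
      funext x
      by_cases h1 : x.1 ∈ Q
      · have h2 : x ∉ Y := fun hx => ((memY x).1 hx).1 h1
        simp [full, up, st, h1, h2, hQ _ h1, hzz _ h1]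
      · have h2 : decide (x ∈ Y) = (al x.1 && V x && z' x.1) := by
          rw [Bool.eq_iff_iff]
          simp [memY, h1, and_assoc]
        simp only [full, up, st, h1, h2]
        cases V x <;> simp
    have hst : ∀ W, st V Q z W = up (st V Q z ∅) W := by
      intro W
      funext x
      simp [st, up]
    have hadm : ∀ W ⊆ Y, W.card ≤ r → Adm r L V al Q W := by
      intro W hW hc
      refine ⟨?_, ?_, ?_⟩
      · intro x hx
        have := (memY x).1 (hW hx)
        exact ⟨this.1, this.2.1, this.2.2.1⟩
      · intro b
        exact (card_le_card (filter_subset _ _)).trans hc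
      · right
        have : (W.image Prod.fst).card ≤ W.card := card_image_le
        omega
    rcases hcert h hh _ hy with ⟨K, hK1, hK2⟩ | ⟨j, hj⟩
    · refine ⟨Y ∩ K.image Prod.fst, hadm _ inter_subset_left ?_, ?_⟩
      · exact ((card_le_card inter_subset_right).trans card_image_le).trans (hK1.trans htr)
      · apply hback _ h hh
        apply hK2
        intro i hi
        simp only [lift]
        congr 1
        rw [hst, hfull]
        unfold up
        congr 1
        rw [Bool.eq_iff_iff]
        simp only [decide_eq_true_eq, mem_inter]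
        exact ⟨fun hx => hx.1, fun hx => ⟨hx, mem_image_of_mem _ hi⟩⟩
    · have hO : st V Q z ∅ = st V (Q.filter (fun b => z b = true)) (fun _ => true) ∅ := by
        funext x
        simp only [st]
        congr 2
        rw [Bool.eq_iff_iff]
        simp
      have hnn := hng j
      unfold EvNeg EvNegAt at hnn
      have : ∃ W ⊆ Y, W.card ≤ r ∧ D j (lift A (up (st V Q z ∅) W)) = false := by
        by_contra hno
        apply hnn
        refine ⟨Q.filter (fun b => z b = true), ?_, Y, ?_, ?_, ?_⟩
        · exact (card_le_card (filter_subset _ _)).trans hQs.le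
        · intro x hx
          rw [← hO]
          obtain ⟨h1, _, h3, _⟩ := (memY x).1 hx
          simp [st, h1, h3]
        · rw [← hO, ← hfull, ← hj]
          exact hy
        · intro W hW hc
          rw [← hO]
          by_contra hne
          exact hno ⟨W, hW, hc, by simpa using hne⟩
      obtain ⟨W, hW, hc, hD0⟩ := this
      refine ⟨W, hadm W hW hc, ?_⟩
      apply hback _ h hh
      rw [hst, hj]
      exact hD0

end P28cd
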