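import Mathlib
import Pool.Agent.Lib.P28cd.Defs

/-!
# Constant depth circuits: product weights
-/

set_option autoImplicit false

namespace P28cd

open Finset

theorem ind_nonneg (p : Prop) : 0 ≤ ind p := by
  unfold ind; split_ifs <;> norm_num

theorem ind_le_one (p : Prop) : ind p ≤ 1 := by
  unfold ind; split_ifs <;> norm_num

theorem ind_of {p : Prop} (h : p) : ind p = 1 := by simp [ind, h]

theorem ind_of_not {p : Prop} (h : ¬ p) : ind p = 0 := by simp [ind, h]

theorem ind_mono {p q : Prop} (h : p → q) : ind p ≤ ind q := by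
  by_cases hp : p
  · rw [ind_of hp, ind_of (h hp)]
  · rw [ind_of_not hp]; exact ind_nonneg q

theorem ind_or_le (p q : Prop) : ind (p ∨ q) ≤ ind p + ind q := by
  by_cases hp : p
  · rw [ind_of (Or.inl hp), ind_of hp]; linarith [ind_nonneg q]
  · by_cases hq : q
    · rw [ind_of (Or.inr hq), ind_of hq]; linarith [ind_nonneg p]
    · rw [ind_of_not (by tauto), ind_of_not hp, ind_of_not hq]; norm_num

theorem ind_exists_le {J : Type} [Fintype J] (P : J → Prop) : ind (∃ j, P j) ≤ ∑ j, ind (P j) := by
  by_cases h : ∃ j, P j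
  · obtain ⟨j, hj⟩ := h
    rw [ind_of ⟨j, hj⟩]
    calc (1 : ℝ) = ind (P j) := (ind_of hj).symm
      _ ≤ ∑ j, ind (P j) := Finset.single_le_sum (f := fun j => ind (P j)) (fun j _ => ind_nonneg _) (Finset.mem_univ j)
  · rw [ind_of_not h]
    exact Finset.sum_nonneg fun j _ => ind_nonneg _

section

variable {I : Type} [Fintype I] [DecidableEq I]

theorem wt_nonneg {w : I → Bool → ℝ} (hw : ∀ i b, 0 ≤ w i b) (x : I → Bool) : 0 ≤ wt w x :=
  Finset.prod_nonneg fun i _ => hw i _

theorem wt_update (w : I → Bool → ℝ) (x : I → Bool) (i : I) (b : Bool) :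
    wt w (Function.update x i b) = w i b * ∏ j ∈ Finset.univ.erase i, w j (x j) := by
  unfold wt
  rw [← Finset.mul_prod_erase Finset.univ _ (Finset.mem_univ i)]
  congr 1
  · simp
  · apply Finset.prod_congr rfl
    intro j hj
    rw [Function.update_of_ne (Finset.ne_of_mem_erase hj)]

theorem wt_split (w : I → Bool → ℝ) (x : I → Bool) (i : I) :
    wt w x = w i (x i) * ∏ j ∈ Finset.univ.erase i, w j (x j) := by
  unfold wt
  rw [← Finset.mul_prod_erase Finset.univ _ (Finset.mem_univ i)]

/-- sum over one coordinate -/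
theorem sum_update {α : Type} [AddCommMonoid α] (i : I) (b : Bool) (F : (I → Bool) → α) :
    ∑ x : I → Bool, (if x i = b then F x else 0) =
      ∑ x : I → Bool, (if x i = !b then F (Function.update x i b) else 0) := by
  rw [← Finset.sum_filter, ← Finset.sum_filter]
  refine Finset.sum_nbij' (fun x => Function.update x i (!b)) (fun x => Function.update x i b)
    ?_ ?_ ?_ ?_ ?_
  · intro x hx; simp
  · intro x hx; simp
  · intro x hx
    simp only [Finset.mem_filter, Finset.mem_univ, true_and] at hx
    simp [← hx]
  · intro x hx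
    simp only [Finset.mem_filter, Finset.mem_univ, true_and] at hx
    simp [← hx]
  · intro x hx
    simp only [Finset.mem_filter, Finset.mem_univ, true_and] at hx
    simp [← hx]

/-- a function not depending on coordinate `i` is independent of coordinate `i` -/
theorem sum_wt_coord {w : I → Bool → ℝ} (hw1 : ∀ i, w i false + w i true = 1) (i : I) (b : Bool)
    (f : (I → Bool) → ℝ) (hf : ∀ x c, f (Function.update x i c) = f x) :
    ∑ x, wt w x * (if x i = b then f x else 0) = w i b * ∑ x, wt w x * f x := by
  set R : (I → Bool) → ℝ := fun x => ∏ j ∈ Finset.univ.erase i, w j (x j) with hR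
  have hRu : ∀ x c, R (Function.update x i c) = R x := by
    intro x c
    apply Finset.prod_congr rfl
    intro j hj
    rw [Function.update_of_ne (Finset.ne_of_mem_erase hj)]
  have key : ∀ c : Bool, ∑ x : I → Bool, (if x i = c then wt w x * f x else 0) =
      w i c * ∑ x : I → Bool, (if x i = c then R x * f x else 0) := by
    intro c
    rw [Finset.mul_sum]
    apply Finset.sum_congr rfl
    intro x _
    by_cases h : x i = c
    · simp only [h, if_true]
      rw [wt_split w x i, h]; ring
    · simp [h]
  have hsw : ∑ x : I → Bool, (if x i = b then R x * f x else 0) =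
      ∑ x : I → Bool, (if x i = !b then R x * f x else 0) := by
    rw [sum_update i b]
    apply Finset.sum_congr rfl
    intro x _
    rw [hRu, hf]
  have htot : ∑ x, wt w x * f x = (∑ x : I → Bool, (if x i = b then wt w x * f x else 0)) +
      ∑ x : I → Bool, (if x i = !b then wt w x * f x else 0) := by
    rw [← Finset.sum_add_distrib]
    apply Finset.sum_congr rfl
    intro x _
    by_cases h : x i = b
    · simp [h]
    · have : x i = !b := by
        cases hx : x i <;> cases b <;> simp_all
      simp [this]
  have hl : ∑ x, wt w x * (if x i = b then f x else 0) =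
      ∑ x : I → Bool, (if x i = b then wt w x * f x else 0) := by
    apply Finset.sum_congr rfl
    intro x _
    split_ifs <;> simp
  rw [hl, htot, key b, key (!b), ← hsw]
  have h1 : w i b + w i (!b) = 1 := by
    cases b
    · simpa using hw1 i
    · have := hw1 i
      simp only [Bool.not_true]; linarith
  have : w i b * (w i b * ∑ x : I → Bool, (if x i = b then R x * f x else 0) +
      w i (!b) * ∑ x : I → Bool, (if x i = b then R x * f x else 0)) =
      (w i b + w i (!b)) * (w i b * ∑ x : I → Bool, (if x i = b then R x * f x else 0)) := by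
    ring
  rw [this, h1, one_mul]

theorem sum_wt {w : I → Bool → ℝ} (hw1 : ∀ i, w i false + w i true = 1) :
    ∑ x : I → Bool, wt w x = 1 := by
  unfold wt
  have := (Finset.prod_univ_sum (fun _ : I => (Finset.univ : Finset Bool)) (fun i b => w i b))
  rw [Fintype.piFinset_univ] at this
  rw [← this]
  apply Finset.prod_eq_one
  intro i _
  rw [Fintype.sum_bool, add_comm]
  exact hw1 i

/-- a function not depending on the coordinates in `K` is independent of them -/
theorem sum_wt_pattern {w : I → Bool → ℝ} (hw1 : ∀ i, w i false + w i true = 1) (K : Finset I)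
    (c : I → Bool) (f : (I → Bool) → ℝ)
    (hf : ∀ i ∈ K, ∀ x b, f (Function.update x i b) = f x) :
    ∑ x, wt w x * (if ∀ i ∈ K, x i = c i then f x else 0) =
      (∏ i ∈ K, w i (c i)) * ∑ x, wt w x * f x := by
  induction K using Finset.induction_on generalizing f with
  | empty => simp
  | @insert i K hi ih =>
    rw [Finset.prod_insert hi]
    have h1 : ∑ x, wt w x * (if ∀ j ∈ insert i K, x j = c j then f x else 0) =
        ∑ x, wt w x * (if x i = c i then (if ∀ j ∈ K, x j = c j then f x else 0) else 0) := by
      apply Finset.sum_congr rfl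
      intro x _
      congr 1
      by_cases hx : x i = c i
      · by_cases hK : ∀ j ∈ K, x j = c j
        · rw [if_pos, if_pos hx, if_pos hK]
          intro j hj
          rcases Finset.mem_insert.1 hj with h | h
          · rw [h]; exact hx
          · exact hK j h
        · rw [if_neg, if_pos hx, if_neg hK]
          intro h; exact hK fun j hj => h j (Finset.mem_insert_of_mem hj)
      · rw [if_neg, if_neg hx]
        intro h; exact hx (h i (Finset.mem_insert_self i K))
    rw [h1, sum_wt_coord hw1 i (c i) (fun x => if ∀ j ∈ K, x j = c j then f x else 0), ih f]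
    · ring
    · intro j hj x b
      exact hf j (Finset.mem_insert_of_mem hj) x b
    · intro x b
      have : (∀ j ∈ K, Function.update x i b j = c j) ↔ ∀ j ∈ K, x j = c j := by
        constructor
        · intro h j hj
          have hne : j ≠ i := fun e => hi (e ▸ hj)
          simpa [Function.update_of_ne hne] using h j hj
        · intro h j hj
          have hne : j ≠ i := fun e => hi (e ▸ hj)
          simpa [Function.update_of_ne hne] using h j hj
      simp only [this, hf i (Finset.mem_insert_self i K) x b]

theorem pr_nonneg {w : I → Bool → ℝ} (hw : ∀ i b, 0 ≤ w i b) (P : (I → Bool) → Prop) :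
    0 ≤ pr w P :=
  Finset.sum_nonneg fun x _ => mul_nonneg (wt_nonneg hw x) (ind_nonneg _)

theorem pr_mono {w : I → Bool → ℝ} (hw : ∀ i b, 0 ≤ w i b) {P Q : (I → Bool) → Prop}
    (h : ∀ x, P x → Q x) : pr w P ≤ pr w Q :=
  Finset.sum_le_sum fun x _ => mul_le_mul_of_nonneg_left (ind_mono (h x)) (wt_nonneg hw x)

theorem pr_le_one {w : I → Bool → ℝ} (hw : ∀ i b, 0 ≤ w i b)
    (hw1 : ∀ i, w i false + w i true = 1) (P : (I → Bool) → Prop) : pr w P ≤ 1 := by
  rw [← sum_wt hw1]
  apply Finset.sum_le_sum
  intro x _
  exact mul_le_of_le_one_right (wt_nonneg hw x) (ind_le_one _)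

theorem pr_or_le {w : I → Bool → ℝ} (hw : ∀ i b, 0 ≤ w i b) (P Q : (I → Bool) → Prop) :
    pr w (fun x => P x ∨ Q x) ≤ pr w P + pr w Q := by
  unfold pr
  rw [← Finset.sum_add_distrib]
  apply Finset.sum_le_sum
  intro x _
  rw [← mul_add]
  exact mul_le_mul_of_nonneg_left (ind_or_le _ _) (wt_nonneg hw x)

theorem pr_exists_le {w : I → Bool → ℝ} (hw : ∀ i b, 0 ≤ w i b) {J : Type} [Fintype J]
    (P : J → (I → Bool) → Prop) : pr w (fun x => ∃ j, P j x) ≤ ∑ j, pr w (P j) := by
  unfold pr
  rw [Finset.sum_comm]
  apply Finset.sum_le_sum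
  intro x _
  rw [← Finset.mul_sum]
  exact mul_le_mul_of_nonneg_left (ind_exists_le _) (wt_nonneg hw x)

theorem pr_pattern {w : I → Bool → ℝ} (hw1 : ∀ i, w i false + w i true = 1) (K : Finset I)
    (c : I → Bool) : pr w (fun x => ∀ i ∈ K, x i = c i) = ∏ i ∈ K, w i (c i) := by
  have := sum_wt_pattern hw1 K c (fun _ => (1 : ℝ)) (fun _ _ _ _ => rfl)
  simp only [mul_one, sum_wt hw1] at this
  rw [← this]
  unfold pr
  apply Finset.sum_congr rfl
  intro x _
  by_cases h : ∀ i ∈ K, x i = c i
  · rw [ind_of h, if_pos h]
  · rw [ind_of_not h, if_neg h]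

theorem bw_sum (p : ℝ) (i : I) : bw p i false + bw p i true = 1 := by
  simp [bw]

theorem bw_nonneg {p : ℝ} (h0 : 0 ≤ p) (h1 : p ≤ 1) (i : I) (b : Bool) : 0 ≤ bw p i b := by
  cases b <;> simp [bw] <;> linarith

theorem pr_not (p : ℝ) (P : (I → Bool) → Prop) :
    pr (bw p) (fun x => P (fun i => !x i)) = pr (bw (1 - p)) P := by
  unfold pr
  refine Finset.sum_nbij' (fun x i => !x i) (fun x i => !x i) ?_ ?_ ?_ ?_ ?_
  · intro x _; simp
  · intro x _; simp
  · intro x _; simp
  · intro x _; simp
  · intro x _
    congr 1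
    unfold wt
    apply Finset.prod_congr rfl
    intro i _
    cases h : x i <;> simp [bw, h]

end

end P28cd
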