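import Mathlib
import Pool.Agent.Lib.P28cd.Prob

/-!
# Module P28cd.Enc : the encoding of long canonical paths

`X = B × U`.  A round at `Q` (`Step`) takes the certificate `κ` of least rank which agrees with
`st V Q z W` for some admissible `W`, and queries the alive blocks touched by `κ`.  Along a chain of
`k` rounds from `∅` to `Qf` we encode `(V, al)` by `(V'', al'')` and one hint per round.

DECODING.  `dec` works on data `(V, al, Q, z)` and a list of hints.  One decoding step with hint
`η : Hint U w` (that is `Fin w → Option (Finset U × Bool)`):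
 let `κ` be the certificate of least rank (`IsC H w κ`) which agrees with `st V Q z ∅` on `κ.1`
 (if there is none, do nothing); fix for each `κ` with `κ.1.card ≤ w` a map `idx κ : B → Fin w` injective on `tou κ`
 (exists, `(tou κ).card ≤ κ.1.card ≤ w`; if `w = 0` there is no step at all since a step needs `tou κ ≠ ∅`);
 the new blocks are `Bs = {b ∈ tou κ | b ∉ Q, η (idx κ b) ≠ none}`; for `b ∈ Bs` with
 `η (idx κ b) = some (Wb, c)` put `V (b,u) := V (b,u) || (u ∈ Wb)`, `al b := true`, `z b := c`;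
 `Q := Q ∪ Bs`.
`dec l` starts with `Q = ∅`, `z = fun _ => false` and returns `(V, al)` at the end.

CLAIM (induction on the chain `Chain .. k Q Qf`, `al = true` on `Q`): there are hints `l`, `l.length = k`,
every hint has `1 ≤ nsome`, `V''`, `al''` and `Wt` with
 (a) `V'' x = V x` for `x.1 ∉ Qf \ Q`, `al'' b = al b` for `b ∉ Qf \ Q`;
 (b) `Adm r L V al Q Wt` and `V'' x = (V x && x ∉ Wt)` for `x.1 ∉ Q`; hence for all `z0` equal to `z`
     on `Q`: `st V'' Q z0 ∅ = st V Q z Wt`;
 (c) decoding with `l` from `(V'', al'', Q, z0)` gives `(V, al)`, for every `z0` equal to `z` on `Q`;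
 (d) `wt V * wt al ≤ φ^(|Qf| - |Q|) * (wt V'' * wt al'')`;  (e) `∑ nsome = |Qf| - |Q|` (and `Q ⊆ Qf`).
`nil`: `V'' = V`, `al'' = al`, `Wt = ∅`, `l = []`.
`cons`: the round at `Q` has `κ` (least rank among the matching ones), `Q₁ = Q ∪ 𝓑`,
`𝓑 = {b ∈ tou κ | al b, b ∉ Q} ≠ ∅`.  Take `W` admissible with `st V Q z W = κ.2` on `κ.1` and with the
least number of elements.  Then `W ⊆ κ.1` (erasing an element outside `κ.1` keeps everything), so
the blocks of `W` lie in `𝓑`.  Induction hypothesis for `Q₁` : `l', V₁, al₁, W₁` (`V₁ = V` on the blocks in `Q₁`).  Put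
`V'' x = if x.1 ∈ 𝓑 then (V x && x ∉ W) else V₁ x`, `al'' b = if b ∈ 𝓑 then false else al₁ b`,
`Wt = W ∪ W₁`.
 Adm: `mem` clear (`∉ Q₁ → ∉ Q`); `row`: `W` has only blocks in `𝓑`, `W₁` only blocks outside `Q₁ ⊇ 𝓑`;
 `count`: if `W₁ = ∅` it is that of `W`; else `|blocks Wt| ≤ |𝓑| + |blocks W₁|`,
 `|blocks W₁| + |Q₁| ≤ L`, `|Q₁| = |Q| + |𝓑|`.
 (c): let `σ = st V'' Q z0 ∅ = st V Q z Wt`.  `κ` agrees with `σ`: a point `x ∈ κ.1` with `x ∈ W₁`
 would be in an alive block outside `Q₁` touched by `κ`, impossible; so `σ x = st V Q z W x` on `κ.1`.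
 No certificate of smaller rank agrees with `σ` (it would match, via `Wt`).  As `rk` is injective the decoder finds
 `κ`.  Hint: `η c = some ({u | (b,u) ∈ W}, z b)` if `c = idx κ b` with `b ∈ 𝓑`, `none` otherwise.
 Then `Bs = 𝓑`, the new data are `(V₁, al₁, Q₁, z0')` with `z0' = z` on `Q₁` (on `𝓑`: `(V x && x ∉ W) || x ∈ W = V x = V₁ x`
 because `V = true` on `W`, and `al = true` on `𝓑`); apply (c) of the induction hypothesis.
 (d): `V''` differs from `V₁` exactly on `W`, where `V₁ = V = true` and `V'' = false`: the factor is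
 `((1-μ)/μ)^|W| ≤ (1/μ)^(r |𝓑|)` (rows); `al''` differs from `al₁` exactly on `𝓑`: factor `(q/(1-q))^|𝓑|`.
The theorem is the claim for `Q = ∅`.
(`wt (bw (1-μ)) V` : `V x = true` has weight `1 - μ`, `V x = false` weight `μ`.)
-/

set_option autoImplicit false

namespace P28cd

open Finset

/-- hints for one round -/
abbrev Hint (U : Type) (w : ℕ) : Type := Fin w → Option (Finset U × Bool)

/-- number of blocks described by a hint -/
def nsome {U : Type} {w : ℕ} (η : Hint U w) : ℕ := (univ.filter fun c => (η c).isSome = true).card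

set_option linter.unusedSectionVars false

namespace EncAux

section

variable {B U : Type} [DecidableEq B] [DecidableEq U]

/-- `κ` is the certificate of least rank which agrees with `σ` -/
def IsLeast' (H : (B × U → Bool) → Bool) (w : ℕ) (rk : Ct B U → ℕ) (σ : B × U → Bool)
    (κ : Ct B U) : Prop :=
  (IsC H w κ ∧ ∀ x ∈ κ.1, σ x = κ.2 x) ∧
    ∀ κ', rk κ' < rk κ → ¬ (IsC H w κ' ∧ ∀ x ∈ κ'.1, σ x = κ'.2 x)

open scoped Classical in
/-- the certificate found by the decoder -/
noncomputable def find (H : (B × U → Bool) → Bool) (w : ℕ) (rk : Ct B U → ℕ)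
    (σ : B × U → Bool) : Option (Ct B U) :=
  if h : ∃ κ, IsLeast' H w rk σ κ then some h.choose else none

theorem find_eq {H : (B × U → Bool) → Bool} {w : ℕ} {rk : Ct B U → ℕ}
    (hrk : Function.Injective rk) {σ : B × U → Bool} {κ : Ct B U}
    (h : IsLeast' H w rk σ κ) : find H w rk σ = some κ := by
  have hex : ∃ κ, IsLeast' H w rk σ κ := ⟨κ, h⟩
  unfold find
  rw [dif_pos hex]
  have h2 := hex.choose_spec
  congr 1
  apply hrk
  rcases lt_trichotomy (rk hex.choose) (rk κ) with h3 | h3 | h3
  · exact absurd h2.1 (h.2 _ h3)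
  · exact h3
  · exact absurd h.1 (h2.2 _ h3)

/-- positions of the touched blocks -/
noncomputable def ix (κ : Ct B U) (b : B) : ℕ :=
  if h : b ∈ tou κ then ((tou κ).equivFin ⟨b, h⟩ : ℕ) else 0

theorem ix_lt {κ : Ct B U} {b : B} (h : b ∈ tou κ) : ix κ b < κ.1.card := by
  unfold ix
  rw [dif_pos h]
  exact lt_of_lt_of_le (Fin.isLt _) Finset.card_image_le

theorem ix_inj {κ : Ct B U} {b b' : B} (h : b ∈ tou κ) (h' : b' ∈ tou κ)
    (he : ix κ b = ix κ b') : b = b' := by
  unfold ix at he
  rw [dif_pos h, dif_pos h'] at he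
  have := (tou κ).equivFin.injective (Fin.ext he)
  exact congrArg Subtype.val this

/-- reading a hint -/
def get {w : ℕ} (η : Hint U w) (i : ℕ) : Option (Finset U × Bool) :=
  if h : i < w then η ⟨i, h⟩ else none

/-- the data of the decoder -/
abbrev St (B U : Type) : Type := (B × U → Bool) × (B → Bool) × Finset B × (B → Bool)

/-- the new blocks of a round -/
noncomputable def newB {w : ℕ} (κ : Ct B U) (Q : Finset B) (η : Hint U w) : Finset B :=
  (tou κ).filter (fun b => b ∉ Q ∧ (get η (ix κ b)).isSome = true)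

open scoped Classical in
/-- the data after a round with certificate `κ` -/
noncomputable def upd {w : ℕ} (η : Hint U w) (κ : Ct B U) (σ : St B U) : St B U :=
  (fun x => σ.1 x || decide (x.1 ∈ newB κ σ.2.2.1 η ∧
      ∃ p, get η (ix κ x.1) = some p ∧ x.2 ∈ p.1),
   fun b => σ.2.1 b || decide (b ∈ newB κ σ.2.2.1 η),
   σ.2.2.1 ∪ newB κ σ.2.2.1 η,
   fun b => if b ∈ newB κ σ.2.2.1 η then (get η (ix κ b)).elim false Prod.snd else σ.2.2.2 b)

/-- one step of the decoder -/
noncomputable def dstep (H : (B × U → Bool) → Bool) (w : ℕ) (rk : Ct B U → ℕ)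
    (σ : St B U) (η : Hint U w) : St B U :=
  match find H w rk (st σ.1 σ.2.2.1 σ.2.2.2 ∅) with
  | none => σ
  | some κ => upd η κ σ

theorem dstep_eq {H : (B × U → Bool) → Bool} {w : ℕ} {rk : Ct B U → ℕ}
    (hrk : Function.Injective rk) {σ : St B U} {κ : Ct B U} (η : Hint U w)
    (h : IsLeast' H w rk (st σ.1 σ.2.2.1 σ.2.2.2 ∅) κ) :
    dstep H w rk σ η = upd η κ σ := by
  unfold dstep
  rw [find_eq hrk h]

open scoped Classical in
/-- the hint of a round -/
noncomputable def mkHint (w : ℕ) (κ : Ct B U) (N : Finset B) (W : Finset (B × U)) (z : B → Bool)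
    [Fintype U] : Hint U w := fun c =>
  if h : ∃ b, b ∈ N ∧ ix κ b = (c : ℕ) then
    some (univ.filter fun u => (h.choose, u) ∈ W, z h.choose) else none

theorem get_mkHint [Fintype U] {w : ℕ} {κ : Ct B U} (hκ : κ.1.card ≤ w) {N : Finset B}
    (hN : N ⊆ tou κ) {W : Finset (B × U)} {z : B → Bool} {b : B} (hb : b ∈ tou κ) :
    get (mkHint w κ N W z) (ix κ b) =
      if b ∈ N then some (univ.filter fun u => (b, u) ∈ W, z b) else none := by
  classical
  have hlt : ix κ b < w := lt_of_lt_of_le (ix_lt hb) hκ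
  unfold get
  rw [dif_pos hlt]
  unfold mkHint
  by_cases hbN : b ∈ N
  · have hex : ∃ b', b' ∈ N ∧ ix κ b' = ((⟨ix κ b, hlt⟩ : Fin w) : ℕ) := ⟨b, hbN, rfl⟩
    rw [dif_pos hex, if_pos hbN]
    have h2 := hex.choose_spec
    have h3 : hex.choose = b := ix_inj (hN h2.1) hb h2.2
    rw [h3]
  · rw [if_neg hbN, dif_neg]
    rintro ⟨b', hb', he⟩
    exact hbN ((ix_inj (hN hb') hb he) ▸ hb')

theorem newB_mkHint [Fintype U] {w : ℕ} {κ : Ct B U} (hκ : κ.1.card ≤ w) {N Q : Finset B}
    (hN : N ⊆ tou κ) (hNQ : ∀ b ∈ N, b ∉ Q) {W : Finset (B × U)} {z : B → Bool} :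
    newB κ Q (mkHint w κ N W z) = N := by
  ext b
  unfold newB
  rw [Finset.mem_filter]
  constructor
  · rintro ⟨hb, -, h⟩
    by_contra hbN
    rw [get_mkHint hκ hN hb, if_neg hbN] at h
    simp at h
  · intro hbN
    refine ⟨hN hbN, hNQ b hbN, ?_⟩
    rw [get_mkHint hκ hN (hN hbN), if_pos hbN]
    rfl

theorem mkHint_isSome [Fintype U] {w : ℕ} {κ : Ct B U} {N : Finset B}
    {W : Finset (B × U)} {z : B → Bool} (c : Fin w) :
    (mkHint w κ N W z c).isSome = true ↔ ∃ b, b ∈ N ∧ ix κ b = (c : ℕ) := by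
  classical
  unfold mkHint
  split_ifs with h
  · simp [h]
  · simp [h]

theorem nsome_mkHint [Fintype U] {w : ℕ} {κ : Ct B U} (hκ : κ.1.card ≤ w) {N : Finset B}
    (hN : N ⊆ tou κ) {W : Finset (B × U)} {z : B → Bool} :
    nsome (mkHint w κ N W z) = N.card := by
  classical
  unfold nsome
  symm
  apply Finset.card_bij (i := fun b hb => (⟨ix κ b, lt_of_lt_of_le (ix_lt (hN hb)) hκ⟩ : Fin w))
  · intro b hb
    rw [Finset.mem_filter]
    exact ⟨Finset.mem_univ _, (mkHint_isSome _).2 ⟨b, hb, rfl⟩⟩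
  · intro b hb b' hb' he
    exact ix_inj (hN hb) (hN hb') (congrArg Fin.val he)
  · intro c hc
    obtain ⟨b, hb, he⟩ := (mkHint_isSome c).1 (Finset.mem_filter.1 hc).2
    exact ⟨b, hb, Fin.ext he⟩

theorem adm_sub {r L : ℕ} {V : B × U → Bool} {al : B → Bool} {Q : Finset B}
    {W W' : Finset (B × U)} (h : Adm r L V al Q W) (hs : W' ⊆ W) : Adm r L V al Q W' := by
  refine ⟨fun x hx => h.mem x (hs hx), fun b => ?_, ?_⟩
  · exact (Finset.card_le_card (Finset.filter_subset_filter _ hs)).trans (h.row b)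
  · rcases h.count with h1 | h1
    · left
      rw [h1] at hs
      exact Finset.subset_empty.1 hs
    · right
      exact (Nat.add_le_add_right (Finset.card_le_card (Finset.image_subset_image hs)) _).trans h1

theorem st_inter {V : B × U → Bool} {Q : Finset B} {z : B → Bool} {W K : Finset (B × U)}
    {x : B × U} (hx : x ∈ K) : st V Q z (W ∩ K) x = st V Q z W x := by
  unfold st
  have : (x ∈ W ∩ K) ↔ (x ∈ W) := by simp [hx]
  simp [hx]

theorem st_congr {V V'' : B × U → Bool} {Q : Finset B} {z z0 : B → Bool} {W : Finset (B × U)}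
    (hV : ∀ x, V'' x = (V x && !decide (x ∈ W))) (hz : ∀ b ∈ Q, z0 b = z b) :
    st V'' Q z0 ∅ = st V Q z W := by
  funext x
  unfold st
  rw [hV x]
  by_cases h1 : x.1 ∈ Q
  · rw [hz _ h1]
    cases V x <;> cases hW : decide (x ∈ W) <;> simp [h1]
  · cases V x <;> cases hW : decide (x ∈ W) <;> simp [h1]

end

section weights

variable {I : Type} [Fintype I] [DecidableEq I]

/-- switching off the coordinates of `W` -/
theorem wt_off {μ : ℝ} (hμ0 : 0 < μ) (hμ1 : μ ≤ 1) {V V' : I → Bool} {W : Finset I}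
    (hW : ∀ x ∈ W, V x = true) (hV' : ∀ x, V' x = (V x && !decide (x ∈ W))) :
    wt (bw (1 - μ)) V ≤ (1 / μ) ^ W.card * wt (bw (1 - μ)) V' := by
  unfold wt
  have h1 : (1 / μ) ^ W.card = ∏ x : I, (if x ∈ W then 1 / μ else 1) := by
    rw [Finset.prod_ite_mem, Finset.univ_inter, Finset.prod_const]
  rw [h1, ← Finset.prod_mul_distrib]
  apply Finset.prod_le_prod
  · intro x _
    exact bw_nonneg (by linarith) (by linarith) x _
  · intro x _
    rw [hV' x]
    by_cases hx : x ∈ W
    · rw [if_pos hx, hW x hx]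
      simp only [hx, decide_true, Bool.not_true, Bool.and_false, bw, if_true, Bool.false_eq_true,
        if_false]
      have h3 : 1 / μ * (1 - (1 - μ)) = 1 := by
        field_simp
        ring
      rw [h3]
      linarith
    · rw [if_neg hx, one_mul]
      simp [hx]

theorem wt_off_eq {q : ℝ} (hq0 : 0 < q) (hq1 : q < 1) {V V' : I → Bool} {N : Finset I}
    (hN : ∀ x ∈ N, V x = true) (hV' : ∀ x, V' x = (V x && !decide (x ∈ N))) :
    wt (bw q) V = (q / (1 - q)) ^ N.card * wt (bw q) V' := by
  unfold wt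
  have h1 : (q / (1 - q)) ^ N.card = ∏ x : I, (if x ∈ N then q / (1 - q) else 1) := by
    rw [Finset.prod_ite_mem, Finset.univ_inter, Finset.prod_const]
  rw [h1, ← Finset.prod_mul_distrib]
  apply Finset.prod_congr rfl
  intro x _
  rw [hV' x]
  by_cases hx : x ∈ N
  · rw [if_pos hx, hN x hx]
    simp only [hx, decide_true, Bool.not_true, Bool.and_false, bw, if_true, Bool.false_eq_true,
      if_false]
    have h3 : (1 - q) ≠ 0 := by
      intro h
      linarith
    field_simp
  · rw [if_neg hx, one_mul]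
    simp [hx]

end weights

theorem main {B U : Type} [Fintype B] [DecidableEq B] [Fintype U] [DecidableEq U]
    (H : (B × U → Bool) → Bool) (w r L s : ℕ) (rk : Ct B U → ℕ)
    (hrk : Function.Injective rk) {μ q : ℝ} (hμ0 : 0 < μ) (hμ1 : μ ≤ 1) (hq0 : 0 < q)
    (hq1 : q < 1) (V : B × U → Bool) (al z : B → Bool) (k : ℕ) (Q Qf : Finset B)
    (hc : Chain H w r L s rk V al z k Q Qf) :
    ∃ (l : List (Hint U w)) (V'' : B × U → Bool) (al'' : B → Bool) (Wt : Finset (B × U)),
      l.length = k ∧ (∀ η ∈ l, 1 ≤ nsome η) ∧ (l.map nsome).sum + Q.card = Qf.card ∧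
      Adm r L V al Q Wt ∧ (∀ x, V'' x = (V x && !decide (x ∈ Wt))) ∧
      (∀ b ∈ Q, al'' b = al b) ∧
      (∀ z0 : B → Bool, (∀ b ∈ Q, z0 b = z b) → ∃ Q' z',
        l.foldl (dstep H w rk) (V'', al'', Q, z0) = (V, al, Q', z')) ∧
      wt (bw (1 - μ)) V * wt (bw q) al ≤
        (q / (1 - q) * (1 / μ) ^ r) ^ (l.map nsome).sum *
          (wt (bw (1 - μ)) V'' * wt (bw q) al'') := by
  induction hc with
  | nil Q =>
    refine ⟨[], V, al, ∅, rfl, by simp, by simp, ⟨by simp, by simp, Or.inl rfl⟩, by simp,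
      fun _ _ => rfl, fun z0 _ => ⟨Q, z0, rfl⟩, by simp⟩
  | @cons k Q Q₁ Qf hQs hstep hch ih =>
    obtain ⟨l', V₁, al₁, W₁, hl, hns, hsum, hadm, hV₁, hal₁, hdec, hwt⟩ := ih
    obtain ⟨κ, ⟨hκC, W0, hW0adm, hW0⟩, hmin, hQ₁, hne⟩ := hstep
    set W := W0 ∩ κ.1 with hWdef
    set N : Finset B := (tou κ).filter (fun b => b ∉ Q ∧ al b = true) with hNdef
    have hWadm : Adm r L V al Q W := adm_sub hW0adm Finset.inter_subset_left
    have hWκ : ∀ x ∈ κ.1, st V Q z W x = κ.2 x := fun x hx => by
      rw [hWdef, st_inter hx]; exact hW0 x hx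
    have hNt : N ⊆ tou κ := Finset.filter_subset _ _
    have hNQ : ∀ b ∈ N, b ∉ Q := fun b hb => (Finset.mem_filter.1 hb).2.1
    have hNal : ∀ b ∈ N, al b = true := fun b hb => (Finset.mem_filter.1 hb).2.2
    have hQ₁N : Q₁ = Q ∪ N := by
      rw [hQ₁]
      ext b
      simp only [hNdef, Finset.mem_union, Finset.mem_filter]
      tauto
    have hNne : N.Nonempty := by
      by_contra hn
      rw [Finset.not_nonempty_iff_eq_empty] at hn
      apply hne
      rw [hQ₁N, hn, Finset.union_empty]
    have hdisj : Disjoint Q N := by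
      rw [Finset.disjoint_right]
      exact hNQ
    have hcard : Q₁.card = Q.card + N.card := by
      rw [hQ₁N, Finset.card_union_of_disjoint hdisj]
    have hWN : ∀ x ∈ W, x.1 ∈ N := by
      intro x hx
      have h1 := hWadm.mem x hx
      have h2 : x ∈ κ.1 := (Finset.mem_inter.1 hx).2
      exact Finset.mem_filter.2 ⟨Finset.mem_image_of_mem _ h2, h1.1, h1.2.1⟩
    have hW₁ : ∀ x ∈ W₁, x.1 ∉ Q ∧ x.1 ∉ N := by
      intro x hx
      have h1 := (hadm.mem x hx).1
      rw [hQ₁N, Finset.mem_union, not_or] at h1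
      exact h1
    have hNQ₁ : ∀ b ∈ N, b ∈ Q₁ := fun b hb => by
      rw [hQ₁N]; exact Finset.mem_union_right _ hb
    have hQQ₁ : ∀ b ∈ Q, b ∈ Q₁ := fun b hb => by
      rw [hQ₁N]; exact Finset.mem_union_left _ hb
    set V'' : B × U → Bool := fun x => V₁ x && !decide (x ∈ W) with hV''
    set al'' : B → Bool := fun b => al₁ b && !decide (b ∈ N) with hal''
    have hV''eq : ∀ x, V'' x = (V x && !decide (x ∈ W ∪ W₁)) := by
      intro x
      rw [hV'']
      simp only [hV₁ x, Finset.mem_union]
      by_cases h1 : x ∈ W <;> by_cases h2 : x ∈ W₁ <;> simp [h1, h2]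
    have hAdm : Adm r L V al Q (W ∪ W₁) := by
      refine ⟨?_, ?_, ?_⟩
      · intro x hx
        rcases Finset.mem_union.1 hx with h1 | h1
        · exact hWadm.mem x h1
        · exact ⟨(hW₁ x h1).1, (hadm.mem x h1).2⟩
      · intro b
        by_cases hb : b ∈ N
        · have : ((W ∪ W₁).filter fun x => x.1 = b) = W.filter fun x => x.1 = b := by
            ext x
            simp only [Finset.mem_filter, Finset.mem_union]
            constructor
            · rintro ⟨h1 | h1, h2⟩
              · exact ⟨h1, h2⟩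
              · exact absurd (h2 ▸ hb) (hW₁ x h1).2
            · rintro ⟨h1, h2⟩
              exact ⟨Or.inl h1, h2⟩
          rw [this]
          exact hWadm.row b
        · have : ((W ∪ W₁).filter fun x => x.1 = b) = W₁.filter fun x => x.1 = b := by
            ext x
            simp only [Finset.mem_filter, Finset.mem_union]
            constructor
            · rintro ⟨h1 | h1, h2⟩
              · exact absurd (h2 ▸ hWN x h1) hb
              · exact ⟨h1, h2⟩
            · rintro ⟨h1, h2⟩
              exact ⟨Or.inr h1, h2⟩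
          rw [this]
          exact hadm.row b
      · rcases hadm.count with h1 | h1
        · rw [h1, Finset.union_empty]
          exact hWadm.count
        · right
          have h2 : ((W ∪ W₁).image Prod.fst).card ≤ N.card + (W₁.image Prod.fst).card := by
            rw [Finset.image_union]
            refine (Finset.card_union_le _ _).trans (Nat.add_le_add_right ?_ _)
            apply Finset.card_le_card
            intro b hb
            obtain ⟨x, hx, rfl⟩ := Finset.mem_image.1 hb
            exact hWN x hx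
          omega
    refine ⟨mkHint w κ N W z :: l', V'', al'', W ∪ W₁, by simp [hl], ?_, ?_, hAdm, hV''eq, ?_, ?_,
      ?_⟩
    · intro η hη
      rcases List.mem_cons.1 hη with rfl | h1
      · rw [nsome_mkHint hκC.1 hNt]
        exact Finset.card_pos.2 hNne
      · exact hns η h1
    · rw [List.map_cons, List.sum_cons, nsome_mkHint hκC.1 hNt]
      omega
    · intro b hb
      have h1 : b ∉ N := fun h => hNQ b h hb
      simp only [hal'', h1, decide_false, Bool.not_false, Bool.and_true]
      exact hal₁ b (hQQ₁ b hb)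
    · intro z0 hz0
      have hst : st V'' Q z0 ∅ = st V Q z (W ∪ W₁) := st_congr hV''eq hz0
      have hσκ : ∀ x ∈ κ.1, st V Q z (W ∪ W₁) x = κ.2 x := by
        intro x hx
        rw [← hWκ x hx]
        have h1 : x ∉ W₁ := by
          intro h1
          have h2 := hadm.mem x h1
          apply (hW₁ x h1).2
          exact Finset.mem_filter.2 ⟨Finset.mem_image_of_mem _ hx, (hW₁ x h1).1, h2.2.1⟩
        unfold st
        simp [h1]
      have hleast : IsLeast' H w rk (st V'' Q z0 ∅) κ := by
        rw [hst]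
        refine ⟨⟨hκC, hσκ⟩, ?_⟩
        rintro κ' hκ' ⟨h1, h2⟩
        exact hmin κ' hκ' ⟨h1, W ∪ W₁, hAdm, h2⟩
      have hd : dstep H w rk (V'', al'', Q, z0) (mkHint w κ N W z) =
          upd (mkHint w κ N W z) κ (V'', al'', Q, z0) :=
        dstep_eq hrk (σ := (V'', al'', Q, z0)) _ hleast
      rw [List.foldl_cons, hd]
      have hnew : newB κ Q (mkHint w κ N W z) = N := newB_mkHint hκC.1 hNt hNQ
      have hupd : upd (mkHint w κ N W z) κ (V'', al'', Q, z0) =
          (V₁, al₁, Q₁, fun b => if b ∈ N then z b else z0 b) := by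
        unfold upd
        simp only [hnew]
        refine Prod.ext ?_ (Prod.ext ?_ (Prod.ext ?_ ?_))
        · funext x
          change (V'' x || decide (x.1 ∈ N ∧ ∃ p, get (mkHint w κ N W z) (ix κ x.1) = some p ∧
            x.2 ∈ p.1)) = V₁ x
          have h1 : (x.1 ∈ N ∧ ∃ p, get (mkHint w κ N W z) (ix κ x.1) = some p ∧
            x.2 ∈ p.1) ↔ x ∈ W := by
            constructor
            · rintro ⟨h1, p, hp, hx⟩
              rw [get_mkHint hκC.1 hNt (hNt h1), if_pos h1] at hp
              have hp' := Option.some.inj hp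
              rw [← hp'] at hx
              exact (Finset.mem_filter.1 hx).2
            · intro h1
              have h2 := get_mkHint (W := W) (z := z) hκC.1 hNt (hNt (hWN x h1))
              rw [if_pos (hWN x h1)] at h2
              exact ⟨hWN x h1, _, h2, Finset.mem_filter.2 ⟨Finset.mem_univ _, h1⟩⟩
          by_cases h2 : x ∈ W
          · have h3 : V₁ x = true := by
              rw [hV₁ x, (hWadm.mem x h2).2.2]
              have h4 : x ∉ W₁ := fun h => (hW₁ x h).2 (hWN x h2)
              simp [h4]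
            rw [h3, decide_eq_true (h1.2 h2)]
            simp
          · rw [decide_eq_false (fun h => h2 (h1.1 h))]
            simp [hV'', h2]
        · funext b
          change (al'' b || decide (b ∈ N)) = al₁ b
          by_cases h2 : b ∈ N
          · rw [hal₁ b (hNQ₁ b h2), hNal b h2]
            simp [h2]
          · simp [hal'', h2]
        · exact hQ₁N.symm
        · funext b
          change (if b ∈ N then (get (mkHint w κ N W z) (ix κ b)).elim false Prod.snd else z0 b) =
            if b ∈ N then z b else z0 b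
          by_cases h2 : b ∈ N
          · rw [if_pos h2, if_pos h2, get_mkHint hκC.1 hNt (hNt h2), if_pos h2]
            rfl
          · rw [if_neg h2, if_neg h2]
      rw [hupd]
      apply hdec
      intro b hb
      by_cases h2 : b ∈ N
      · simp [h2]
      · have h3 : b ∈ Q := by
          rw [hQ₁N] at hb
          rcases Finset.mem_union.1 hb with h | h
          · exact h
          · exact absurd h h2
        simp [h2, hz0 b h3]
    · have h1 : wt (bw (1 - μ)) V₁ ≤ (1 / μ) ^ W.card * wt (bw (1 - μ)) V'' := by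
        apply wt_off hμ0 hμ1
        · intro x hx
          rw [hV₁ x, (hWadm.mem x hx).2.2]
          have h4 : x ∉ W₁ := fun h => (hW₁ x h).2 (hWN x hx)
          simp [h4]
        · intro x
          rfl
      have h2 : wt (bw q) al₁ = (q / (1 - q)) ^ N.card * wt (bw q) al'' := by
        apply wt_off_eq hq0 hq1
        · intro b hb
          rw [hal₁ b (hNQ₁ b hb)]
          exact hNal b hb
        · intro b
          rfl
      have hWcard : W.card ≤ r * N.card := by
        have h3 : W.card = ∑ b ∈ N, (W.filter fun x => x.1 = b).card :=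
          Finset.card_eq_sum_card_fiberwise hWN
        rw [h3, mul_comm]
        exact (Finset.sum_le_card_nsmul N _ r (fun b _ => hWadm.row b)).trans (by simp)
      have h3 : (1 / μ) ^ W.card ≤ (1 / μ) ^ (r * N.card) :=
        pow_le_pow_right₀ (by rw [le_div_iff₀ hμ0]; linarith) hWcard
      have hV0 : 0 ≤ wt (bw (1 - μ)) V'' := wt_nonneg (bw_nonneg (by linarith) (by linarith)) _
      have hA0 : 0 ≤ wt (bw q) al'' := wt_nonneg (bw_nonneg hq0.le hq1.le) _
      have hA1 : 0 ≤ wt (bw q) al₁ := wt_nonneg (bw_nonneg hq0.le hq1.le) _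
      have hφ : 0 ≤ q / (1 - q) * (1 / μ) ^ r := by
        have : 0 < 1 - q := by linarith
        positivity
      have h4 : wt (bw (1 - μ)) V₁ * wt (bw q) al₁ ≤
          (q / (1 - q) * (1 / μ) ^ r) ^ N.card * (wt (bw (1 - μ)) V'' * wt (bw q) al'') := by
        calc wt (bw (1 - μ)) V₁ * wt (bw q) al₁
            ≤ ((1 / μ) ^ (r * N.card) * wt (bw (1 - μ)) V'') * wt (bw q) al₁ := by
              apply mul_le_mul_of_nonneg_right _ hA1
              exact h1.trans (mul_le_mul_of_nonneg_right h3 hV0)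
          _ = (q / (1 - q) * (1 / μ) ^ r) ^ N.card *
                (wt (bw (1 - μ)) V'' * wt (bw q) al'') := by
              rw [h2, mul_pow, pow_mul]
              ring
      rw [List.map_cons, List.sum_cons, nsome_mkHint hκC.1 hNt, pow_add]
      calc wt (bw (1 - μ)) V * wt (bw q) al
          ≤ (q / (1 - q) * (1 / μ) ^ r) ^ (l'.map nsome).sum *
            (wt (bw (1 - μ)) V₁ * wt (bw q) al₁) := hwt
        _ ≤ (q / (1 - q) * (1 / μ) ^ r) ^ (l'.map nsome).sum *
            ((q / (1 - q) * (1 / μ) ^ r) ^ N.card *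
              (wt (bw (1 - μ)) V'' * wt (bw q) al'')) :=
            mul_le_mul_of_nonneg_left h4 (pow_nonneg hφ _)
        _ = _ := by ring

end EncAux

theorem encode_exists {B U : Type} [Fintype B] [DecidableEq B] [Fintype U] [DecidableEq U]
    (H : (B × U → Bool) → Bool) (w r L s : ℕ) (rk : Ct B U → ℕ)
    (hrk : Function.Injective rk) {μ q : ℝ} (hμ0 : 0 < μ) (hμ1 : μ ≤ 1) (hq0 : 0 < q)
    (hq1 : q < 1) :
    ∃ dec : List (Hint U w) → (B × U → Bool) × (B → Bool) → (B × U → Bool) × (B → Bool),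
      ∀ (V : B × U → Bool) (al z : B → Bool) (k : ℕ) (Q : Finset B),
        Chain H w r L s rk V al z k ∅ Q →
        ∃ (l : List (Hint U w)) (V'' : B × U → Bool) (al'' : B → Bool),
          l.length = k ∧ (∀ η ∈ l, 1 ≤ nsome η) ∧ (l.map nsome).sum = Q.card ∧
          dec l (V'', al'') = (V, al) ∧
          wt (bw (1 - μ)) V * wt (bw q) al ≤
            (q / (1 - q) * (1 / μ) ^ r) ^ Q.card *
              (wt (bw (1 - μ)) V'' * wt (bw q) al'') := by
  refine ⟨fun l p => ((l.foldl (EncAux.dstep H w rk) (p.1, p.2, ∅, fun _ => false)).1,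
    (l.foldl (EncAux.dstep H w rk) (p.1, p.2, ∅, fun _ => false)).2.1), ?_⟩
  intro V al z k Q hc
  obtain ⟨l, V'', al'', Wt, hl, hns, hsum, -, -, -, hdec, hwt⟩ :=
    EncAux.main H w r L s rk hrk hμ0 hμ1 hq0 hq1 V al z k ∅ Q hc
  obtain ⟨Q', z', hd⟩ := hdec (fun _ => false) (by simp)
  have hs : (l.map nsome).sum = Q.card := by simpa using hsum
  refine ⟨l, V'', al'', hl, hns, hs, ?_, ?_⟩
  · simp only [hd]
  · rw [← hs]
    exact hwt

end P28cd
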