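import Mathlib
import Pool.Agent.Lib.P28cd.Enc

/-!
# Module P28cd.EncSum : long canonical paths are rare

PROOF of `enc_sum`.  Let `φ = q/(1-q) (1/μ)^r`, `θ = 2^|U| * 2 * φ > 0`.  If `w = 0` no `Step` exists
(`Q' ≠ Q` forces `tou κ ≠ ∅`, so `1 ≤ κ.1.card ≤ 0`), `EvBad` is false (`s ≥ 1`), the sum is `0`.
Let `w ≥ 1` and `x = 1/(4 w θ) ≥ 1`.
In a chain all sets except the last have less than `s` elements and the sets grow strictly, so a chain `∅ → Q` with `s ≤ |Q|` has
`1 ≤ k ≤ s` steps.  For each bad `(V, al)` choose such a chain and `l, V'', al''` from `encode_exists`; write `l = List.ofFn f`,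
`f : Fin k → Hint U w`, `1 ≤ nsome (f i)` for all `i`, and
`wt V wt al ≤ φ^|Q| wt V'' wt al'' ≤ x^(-s) ∏ i, (φ x)^(nsome (f i)) * wt V'' wt al''` because `x ≥ 1`,
`∑ nsome = |Q| ≥ s`.
Given `k`, `f`, `(V'', al'')` the pair `(V, al)` is determined (`dec`).  Hence
`∑_{(V,al) bad} wt V wt al ≤ ∑_{k=1}^s x^(-s) ∑_{f} ∏ i, (φ x)^(nsome (f i)) [1 ≤ nsome (f i)] * ∑_{V'',al''} wt V'' wt al''
 = x^(-s) ∑_{k=1}^s R^k`, `R = ∑_{η, 1 ≤ nsome η} (φ x)^(nsome η)` (`Finset.prod_univ_sum` / `Finset.sum_pow'`).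
`∑_η (φ x)^(nsome η) = (1 + 2^|U| 2 φ x)^w = (1 + θ x)^w = (1 + 1/(4w))^w ≤ exp (1/4) ≤ 3/2` and the hint
without `some` contributes `1`, so `R ≤ 1/2` and the total is at most `x^(-s) = (4 w θ)^s`.
(`exp (1/4) ≤ 3/2` since `exp 1 < 2.7182818286 < (3/2)^4`.)
-/

set_option autoImplicit false

namespace P28cd

open Finset

namespace EncSumAux

theorem chain_len {B U : Type} [DecidableEq B] [DecidableEq U]
    {H : (B × U → Bool) → Bool} {w r L s : ℕ} {rk : Ct B U → ℕ}
    {V : B × U → Bool} {al z : B → Bool} {k : ℕ} {Q Q'' : Finset B}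
    (h : Chain H w r L s rk V al z k Q Q'') : k = 0 ∨ Q.card + k ≤ s := by
  induction h with
  | nil Q => exact Or.inl rfl
  | @cons k Q Q' Q'' hs hst hc ih =>
    right
    obtain ⟨κ, _, _, hQ', hne⟩ := hst
    have hsub : Q ⊆ Q' := by rw [hQ']; exact subset_union_left
    have hlt : Q.card < Q'.card := card_lt_card (lt_of_le_of_ne hsub (Ne.symm hne))
    rcases ih with h0 | h0
    · subst h0; omega
    · omega

theorem chain_zero {B U : Type} [DecidableEq B] [DecidableEq U]
    {H : (B × U → Bool) → Bool} {r L s : ℕ} {rk : Ct B U → ℕ}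
    {V : B × U → Bool} {al z : B → Bool} {k : ℕ} {Q Q'' : Finset B}
    (h : Chain H 0 r L s rk V al z k Q Q'') : Q'' = Q := by
  cases h with
  | nil => rfl
  | @cons k Q Q' Q'' hs hst hc =>
    exfalso
    obtain ⟨κ, hm, _, hQ', hne⟩ := hst
    have h1 : κ.1.card ≤ 0 := hm.1.1
    have h2 : κ.1 = ∅ := card_eq_zero.1 (Nat.le_zero.1 h1)
    apply hne
    rw [hQ', tou, h2]
    simp

theorem geo (s : ℕ) : ∑ k ∈ range s, ((1 : ℝ) / 2) ^ (k + 1) = 1 - (1 / 2) ^ s := by
  induction s with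
  | zero => simp
  | succ n ih => rw [sum_range_succ, ih, pow_succ]; ring

theorem exp_quarter : Real.exp (1 / 4) ≤ 3 / 2 := by
  have h1 : Real.exp (1 / 4) ^ 4 = Real.exp 1 := by
    rw [← Real.exp_nat_mul]; norm_num
  by_contra hcon
  push Not at hcon
  have h2 : (3 / 2 : ℝ) ^ 4 < Real.exp (1 / 4) ^ 4 := pow_lt_pow_left₀ hcon (by norm_num) (by norm_num)
  rw [h1] at h2
  have h3 := Real.exp_one_lt_d9
  norm_num at h2 h3
  linarith

theorem bw_sum {I : Type} (p : ℝ) (i : I) : bw (I := I) p i false + bw p i true = 1 := by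
  simp [bw]

theorem bw_nonneg {I : Type} {p : ℝ} (h0 : 0 ≤ p) (h1 : p ≤ 1) (i : I) (b : Bool) : 0 ≤ bw p i b := by
  cases b <;> simp [bw] <;> linarith

theorem nsome_zero {U : Type} {w : ℕ} {η : Hint U w} (h : nsome η = 0) : η = fun _ => none := by
  funext c
  have h1 := filter_eq_empty_iff.1 (card_eq_zero.1 h) (mem_univ c)
  simpa using h1

end EncSumAux

/-- weight of all hints, marked by `y` -/
theorem sum_hints {U : Type} [Fintype U] [DecidableEq U] (w : ℕ) (y : ℝ) :
    ∑ η : Hint U w, y ^ nsome η = (1 + 2 ^ Fintype.card U * 2 * y) ^ w := by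
  have h1 : ∀ η : Hint U w, y ^ nsome η = ∏ c, (if (η c).isSome = true then y else 1) := by
    intro η
    rw [prod_ite, prod_const_one, mul_one, prod_const]
    rfl
  have h2 : ∑ o : Option (Finset U × Bool), (if o.isSome = true then y else 1) =
      1 + 2 ^ Fintype.card U * 2 * y := by
    rw [Fintype.sum_option]
    simp
  rw [← h2, Fintype.sum_pow]
  exact sum_congr rfl fun η _ => h1 η

theorem enc_sum {B U : Type} [Fintype B] [DecidableEq B] [Fintype U] [DecidableEq U]
    (H : (B × U → Bool) → Bool) (w r L s : ℕ) (hs : 1 ≤ s) (rk : Ct B U → ℕ)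
    (hrk : Function.Injective rk) {μ q : ℝ} (hμ0 : 0 < μ) (hμ1 : μ ≤ 1) (hq0 : 0 < q)
    (hq1 : q < 1)
    (hθ : 4 * (w : ℝ) * (2 ^ Fintype.card U * 2 * (q / (1 - q) * (1 / μ) ^ r)) ≤ 1) :
    ∑ V : B × U → Bool, wt (bw (1 - μ)) V *
        pr (bw q) (fun al : B → Bool => EvBad H w r L s rk V al) ≤
      (4 * (w : ℝ) * (2 ^ Fintype.card U * 2 * (q / (1 - q) * (1 / μ) ^ r))) ^ s := by
  classical
  rcases Nat.eq_zero_or_pos w with hw | hw
  · subst hw
    have h0 : ∀ (V : B × U → Bool) (al : B → Bool), ¬ EvBad H 0 r L s rk V al := by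
      rintro V al ⟨z, k, Q, hc, hQ⟩
      rw [EncSumAux.chain_zero hc] at hQ
      simp at hQ
      omega
    have h1 : ∑ V : B × U → Bool, wt (bw (1 - μ)) V *
        pr (bw q) (fun al : B → Bool => EvBad H 0 r L s rk V al) = 0 := by
      refine sum_eq_zero fun V _ => ?_
      have : pr (bw q) (fun al : B → Bool => EvBad H 0 r L s rk V al) = 0 :=
        sum_eq_zero fun al _ => by rw [ind_of_not (h0 V al), mul_zero]
      rw [this, mul_zero]
    rw [h1]
    simp
  obtain ⟨φ, hφ⟩ : ∃ φ, φ = q / (1 - q) * (1 / μ) ^ r := ⟨_, rfl⟩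
  rw [← hφ] at hθ ⊢
  have hφ0 : 0 < φ := by
    rw [hφ]
    have : 0 < 1 - q := by linarith
    positivity
  obtain ⟨c, hc⟩ : ∃ c, c = 4 * (w : ℝ) * (2 ^ Fintype.card U * 2 * φ) := ⟨_, rfl⟩
  rw [← hc] at hθ ⊢
  have hwR : (0 : ℝ) < w := by exact_mod_cast hw
  have hc0 : 0 < c := by rw [hc]; positivity
  obtain ⟨dec, hdec⟩ := encode_exists H w r L s rk hrk hμ0 hμ1 hq0 hq1 (U := U) (B := B)
  let W : (B × U → Bool) × (B → Bool) → ℝ := fun p => wt (bw (1 - μ)) p.1 * wt (bw q) p.2
  have hW0 : ∀ p, 0 ≤ W p := fun p => mul_nonneg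
    (wt_nonneg (fun i b => EncSumAux.bw_nonneg (by linarith) (by linarith) i b) _)
    (wt_nonneg (fun i b => EncSumAux.bw_nonneg hq0.le hq1.le i b) _)
  have hW1 : ∑ p, W p = 1 := by
    rw [Fintype.sum_prod_type]
    simp only [W]
    simp only [← mul_sum, sum_wt (EncSumAux.bw_sum q), mul_one, sum_wt (EncSumAux.bw_sum (1 - μ))]
  let h : Hint U w → ℝ := fun η => if 1 ≤ nsome η then (φ / c) ^ nsome η else 0
  have hh0 : ∀ η, 0 ≤ h η := by
    intro η
    simp only [h]
    split_ifs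
    · positivity
    · exact le_rfl
  let E := (Σ k : Fin (s + 1), (Fin (k : ℕ) → Hint U w)) × ((B × U → Bool) × (B → Bool))
  let G : E → ℝ := fun e => (if 1 ≤ (e.1.1 : ℕ) then c ^ s * ∏ i, h (e.1.2 i) else 0) * W e.2
  have hG0 : ∀ e, 0 ≤ G e := by
    intro e
    refine mul_nonneg ?_ (hW0 _)
    split_ifs
    · exact mul_nonneg (by positivity) (prod_nonneg fun i _ => hh0 _)
    · exact le_rfl
  have key : ∀ p : (B × U → Bool) × (B → Bool), EvBad H w r L s rk p.1 p.2 →
      ∃ e : E, dec (List.ofFn e.1.2) e.2 = p ∧ W p ≤ G e := by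
    rintro ⟨V, al⟩ ⟨z, k, Q, hch, hQ⟩
    obtain ⟨l, V'', al'', hl1, hl2, hl3, hl4, hl5⟩ := hdec V al z k Q hch
    have hk0 : k ≠ 0 := by
      intro hk
      subst hk
      cases hch
      simp at hQ
      omega
    have hks : k ≤ s := by
      rcases EncSumAux.chain_len hch with h0 | h0
      · exact absurd h0 hk0
      · simpa using h0
    subst hl1
    refine ⟨(⟨⟨l.length, by omega⟩, fun i => l.get i⟩, (V'', al'')), ?_, ?_⟩
    · simp only [List.ofFn_get]
      exact hl4
    · simp only [G]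
      rw [if_pos (by show 1 ≤ l.length; omega)]
      have hprod : ∏ i : Fin l.length, h (l.get i) = (φ / c) ^ Q.card := by
        have h1 : ∀ i : Fin l.length, h (l.get i) = (φ / c) ^ nsome (l.get i) := fun i =>
          if_pos (hl2 _ (List.get_mem l i))
        rw [prod_congr rfl fun i _ => h1 i, prod_pow_eq_pow_sum, ← hl3]
        congr 1
        rw [← List.sum_ofFn]
        congr 1
        apply List.ext_get
        · simp
        · intro n h1 h2
          simp
      have hcQ : c ^ Q.card ≤ c ^ s := pow_le_pow_of_le_one hc0.le hθ hQ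
      have hfin : φ ^ Q.card ≤ c ^ s * (φ / c) ^ Q.card := by
        rw [div_pow, mul_div_assoc', le_div_iff₀ (by positivity), mul_comm]
        exact mul_le_mul_of_nonneg_right hcQ (by positivity)
      calc W (V, al) ≤ φ ^ Q.card * W (V'', al'') := by rw [hφ]; exact hl5
        _ ≤ (c ^ s * (φ / c) ^ Q.card) * W (V'', al'') := mul_le_mul_of_nonneg_right hfin (hW0 _)
        _ = _ := by rw [← hprod]
  have hR : ∑ η : Hint U w, h η ≤ 1 / 2 := by
    have h1 : ∑ η : Hint U w, (φ / c) ^ nsome η ≤ 3 / 2 := by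
      rw [sum_hints]
      have h2 : 2 ^ Fintype.card U * 2 * (φ / c) = 1 / 4 / (w : ℝ) := by
        rw [hc]
        field_simp
      rw [h2]
      calc (1 + 1 / 4 / (w : ℝ)) ^ w ≤ (Real.exp (1 / 4 / (w : ℝ))) ^ w := by
            refine pow_le_pow_left₀ (by positivity) ?_ _
            have := Real.add_one_le_exp (1 / 4 / (w : ℝ))
            linarith
        _ = Real.exp (1 / 4) := by
            rw [← Real.exp_nat_mul]
            congr 1
            field_simp
        _ ≤ 3 / 2 := EncSumAux.exp_quarter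
    have h3 : ∑ η : Hint U w, (h η + if η = (fun _ => none) then 1 else 0) ≤
        ∑ η : Hint U w, (φ / c) ^ nsome η := by
      refine sum_le_sum fun η _ => ?_
      by_cases h4 : 1 ≤ nsome η
      · have h5 : η ≠ fun _ => none := by
          rintro rfl
          simp [nsome] at h4
        rw [if_neg h5, add_zero]
        exact (if_pos h4).le
      · have h5 : nsome η = 0 := by omega
        have h6 : h η = 0 := if_neg h4
        rw [h6, h5, pow_zero]
        split_ifs <;> norm_num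
    rw [sum_add_distrib, sum_ite_eq' univ] at h3
    simp only [mem_univ, if_true] at h3
    linarith
  have hR0 : 0 ≤ ∑ η : Hint U w, h η := sum_nonneg fun η _ => hh0 η
  have hGs : ∑ e : E, G e ≤ c ^ s := by
    have h1 : ∑ e : E, G e = ∑ σ : (Σ k : Fin (s + 1), (Fin (k : ℕ) → Hint U w)),
        (if 1 ≤ (σ.1 : ℕ) then c ^ s * ∏ i, h (σ.2 i) else 0) := by
      rw [Fintype.sum_prod_type]
      refine sum_congr rfl fun σ _ => ?_
      have h9 : ∀ a : ℝ, ∑ v, a * W v = a := fun a => by rw [← mul_sum, hW1, mul_one]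
      exact h9 (if 1 ≤ (σ.1 : ℕ) then c ^ s * ∏ i, h (σ.2 i) else 0)
    rw [h1, Fintype.sum_sigma]
    have h2 : ∀ k : Fin (s + 1), ∑ f : Fin (k : ℕ) → Hint U w,
        (if 1 ≤ (k : ℕ) then c ^ s * ∏ i, h (f i) else 0) =
        if 1 ≤ (k : ℕ) then c ^ s * (∑ η, h η) ^ (k : ℕ) else 0 := by
      intro k
      split_ifs
      · rw [← mul_sum, Fintype.sum_pow]
      · simp
    rw [sum_congr rfl fun k _ => h2 k, Fin.sum_univ_eq_sum_range
      (fun k => if 1 ≤ k then c ^ s * (∑ η, h η) ^ k else 0) (s + 1), sum_range_succ']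
    rw [if_neg (by norm_num), add_zero]
    calc ∑ k ∈ range s, (if 1 ≤ k + 1 then c ^ s * (∑ η, h η) ^ (k + 1) else 0) ≤
        ∑ k ∈ range s, c ^ s * (1 / 2) ^ (k + 1) := by
          refine sum_le_sum fun k _ => ?_
          rw [if_pos (by omega)]
          exact mul_le_mul_of_nonneg_left (pow_le_pow_left₀ hR0 hR _) (by positivity)
      _ = c ^ s * (1 - (1 / 2) ^ s) := by rw [← mul_sum, EncSumAux.geo]
      _ ≤ c ^ s * 1 := by
          refine mul_le_mul_of_nonneg_left ?_ (by positivity)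
          have : (0 : ℝ) ≤ (1 / 2) ^ s := by positivity
          linarith
      _ = c ^ s := mul_one _
  choose! e he1 he2 using key
  let bad : Finset ((B × U → Bool) × (B → Bool)) := univ.filter fun p => EvBad H w r L s rk p.1 p.2
  have hlhs : ∑ V : B × U → Bool, wt (bw (1 - μ)) V *
        pr (bw q) (fun al : B → Bool => EvBad H w r L s rk V al) = ∑ p ∈ bad, W p := by
    simp only [bad]
    rw [sum_filter, Fintype.sum_prod_type]
    refine sum_congr rfl fun V _ => ?_
    rw [pr, mul_sum]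
    refine sum_congr rfl fun al _ => ?_
    by_cases hb : EvBad H w r L s rk V al
    · rw [ind_of hb, if_pos hb, mul_one]
    · rw [ind_of_not hb, if_neg hb, mul_zero, mul_zero]
  rw [hlhs]
  calc ∑ p ∈ bad, W p ≤ ∑ p ∈ bad, G (e p) :=
        sum_le_sum fun p hp => he2 p (mem_filter.1 hp).2
    _ = ∑ x ∈ bad.image e, G x := by
        rw [sum_image]
        intro p hp p' hp' hpp
        have h1 := he1 p (mem_filter.1 hp).2
        have h2 := he1 p' (mem_filter.1 hp').2
        rw [← h1, ← h2, hpp]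
    _ ≤ ∑ x : E, G x := sum_le_sum_of_subset_of_nonneg (subset_univ _) fun x _ _ => hG0 x
    _ ≤ c ^ s := hGs

end P28cd
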