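import Mathlib
import Pool.Agent.Lib.P28cd.Prob

/-!
# Module P28cd.Neg : chains of negative literals are rare

`A` is random, each element with probability `β`; `D` has 1-certificates of size `≤ t`.

PROOF of `neg_chain_at`.  By induction on `r`, for all `z0`, show more generally that for every
`a : X × M → Bool`
  `∑_{A = a on the groups x with z0 x} wt A * ind (EvNegAt D r z0 A) ≤ (t β)^r * ∑_{same A} wt A`  (*)
(`A = a` on the groups which are on: `∀ i, z0 i.1 = true → A i = a i`).
`r = 0`: trivial.  Step: if `D (lift a z0) = false` then (`W = ∅`) `EvNegAt D (r+1) z0 A` is false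
for all these `A`, because `lift A z0 = lift a z0`.  Otherwise let `K`, `|K| ≤ t`, be a 1-certificate
of `D` at `lift a z0`.  If `EvNegAt D (r+1) z0 A` holds with `Y` then `D (lift A (up z0 Y)) = false`
so some `i ∈ K` has `lift A (up z0 Y) i ≠ lift a z0 i = lift A z0 i`; hence `i.1 ∈ Y`,
`z0 i.1 = false` and `A i = true`.  Then `EvNegAt D r (up z0 {i.1}) A` holds with `Y.erase i.1`
(`up (up z0 {x}) W = up z0 (insert x W)`, `|insert x W| ≤ r + 1`).  So
  `ind (EvNegAt D (r+1) z0 A) ≤ ∑_{i ∈ K, z0 i.1 = false} ind (A i = true) * ind (EvNegAt D r (up z0 {i.1}) A)`.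
For each such `i` group the `A` by their restriction to the groups which are on in `up z0 {i.1}`
(`π A = fun j => if up z0 {i.1} j.1 then A j else false`, `Finset.sum_fiberwise`): `A i` is constant on a class, so the
induction hypothesis gives `∑ wt A * ind (A i = true) * ind (EvNegAt D r (up z0 {i.1}) A) ≤ (t β)^r *
∑_{A = a on .., A i = true} wt A = (t β)^r * β * ∑_{A = a on ..} wt A` by `sum_wt_coord`
(the condition `A = a` on the groups which are on in `z0` does not involve coordinate `i`).  Adding
up over at most `t` elements `i` gives (*) for `r + 1`.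
The theorem: `pr` is the sum over all `A`; group by the restriction to the groups which are on.

PROOF of `neg_chain`: union bound over the functions `o : Fin s → Option B` (`O` = the set of
values); there are `(card B + 1)^s` of them and every `O` with at most `s` elements occurs.
-/

set_option autoImplicit false

namespace P28cd

open Finset

namespace NegAux

theorem up_empty {X : Type} [DecidableEq X] (z : X → Bool) : up z ∅ = z := by
  funext x; simp [up]

theorem up_up {X : Type} [DecidableEq X] (z : X → Bool) (x : X) (W : Finset X) :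
    up (up z {x}) W = up z (insert x W) := by
  funext y
  by_cases h1 : y = x <;> by_cases h2 : y ∈ W <;> simp [up, h1, h2]

/-- one certificate for every point -/
noncomputable def Kf {I : Type} {t : ℕ} {D : (I → Bool) → Bool} (hD : OneC t D) (x : I → Bool) :
    Finset I :=
  if h : D x = true then (hD x h).choose else ∅

theorem Kf_card {I : Type} {t : ℕ} {D : (I → Bool) → Bool} (hD : OneC t D) (x : I → Bool) :
    (Kf hD x).card ≤ t := by
  unfold Kf
  split_ifs with h
  · exact (hD x h).choose_spec.1
  · simp

theorem Kf_spec {I : Type} {t : ℕ} {D : (I → Bool) → Bool} (hD : OneC t D) {x : I → Bool}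
    (h : D x = true) (x' : I → Bool) (hx' : ∀ i ∈ Kf hD x, x' i = x i) : D x' = true := by
  unfold Kf at hx'
  rw [dif_pos h] at hx'
  exact (hD x h).choose_spec.2 x' hx'

theorem step {X M : Type} [DecidableEq X] {t : ℕ} {D : (X × M → Bool) → Bool} (hD : OneC t D)
    {r : ℕ} {z0 : X → Bool} {A : X × M → Bool} (h : EvNegAt D (r + 1) z0 A) :
    ∃ i ∈ Kf hD (lift A z0), z0 i.1 = false ∧ A i = true ∧ EvNegAt D r (up z0 {i.1}) A := by
  obtain ⟨Y, hY, hYD, hW⟩ := h
  have hD0 : D (lift A z0) = true := by
    have h1 := hW ∅ (Finset.empty_subset _) (by simp)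
    rwa [up_empty] at h1
  have hex : ∃ i ∈ Kf hD (lift A z0), lift A (up z0 Y) i ≠ lift A z0 i := by
    by_contra hcon
    push Not at hcon
    have h2 := Kf_spec hD hD0 _ hcon
    rw [hYD] at h2
    exact absurd h2 (by simp)
  obtain ⟨i, hi, hne⟩ := hex
  have h3 : A i = true ∧ z0 i.1 = false ∧ i.1 ∈ Y := by
    unfold lift up at hne
    by_cases ha : A i = true
    · by_cases hz : z0 i.1 = true
      · simp [ha, hz] at hne
      · have hz' : z0 i.1 = false := by simpa using hz
        by_cases hm : i.1 ∈ Y
        · exact ⟨ha, hz', hm⟩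
        · simp [ha, hz', hm] at hne
    · have ha' : A i = false := by simpa using ha
      simp [ha'] at hne
  obtain ⟨ha, hz, hm⟩ := h3
  refine ⟨i, hi, hz, ha, Y.erase i.1, ?_, ?_, ?_⟩
  · intro x hx
    have hx1 := Finset.ne_of_mem_erase hx
    have hx2 := hY x (Finset.mem_of_mem_erase hx)
    simp [up, hx1, hx2]
  · rw [up_up, Finset.insert_erase hm]
    exact hYD
  · intro W hWY hWc
    rw [up_up]
    refine hW _ ?_ ?_
    · intro x hx
      rcases Finset.mem_insert.1 hx with h | h
      · rw [h]; exact hm
      · exact Finset.mem_of_mem_erase (hWY h)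
    · exact (Finset.card_insert_le _ _).trans (by omega)

theorem lift_congr {X M : Type} {z0 : X → Bool} {A A' : X × M → Bool}
    (h : ∀ i, z0 i.1 = true → A i = A' i) : lift A z0 = lift A' z0 := by
  funext i
  unfold lift
  by_cases hz : z0 i.1 = true
  · rw [h i hz]
  · have hz' : z0 i.1 = false := by simpa using hz
    simp [hz']

theorem key {X M : Type} [Fintype X] [DecidableEq X] [Fintype M] [DecidableEq M]
    {β : ℝ} (h0 : 0 ≤ β) (h1 : β ≤ 1) (t : ℕ)
    (D : (X × M → Bool) → Bool) (hD : OneC t D) :
    ∀ (r : ℕ) (z0 : X → Bool) (G : (X × M → Bool) → ℝ), (∀ A, 0 ≤ G A) →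
      (∀ A A', (∀ i : X × M, z0 i.1 = true → A i = A' i) → G A = G A') →
      ∑ A : X × M → Bool, wt (bw β) A * (G A * ind (EvNegAt D r z0 A)) ≤
        ((t : ℝ) * β) ^ r * ∑ A : X × M → Bool, wt (bw β) A * G A := by
  classical
  have hw : ∀ A : X × M → Bool, 0 ≤ wt (bw β) A := fun A => wt_nonneg (bw_nonneg h0 h1) A
  intro r
  induction r with
  | zero =>
    intro z0 G hG _
    rw [pow_zero, one_mul]
    refine Finset.sum_le_sum fun A _ => ?_
    exact mul_le_mul_of_nonneg_left (mul_le_of_le_one_right (hG A) (ind_le_one _)) (hw A)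
  | succ r ih =>
    intro z0 G hG hGc
    -- the auxiliary weights
    set H : X × M → (X × M → Bool) → ℝ := fun i A =>
      if z0 i.1 = false ∧ i ∈ Kf hD (lift A z0) then G A else 0 with hH
    have hH0 : ∀ i A, 0 ≤ H i A := by
      intro i A
      simp only [hH]
      split_ifs
      · exact hG A
      · exact le_refl _
    have hHc : ∀ i A A', (∀ j : X × M, z0 j.1 = true → A j = A' j) → H i A = H i A' := by
      intro i A A' h
      simp only [hH]
      rw [lift_congr h, hGc A A' h]
    have hHu : ∀ i A c, z0 i.1 = false → H i (Function.update A i c) = H i A := by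
      intro i A c hz
      refine hHc i _ _ fun j hj => ?_
      have hne : j ≠ i := by
        intro e
        rw [e, hz] at hj
        exact absurd hj (by simp)
      exact Function.update_of_ne hne _ _
    have hpt : ∀ A, G A * ind (EvNegAt D (r + 1) z0 A) ≤
        ∑ i : X × M, (if A i = true then H i A else 0) * ind (EvNegAt D r (up z0 {i.1}) A) := by
      intro A
      have hnn : ∀ i : X × M, 0 ≤ (if A i = true then H i A else 0) *
          ind (EvNegAt D r (up z0 {i.1}) A) := by
        intro i
        refine mul_nonneg ?_ (ind_nonneg _)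
        split_ifs
        · exact hH0 i A
        · exact le_refl _
      by_cases hE : EvNegAt D (r + 1) z0 A
      · obtain ⟨i, hi, hz, ha, hE'⟩ := step hD hE
        have hsing := Finset.single_le_sum (f := fun i : X × M => (if A i = true then H i A else 0) *
          ind (EvNegAt D r (up z0 {i.1}) A)) (fun i _ => hnn i) (Finset.mem_univ i)
        refine le_trans (le_of_eq ?_) hsing
        simp only [hH]
        rw [ind_of hE, ind_of hE', if_pos ha, if_pos ⟨hz, hi⟩]
      · rw [ind_of_not hE, mul_zero]
        exact Finset.sum_nonneg fun i _ => hnn i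
    have hcard : ∀ A, ∑ i : X × M, H i A ≤ (t : ℝ) * G A := by
      intro A
      calc ∑ i : X × M, H i A ≤ ∑ i : X × M, (if i ∈ Kf hD (lift A z0) then G A else 0) := by
            refine Finset.sum_le_sum fun i _ => ?_
            simp only [hH]
            by_cases h2 : i ∈ Kf hD (lift A z0)
            · by_cases h3 : z0 i.1 = false
              · rw [if_pos ⟨h3, h2⟩, if_pos h2]
              · rw [if_neg (fun h => h3 h.1), if_pos h2]
                exact hG A
            · rw [if_neg (fun h => h2 h.2), if_neg h2]
        _ = ((Kf hD (lift A z0)).card : ℝ) * G A := by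
            rw [Finset.sum_ite_mem, Finset.univ_inter, Finset.sum_const, nsmul_eq_mul]
        _ ≤ (t : ℝ) * G A := by
            refine mul_le_mul_of_nonneg_right ?_ (hG A)
            exact_mod_cast Kf_card hD _
    have hterm : ∀ i : X × M, ∑ A : X × M → Bool, wt (bw β) A *
        ((if A i = true then H i A else 0) * ind (EvNegAt D r (up z0 {i.1}) A)) ≤
        ((t : ℝ) * β) ^ r * (β * ∑ A : X × M → Bool, wt (bw β) A * H i A) := by
      intro i
      by_cases hz : z0 i.1 = false
      · have h4 := ih (up z0 {i.1}) (fun A => if A i = true then H i A else 0) (by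
            intro A
            show 0 ≤ (if A i = true then H i A else 0)
            split_ifs
            · exact hH0 i A
            · exact le_refl _) (by
            intro A A' h
            have h5 : A i = A' i := h i (by simp [up])
            have h6 : H i A = H i A' := hHc i A A' fun j hj => h j (by simp [up, hj])
            show (if A i = true then H i A else 0) = (if A' i = true then H i A' else 0)
            rw [h5, h6])
        refine h4.trans (le_of_eq ?_)
        congr 1
        have h7 := sum_wt_coord (w := bw β) (bw_sum β) i true (H i) (fun x c => hHu i x c hz)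
        simpa [bw] using h7
      · have hzero : ∀ A, H i A = 0 := by
          intro A
          simp only [hH]
          rw [if_neg (fun h => hz h.1)]
        have h8 : ∑ A : X × M → Bool, wt (bw β) A *
            ((if A i = true then H i A else 0) * ind (EvNegAt D r (up z0 {i.1}) A)) = 0 := by
          refine Finset.sum_eq_zero fun A _ => ?_
          rw [hzero A]
          simp
        rw [h8]
        refine mul_nonneg (pow_nonneg (mul_nonneg (Nat.cast_nonneg t) h0) r) (mul_nonneg h0 ?_)
        exact Finset.sum_nonneg fun A _ => mul_nonneg (hw A) (hH0 i A)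
    have hpow : 0 ≤ ((t : ℝ) * β) ^ r := pow_nonneg (mul_nonneg (Nat.cast_nonneg t) h0) r
    calc ∑ A : X × M → Bool, wt (bw β) A * (G A * ind (EvNegAt D (r + 1) z0 A))
        ≤ ∑ A : X × M → Bool, wt (bw β) A * ∑ i : X × M,
            (if A i = true then H i A else 0) * ind (EvNegAt D r (up z0 {i.1}) A) :=
          Finset.sum_le_sum fun A _ => mul_le_mul_of_nonneg_left (hpt A) (hw A)
      _ = ∑ i : X × M, ∑ A : X × M → Bool, wt (bw β) A *
            ((if A i = true then H i A else 0) * ind (EvNegAt D r (up z0 {i.1}) A)) := by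
          rw [Finset.sum_comm]
          refine Finset.sum_congr rfl fun A _ => ?_
          rw [Finset.mul_sum]
      _ ≤ ∑ i : X × M, ((t : ℝ) * β) ^ r * (β * ∑ A : X × M → Bool, wt (bw β) A * H i A) :=
          Finset.sum_le_sum fun i _ => hterm i
      _ = ((t : ℝ) * β) ^ r * (β * ∑ A : X × M → Bool, wt (bw β) A * ∑ i : X × M, H i A) := by
          rw [← Finset.mul_sum, ← Finset.mul_sum, Finset.sum_comm]
          congr 2
          refine Finset.sum_congr rfl fun A _ => ?_
          rw [Finset.mul_sum]
      _ ≤ ((t : ℝ) * β) ^ r * (β * ∑ A : X × M → Bool, wt (bw β) A * ((t : ℝ) * G A)) := by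
          refine mul_le_mul_of_nonneg_left (mul_le_mul_of_nonneg_left ?_ h0) hpow
          exact Finset.sum_le_sum fun A _ => mul_le_mul_of_nonneg_left (hcard A) (hw A)
      _ = ((t : ℝ) * β) ^ (r + 1) * ∑ A : X × M → Bool, wt (bw β) A * G A := by
          have h9 : ∑ A : X × M → Bool, wt (bw β) A * ((t : ℝ) * G A) =
              (t : ℝ) * ∑ A : X × M → Bool, wt (bw β) A * G A := by
            rw [Finset.mul_sum]
            exact Finset.sum_congr rfl fun A _ => by ring
          rw [h9, pow_succ]
          ring

/-- the finite set given by a function into `Option B` -/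
def setOf' {B : Type} [DecidableEq B] {s : ℕ} (o : Fin s → Option B) : Finset B :=
  Finset.univ.biUnion fun j => (o j).toFinset

theorem exists_setOf' {B : Type} [DecidableEq B] {s : ℕ} (O : Finset B) (hO : O.card ≤ s) :
    ∃ o : Fin s → Option B, setOf' o = O := by
  classical
  let e := O.equivFin
  refine ⟨fun j => if h : j.1 < O.card then some (e.symm ⟨j.1, h⟩).1 else none, ?_⟩
  ext b
  unfold setOf'
  simp only [Finset.mem_biUnion, Finset.mem_univ, true_and]
  constructor
  · rintro ⟨j, hj⟩
    by_cases h : j.1 < O.card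
    · rw [dif_pos h] at hj
      simp only [Option.toFinset_some, Finset.mem_singleton] at hj
      rw [hj]
      exact (e.symm ⟨j.1, h⟩).2
    · rw [dif_neg h] at hj
      simp at hj
  · intro hb
    refine ⟨⟨(e ⟨b, hb⟩).1, lt_of_lt_of_le (e ⟨b, hb⟩).2 hO⟩, ?_⟩
    rw [dif_pos (e ⟨b, hb⟩).2]
    simp

end NegAux

theorem neg_chain_at {X M : Type} [Fintype X] [DecidableEq X] [Fintype M] [DecidableEq M]
    {β : ℝ} (h0 : 0 ≤ β) (h1 : β ≤ 1) (t r : ℕ)
    (D : (X × M → Bool) → Bool) (hD : OneC t D) (z0 : X → Bool) :
    pr (bw β) (fun A : X × M → Bool => EvNegAt D r z0 A) ≤ ((t : ℝ) * β) ^ r := by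
  have h := NegAux.key h0 h1 t D hD r z0 (fun _ => 1) (fun _ => zero_le_one) (fun _ _ _ => rfl)
  simp only [one_mul, mul_one, sum_wt (w := bw β) (bw_sum β)] at h
  exact h

theorem neg_chain {B U M : Type} [Fintype B] [DecidableEq B] [Fintype U] [DecidableEq U]
    [Fintype M] [DecidableEq M] {β : ℝ} (h0 : 0 ≤ β) (h1 : β ≤ 1) (t s r : ℕ)
    (D : ((B × U) × M → Bool) → Bool) (hD : OneC t D) (V : B × U → Bool) :
    pr (bw β) (fun A : (B × U) × M → Bool => EvNeg D s r V A) ≤
      ((Fintype.card B : ℝ) + 1) ^ s * ((t : ℝ) * β) ^ r := by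
  classical
  calc pr (bw β) (fun A : (B × U) × M → Bool => EvNeg D s r V A)
      ≤ pr (bw β) (fun A : (B × U) × M → Bool => ∃ o : Fin s → Option B,
          EvNegAt D r (st V (NegAux.setOf' o) (fun _ => true) ∅) A) := by
        refine pr_mono (bw_nonneg h0 h1) fun A hA => ?_
        obtain ⟨O, hO, hE⟩ := hA
        obtain ⟨o, ho⟩ := NegAux.exists_setOf' O hO
        exact ⟨o, by rw [ho]; exact hE⟩
    _ ≤ ∑ o : Fin s → Option B, pr (bw β) (fun A : (B × U) × M → Bool =>
          EvNegAt D r (st V (NegAux.setOf' o) (fun _ => true) ∅) A) :=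
        pr_exists_le (bw_nonneg h0 h1) _
    _ ≤ ∑ _o : Fin s → Option B, ((t : ℝ) * β) ^ r :=
        Finset.sum_le_sum fun o _ => neg_chain_at h0 h1 t r D hD _
    _ = ((Fintype.card B : ℝ) + 1) ^ s * ((t : ℝ) * β) ^ r := by
        rw [Finset.sum_const, Finset.card_univ, nsmul_eq_mul, Fintype.card_fun, Fintype.card_option,
          Fintype.card_fin]
        push_cast
        ring

end P28cd
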