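import Mathlib
import Pool.Agent.Lib.P28cd.Prob

/-!
# Module P28cd.Short : short certificates for DNFs of small width at a random point

`D` has 1-certificates of size `≤ t` everywhere (it is a DNF of width `t`), every value of every
coordinate has weight at least `η`.  Then, except with probability `(1 - η^t)^k`, a random point
`z` has `D z = true` or `D z = false` with a 0-certificate of size at most `t k`.

PROOF.  Generalise: for `K : Finset X`, `a : X → Bool` and `k`,
  `∑_{z = a on K} wt z * ind (NS (K.card + t k) z) ≤ (1 - η^t)^k * ∑_{z = a on K} wt z`   (*)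
where `NS n z : D z = false ∧ ¬ ∃ K', K'.card ≤ n ∧ ∀ z', (z' = z on K') → D z' = false`.
(write the sums as `∑ z, wt w z * (if ∀ x ∈ K, z x = a x then .. else 0)`).
`k = 0`: the indicator is at most one.  Step `k → k+1`, for given `K, a`:
* If `D z' = false` for all `z'` with `z' = a` on `K` then `K` itself is a certificate for all
  these points, the left side is `0`.
* Otherwise take `z*` with `z* = a` on `K`, `D z* = true` and let `K*`, `|K*| ≤ t`, be a
  1-certificate at `z*`; `F = K* \ K`, `K₁ = K ∪ F`, `|K₁| ≤ |K| + t`.  If `z = a` on `K` and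
  `z = z*` on `F` then `D z = true`, indicator `0`.  So only `z` with `z = a` on `K` and not
  (`z = z*` on `F`) count; on them `NS (|K| + t (k+1)) z → NS (|K₁| + t k) z`.
  Group these `z` by their restriction to `K₁` (e.g. by `π z = fun x => if x ∈ K₁ then z x else
  false`, `Finset.sum_fiberwise`; both conditions depend only on `π z`), apply the induction
  hypothesis to `(K₁, π z)` in each class and add up:
  `≤ (1 - η^t)^k * ∑_{z = a on K, ¬ (z = z* on F)} wt z`, and by `sum_wt_pattern`
  `∑_{z = a on K, z = z* on F} wt z = (∏_{x ∈ F} w x (z* x)) * ∑_{z = a on K} wt z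
   ≥ η^t * ∑_{z = a on K} wt z`  (`|F| ≤ t`, `η ≤ 1`).
(An induction on `F`, exposing one coordinate at a time, works as well: with `P_F = ∏_{x∈F} w x (z* x)`
 show the bound `(1 - η^t)^k (1 - P_F) * ∑_{z = a on K}`; splitting at `x ∈ F` gives
 `w x (z* x) (1 - P_{F∖x}) + w x (¬ z* x) = 1 - P_F`.)
The theorem is (*) for `K = ∅`, where `∑ wt = 1`.  Note `η ≤ 1/2` since the two weights add up to 1.
If `X` is arbitrary and `t = 0` everything is still fine.
-/

set_option autoImplicit false

namespace P28cd

open Finset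

namespace ShortAux

/-- `D` is false at `z` without a certificate of size at most `n` -/
def NS {X : Type} (D : (X → Bool) → Bool) (n : ℕ) (z : X → Bool) : Prop :=
  D z = false ∧ ¬ ∃ K : Finset X, K.card ≤ n ∧ ∀ z', (∀ x ∈ K, z' x = z x) → D z' = false

theorem NS_mono {X : Type} {D : (X → Bool) → Bool} {n n' : ℕ} (h : n' ≤ n) {z : X → Bool}
    (hz : NS D n z) : NS D n' z := by
  refine ⟨hz.1, ?_⟩
  rintro ⟨K, hK, hK'⟩
  exact hz.2 ⟨K, hK.trans h, hK'⟩

variable {X : Type} [Fintype X] [DecidableEq X]

/-- weight of the points with the pattern `a` on `K` and property `P` -/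
noncomputable def S (w : X → Bool → ℝ) (K : Finset X) (a : X → Bool) (P : (X → Bool) → Prop) :
    ℝ := ∑ z, wt w z * (if ∀ x ∈ K, z x = a x then ind (P z) else 0)

theorem S_mono {w : X → Bool → ℝ} (hw : ∀ i b, 0 ≤ w i b) {K : Finset X} {a : X → Bool}
    {P Q : (X → Bool) → Prop} (h : ∀ z, (∀ x ∈ K, z x = a x) → P z → Q z) :
    S w K a P ≤ S w K a Q := by
  unfold S
  apply Finset.sum_le_sum
  intro z _
  apply mul_le_mul_of_nonneg_left _ (wt_nonneg hw z)
  by_cases hz : ∀ x ∈ K, z x = a x
  · rw [if_pos hz, if_pos hz]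
    exact ind_mono (h z hz)
  · rw [if_neg hz, if_neg hz]

theorem S_false {w : X → Bool → ℝ} {K : Finset X} {a : X → Bool}
    {P : (X → Bool) → Prop} (h : ∀ z, (∀ x ∈ K, z x = a x) → ¬ P z) :
    S w K a P = 0 := by
  unfold S
  apply Finset.sum_eq_zero
  intro z _
  by_cases hz : ∀ x ∈ K, z x = a x
  · rw [if_pos hz, ind_of_not (h z hz), mul_zero]
  · rw [if_neg hz, mul_zero]

theorem S_le_prod {w : X → Bool → ℝ} (hw : ∀ i b, 0 ≤ w i b)
    (hw1 : ∀ x, w x false + w x true = 1) (K : Finset X) (a : X → Bool)
    (P : (X → Bool) → Prop) : S w K a P ≤ ∏ x ∈ K, w x (a x) := by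
  have h1 : S w K a P ≤ S w K a (fun _ => True) := S_mono hw fun _ _ _ => trivial
  refine h1.trans (le_of_eq ?_)
  rw [← pr_pattern hw1 K a]
  unfold S pr
  apply Finset.sum_congr rfl
  intro z _
  by_cases hz : ∀ x ∈ K, z x = a x
  · rw [if_pos hz, ind_of hz, ind_of trivial]
  · rw [if_neg hz, ind_of_not hz]

/-- exposing one coordinate -/
theorem S_split (w : X → Bool → ℝ) (K : Finset X) (a : X → Bool) (P : (X → Bool) → Prop)
    (i : X) (hi : i ∉ K) (b : Bool) :
    S w K a P = S w (insert i K) (Function.update a i b) P +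
      S w (insert i K) (Function.update a i (!b)) P := by
  unfold S
  rw [← Finset.sum_add_distrib]
  apply Finset.sum_congr rfl
  intro z _
  rw [← mul_add]
  congr 1
  have key : ∀ c : Bool, (∀ x ∈ insert i K, z x = Function.update a i c x) ↔
      (z i = c ∧ ∀ x ∈ K, z x = a x) := by
    intro c
    constructor
    · intro h
      refine ⟨?_, ?_⟩
      · simpa using h i (Finset.mem_insert_self i K)
      · intro x hx
        have hne : x ≠ i := fun e => hi (e ▸ hx)
        simpa [Function.update_of_ne hne] using h x (Finset.mem_insert_of_mem hx)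
    · rintro ⟨h1, h2⟩ x hx
      rcases Finset.mem_insert.1 hx with h | h
      · subst h; simpa using h1
      · have hne : x ≠ i := fun e => hi (e ▸ h)
        rw [Function.update_of_ne hne]
        exact h2 x h
  simp only [key]
  by_cases hz : ∀ x ∈ K, z x = a x
  · by_cases hb : z i = b
    · have hb' : ¬ (z i = !b) := by
        rw [hb]; cases b <;> simp
      rw [if_pos hz, if_pos ⟨hb, hz⟩, if_neg (fun h => hb' h.1), add_zero]
    · have hb' : z i = !b := by
        cases h : z i <;> cases b <;> simp_all
      rw [if_pos hz, if_neg (fun h => hb h.1), if_pos ⟨hb', hz⟩, zero_add]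
  · rw [if_neg hz, if_neg (fun h => hz h.2), if_neg (fun h => hz h.2), add_zero]

theorem prod_insert_update (w : X → Bool → ℝ) (K : Finset X) (a : X → Bool) (i : X)
    (hi : i ∉ K) (c : Bool) :
    ∏ x ∈ insert i K, w x (Function.update a i c x) = w i c * ∏ x ∈ K, w x (a x) := by
  rw [Finset.prod_insert hi]
  congr 1
  · simp
  · apply Finset.prod_congr rfl
    intro x hx
    have hne : x ≠ i := fun e => hi (e ▸ hx)
    rw [Function.update_of_ne hne]

theorem avoid {w : X → Bool → ℝ} (hw : ∀ i b, 0 ≤ w i b)
    (hw1 : ∀ x, w x false + w x true = 1) (D : (X → Bool) → Bool) (r : ℝ) (hr : 0 ≤ r) (m : ℕ)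
    (ih : ∀ (K : Finset X) (a : X → Bool), S w K a (NS D (K.card + m)) ≤ r * ∏ x ∈ K, w x (a x))
    (s : X → Bool) (F : Finset X) :
    ∀ (K : Finset X) (a : X → Bool) (n : ℕ), Disjoint K F → K.card + F.card + m ≤ n →
      S w K a (fun z => (¬ ∀ x ∈ F, z x = s x) ∧ NS D n z) ≤
        r * (1 - ∏ x ∈ F, w x (s x)) * ∏ x ∈ K, w x (a x) := by
  induction F using Finset.induction_on with
  | empty =>
    intro K a n _ _
    rw [S_false]
    · simp
    · intro z _ h
      exact h.1 (by simp)
  | @insert i F hi ihF =>
    intro K a n hd hn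
    have hiK : i ∉ K := by
      intro h
      exact (Finset.disjoint_left.1 hd h) (Finset.mem_insert_self i F)
    rw [Finset.card_insert_of_notMem hi] at hn
    have hcard : (insert i K).card = K.card + 1 := Finset.card_insert_of_notMem hiK
    rw [S_split w K a _ i hiK (s i)]
    have h1 : S w (insert i K) (Function.update a i (s i))
        (fun z => (¬ ∀ x ∈ insert i F, z x = s x) ∧ NS D n z) ≤
        r * (1 - ∏ x ∈ F, w x (s x)) * (w i (s i) * ∏ x ∈ K, w x (a x)) := by
      rw [← prod_insert_update w K a i hiK (s i)]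
      refine le_trans (S_mono hw ?_) (ihF (insert i K) (Function.update a i (s i)) n ?_ ?_)
      · intro z hz h
        refine ⟨?_, h.2⟩
        intro h'
        apply h.1
        intro x hx
        rcases Finset.mem_insert.1 hx with e | e
        · subst e
          simpa using hz x (Finset.mem_insert_self x K)
        · exact h' x e
      · rw [Finset.disjoint_left]
        intro x hx hxF
        rcases Finset.mem_insert.1 hx with e | e
        · exact hi (e ▸ hxF)
        · exact (Finset.disjoint_left.1 hd e) (Finset.mem_insert_of_mem hxF)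
      · omega
    have h2 : S w (insert i K) (Function.update a i (!s i))
        (fun z => (¬ ∀ x ∈ insert i F, z x = s x) ∧ NS D n z) ≤
        r * (w i (!s i) * ∏ x ∈ K, w x (a x)) := by
      rw [← prod_insert_update w K a i hiK (!s i)]
      refine le_trans (S_mono hw ?_) (ih (insert i K) (Function.update a i (!s i)))
      intro z _ h
      refine NS_mono ?_ h.2
      omega
    have h3 : w i (s i) + w i (!s i) = 1 := by
      cases s i
      · simpa using hw1 i
      · have := hw1 i
        simp only [Bool.not_true]; linarith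
    rw [Finset.prod_insert hi]
    have h4 : w i (!s i) = 1 - w i (s i) := by linarith
    rw [h4] at h2
    have : r * (1 - w i (s i) * ∏ x ∈ F, w x (s x)) * ∏ x ∈ K, w x (a x) =
        r * (1 - ∏ x ∈ F, w x (s x)) * (w i (s i) * ∏ x ∈ K, w x (a x)) +
        r * ((1 - w i (s i)) * ∏ x ∈ K, w x (a x)) := by ring
    rw [this]
    exact add_le_add h1 h2

theorem main {w : X → Bool → ℝ} (hw1 : ∀ x, w x false + w x true = 1) {η : ℝ} (h0 : 0 ≤ η)
    (h1 : η ≤ 1) (hη : ∀ x b, η ≤ w x b) (t : ℕ) (D : (X → Bool) → Bool) (hD : OneC t D)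
    (k : ℕ) :
    ∀ (K : Finset X) (a : X → Bool),
      S w K a (NS D (K.card + t * k)) ≤ (1 - η ^ t) ^ k * ∏ x ∈ K, w x (a x) := by
  have hw : ∀ i b, 0 ≤ w i b := fun i b => h0.trans (hη i b)
  have hpt : η ^ t ≤ 1 := pow_le_one₀ h0 h1
  have hq : 0 ≤ 1 - η ^ t := by linarith
  induction k with
  | zero =>
    intro K a
    rw [pow_zero, one_mul]
    exact S_le_prod hw hw1 K a _
  | succ k ih =>
    intro K a
    have hprod : 0 ≤ ∏ x ∈ K, w x (a x) := Finset.prod_nonneg fun x _ => hw _ _
    by_cases hA : ∀ z', (∀ x ∈ K, z' x = a x) → D z' = false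
    · rw [S_false]
      · positivity
      · intro z hz h
        apply h.2
        refine ⟨K, by omega, ?_⟩
        intro z' hz'
        apply hA
        intro x hx
        rw [hz' x hx, hz x hx]
    · push Not at hA
      obtain ⟨s, hsK, hsD⟩ := hA
      have hsD' : D s = true := by
        cases h : D s
        · exact absurd h hsD
        · rfl
      obtain ⟨K', hK', hcert⟩ := hD s hsD'
      have hF : (K' \ K).card ≤ t := (Finset.card_le_card Finset.sdiff_subset).trans hK'
      have hav := avoid hw hw1 D ((1 - η ^ t) ^ k) (pow_nonneg hq k) (t * k) ih s (K' \ K) K a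
        (K.card + t * (k + 1)) (Finset.disjoint_sdiff) (by rw [Nat.mul_succ]; omega)
      refine le_trans (S_mono hw ?_) (hav.trans ?_)
      · intro z hz h
        refine ⟨?_, h⟩
        intro h'
        have : D z = true := by
          apply hcert
          intro x hx
          by_cases hxK : x ∈ K
          · rw [hz x hxK, hsK x hxK]
          · exact h' x (Finset.mem_sdiff.2 ⟨hx, hxK⟩)
        rw [h.1] at this
        exact absurd this (by simp)
      · have hP : η ^ t ≤ ∏ x ∈ K' \ K, w x (s x) := by
          calc η ^ t ≤ η ^ (K' \ K).card := pow_le_pow_of_le_one h0 h1 hF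
            _ = ∏ x ∈ K' \ K, η := by rw [Finset.prod_const]
            _ ≤ ∏ x ∈ K' \ K, w x (s x) :=
                Finset.prod_le_prod (fun _ _ => h0) (fun x _ => hη x _)
        rw [pow_succ]
        apply mul_le_mul_of_nonneg_right _ hprod
        apply mul_le_mul_of_nonneg_left _ (pow_nonneg hq k)
        linarith

end ShortAux

theorem short_cert {X : Type} [Fintype X] [DecidableEq X] {w : X → Bool → ℝ}
    (hw1 : ∀ x, w x false + w x true = 1) {η : ℝ} (h0 : 0 ≤ η) (h1 : η ≤ 1)
    (hη : ∀ x b, η ≤ w x b)
    (t k : ℕ) (D : (X → Bool) → Bool) (hD : OneC t D) :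
    pr w (fun z => D z = false ∧ ¬ ∃ K : Finset X, K.card ≤ t * k ∧
      ∀ z', (∀ x ∈ K, z' x = z x) → D z' = false) ≤ (1 - η ^ t) ^ k := by
  have h := ShortAux.main hw1 h0 h1 hη t D hD k ∅ (fun _ => false)
  rw [Finset.prod_empty, mul_one, Finset.card_empty, Nat.zero_add] at h
  refine le_trans (le_of_eq ?_) h
  unfold ShortAux.S pr
  apply Finset.sum_congr rfl
  intro z _
  rw [if_pos (fun x hx => absurd hx (Finset.notMem_empty x))]
  rfl

end P28cd
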