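import Mathlib
import Pool.Agent.Lib.P28cd.Short

/-!
# Module P28cd.Pat : short certificates also after overwriting few blocks

PROOF of `pr_pattern_le`.  Induction on `F`.  `F = ∅`: trivial.  `insert x F`: the event for
`insert x F` at `z` says: for some value `b`, the event `E_b z := ∃ c, P (y ↦ if y ∈ F then c y
else (update z x b) y)`, i.e. `Ev_F (update z x b)`, holds.  `E_b` does not depend on coordinate
`x`, hence by `sum_wt_coord` `w x b * pr w E_b = ∑ z, wt w z * (if z x = b then ind (E_b z) else 0)
= ∑ z, wt w z * (if z x = b then ind (Ev_F z) else 0) ≤ pr w Ev_F`, so `pr w E_b ≤ pr w Ev_F / η`, and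
the union over `b` gives `≤ (2/η) * pr w Ev_F`.

PROOF of `short_pattern`.  Fix a function `o : Fin L → Option B` and let `F` be the set of the
values of `o`.  The coordinates with `x.1 ∈ F` are a set of at most `L * card U` elements, and
`2/η ≥ 1`.  By `pr_pattern_le` and `short_cert` (for `D ∘ lift A`, see `oneC_lift`, with weights
`bw μ` for `z = ¬ V`, see `pr_not`; `η = μ ≤ 1 - μ`) the probability of the event for this `F` is at
most `(2/μ)^(L card U) (1 - μ^t)^k`.  Every `F` with at most `L` elements is the set of values of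
some `o` (enumerate `F`, fill up with `none`); there are `(card B + 1)^L` functions `o`.
`oneC_lift`: if `K` is a 1-certificate of `D` at `lift A z` then `K.image Prod.fst` is one of
`fun z => D (lift A z)` at `z`.
-/

set_option autoImplicit false

namespace P28cd

open Finset

namespace PatAux

theorem step {X : Type} [Fintype X] [DecidableEq X] {w : X → Bool → ℝ}
    (hw1 : ∀ x, w x false + w x true = 1) {η : ℝ} (h0 : 0 < η)
    (hη : ∀ x b, η ≤ w x b) (Q : (X → Bool) → Prop) (x : X) (b : Bool) :
    pr w (fun z => Q (Function.update z x b)) ≤ 1 / η * pr w Q := by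
  have hw : ∀ i b, 0 ≤ w i b := fun i b => h0.le.trans (hη i b)
  have h1 : ∑ z, wt w z * (if z x = b then ind (Q (Function.update z x b)) else 0) =
      w x b * ∑ z, wt w z * ind (Q (Function.update z x b)) :=
    sum_wt_coord hw1 x b (fun z => ind (Q (Function.update z x b))) (by
      intro z c
      simp only [Function.update_idem])
  have h2 : ∑ z, wt w z * (if z x = b then ind (Q (Function.update z x b)) else 0) ≤ pr w Q := by
    unfold pr
    apply Finset.sum_le_sum
    intro z _
    apply mul_le_mul_of_nonneg_left _ (wt_nonneg hw z)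
    by_cases hz : z x = b
    · rw [if_pos hz, ← hz, Function.update_eq_self]
    · rw [if_neg hz]
      exact ind_nonneg _
  have h3 : 0 ≤ pr w (fun z => Q (Function.update z x b)) := pr_nonneg hw _
  have h4 : w x b * pr w (fun z => Q (Function.update z x b)) ≤ pr w Q := by
    unfold pr at h2 ⊢
    rw [← h1]
    exact h2
  have h5 : η * pr w (fun z => Q (Function.update z x b)) ≤ pr w Q :=
    (mul_le_mul_of_nonneg_right (hη x b) h3).trans h4
  rw [one_div, ← div_eq_inv_mul, le_div_iff₀ h0, mul_comm]
  exact h5

theorem card_rows {B U : Type} [Fintype B] [DecidableEq B] [Fintype U] [DecidableEq U]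
    (F : Finset B) :
    ((Finset.univ : Finset (B × U)).filter fun x => x.1 ∈ F).card = F.card * Fintype.card U := by
  have : ((Finset.univ : Finset (B × U)).filter fun x => x.1 ∈ F) = F ×ˢ (Finset.univ : Finset U) := by
    ext x
    simp
  rw [this, Finset.card_product, Finset.card_univ]

/-- the values of `o` -/
def vals {B : Type} [Fintype B] [DecidableEq B] {L : ℕ} (o : Fin L → Option B) : Finset B :=
  Finset.univ.filter fun b => ∃ i, o i = some b

theorem card_vals {B : Type} [Fintype B] [DecidableEq B] {L : ℕ} (o : Fin L → Option B) :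
    (vals o).card ≤ L := by
  have h : (vals o).image some ⊆ (Finset.univ : Finset (Fin L)).image o := by
    intro y hy
    rw [Finset.mem_image] at hy
    obtain ⟨b, hb, rfl⟩ := hy
    unfold vals at hb
    rw [Finset.mem_filter] at hb
    obtain ⟨i, hi⟩ := hb.2
    rw [← hi]
    exact Finset.mem_image_of_mem o (Finset.mem_univ i)
  have h1 : ((vals o).image some).card = (vals o).card :=
    Finset.card_image_of_injective _ (Option.some_injective B)
  rw [← h1]
  refine (Finset.card_le_card h).trans (Finset.card_image_le.trans ?_)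
  rw [Finset.card_univ, Fintype.card_fin]

theorem exists_vals {B : Type} [Fintype B] [DecidableEq B] {L : ℕ} (F : Finset B)
    (hF : F.card ≤ L) : ∃ o : Fin L → Option B, vals o = F := by
  refine ⟨fun i => if h : (i : ℕ) < F.card then
    some (F.equivFin.symm ⟨i, h⟩ : B) else none, ?_⟩
  ext b
  unfold vals
  rw [Finset.mem_filter]
  constructor
  · rintro ⟨-, i, hi⟩
    dsimp only at hi
    by_cases h : (i : ℕ) < F.card
    · rw [dif_pos h, Option.some.injEq] at hi
      rw [← hi]
      exact (F.equivFin.symm ⟨i, h⟩).2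
    · rw [dif_neg h] at hi
      exact absurd hi (by simp)
  · intro hb
    refine ⟨Finset.mem_univ b, ⟨(F.equivFin ⟨b, hb⟩ : ℕ), lt_of_lt_of_le (F.equivFin ⟨b, hb⟩).2 hF⟩, ?_⟩
    dsimp only
    rw [dif_pos (show ((F.equivFin ⟨b, hb⟩ : Fin F.card) : ℕ) < F.card from (F.equivFin ⟨b, hb⟩).2)]
    simp

end PatAux

theorem pr_pattern_le {X : Type} [Fintype X] [DecidableEq X] {w : X → Bool → ℝ}
    (hw1 : ∀ x, w x false + w x true = 1) {η : ℝ} (h0 : 0 < η)
    (hη : ∀ x b, η ≤ w x b) (P : (X → Bool) → Prop) (F : Finset X) :
    pr w (fun z => ∃ c : X → Bool, P (fun x => if x ∈ F then c x else z x)) ≤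
      (2 / η) ^ F.card * pr w P := by
  have hw : ∀ i b, 0 ≤ w i b := fun i b => h0.le.trans (hη i b)
  induction F using Finset.induction_on with
  | empty => simp
  | @insert x F hx ih =>
    have hE : ∀ z : X → Bool,
        (∃ c : X → Bool, P (fun y => if y ∈ insert x F then c y else z y)) →
        (∃ c : X → Bool, P (fun y => if y ∈ F then c y else Function.update z x false y)) ∨
        (∃ c : X → Bool, P (fun y => if y ∈ F then c y else Function.update z x true y)) := by
      rintro z ⟨c, hc⟩
      have key : (fun y => if y ∈ insert x F then c y else z y) =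
          (fun y => if y ∈ F then c y else Function.update z x (c x) y) := by
        funext y
        by_cases hy : y ∈ F
        · rw [if_pos (Finset.mem_insert_of_mem hy), if_pos hy]
        · rw [if_neg hy]
          by_cases hyx : y = x
          · subst hyx
            rw [if_pos (Finset.mem_insert_self y F), Function.update_self]
          · rw [Function.update_of_ne hyx, if_neg]
            intro h
            rcases Finset.mem_insert.1 h with h | h
            · exact hyx h
            · exact hy h
      rw [key] at hc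
      cases hcx : c x
      · rw [hcx] at hc
        exact Or.inl ⟨c, hc⟩
      · rw [hcx] at hc
        exact Or.inr ⟨c, hc⟩
    have h1 := (pr_mono hw hE).trans (pr_or_le hw _ _)
    have h2 : ∀ b : Bool, pr w (fun z => ∃ c : X → Bool,
        P (fun y => if y ∈ F then c y else Function.update z x b y)) ≤
        1 / η * pr w (fun z => ∃ c : X → Bool, P (fun y => if y ∈ F then c y else z y)) :=
      fun b => PatAux.step hw1 h0 hη
        (fun z => ∃ c : X → Bool, P (fun y => if y ∈ F then c y else z y)) x b
    rw [Finset.card_insert_of_notMem hx, pow_succ]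
    have h3 : 0 ≤ 2 / η := by positivity
    calc pr w (fun z => ∃ c : X → Bool, P (fun y => if y ∈ insert x F then c y else z y))
        ≤ _ := h1
      _ ≤ 1 / η * pr w (fun z => ∃ c : X → Bool, P (fun y => if y ∈ F then c y else z y)) +
          1 / η * pr w (fun z => ∃ c : X → Bool, P (fun y => if y ∈ F then c y else z y)) :=
        add_le_add (h2 false) (h2 true)
      _ = 2 / η * pr w (fun z => ∃ c : X → Bool, P (fun y => if y ∈ F then c y else z y)) := by
        ring
      _ ≤ 2 / η * ((2 / η) ^ F.card * pr w P) := mul_le_mul_of_nonneg_left ih h3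
      _ = (2 / η) ^ F.card * (2 / η) * pr w P := by ring

theorem oneC_lift {X M : Type} [DecidableEq X] {t : ℕ} {D : (X × M → Bool) → Bool}
    (hD : OneC t D) (A : X × M → Bool) : OneC t (fun z => D (lift A z)) := by
  intro z hz
  obtain ⟨K, hK, hK'⟩ := hD (lift A z) hz
  refine ⟨K.image Prod.fst, Finset.card_image_le.trans hK, ?_⟩
  intro z' hz'
  apply hK'
  intro i hi
  unfold lift
  rw [hz' i.1 (Finset.mem_image_of_mem Prod.fst hi)]

/-- for fixed `A`: after overwriting at most `L` blocks `D` is true or has a short certificate -/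
theorem short_pattern {B U M : Type} [Fintype B] [DecidableEq B] [Fintype U] [DecidableEq U]
    {μ : ℝ} (h0 : 0 < μ) (h1 : μ ≤ 1 / 2) (t k L : ℕ)
    (D : ((B × U) × M → Bool) → Bool) (hD : OneC t D) (A : (B × U) × M → Bool) :
    pr (bw (1 - μ)) (fun V : B × U → Bool => EvShort D (t * k) L A V) ≤
      (((Fintype.card B : ℝ) + 1) * (2 / μ) ^ Fintype.card U) ^ L * (1 - μ ^ t) ^ k := by
  classical
  have hμ : (1 : ℝ) - (1 - μ) = μ := by ring
  set P : (B × U → Bool) → Prop := fun z => D (lift A z) = false ∧
    ¬ ∃ K : Finset (B × U), K.card ≤ t * k ∧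
      ∀ z', (∀ x ∈ K, z' x = z x) → D (lift A z') = false with hP
  have hη : ∀ (x : B × U) (b : Bool), μ ≤ bw (1 - (1 - μ)) x b := by
    intro x b
    cases b
    · simp only [bw, Bool.false_eq_true, if_false]
      linarith
    · simp only [bw, if_true]
      linarith
  have hsc : pr (bw (1 - (1 - μ))) P ≤ (1 - μ ^ t) ^ k :=
    short_cert (bw_sum _) h0.le (by linarith) hη t k (fun z => D (lift A z)) (oneC_lift hD A)
  have hpt : μ ^ t ≤ 1 := pow_le_one₀ h0.le (by linarith)
  have hq : 0 ≤ (1 - μ ^ t) ^ k := pow_nonneg (by linarith) k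
  have h2 : (1 : ℝ) ≤ 2 / μ := by
    rw [le_div_iff₀ h0]
    linarith
  have hF : ∀ F : Finset B, F.card ≤ L →
      pr (bw (1 - μ)) (fun V : B × U → Bool => ∃ c : B × U → Bool, P (ov V F c)) ≤
        (2 / μ) ^ (L * Fintype.card U) * (1 - μ ^ t) ^ k := by
    intro F hFL
    have h3 := pr_not (I := B × U) (1 - μ) (fun z : B × U → Bool => ∃ c : B × U → Bool,
      P (fun x => if x ∈ (Finset.univ : Finset (B × U)).filter (fun x => x.1 ∈ F)
        then c x else z x))
    have h4 : (fun V : B × U → Bool => ∃ c : B × U → Bool, P (ov V F c)) =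
        (fun V : B × U → Bool => ∃ c : B × U → Bool,
          P (fun x => if x ∈ (Finset.univ : Finset (B × U)).filter (fun x => x.1 ∈ F)
            then c x else !V x)) := by
      funext V
      congr 1
      funext c
      congr 1
      funext x
      unfold ov
      simp only [Finset.mem_filter, Finset.mem_univ, true_and]
    rw [h4, h3]
    refine (pr_pattern_le (bw_sum _) h0 hη P _).trans ?_
    rw [PatAux.card_rows]
    have h5 : (2 / μ) ^ (F.card * Fintype.card U) ≤ (2 / μ) ^ (L * Fintype.card U) :=
      pow_le_pow_right₀ h2 (Nat.mul_le_mul_right _ hFL)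
    have h6 : 0 ≤ pr (bw (1 - (1 - μ))) P :=
      pr_nonneg (fun x b => h0.le.trans (hη x b)) P
    calc (2 / μ) ^ (F.card * Fintype.card U) * pr (bw (1 - (1 - μ))) P
        ≤ (2 / μ) ^ (L * Fintype.card U) * pr (bw (1 - (1 - μ))) P :=
          mul_le_mul_of_nonneg_right h5 h6
      _ ≤ (2 / μ) ^ (L * Fintype.card U) * (1 - μ ^ t) ^ k :=
          mul_le_mul_of_nonneg_left hsc (by positivity)
  have hw : ∀ (i : B × U) (b : Bool), 0 ≤ bw (1 - μ) i b :=
    fun i b => bw_nonneg (by linarith) (by linarith) i b
  have h7 : pr (bw (1 - μ)) (fun V : B × U → Bool => EvShort D (t * k) L A V) ≤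
      pr (bw (1 - μ)) (fun V : B × U → Bool => ∃ o : Fin L → Option B,
        ∃ c : B × U → Bool, P (ov V (PatAux.vals o) c)) := by
    apply pr_mono hw
    rintro V ⟨F, hFL, c, hc⟩
    obtain ⟨o, ho⟩ := PatAux.exists_vals F hFL
    refine ⟨o, c, ?_⟩
    rw [ho]
    exact hc
  refine h7.trans ((pr_exists_le hw _).trans ?_)
  have h8 : ∀ o ∈ (Finset.univ : Finset (Fin L → Option B)),
      pr (bw (1 - μ)) (fun V : B × U → Bool => ∃ c : B × U → Bool,
        P (ov V (PatAux.vals o) c)) ≤ (2 / μ) ^ (L * Fintype.card U) * (1 - μ ^ t) ^ k :=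
    fun o _ => hF _ (PatAux.card_vals o)
  refine (Finset.sum_le_card_nsmul _ _ _ h8).trans (le_of_eq ?_)
  rw [Finset.card_univ, Fintype.card_fun, Fintype.card_option, Fintype.card_fin, nsmul_eq_mul,
    mul_pow, mul_comm L, pow_mul]
  push_cast
  ring

end P28cd
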