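import Mathlib
import Pool.Agent.Lib.P28cd.Pat
import Pool.Agent.Lib.P28cd.Neg
import Pool.Agent.Lib.P28cd.EncSum
import Pool.Agent.Lib.P28cd.Cond

/-!
# Module P28cd.Stage : one stage of the projection exists

PROOF.  Let `A`, `V`, `al` be random with the product weights `bw β`, `bw (1-μ)`, `bw q`; the total
weight `∑_A ∑_V ∑_al wt A wt V wt al` is `1` (`sum_wt`).  Suppose no triple is good.  Then for every
triple one of the following holds, and the total weights are bounded as shown:
 1. some `x` with `A (x,i) = false` for all `i` : `card B * card U * (1-β)^card M` (`pr_pattern` with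
    `K = {(x,i)}`, union over `x`);
 2. some `b` with `V (b,u) = false` for all `u` : `card B * μ^card U`;
 3. some class `c` with `al b = false` for all `b ∈ cls c` : `card C * (1-q)^mh` (`pr_pattern`, `(1-q)^|cls c| ≤ (1-q)^mh`);
 4. some `j` with `EvShort (D j) w L A V` : for fixed `A` `short_pattern`, summed over `A`;
 5. some `j` with `EvNeg (D j) s r V A` : for fixed `V` `neg_chain`, summed over `V`;
 6. some `g` with `EvBad (fun z => G g (lift A z)) w r L s rk V al` : for fixed `A` `enc_sum`, summed over `A`;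
otherwise `cert_of_good` applies to all `g`.  The sum of the six bounds is less than `1`, a contradiction.
`rk` : any injection of the finite type `Ct B U` into `ℕ` (`Fintype.equivFin`).
-/

set_option autoImplicit false

namespace P28cd

open Finset

namespace StageAux

/-- averages over a product weight are bounded by any common bound -/
theorem avg_le {I : Type} [Fintype I] [DecidableEq I] {w : I → Bool → ℝ}
    (hw : ∀ i b, 0 ≤ w i b) (hw1 : ∀ i, w i false + w i true = 1) (f : (I → Bool) → ℝ) {c : ℝ}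
    (hf : ∀ x, f x ≤ c) : ∑ x, wt w x * f x ≤ c := by
  calc ∑ x, wt w x * f x ≤ ∑ x, wt w x * c :=
        Finset.sum_le_sum fun x _ => mul_le_mul_of_nonneg_left (hf x) (wt_nonneg hw x)
    _ = c := by rw [← Finset.sum_mul, sum_wt hw1, one_mul]

/-- probability that a fixed set of coordinates is all false -/
theorem pr_all_false {I : Type} [Fintype I] [DecidableEq I] (p : ℝ) (K : Finset I) :
    pr (bw p) (fun x : I → Bool => ∀ i ∈ K, x i = false) = (1 - p) ^ K.card := by
  have h := pr_pattern (w := bw p) (bw_sum p) K (fun _ => false)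
  rw [h]
  simp [bw]

end StageAux

theorem stage_exists {B U M C : Type} [Fintype B] [DecidableEq B] [Fintype U] [DecidableEq U]
    [Fintype M] [DecidableEq M] [Fintype C]
    {S t s r L k w mh : ℕ} (hw : w = t * k) (htw : t ≤ w) (htr : t ≤ r) (hL : L = s + r)
    (hs : 1 ≤ s) {β μ q : ℝ} (hβ0 : 0 ≤ β) (hβ1 : β ≤ 1) (hμ0 : 0 < μ) (hμ1 : μ ≤ 1 / 2)
    (hq0 : 0 < q) (hq1 : q ≤ 1 / 2)
    (D : Fin S → ((B × U) × M → Bool) → Bool) (hD : ∀ j, OneC t (D j))
    (G : Fin S → ((B × U) × M → Bool) → Bool)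
    (hG : ∀ g, ∃ T : Set (((B × U) × M → Bool) → Bool),
      (∀ h ∈ T, Cert t h ∨ ∃ j, h = D j ∨ h = fun y => !D j y) ∧
      ∀ y, G g y = true ↔ ∀ h ∈ T, h y = true)
    (cls : C → Finset B) (hcls : ∀ c, mh ≤ (cls c).card)
    (hθ : 4 * (w : ℝ) * (2 ^ Fintype.card U * 2 * (q / (1 - q) * (1 / μ) ^ r)) ≤ 1)
    (hsum : (Fintype.card B : ℝ) * Fintype.card U * (1 - β) ^ Fintype.card M +
      (Fintype.card B : ℝ) * μ ^ Fintype.card U +
      (Fintype.card C : ℝ) * (1 - q) ^ mh +
      (S : ℝ) * ((((Fintype.card B : ℝ) + 1) * (2 / μ) ^ Fintype.card U) ^ L *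
        (1 - μ ^ t) ^ k) +
      (S : ℝ) * (((Fintype.card B : ℝ) + 1) ^ s * ((t : ℝ) * β) ^ r) +
      (S : ℝ) * (4 * (w : ℝ) * (2 ^ Fintype.card U * 2 * (q / (1 - q) * (1 / μ) ^ r))) ^ s
        < 1) :
    ∃ (A : (B × U) × M → Bool) (V : B × U → Bool) (al : B → Bool),
      (∀ x, ∃ i, A (x, i) = true) ∧ (∀ b, ∃ u, V (b, u) = true) ∧
      (∀ c, ∃ b ∈ cls c, al b = true) ∧
      ∀ g, Cert s (fun z => G g (lift A (full V al z))) := by
  classical
  by_contra hcon
  -- an injective ranking
  obtain ⟨rk, hrk⟩ : ∃ rk : Ct B U → ℕ, Function.Injective rk :=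
    ⟨fun κ => (Fintype.equivFin (Ct B U) κ).1, fun a b h =>
      (Fintype.equivFin (Ct B U)).injective (Fin.ext h)⟩
  -- the six events
  let E1 : ((B × U) × M → Bool) → Prop := fun A => ∃ x : B × U, ∀ i, A (x, i) = false
  let E2 : (B × U → Bool) → Prop := fun V => ∃ b : B, ∀ u, V (b, u) = false
  let E3 : (B → Bool) → Prop := fun al => ∃ c : C, ∀ b ∈ cls c, al b = false
  let E4 : ((B × U) × M → Bool) → (B × U → Bool) → Prop := fun A V => ∃ j, EvShort (D j) w L A V
  let E5 : ((B × U) × M → Bool) → (B × U → Bool) → Prop := fun A V => ∃ j, EvNeg (D j) s r V A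
  let E6 : ((B × U) × M → Bool) → (B × U → Bool) → (B → Bool) → Prop := fun A V al =>
    ∃ g : Fin S, EvBad (fun z => G g (lift A z)) w r L s rk V al
  have hor : ∀ A V al, E1 A ∨ E2 V ∨ E3 al ∨ E4 A V ∨ E5 A V ∨ E6 A V al := by
    intro A V al
    by_contra hno
    push Not at hno
    obtain ⟨h1, h2, h3, h4, h5, h6⟩ := hno
    refine hcon ⟨A, V, al, ?_, ?_, ?_, ?_⟩
    · intro x
      by_contra hx
      push Not at hx
      exact h1 ⟨x, fun i => by simpa using hx i⟩
    · intro b
      by_contra hx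
      push Not at hx
      exact h2 ⟨b, fun i => by simpa using hx i⟩
    · intro c
      by_contra hx
      push Not at hx
      exact h3 ⟨c, fun b hb => by simpa using hx b hb⟩
    · intro g
      obtain ⟨T, hT, hGT⟩ := hG g
      exact cert_of_good htw htr (le_of_eq hL.symm) rk hrk D hD (G g) T hT hGT A V al
        (fun j hj => h4 ⟨j, hj⟩) (fun j hj => h5 ⟨j, hj⟩) (fun hb => h6 ⟨g, hb⟩)
  have hwA : ∀ (i : (B × U) × M) b, 0 ≤ bw β i b := fun i b => bw_nonneg hβ0 hβ1 i b
  have hwV : ∀ (i : B × U) b, 0 ≤ bw (1 - μ) i b := fun i b =>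
    bw_nonneg (by linarith) (by linarith) i b
  have hwl : ∀ (i : B) b, 0 ≤ bw q i b := fun i b => bw_nonneg hq0.le (by linarith) i b
  have hsA : ∀ i : (B × U) × M, bw β i false + bw β i true = 1 := bw_sum β
  have hsV : ∀ i : B × U, bw (1 - μ) i false + bw (1 - μ) i true = 1 := bw_sum (1 - μ)
  have hsl : ∀ i : B, bw q i false + bw q i true = 1 := bw_sum q
  -- the six bounds
  have b1 : pr (bw β) E1 ≤ (Fintype.card B : ℝ) * Fintype.card U * (1 - β) ^ Fintype.card M := by
    refine (pr_exists_le hwA (fun (x : B × U) (A : (B × U) × M → Bool) =>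
      ∀ i, A (x, i) = false)).trans ?_
    have h : ∀ x : B × U, pr (bw β) (fun A : (B × U) × M → Bool => ∀ i, A (x, i) = false) =
        (1 - β) ^ Fintype.card M := by
      intro x
      have h0 := StageAux.pr_all_false β
        ((Finset.univ : Finset M).map ⟨fun i => (x, i), fun a b h => (Prod.ext_iff.1 h).2⟩)
      rw [Finset.card_map, Finset.card_univ] at h0
      rw [← h0]
      congr 1
      funext A
      simp only [Finset.mem_map, Finset.mem_univ, true_and, forall_exists_index,
        forall_apply_eq_imp_iff]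
      exact propext Iff.rfl
    rw [Finset.sum_congr rfl fun x _ => h x, Finset.sum_const, Finset.card_univ, nsmul_eq_mul,
      Fintype.card_prod]
    push_cast
    exact le_refl _
  have b2 : pr (bw (1 - μ)) E2 ≤ (Fintype.card B : ℝ) * μ ^ Fintype.card U := by
    refine (pr_exists_le hwV (fun (b : B) (V : B × U → Bool) => ∀ u, V (b, u) = false)).trans ?_
    have h : ∀ b : B, pr (bw (1 - μ)) (fun V : B × U → Bool => ∀ u, V (b, u) = false) =
        μ ^ Fintype.card U := by
      intro b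
      have h0 := StageAux.pr_all_false (1 - μ)
        ((Finset.univ : Finset U).map ⟨fun i => (b, i), fun a b h => (Prod.ext_iff.1 h).2⟩)
      rw [Finset.card_map, Finset.card_univ, sub_sub_cancel] at h0
      rw [← h0]
      congr 1
      funext A
      simp only [Finset.mem_map, Finset.mem_univ, true_and, forall_exists_index,
        forall_apply_eq_imp_iff]
      exact propext Iff.rfl
    rw [Finset.sum_congr rfl fun x _ => h x, Finset.sum_const, Finset.card_univ, nsmul_eq_mul]
  have b3 : pr (bw q) E3 ≤ (Fintype.card C : ℝ) * (1 - q) ^ mh := by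
    refine (pr_exists_le hwl (fun (c : C) (al : B → Bool) => ∀ b ∈ cls c, al b = false)).trans ?_
    have h : ∀ c : C, pr (bw q) (fun al : B → Bool => ∀ b ∈ cls c, al b = false) ≤
        (1 - q) ^ mh := by
      intro c
      rw [StageAux.pr_all_false q (cls c)]
      exact pow_le_pow_of_le_one (by linarith) (by linarith) (hcls c)
    refine (Finset.sum_le_sum fun x _ => h x).trans (le_of_eq ?_)
    rw [Finset.sum_const, Finset.card_univ, nsmul_eq_mul]
  have b4 : ∀ A, pr (bw (1 - μ)) (E4 A) ≤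
      (S : ℝ) * ((((Fintype.card B : ℝ) + 1) * (2 / μ) ^ Fintype.card U) ^ L *
        (1 - μ ^ t) ^ k) := by
    intro A
    refine (pr_exists_le hwV (fun (j : Fin S) (V : B × U → Bool) =>
      EvShort (D j) w L A V)).trans ?_
    refine (Finset.sum_le_sum fun j _ => ?_ : _ ≤ ∑ j : Fin S,
      ((((Fintype.card B : ℝ) + 1) * (2 / μ) ^ Fintype.card U) ^ L * (1 - μ ^ t) ^ k)).trans
      (le_of_eq ?_)
    · rw [hw]
      exact short_pattern hμ0 hμ1 t k L (D j) (hD j) A
    · rw [Finset.sum_const, Finset.card_univ, nsmul_eq_mul, Fintype.card_fin]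
  have b5 : ∀ V, pr (bw β) (fun A => E5 A V) ≤
      (S : ℝ) * (((Fintype.card B : ℝ) + 1) ^ s * ((t : ℝ) * β) ^ r) := by
    intro V
    refine (pr_exists_le hwA (fun (j : Fin S) (A : (B × U) × M → Bool) =>
      EvNeg (D j) s r V A)).trans ?_
    refine (Finset.sum_le_sum fun j _ => ?_ : _ ≤ ∑ j : Fin S,
      (((Fintype.card B : ℝ) + 1) ^ s * ((t : ℝ) * β) ^ r)).trans (le_of_eq ?_)
    · exact neg_chain hβ0 hβ1 t s r (D j) (hD j) V
    · rw [Finset.sum_const, Finset.card_univ, nsmul_eq_mul, Fintype.card_fin]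
  have b6 : ∀ A, ∑ V : B × U → Bool, wt (bw (1 - μ)) V * pr (bw q) (E6 A V) ≤
      (S : ℝ) * (4 * (w : ℝ) * (2 ^ Fintype.card U * 2 * (q / (1 - q) * (1 / μ) ^ r))) ^ s := by
    intro A
    calc ∑ V : B × U → Bool, wt (bw (1 - μ)) V * pr (bw q) (E6 A V)
        ≤ ∑ V : B × U → Bool, wt (bw (1 - μ)) V * ∑ g : Fin S, pr (bw q)
            (fun al => EvBad (fun z => G g (lift A z)) w r L s rk V al) :=
          Finset.sum_le_sum fun V _ => mul_le_mul_of_nonneg_left
            (pr_exists_le hwl (fun (g : Fin S) (al : B → Bool) =>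
              EvBad (fun z => G g (lift A z)) w r L s rk V al)) (wt_nonneg hwV V)
      _ = ∑ g : Fin S, ∑ V : B × U → Bool, wt (bw (1 - μ)) V * pr (bw q)
            (fun al => EvBad (fun z => G g (lift A z)) w r L s rk V al) := by
          rw [Finset.sum_comm]
          exact Finset.sum_congr rfl fun V _ => Finset.mul_sum _ _ _
      _ ≤ ∑ g : Fin S,
            (4 * (w : ℝ) * (2 ^ Fintype.card U * 2 * (q / (1 - q) * (1 / μ) ^ r))) ^ s :=
          Finset.sum_le_sum fun g _ => enc_sum _ w r L s hs rk hrk hμ0 (by linarith) hq0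
            (by linarith) hθ
      _ = _ := by rw [Finset.sum_const, Finset.card_univ, nsmul_eq_mul, Fintype.card_fin]
  -- the union bound
  have hpt : ∀ A V al, (1 : ℝ) ≤ ind (E1 A) + ind (E2 V) + ind (E3 al) + ind (E4 A V) +
      ind (E5 A V) + ind (E6 A V al) := by
    intro A V al
    have n1 := ind_nonneg (E1 A)
    have n2 := ind_nonneg (E2 V)
    have n3 := ind_nonneg (E3 al)
    have n4 := ind_nonneg (E4 A V)
    have n5 := ind_nonneg (E5 A V)
    have n6 := ind_nonneg (E6 A V al)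
    rcases hor A V al with h | h | h | h | h | h
    · rw [ind_of h]; linarith
    · rw [ind_of h]; linarith
    · rw [ind_of h]; linarith
    · rw [ind_of h]; linarith
    · rw [ind_of h]; linarith
    · rw [ind_of h]; linarith
  -- sum over `al`
  have s1 : ∀ A V, (1 : ℝ) ≤ ind (E1 A) + ind (E2 V) + pr (bw q) E3 + ind (E4 A V) +
      ind (E5 A V) + pr (bw q) (E6 A V) := by
    intro A V
    have h := Finset.sum_le_sum fun (al : B → Bool) (_ : al ∈ Finset.univ) =>
      mul_le_mul_of_nonneg_left (hpt A V al) (wt_nonneg hwl al)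
    have e : ∀ al : B → Bool, wt (bw q) al * (ind (E1 A) + ind (E2 V) + ind (E3 al) +
        ind (E4 A V) + ind (E5 A V) + ind (E6 A V al)) =
        wt (bw q) al * (ind (E1 A) + ind (E2 V) + ind (E4 A V) + ind (E5 A V)) +
        (wt (bw q) al * ind (E3 al) + wt (bw q) al * ind (E6 A V al)) := by
      intro al; ring
    simp only [mul_one] at h
    rw [sum_wt hsl, Finset.sum_congr rfl fun al _ => e al, Finset.sum_add_distrib,
      Finset.sum_add_distrib, ← Finset.sum_mul, sum_wt hsl, one_mul] at h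
    unfold pr
    linarith
  -- sum over `V`
  have s2 : ∀ A, (1 : ℝ) ≤ ind (E1 A) + pr (bw (1 - μ)) E2 + pr (bw q) E3 +
      pr (bw (1 - μ)) (E4 A) + pr (bw (1 - μ)) (E5 A) +
      ∑ V : B × U → Bool, wt (bw (1 - μ)) V * pr (bw q) (E6 A V) := by
    intro A
    have h := Finset.sum_le_sum fun (V : B × U → Bool) (_ : V ∈ Finset.univ) =>
      mul_le_mul_of_nonneg_left (s1 A V) (wt_nonneg hwV V)
    have e : ∀ V : B × U → Bool, wt (bw (1 - μ)) V * (ind (E1 A) + ind (E2 V) +
        pr (bw q) E3 + ind (E4 A V) + ind (E5 A V) + pr (bw q) (E6 A V)) =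
        wt (bw (1 - μ)) V * (ind (E1 A) + pr (bw q) E3) +
        (wt (bw (1 - μ)) V * ind (E2 V) + (wt (bw (1 - μ)) V * ind (E4 A V) +
        (wt (bw (1 - μ)) V * ind (E5 A V) + wt (bw (1 - μ)) V * pr (bw q) (E6 A V)))) := by
      intro V; ring
    simp only [mul_one] at h
    rw [sum_wt hsV, Finset.sum_congr rfl fun V _ => e V, Finset.sum_add_distrib,
      Finset.sum_add_distrib, Finset.sum_add_distrib, Finset.sum_add_distrib,
      ← Finset.sum_mul, sum_wt hsV, one_mul] at h
    have e2 : pr (bw (1 - μ)) E2 = ∑ V : B × U → Bool, wt (bw (1 - μ)) V * ind (E2 V) := rfl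
    have e4 : pr (bw (1 - μ)) (E4 A) = ∑ V : B × U → Bool, wt (bw (1 - μ)) V * ind (E4 A V) := rfl
    have e5 : pr (bw (1 - μ)) (E5 A) = ∑ V : B × U → Bool, wt (bw (1 - μ)) V * ind (E5 A V) := rfl
    linarith
  -- sum over `A`
  have hS5 : ∑ A : (B × U) × M → Bool, wt (bw β) A * pr (bw (1 - μ)) (E5 A) ≤
      (S : ℝ) * (((Fintype.card B : ℝ) + 1) ^ s * ((t : ℝ) * β) ^ r) := by
    have e : ∑ A : (B × U) × M → Bool, wt (bw β) A * pr (bw (1 - μ)) (E5 A) =
        ∑ V : B × U → Bool, wt (bw (1 - μ)) V * pr (bw β) (fun A => E5 A V) := by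
      unfold pr
      simp only [Finset.mul_sum]
      rw [Finset.sum_comm]
      refine Finset.sum_congr rfl fun V _ => Finset.sum_congr rfl fun A _ => ?_
      ring
    rw [e]
    exact StageAux.avg_le hwV hsV _ b5
  have hS1 : ∑ A : (B × U) × M → Bool, wt (bw β) A * ind (E1 A) = pr (bw β) E1 := rfl
  have h := Finset.sum_le_sum fun (A : (B × U) × M → Bool) (_ : A ∈ Finset.univ) =>
    mul_le_mul_of_nonneg_left (s2 A) (wt_nonneg hwA A)
  have e : ∀ A : (B × U) × M → Bool, wt (bw β) A * (ind (E1 A) + pr (bw (1 - μ)) E2 +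
      pr (bw q) E3 + pr (bw (1 - μ)) (E4 A) + pr (bw (1 - μ)) (E5 A) +
      ∑ V : B × U → Bool, wt (bw (1 - μ)) V * pr (bw q) (E6 A V)) =
      wt (bw β) A * (pr (bw (1 - μ)) E2 + pr (bw q) E3) +
      (wt (bw β) A * ind (E1 A) + (wt (bw β) A * pr (bw (1 - μ)) (E4 A) +
      (wt (bw β) A * pr (bw (1 - μ)) (E5 A) +
      wt (bw β) A * ∑ V : B × U → Bool, wt (bw (1 - μ)) V * pr (bw q) (E6 A V)))) := by
    intro A; ring
  simp only [mul_one] at h
  rw [sum_wt hsA, Finset.sum_congr rfl fun A _ => e A, Finset.sum_add_distrib,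
    Finset.sum_add_distrib, Finset.sum_add_distrib, Finset.sum_add_distrib,
    ← Finset.sum_mul, sum_wt hsA, one_mul] at h
  have hS4 := StageAux.avg_le hwA hsA _ b4
  have hS6 := StageAux.avg_le hwA hsA _ b6
  linarith

end P28cd
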