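import Mathlib
import Pool.Agent.Lib.P28cd.Stage
import Pool.Agent.Lib.P28cd.Comp

/-!
# Module P28cd.Col : one stage removes two levels of a family

PROOF.  `fam_parts` gives `D`, `G`; `stage_exists` with `s = t`, `r = 2 t`, `L = 3 t`, `w = t k` gives
`A, V, al` (`L = s + r`, `t ≤ w` as `k ≥ 1`).  For `level g ≤ 2`, `Cert t (fun z => val g (lift A (full V al z)))` because `val g`
is `G g` or its negation (`Cert.not`).  `fam_shift` with `R z = lift A (full V al z)`; every coordinate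
`A i && (!V i.1 || (al i.1.1 && z i.1.1))` depends on at most the variable `i.1.1`.
-/

set_option autoImplicit false

namespace P28cd

open Finset

theorem collapse {B U M C : Type} [Fintype B] [DecidableEq B] [Fintype U] [DecidableEq U]
    [Fintype M] [DecidableEq M] [Fintype C]
    {S t k mh : ℕ} (ht : 1 ≤ t) (hk : 1 ≤ k)
    {β μ q : ℝ} (hβ0 : 0 ≤ β) (hβ1 : β ≤ 1) (hμ0 : 0 < μ) (hμ1 : μ ≤ 1 / 2)
    (hq0 : 0 < q) (hq1 : q ≤ 1 / 2)
    {level : Fin S → ℕ} {val : Fin S → ((B × U) × M → Bool) → Bool} (hF : Fam t level val)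
    (cls : C → Finset B) (hcls : ∀ c, mh ≤ (cls c).card)
    (hθ : 4 * ((t * k : ℕ) : ℝ) *
      (2 ^ Fintype.card U * 2 * (q / (1 - q) * (1 / μ) ^ (2 * t))) ≤ 1)
    (hsum : (Fintype.card B : ℝ) * Fintype.card U * (1 - β) ^ Fintype.card M +
      (Fintype.card B : ℝ) * μ ^ Fintype.card U +
      (Fintype.card C : ℝ) * (1 - q) ^ mh +
      (S : ℝ) * ((((Fintype.card B : ℝ) + 1) * (2 / μ) ^ Fintype.card U) ^ (3 * t) *
        (1 - μ ^ t) ^ k) +
      (S : ℝ) * (((Fintype.card B : ℝ) + 1) ^ t * ((t : ℝ) * β) ^ (2 * t)) +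
      (S : ℝ) * (4 * ((t * k : ℕ) : ℝ) *
        (2 ^ Fintype.card U * 2 * (q / (1 - q) * (1 / μ) ^ (2 * t)))) ^ t
        < 1) :
    ∃ (A : (B × U) × M → Bool) (V : B × U → Bool) (al : B → Bool),
      (∀ x, ∃ i, A (x, i) = true) ∧ (∀ b, ∃ u, V (b, u) = true) ∧
      (∀ c, ∃ b ∈ cls c, al b = true) ∧
      Fam t (fun g => level g - 2) (fun g z => val g (lift A (full V al z))) := by
  obtain ⟨D, G, hD, hG, hGv⟩ := fam_parts hF
  have htw : t ≤ t * k := Nat.le_mul_of_pos_right t (by omega)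
  obtain ⟨A, V, al, hA, hV, hal, hc⟩ := stage_exists (S := S) (t := t) (s := t) (r := 2 * t)
    (L := 3 * t) (k := k) (w := t * k) (mh := mh) rfl htw (by omega) (by omega) ht hβ0 hβ1 hμ0 hμ1
    hq0 hq1 D hD G hG cls hcls hθ hsum
  refine ⟨A, V, al, hA, hV, hal, ?_⟩
  refine fam_shift hF (fun z => lift A (full V al z)) ?_ ?_
  · intro i
    refine ⟨{i.1.1}, by simp, ?_⟩
    intro x x' h
    have h1 : x i.1.1 = x' i.1.1 := h _ (by simp)
    simp only [lift, full, h1]
  · intro g hg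
    rcases hGv g hg with h | h
    · have := hc g
      simpa only [h] using this
    · have h2 := (hc g).not
      have h3 : (fun z => val g (lift A (full V al z))) =
          fun z => !G g (lift A (full V al z)) := by
        funext z
        rw [h, Bool.not_not]
      rw [h3]
      exact h2

end P28cd
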