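import Mathlib
import Pool.Agent.Lib.P28cd.GDefs

/-!
# Module P28cd.Det : deterministic reachability (out-degree one) in small depth

`E` is functional if every vertex has at most one out-arc.  Make `t` absorbing, let the vertices
without out-arc stay, and let `F` be the resulting map.  For functional `E` there is a walk of at most `k` arcs from `s` to `t` iff
`F^[k] s = t`.  The gate `gA j L q` (level `j`) is true iff `F^[L_i] (q i) = q (i+1)` for all `i < ℓ`,
`L_i = min (ℓ^j) (L - i ℓ^j)`, for `L ≤ ℓ^(j+1)`.  Since `F` is a map, `F^[L'] a = b` iff for every `q'` with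
`q' 0 = a`, `q' ℓ ≠ b` the gate `gA (j-1) L' q'` is false; so only one level is needed for each `j`.
-/

set_option autoImplicit false

namespace P28cd

namespace DetAux

open Finset

variable {n : ℕ}

/-- one step: a self-loop stands for: no arc to another vertex -/
noncomputable def stp (a b : Fin n) (E : Fin n → Fin n → Bool) : Bool := by
  classical
  exact if a = b then decide (∀ w, w ≠ a → E a w = false) else E a b

/-- zero steps or one step, `t` absorbing -/
noncomputable def lit (t a b : Fin n) (L : ℕ) (E : Fin n → Fin n → Bool) : Bool :=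
  if L = 0 then decide (a = b) else if a = t then decide (t = b) else stp a b E

/-- the AND gates -/
noncomputable def gA (ℓ : ℕ) (t : Fin n) : ℕ → ℕ → (Fin (ℓ + 1) → Fin n) →
    (Fin n → Fin n → Bool) → Bool
  | 0, L, q, E => by
      classical
      exact decide (∀ i : Fin ℓ, lit t (q i.castSucc) (q i.succ) (min 1 (L - i)) E = true)
  | j + 1, L, q, E => by
      classical
      exact decide (∀ i : Fin ℓ, ∀ q' : Fin (ℓ + 1) → Fin n, q' 0 = q i.castSucc →
        q' (Fin.last ℓ) ≠ q i.succ →
        gA ℓ t j (min (ℓ ^ (j + 1)) (L - i * ℓ ^ (j + 1))) q' E = false)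

/-- every vertex has at most one out-arc -/
def Functional (E : Fin n → Fin n → Bool) : Prop :=
  ∀ v w w', E v w = true → E v w' = true → w = w'

/-- the map with absorbing `t`; vertices without out-arc stay -/
noncomputable def nx (E : Fin n → Fin n → Bool) (t v : Fin n) : Fin n := by
  classical
  exact if v = t then t else if h : ∃ w, E v w = true then h.choose else v

theorem nx_t (E : Fin n → Fin n → Bool) (t : Fin n) : nx E t t = t := by simp [nx]

theorem nx_of_arc {E : Fin n → Fin n → Bool} (hE : Functional E) {t a b : Fin n} (ha : a ≠ t)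
    (h : E a b = true) : nx E t a = b := by
  have hex : ∃ w, E a w = true := ⟨b, h⟩
  simp only [nx, if_neg ha, dif_pos hex]
  exact hE a _ _ hex.choose_spec h

theorem nx_of_none {E : Fin n → Fin n → Bool} {t a : Fin n}
    (h : ¬ ∃ w, E a w = true) : nx E t a = a := by
  by_cases ha : a = t
  · rw [ha, nx_t]
  · simp only [nx, if_neg ha, dif_neg h]

theorem nx_eq_iff {E : Fin n → Fin n → Bool} (hE : Functional E) {t a : Fin n} (ha : a ≠ t)
    (b : Fin n) : nx E t a = b ↔ stp a b E = true := by
  by_cases hex : ∃ w, E a w = true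
  · obtain ⟨w, hw⟩ := hex
    rw [nx_of_arc hE ha hw]
    by_cases hab : a = b
    · simp only [stp, if_pos hab, decide_eq_true_eq]
      constructor
      · intro h w' hw'
        by_contra hne
        rw [Bool.not_eq_false] at hne
        have := hE a _ _ hne hw
        exact hw' (by rw [this, h, ← hab])
      · intro h
        by_contra hne
        have := h w (by rw [hab]; exact hne)
        rw [hw] at this
        exact absurd this (by decide)
    · simp only [stp, if_neg hab]
      constructor
      · intro h; rw [← h]; exact hw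
      · intro h; exact hE a _ _ hw h
  · rw [nx_of_none hex]
    by_cases hab : a = b
    · simp only [stp, if_pos hab, decide_eq_true_eq]
      refine ⟨fun _ w _ => ?_, fun _ => hab⟩
      by_contra hne
      rw [Bool.not_eq_false] at hne
      exact hex ⟨w, hne⟩
    · simp only [stp, if_neg hab]
      exact ⟨fun h => absurd h hab, fun h => absurd ⟨b, h⟩ hex⟩

theorem iter_fix {F : Fin n → Fin n} {a : Fin n} (h : F a = a) (m : ℕ) : F^[m] a = a := by
  induction m with
  | zero => rfl
  | succ m ih => rw [Function.iterate_succ_apply, h, ih]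

theorem walk_iff {E : Fin n → Fin n → Bool} (hE : Functional E) (k : ℕ) (s t : Fin n) :
    Walk E k s t ↔ (nx E t)^[k] s = t := by
  constructor
  · rintro ⟨j, hj, p, h0, h1, h2⟩
    have key : ∀ i ≤ j, (nx E t)^[i] s = p i ∨ (nx E t)^[i] s = t := by
      intro i
      induction i with
      | zero => intro _; left; simp [h0]
      | succ i ih =>
        intro hi
        rw [Function.iterate_succ_apply']
        rcases ih (by omega) with h | h
        · by_cases hpt : p i = t
          · right; rw [h, hpt, nx_t]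
          · left; rw [h]; exact nx_of_arc hE hpt (h2 i (by omega))
        · right; rw [h, nx_t]
    have hjt : (nx E t)^[j] s = t := by
      rcases key j le_rfl with h | h
      · rw [h, h1]
      · exact h
    have : k = (k - j) + j := by omega
    rw [this, Function.iterate_add_apply, hjt, iter_fix (nx_t E t)]
  · intro h
    classical
    have hex : ∃ j, (nx E t)^[j] s = t := ⟨k, h⟩
    refine ⟨Nat.find hex, Nat.find_min' hex h, fun i => (nx E t)^[i] s, rfl,
      Nat.find_spec hex, ?_⟩
    intro i hi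
    have hne : (nx E t)^[i] s ≠ t := Nat.find_min hex hi
    show E _ ((nx E t)^[i + 1] s) = true
    rw [Function.iterate_succ_apply']
    by_cases ho : ∃ w, E ((nx E t)^[i] s) w = true
    · obtain ⟨w, hw⟩ := ho
      rw [nx_of_arc hE hne hw]
      exact hw
    · exfalso
      have h1 := iter_fix (nx_of_none (t := t) ho) (Nat.find hex - i)
      rw [← Function.iterate_add_apply, Nat.sub_add_cancel hi.le, Nat.find_spec hex] at h1
      exact hne h1.symm

theorem part_sum (X L m : ℕ) :
    min ((m + 1) * X) L = min (m * X) L + min X (L - m * X) := by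
  have : (m + 1) * X = m * X + X := by ring
  rw [this]
  generalize m * X = y
  omega

theorem traj {ℓ : ℕ} (F : Fin n → Fin n) (X L : ℕ) (q : Fin (ℓ + 1) → Fin n)
    (h : ∀ i : Fin ℓ, F^[min X (L - i * X)] (q i.castSucc) = q i.succ) :
    ∀ m : Fin (ℓ + 1), q m = F^[min (m * X) L] (q 0) := by
  intro m
  induction m using Fin.induction with
  | zero => simp
  | succ i ih =>
    rw [← h i, ih]
    rw [← Function.iterate_add_apply]
    congr 1
    have := part_sum X L i
    simp only [Fin.val_castSucc, Fin.val_succ]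
    rw [this, Nat.add_comm]

theorem exists_traj {ℓ : ℕ} (F : Fin n → Fin n) (X L : ℕ) (a : Fin n) :
    ∃ q : Fin (ℓ + 1) → Fin n, q 0 = a ∧ q (Fin.last ℓ) = F^[min (ℓ * X) L] a ∧
      ∀ i : Fin ℓ, F^[min X (L - i * X)] (q i.castSucc) = q i.succ := by
  refine ⟨fun m => F^[min (m * X) L] a, by simp, by simp, ?_⟩
  intro i
  simp only [Fin.val_castSucc, Fin.val_succ]
  rw [← Function.iterate_add_apply, part_sum X L i, Nat.add_comm]

theorem gA_iff {ℓ : ℕ} {E : Fin n → Fin n → Bool} (hE : Functional E) (t : Fin n) (j : ℕ) :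
    ∀ (L : ℕ) (q : Fin (ℓ + 1) → Fin n), L ≤ ℓ ^ (j + 1) →
      (gA ℓ t j L q E = true ↔
        ∀ i : Fin ℓ, (nx E t)^[min (ℓ ^ j) (L - i * ℓ ^ j)] (q i.castSucc) = q i.succ) := by
  induction j with
  | zero =>
    intro L q hL
    simp only [gA, decide_eq_true_eq, pow_zero, mul_one]
    refine forall_congr' fun i => ?_
    rcases Nat.eq_zero_or_pos (L - i) with h | h
    · rw [h]
      simp [lit]
    · have h1 : min 1 (L - (i : ℕ)) = 1 := by omega
      rw [h1]
      simp only [lit, one_ne_zero, if_false, Function.iterate_one]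
      by_cases ha : q i.castSucc = t
      · rw [if_pos ha, ha, nx_t]; simp
      · rw [if_neg ha]
        exact (nx_eq_iff hE ha _).symm
  | succ j ih =>
    intro L q hL
    simp only [gA, decide_eq_true_eq]
    refine forall_congr' fun i => ?_
    set L' := min (ℓ ^ (j + 1)) (L - i * ℓ ^ (j + 1)) with hL'
    have hle : L' ≤ ℓ ^ (j + 1) := min_le_left _ _
    have hfin : min (ℓ * ℓ ^ j) L' = L' := by
      rw [pow_succ, Nat.mul_comm] at hle
      exact min_eq_right hle
    constructor
    · intro h
      obtain ⟨q', h0, h1, h2⟩ := exists_traj (ℓ := ℓ) (nx E t) (ℓ ^ j) L' (q i.castSucc)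
      rw [hfin] at h1
      by_contra hne
      have := h q' h0 (by rw [h1]; exact hne)
      rw [(ih L' q' hle).2 h2] at this
      exact absurd this (by decide)
    · intro h q' h0 h1
      by_contra hne
      rw [Bool.not_eq_false] at hne
      have h2 := traj (nx E t) (ℓ ^ j) L' q' ((ih L' q' hle).1 hne) (Fin.last ℓ)
      rw [Fin.val_last, hfin, h0, h] at h2
      exact h1 h2

/-- the output -/
noncomputable def gO (ℓ k D : ℕ) (s t : Fin n) (E : Fin n → Fin n → Bool) : Bool := by
  classical
  exact decide (∃ q : Fin (ℓ + 1) → Fin n, q 0 = s ∧ q (Fin.last ℓ) = t ∧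
    gA ℓ t D k q E = true)

theorem gO_iff {ℓ k D : ℕ} {E : Fin n → Fin n → Bool} (hE : Functional E) (s t : Fin n)
    (hk : k ≤ ℓ ^ (D + 1)) : gO ℓ k D s t E = true ↔ Walk E k s t := by
  rw [walk_iff hE]
  have hfin : min (ℓ * ℓ ^ D) k = k := by
    rw [pow_succ, Nat.mul_comm] at hk
    exact min_eq_right hk
  simp only [gO, decide_eq_true_eq]
  constructor
  · rintro ⟨q, h0, h1, h2⟩
    have h3 := traj (nx E t) (ℓ ^ D) k q ((gA_iff hE t D k q hk).1 h2) (Fin.last ℓ)
    rw [Fin.val_last, hfin, h0, h1] at h3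
    exact h3.symm
  · intro h
    obtain ⟨q', h0, h1, h2⟩ := exists_traj (ℓ := ℓ) (nx E t) (ℓ ^ D) k s
    rw [hfin, h] at h1
    exact ⟨q', h0, h1, (gA_iff hE t D k q' hk).2 h2⟩

/-- index type of the gates -/
abbrev Ix (n ℓ k D : ℕ) : Type := (Fin D × Fin (k + 1) × (Fin (ℓ + 1) → Fin n)) ⊕ Unit

/-- levels -/
def lev {ℓ k D : ℕ} : Ix n ℓ k D → ℕ
  | Sum.inl x => x.1
  | Sum.inr _ => D

/-- values -/
noncomputable def vl {ℓ k D : ℕ} (s t : Fin n) : Ix n ℓ k D → (Fin n → Fin n → Bool) → Bool
  | Sum.inl x => gA ℓ t x.1 x.2.1 x.2.2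
  | Sum.inr _ => gO ℓ k (D - 1) s t

/-- available functions for an arbitrary index type -/
def Av {I X : Type} (P : Set (X → Bool)) (level : I → ℕ) (val : I → X → Bool) (m : ℕ) :
    Set (X → Bool) :=
  {f | f ∈ P ∨ ∃ g, level g < m ∧ (f = val g ∨ f = fun x => !val g x)}

theorem gate_zero {ℓ : ℕ} (s t : Fin n) (L : ℕ) (q : Fin (ℓ + 1) → Fin n) :
    ∃ T ⊆ Lits n, IsGate T (gA ℓ t 0 L q) := by
  refine ⟨{h | h ∈ Lits n ∧ ∃ i : Fin ℓ, ∀ E,
    lit t (q i.castSucc) (q i.succ) (min 1 (L - i)) E = true → h E = true},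
    fun h hh => hh.1, Or.inl fun E => ?_⟩
  simp only [gA, decide_eq_true_eq]
  constructor
  · rintro h f ⟨-, i, hi⟩
    exact hi E (h i)
  · intro h i
    by_cases hL : min 1 (L - (i : ℕ)) = 0
    · by_contra hne
      have hab : ¬ q i.castSucc = q i.succ := by
        intro hab; apply hne; simp [lit, hL, hab]
      have hf : ∀ E' : Fin n → Fin n → Bool,
          lit t (q i.castSucc) (q i.succ) (min 1 (L - i)) E' = true → False := by
        intro E' hE'; simp [lit, hL, hab] at hE'
      have h1 := h (fun E => E s s) ⟨⟨s, s, Or.inl rfl⟩, i, fun E' h' => (hf E' h').elim⟩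
      have h2 := h (fun E => !E s s) ⟨⟨s, s, Or.inr rfl⟩, i, fun E' h' => (hf E' h').elim⟩
      have h1' : E s s = true := h1
      have h2' : (!E s s) = true := h2
      rw [h1'] at h2'
      exact absurd h2' (by decide)
    · by_cases ha : q i.castSucc = t
      · by_contra hne
        have hab : ¬ t = q i.succ := by
          intro hab; apply hne; simp [lit, hL, ha, ← hab]
        have hf : ∀ E' : Fin n → Fin n → Bool,
            lit t (q i.castSucc) (q i.succ) (min 1 (L - i)) E' = true → False := by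
          intro E' hE'; simp [lit, hL, ha, hab] at hE'
        have h1 := h (fun E => E s s) ⟨⟨s, s, Or.inl rfl⟩, i, fun E' h' => (hf E' h').elim⟩
        have h2 := h (fun E => !E s s) ⟨⟨s, s, Or.inr rfl⟩, i, fun E' h' => (hf E' h').elim⟩
        have h1' : E s s = true := h1
        have h2' : (!E s s) = true := h2
        rw [h1'] at h2'
        exact absurd h2' (by decide)
      · by_cases hab : q i.castSucc = q i.succ
        · simp only [lit, if_neg hL, if_neg ha, stp, if_pos hab, decide_eq_true_eq]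
          intro w hw
          have h1 := h (fun E => !E (q i.castSucc) w) ⟨⟨_, _, Or.inr rfl⟩, i, by
            intro E' hE'
            simp only [lit, if_neg hL, if_neg ha, stp, if_pos hab, decide_eq_true_eq] at hE'
            simp [hE' w hw]⟩
          simpa using h1
        · have h1 := h (fun E => E (q i.castSucc) (q i.succ)) ⟨⟨_, _, Or.inl rfl⟩, i, by
            intro E' hE'
            simpa only [lit, if_neg hL, if_neg ha, stp, if_neg hab] using hE'⟩
          simpa only [lit, if_neg hL, if_neg ha, stp, if_neg hab] using h1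

theorem gates {ℓ k D : ℕ} (s t : Fin n) (g : Ix n ℓ k (D + 1)) :
    ∃ T ⊆ Av (Lits n) (lev (n := n) (ℓ := ℓ) (k := k) (D := D + 1)) (vl s t) (lev g),
      IsGate T (vl s t g) := by
  rcases g with ⟨j, L, q⟩ | u
  · rcases j with ⟨j, hj⟩
    cases j with
    | zero =>
      obtain ⟨T, hT, hg⟩ := gate_zero (ℓ := ℓ) s t L q
      exact ⟨T, fun h hh => Or.inl (hT hh), hg⟩
    | succ j =>
      have hjD : j < D + 1 := by omega
      refine ⟨{h | ∃ (i : Fin ℓ) (q' : Fin (ℓ + 1) → Fin n), q' 0 = q i.castSucc ∧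
        q' (Fin.last ℓ) ≠ q i.succ ∧
        h = fun E => !gA ℓ t j (min (ℓ ^ (j + 1)) (L - i * ℓ ^ (j + 1))) q' E}, ?_, ?_⟩
      · rintro h ⟨i, q', h0, h1, rfl⟩
        refine Or.inr ⟨Sum.inl (⟨j, hjD⟩,
          ⟨min (ℓ ^ (j + 1)) (L - i * ℓ ^ (j + 1)), ?_⟩, q'), ?_, Or.inr rfl⟩
        · have := L.2
          omega
        · simp [lev]
      · refine Or.inl fun E => ?_
        simp only [vl, gA, decide_eq_true_eq]
        constructor
        · rintro h f ⟨i, q', h0, h1, rfl⟩
          simp [h i q' h0 h1]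
        · intro h i q' h0 h1
          have := h _ ⟨i, q', h0, h1, rfl⟩
          simpa using this
  · refine ⟨{h | ∃ q : Fin (ℓ + 1) → Fin n, q 0 = s ∧ q (Fin.last ℓ) = t ∧
      h = gA ℓ t D k q}, ?_, ?_⟩
    · rintro h ⟨q, h0, h1, rfl⟩
      exact Or.inr ⟨Sum.inl (⟨D, by omega⟩, ⟨k, by omega⟩, q), by simp [lev], Or.inl rfl⟩
    · refine Or.inr fun E => ?_
      simp only [vl, gO, Nat.add_sub_cancel, decide_eq_true_eq]
      constructor
      · rintro ⟨q, h0, h1, h2⟩
        exact ⟨_, ⟨q, h0, h1, rfl⟩, h2⟩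
      · rintro ⟨_, ⟨q, h0, h1, rfl⟩, h2⟩
        exact ⟨q, h0, h1, h2⟩

/-- transport of a circuit to `Fin S` -/
theorem circ_of {I X : Type} [Fintype I] (P : Set (X → Bool)) (d : ℕ) (level : I → ℕ)
    (val : I → X → Bool) (out : I) (hl : ∀ g, level g < d)
    (hg : ∀ g, ∃ T ⊆ Av P level val (level g), IsGate T (val g)) :
    Circ P d (Fintype.card I) (val out) := by
  classical
  let e := Fintype.equivFin I
  refine ⟨fun g => level (e.symm g), fun g => val (e.symm g), e out, fun g => hl _, ?_,
    by simp⟩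
  intro g
  obtain ⟨T, hT, hG⟩ := hg (e.symm g)
  refine ⟨T, fun f hf => ?_, hG⟩
  rcases hT hf with h | ⟨g', h1, h2⟩
  · exact Or.inl h
  · exact Or.inr ⟨e g', by simpa using h1, by simpa using h2⟩

end DetAux

/-- DETERMINISTIC REACHABILITY IN SMALL DEPTH.  On the digraphs in which every vertex has at most
one out-arc walks of at most `k ≤ ℓ ^ D` arcs are decided in depth `D + 1` with
`D (k + 1) n ^ (ℓ + 1) + 1` gates. -/
theorem det_circuit (n k D ℓ : ℕ) (hD : 1 ≤ D) (hk : k ≤ ℓ ^ D) (s t : Fin n) :
    ∃ f : (Fin n → Fin n → Bool) → Bool,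
      Circ (Lits n) (D + 1) (D * (k + 1) * n ^ (ℓ + 1) + 1) f ∧
      ∀ E, (∀ v w w', E v w = true → E v w' = true → w = w') →
        (f E = true ↔ Walk E k s t) := by
  obtain ⟨D', rfl⟩ : ∃ D', D = D' + 1 := ⟨D - 1, by omega⟩
  have h := DetAux.circ_of (Lits n) (D' + 1 + 1) (DetAux.lev (n := n) (ℓ := ℓ) (k := k))
    (DetAux.vl s t) (Sum.inr ()) (by
      rintro (⟨j, L, q⟩ | u)
      · have := j.2
        simp only [DetAux.lev]
        omega
      · simp [DetAux.lev]) (DetAux.gates (D := D') s t)
  have hc : Fintype.card (DetAux.Ix n ℓ k (D' + 1)) =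
      (D' + 1) * (k + 1) * n ^ (ℓ + 1) + 1 := by
    simp [DetAux.Ix, Nat.mul_assoc]
  rw [hc] at h
  refine ⟨_, h, fun E hE => ?_⟩
  exact DetAux.gO_iff hE s t hk

end P28cd
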