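import Mathlib
import Pool.Agent.Lib.P28cd.Defs

/-!
# Module P28cd.FinNum : the final choice of the parameters

PROOF.  Let `N = 2 ex a + 7`, `k₀ = 2 * 100^a`, `c = 1/(10^8 N^2)` (anything small enough).
Given `n, k`: `η = ⌊(n/4)^(1/(100 N))⌋` (the largest `η` with `4 η^(100 N) ≤ n`), so that `(η+1)^(100 N) * 4 > n`; `u` = the
minimum of `Nat.log 2 η` and the largest `u'` with `2 u'^a ≤ k`; `t = u / 100`, `h = k - 2 u^a`.
`2^u ≤ η`, `2 u^a ≤ k`, `100 t ≤ u`.  `u ≥ 100`: `2 * 100^a ≤ k`, and `Nat.log 2 η ≥ 100` for large `n`.  So `t ≥ 1`, `u ≤ 200 t`.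
Size: `(η^100)^(ex a) + 1 + (η^100)^(2 ex a + 6) ≤ 2 η^(100 N)` (`η` large) `≤ n/2`, `h ≤ k ≤ n/2`.
Last inequality: `u ≥ (1/4) min (k^(1/a)) (log η)`: the largest `u'` satisfies `2 (u'+1)^a > k`, so `u' + 1 > (k/2)^(1/a) ≥ k^(1/a)/2` and
`u' ≥ k^(1/a)/4` (`u' ≥ 1`); `Nat.log 2 η ≥ log η / log 2 - 1 ≥ log η / 2` (`η` large).  `log η ≥ log n / (200 N)` for `n` large
(`(2η)^(100 N) * 4 > n`).  Hence `t ≥ u/200 ≥ min (k^(1/a)) (log n / (200 N)) / 800 ≥ min (k^(1/a)) (log n) / (160000 N)`,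
`η^t = exp (t log η) ≥ exp (log n / (200 N) * min (..) / (160000 N)) = n^(min (..) / (3.2 * 10^7 N^2))`, and `n ≥ 1`.
-/

set_option autoImplicit false

namespace P28cd

namespace FinNumAux

/-- the largest number with a bounded power -/
theorem exists_root (c e n : ℕ) (hc : 1 ≤ c) (he : 1 ≤ e) :
    ∃ v : ℕ, c * v ^ e ≤ n ∧ n < c * (v + 1) ^ e := by
  have h0 : c * 0 ^ e ≤ n := by
    rw [zero_pow (by omega)]; omega
  have hP : ∀ v, c * v ^ e ≤ n → v ≤ n := by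
    intro v hv
    have h1 : v ≤ v ^ e := Nat.le_self_pow (by omega) v
    have h2 : v ^ e ≤ c * v ^ e := Nat.le_mul_of_pos_left _ (by omega)
    omega
  refine ⟨Nat.findGreatest (fun v => c * v ^ e ≤ n) n, ?_, ?_⟩
  · exact Nat.findGreatest_spec (P := fun v => c * v ^ e ≤ n) (Nat.zero_le n) h0
  · by_contra hcon
    rw [not_lt] at hcon
    have h1 := hP _ hcon
    have h2 := Nat.le_findGreatest (P := fun v => c * v ^ e ≤ n) h1 hcon
    omega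

theorem log_le_natLog (η : ℕ) (h : 3 ≤ Nat.log 2 η) : Real.log η ≤ (Nat.log 2 η : ℕ) := by
  have hη : η ≠ 0 := by
    rintro rfl
    simp at h
  have h1 : η < 2 ^ (Nat.log 2 η + 1) := Nat.lt_pow_succ_log_self (by norm_num) η
  have h2 : (η : ℝ) ≤ (2 : ℝ) ^ (Nat.log 2 η + 1) := by exact_mod_cast h1.le
  have h3 : Real.log η ≤ Real.log ((2 : ℝ) ^ (Nat.log 2 η + 1)) :=
    Real.log_le_log (by exact_mod_cast Nat.pos_of_ne_zero hη) h2
  rw [Real.log_pow] at h3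
  have h4 := Real.log_two_lt_d9
  have h5 : (3 : ℝ) ≤ (Nat.log 2 η : ℕ) := by exact_mod_cast h
  have h6 : ((Nat.log 2 η + 1 : ℕ) : ℝ) * Real.log 2 ≤ ((Nat.log 2 η + 1 : ℕ) : ℝ) * 0.7 :=
    mul_le_mul_of_nonneg_left (by linarith) (by positivity)
  push_cast at h6 h3
  linarith

end FinNumAux

theorem final_numbers (a : ℕ) (ha : 1 ≤ a) (η₀ : ℕ) : ∃ c : ℝ, 0 < c ∧ ∃ k₀ n₀ : ℕ,
    ∀ n ≥ n₀, ∀ k, k₀ ≤ k → 2 * k ≤ n → ∃ η u t h : ℕ, η₀ ≤ η ∧ 1 ≤ t ∧ 100 * t ≤ u ∧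
      2 ^ u ≤ η ∧ 2 * u ^ a + h = k ∧
      (η ^ 100) ^ ex a + 1 + (η ^ 100) ^ (2 * ex a + 6) + h ≤ n ∧
      (n : ℝ) ^ (c * min ((k : ℝ) ^ (1 / (a : ℝ))) (Real.log n)) < ((η ^ t : ℕ) : ℝ) := by
  obtain ⟨E, hE⟩ : ∃ E, E = 100 * (2 * ex a + 7) := ⟨_, rfl⟩
  obtain ⟨M, hM⟩ : ∃ M, M = 2 ^ 200 + η₀ := ⟨_, rfl⟩
  have hE2 : 100 ≤ E := by omega
  have hER : (100 : ℝ) ≤ (E : ℝ) := by exact_mod_cast hE2
  refine ⟨1 / (1000 * (E : ℝ) ^ 2), by positivity, 2 * 100 ^ a, 4 * M ^ E, ?_⟩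
  intro n hn k hk hkn
  obtain ⟨η, hη1, hη2⟩ := FinNumAux.exists_root 4 E n (by norm_num) (by omega)
  obtain ⟨w, hw1, hw2⟩ := FinNumAux.exists_root 2 a k (by norm_num) ha
  have hηM : M ≤ η := by
    by_contra hcon
    have h1 : η + 1 ≤ M := by omega
    have h2 : (η + 1) ^ E ≤ M ^ E := Nat.pow_le_pow_left h1 E
    omega
  have hη200 : 2 ^ 200 ≤ η := by omega
  have hη8 : 8 ≤ η := by
    have : 8 ≤ 2 ^ 200 := by norm_num
    omega
  have hwb : 100 ≤ w := by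
    by_contra hcon
    have h1 : w + 1 ≤ 100 := by omega
    have h2 : (w + 1) ^ a ≤ 100 ^ a := Nat.pow_le_pow_left h1 a
    omega
  obtain ⟨l, hl⟩ : ∃ l, l = Nat.log 2 η := ⟨_, rfl⟩
  have hl200 : 200 ≤ l := by
    rw [hl]
    exact Nat.le_log_of_pow_le (by norm_num) hη200
  have hlη : 2 ^ l ≤ η := by
    rw [hl]
    exact Nat.pow_log_le_self 2 (by omega)
  have hlogη : Real.log η ≤ (l : ℝ) := by
    have := FinNumAux.log_le_natLog η (by omega)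
    rw [← hl] at this
    exact this
  have hnη : n ≤ η ^ (2 * E) := by
    calc n ≤ 4 * (η + 1) ^ E := hη2.le
      _ ≤ 4 ^ E * (η + 1) ^ E := Nat.mul_le_mul_right _ (Nat.le_self_pow (by omega) 4)
      _ = (4 * (η + 1)) ^ E := by rw [mul_pow]
      _ ≤ (η ^ 2) ^ E := Nat.pow_le_pow_left (by nlinarith) E
      _ = η ^ (2 * E) := by rw [← pow_mul]
  obtain ⟨u, hu⟩ : ∃ u, u = min l w := ⟨_, rfl⟩
  have hu1 : u ≤ l := hu ▸ min_le_left _ _
  have hu2 : u ≤ w := hu ▸ min_le_right _ _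
  have hu100 : 100 ≤ u := by rw [hu, le_min_iff]; omega
  have hua : 2 * u ^ a ≤ k := le_trans (Nat.mul_le_mul_left _ (Nat.pow_le_pow_left hu2 a)) hw1
  refine ⟨η, u, u / 100, k - 2 * u ^ a, by omega, by omega, by omega,
    (Nat.pow_le_pow_right (by norm_num) hu1).trans hlη, by omega, ?_, ?_⟩
  · obtain ⟨x, hx⟩ : ∃ x, x = η ^ 100 := ⟨_, rfl⟩
    have hx3 : 3 ≤ x := by
      have : η ≤ η ^ 100 := Nat.le_self_pow (by norm_num) η
      omega
    rw [← hx]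
    have h1 : x ^ ex a ≤ x ^ (2 * ex a + 6) := Nat.pow_le_pow_right (by omega) (by omega)
    have h2 : 1 ≤ x ^ (2 * ex a + 6) := Nat.one_le_pow _ _ (by omega)
    have h3 : 3 * x ^ (2 * ex a + 6) ≤ x * x ^ (2 * ex a + 6) := Nat.mul_le_mul_right _ hx3
    have h4 : x * x ^ (2 * ex a + 6) = η ^ E := by
      rw [← pow_succ', hx, ← pow_mul, hE]
    omega
  · have hηR : (1 : ℝ) < (η : ℝ) := by
      have : 1 < η := by omega
      exact_mod_cast this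
    have hn1N : 1 ≤ n := by
      have h1 : 1 ≤ M := by
        have : 1 ≤ 2 ^ 200 := Nat.one_le_two_pow
        omega
      have h2 : 1 ≤ M ^ E := Nat.one_le_pow _ _ h1
      omega
    have hn1 : (1 : ℝ) ≤ (n : ℝ) := by exact_mod_cast hn1N
    have hn0 : (0 : ℝ) < (n : ℝ) := by linarith
    have ha0 : (0 : ℝ) < (a : ℝ) := by exact_mod_cast (by omega : 0 < a)
    obtain ⟨m, hm⟩ : ∃ m, m = min ((k : ℝ) ^ (1 / (a : ℝ))) (Real.log n) := ⟨_, rfl⟩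
    rw [← hm]
    have hm0 : 0 ≤ m := by
      rw [hm, le_min_iff]
      exact ⟨by positivity, Real.log_nonneg hn1⟩
    have hnR : (n : ℝ) ≤ (η : ℝ) ^ (2 * E) := by exact_mod_cast hnη
    have hlogn : Real.log n ≤ 2 * (E : ℝ) * Real.log η := by
      have h1 := Real.log_le_log hn0 hnR
      rw [Real.log_pow] at h1
      push_cast at h1
      exact h1
    have hmu : m ≤ 2 * (E : ℝ) * (u : ℝ) := by
      rcases le_total l w with h | h
      · have e : u = l := by rw [hu, min_eq_left h]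
        have h1 : m ≤ Real.log n := by rw [hm]; exact min_le_right _ _
        have h2 : 2 * (E : ℝ) * Real.log η ≤ 2 * (E : ℝ) * (l : ℝ) :=
          mul_le_mul_of_nonneg_left hlogη (by positivity)
        rw [e]
        linarith
      · have e : u = w := by rw [hu, min_eq_right h]
        have h1 : m ≤ (k : ℝ) ^ (1 / (a : ℝ)) := by rw [hm]; exact min_le_left _ _
        have h2 : (k : ℝ) ≤ (2 * ((w : ℝ) + 1)) ^ (a : ℝ) := by
          have h3 : k ≤ (2 * (w + 1)) ^ a := by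
            calc k ≤ 2 * (w + 1) ^ a := hw2.le
              _ ≤ 2 ^ a * (w + 1) ^ a := Nat.mul_le_mul_right _ (Nat.le_self_pow (by omega) 2)
              _ = (2 * (w + 1)) ^ a := by rw [mul_pow]
          rw [Real.rpow_natCast]
          exact_mod_cast h3
        have h3 : (k : ℝ) ^ (1 / (a : ℝ)) ≤ 2 * ((w : ℝ) + 1) := by
          have h4 : ((2 * ((w : ℝ) + 1)) ^ (a : ℝ)) ^ (1 / (a : ℝ)) = 2 * ((w : ℝ) + 1) := by
            rw [← Real.rpow_mul (by positivity), mul_one_div_cancel ha0.ne', Real.rpow_one]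
          rw [← h4]
          exact Real.rpow_le_rpow (by positivity) h2 (by positivity)
        have h5 : (100 : ℝ) ≤ (w : ℝ) := by exact_mod_cast hwb
        rw [e]
        nlinarith
    have hut : (u : ℝ) ≤ 200 * ((u / 100 : ℕ) : ℝ) := by
      have h1 : u ≤ 200 * (u / 100) := by omega
      exact_mod_cast h1
    have ht1 : (1 : ℝ) ≤ ((u / 100 : ℕ) : ℝ) := by
      have h1 : 1 ≤ u / 100 := by omega
      exact_mod_cast h1
    calc (n : ℝ) ^ (1 / (1000 * (E : ℝ) ^ 2) * m)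
        ≤ ((η : ℝ) ^ (2 * E)) ^ (1 / (1000 * (E : ℝ) ^ 2) * m) :=
          Real.rpow_le_rpow hn0.le hnR (by positivity)
      _ = (η : ℝ) ^ (2 * (E : ℝ) * (1 / (1000 * (E : ℝ) ^ 2) * m)) := by
          rw [← Real.rpow_natCast, ← Real.rpow_mul (by positivity)]
          push_cast
          ring_nf
      _ < (η : ℝ) ^ (((u / 100 : ℕ) : ℝ)) := by
          apply Real.rpow_lt_rpow_of_exponent_lt hηR
          have h1 : m ≤ 400 * (E : ℝ) * ((u / 100 : ℕ) : ℝ) := by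
            have : 2 * (E : ℝ) * (u : ℝ) ≤ 2 * (E : ℝ) * (200 * ((u / 100 : ℕ) : ℝ)) :=
              mul_le_mul_of_nonneg_left hut (by positivity)
            linarith
          have h2 : 2 * (E : ℝ) * (1 / (1000 * (E : ℝ) ^ 2) * m) = m / (500 * (E : ℝ)) := by
            have : (E : ℝ) ≠ 0 := by linarith
            field_simp
            ring
          rw [h2, div_lt_iff₀ (by positivity)]
          nlinarith
      _ = ((η ^ (u / 100) : ℕ) : ℝ) := by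
          rw [Real.rpow_natCast]; push_cast; rfl

/-- the size of the upper bound: `ℓ = ⌈k^(1/a)⌉`; `2 a (k+1) n^(ℓ+1) ≤ n^(k^(1/a) + 4)` because
`ℓ ≤ k^(1/a) + 1` and `2 a (k+1) ≤ 4 a n ≤ n^2` for `1 ≤ k ≤ n`, `n ≥ 4 a`. -/
theorem upper_numbers (a : ℕ) (ha : 1 ≤ a) (n k : ℕ) (hn : 4 * a ≤ n) (hk : 1 ≤ k)
    (hkn : k ≤ n) : ∃ ℓ : ℕ, 1 ≤ ℓ ∧ k ≤ ℓ ^ a ∧
      ((2 * a * (k + 1) * n ^ (ℓ + 1) : ℕ) : ℝ) ≤
        (n : ℝ) ^ ((k : ℝ) ^ (1 / (a : ℝ)) + 4) := by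
  have ha0 : (0 : ℝ) < (a : ℝ) := by exact_mod_cast (by omega : 0 < a)
  have hk1 : (1 : ℝ) ≤ (k : ℝ) := by exact_mod_cast hk
  have hn1 : (1 : ℝ) ≤ (n : ℝ) := by exact_mod_cast (by omega : 1 ≤ n)
  have hr1 : (1 : ℝ) ≤ (k : ℝ) ^ (1 / (a : ℝ)) := Real.one_le_rpow hk1 (by positivity)
  obtain ⟨l, hl⟩ : ∃ l, l = ⌈(k : ℝ) ^ (1 / (a : ℝ))⌉₊ := ⟨_, rfl⟩
  have hl1 : (k : ℝ) ^ (1 / (a : ℝ)) ≤ (l : ℝ) := by rw [hl]; exact Nat.le_ceil _
  have hl2 : (l : ℝ) < (k : ℝ) ^ (1 / (a : ℝ)) + 1 := by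
    rw [hl]; exact Nat.ceil_lt_add_one (by positivity)
  refine ⟨l, ?_, ?_, ?_⟩
  · have : (1 : ℝ) ≤ (l : ℝ) := hr1.trans hl1
    exact_mod_cast this
  · have h1 : (k : ℝ) ≤ (l : ℝ) ^ a := by
      have h2 : ((k : ℝ) ^ (1 / (a : ℝ))) ^ a = (k : ℝ) := by
        rw [← Real.rpow_natCast, ← Real.rpow_mul (by positivity), one_div_mul_cancel ha0.ne',
          Real.rpow_one]
      calc (k : ℝ) = ((k : ℝ) ^ (1 / (a : ℝ))) ^ a := h2.symm
        _ ≤ (l : ℝ) ^ a := pow_le_pow_left₀ (by positivity) hl1 a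
    exact_mod_cast h1
  · have h1 : 2 * a * (k + 1) ≤ n ^ 2 := by
      calc 2 * a * (k + 1) ≤ 2 * a * (2 * k) := Nat.mul_le_mul_left _ (by omega)
        _ = 4 * a * k := by ring
        _ ≤ n * n := Nat.mul_le_mul hn hkn
        _ = n ^ 2 := by ring
    have h2 : 2 * a * (k + 1) * n ^ (l + 1) ≤ n ^ (l + 3) := by
      calc 2 * a * (k + 1) * n ^ (l + 1) ≤ n ^ 2 * n ^ (l + 1) := Nat.mul_le_mul_right _ h1
        _ = n ^ (l + 3) := by ring
    calc ((2 * a * (k + 1) * n ^ (l + 1) : ℕ) : ℝ) ≤ ((n ^ (l + 3) : ℕ) : ℝ) := by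
          exact_mod_cast h2
      _ = (n : ℝ) ^ ((l + 3 : ℕ) : ℝ) := by rw [Real.rpow_natCast]; push_cast; rfl
      _ ≤ (n : ℝ) ^ ((k : ℝ) ^ (1 / (a : ℝ)) + 4) := by
          apply Real.rpow_le_rpow_of_exponent_le hn1
          push_cast
          linarith

end P28cd
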