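import Mathlib
import Pool.Agent.Lib.P28cd.Det
import Pool.Agent.Lib.P28cd.FinNum

/-!
# Module P28cd.DetUp : the size of the circuits of `Det`
-/

set_option autoImplicit false

namespace P28cd

/-- On digraphs in which every vertex has at most one out-arc, walks of at most `k` arcs from `s`
to `t` are decided in depth `d` with at most `n ^ (k ^ (1 / (d - 1)) + 4)` gates. -/
theorem det_upper (d : ℕ) (hd : 2 ≤ d) (n k : ℕ) (hn : 4 * (d - 1) ≤ n) (hk : 1 ≤ k)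
    (hkn : k ≤ n) (s t : Fin n) :
    ∃ (S : ℕ) (f : (Fin n → Fin n → Bool) → Bool), Circ (Lits n) d S f ∧
      (∀ E, (∀ v w w', E v w = true → E v w' = true → w = w') →
        (f E = true ↔ Walk E k s t)) ∧
      (S : ℝ) ≤ (n : ℝ) ^ ((k : ℝ) ^ (1 / ((d : ℝ) - 1)) + 4) := by
  obtain ⟨ℓ, hℓ, hkℓ, hnum⟩ := upper_numbers (d - 1) (by omega) n k hn hk hkn
  obtain ⟨f, hf, hE⟩ := det_circuit n k (d - 1) ℓ (by omega) hkℓ s t
  rw [show d - 1 + 1 = d by omega] at hf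
  refine ⟨_, f, hf, hE, ?_⟩
  have hcast : ((d - 1 : ℕ) : ℝ) = (d : ℝ) - 1 := by
    rw [Nat.cast_sub (by omega)]; simp
  rw [hcast] at hnum
  refine le_trans ?_ hnum
  have h1 : 1 ≤ (d - 1) * (k + 1) * n ^ (ℓ + 1) := by
    have h2 : 0 < n := by omega
    have h3 : 0 < d - 1 := by omega
    have : 0 < (d - 1) * (k + 1) * n ^ (ℓ + 1) := by positivity
    omega
  have h4 : (d - 1) * (k + 1) * n ^ (ℓ + 1) + 1 ≤ 2 * (d - 1) * (k + 1) * n ^ (ℓ + 1) := by
    have : 2 * (d - 1) * (k + 1) * n ^ (ℓ + 1) = 2 * ((d - 1) * (k + 1) * n ^ (ℓ + 1)) := by ring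
    omega
  exact_mod_cast h4

end P28cd
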