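import Mathlib
import Pool.Agent.Lib.P28cd.Defs

/-!
# Module P28cd.Gr : the multigraph of the formula

Vertices `Vert u rest`; each OR node `γ : Grp u rest` has a source and a target (all leaves below
it are parallel edges).  For `rest = []` there are two vertices.  For `m :: rest`: an edge
`B : Leaf u m rest` of the upper graph, from `srcG B.1` to `dstG B.1`, is replaced by a path of `u` segments with inner vertices
`(B, 0), .., (B, u-2)`; the segment `b` is the OR node `(B, b)`.

PROOFS.
`lay`: by definition.
`path_of_true`: induction on `rest`.  `Fo u (m' :: rest) m y = Fo u rest m' z`, `z B = ∀ b, ∃ i, y ((B,b),i)`.  From the path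
`p` (length `u^len`) of the upper graph with nodes `γ_i` and `j_i`, `z (γ_i, j_i) = true`, put for `n = u i + b`, `b < u`
`p' n = srcG ((γ_i, j_i), b)` for `n < u^(len+1)` and `p' (u^(len+1)) = inl vt`.  Then the `n`-th step is the OR node
`((γ_i,j_i),b)`; `dstG ((γ_i,j_i),b) = p' (n+1)`: for `b + 1 < u` both are `inr (.., b)`; for `b + 1 = u` it is
`inl (dstG γ_i) = inl (p (i+1)) = inl (srcG γ_(i+1))` (or `inl vt` at the end).
`cut_of_false`: induction on `rest`.  Let `φ` be the labelling of the upper graph for `z`.  Extend: for `B` with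
`φ (srcG B.1) = true`, `φ (dstG B.1) = false` the value `z B` is false (otherwise the property for `γ = B.1`, `∃ j, z (B.1, j)`, would be
violated), take `b` with no `i`, `y ((B,b),i) = true`, and put `φ' (inr (B,j)) = decide (j < b)`; for other `B`:
`φ' (inr (B,j)) = φ (srcG B.1)`.
`card_vert`: induction: `card (Vert (m :: rest)) = card (Vert rest) + card (Grp rest) m (u-1) ≤
card (Grp rest) + 1 + card (Grp rest) m (u - 1) ≤ card (Grp rest) m u + 1`.
-/

set_option autoImplicit false

namespace P28cd

/-- vertices of the multigraph -/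
def Vert (u : ℕ) : List ℕ → Type
  | [] => Bool
  | m :: rest => Vert u rest ⊕ (Leaf u m rest × Fin (u - 1))

instance instDecVert (u : ℕ) : (l : List ℕ) → DecidableEq (Vert u l)
  | [] => inferInstanceAs (DecidableEq Bool)
  | m :: rest => by
      haveI := instDecVert u rest
      exact inferInstanceAs (DecidableEq (Vert u rest ⊕ (Leaf u m rest × Fin (u - 1))))

instance instFinVert (u : ℕ) : (l : List ℕ) → Fintype (Vert u l)
  | [] => inferInstanceAs (Fintype Bool)
  | m :: rest => by
      haveI := instFinVert u rest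
      exact inferInstanceAs (Fintype (Vert u rest ⊕ (Leaf u m rest × Fin (u - 1))))

/-- source of an OR node -/
def srcG (u : ℕ) : (rest : List ℕ) → Grp u rest → Vert u rest
  | [], _ => false
  | _ :: rest, x =>
      if h : x.2.val = 0 then Sum.inl (srcG u rest x.1.1)
      else Sum.inr (x.1, ⟨x.2.val - 1, by have := x.2.2; omega⟩)

/-- target of an OR node -/
def dstG (u : ℕ) : (rest : List ℕ) → Grp u rest → Vert u rest
  | [], _ => true
  | _ :: rest, x =>
      if h : x.2.val + 1 = u then Sum.inl (dstG u rest x.1.1)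
      else Sum.inr (x.1, ⟨x.2.val, by have := x.2.2; omega⟩)

/-- start vertex -/
def vs (u : ℕ) : (rest : List ℕ) → Vert u rest
  | [] => false
  | _ :: rest => Sum.inl (vs u rest)

/-- end vertex -/
def vt (u : ℕ) : (rest : List ℕ) → Vert u rest
  | [] => true
  | _ :: rest => Sum.inl (vt u rest)

/-- layers -/
def lay (u : ℕ) : (rest : List ℕ) → Vert u rest → ℕ
  | [], b => Bool.toNat b
  | _ :: rest, Sum.inl v => u * lay u rest v
  | _ :: rest, Sum.inr x => u * lay u rest (srcG u rest x.1.1) + x.2.val + 1

theorem lay_vs (u : ℕ) (rest : List ℕ) : lay u rest (vs u rest) = 0 := by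
  induction rest with
  | nil => rfl
  | cons m rest ih =>
    show u * lay u rest (vs u rest) = 0
    rw [ih, mul_zero]

theorem lay_vt (u : ℕ) (rest : List ℕ) : lay u rest (vt u rest) = u ^ rest.length := by
  induction rest with
  | nil => rfl
  | cons m rest ih =>
    show u * lay u rest (vt u rest) = u ^ (rest.length + 1)
    rw [ih, pow_succ, mul_comm]

namespace GrAux

theorem src_zero (u m : ℕ) (rest : List ℕ) (B : Leaf u m rest) (b : Fin u) (h : b.val = 0) :
    srcG u (m :: rest) (B, b) = Sum.inl (srcG u rest B.1) := dif_pos h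

theorem src_pos (u m : ℕ) (rest : List ℕ) (B : Leaf u m rest) (b : Fin u) (h : b.val ≠ 0) :
    srcG u (m :: rest) (B, b) = Sum.inr (B, ⟨b.val - 1, by have := b.2; omega⟩) := dif_neg h

theorem dst_last (u m : ℕ) (rest : List ℕ) (B : Leaf u m rest) (b : Fin u)
    (h : b.val + 1 = u) : dstG u (m :: rest) (B, b) = Sum.inl (dstG u rest B.1) := dif_pos h

theorem dst_mid (u m : ℕ) (rest : List ℕ) (B : Leaf u m rest) (b : Fin u)
    (h : b.val + 1 ≠ u) :
    dstG u (m :: rest) (B, b) = Sum.inr (B, ⟨b.val, by have := b.2; omega⟩) := dif_neg h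

/-- the refined path -/
def pth {u m : ℕ} {rest : List ℕ} (hu : 1 ≤ u) (p : ℕ → Vert u rest) (B : ℕ → Leaf u m rest)
    (n : ℕ) : Vert u (m :: rest) :=
  if _h0 : n % u = 0 then Sum.inl (p (n / u))
  else Sum.inr (B (n / u), ⟨n % u - 1, by have := Nat.mod_lt n hu; omega⟩)

theorem pth_zero {u m : ℕ} {rest : List ℕ} (hu : 1 ≤ u) (p : ℕ → Vert u rest)
    (B : ℕ → Leaf u m rest) {n : ℕ} (h : n % u = 0) : pth hu p B n = Sum.inl (p (n / u)) :=
  dif_pos h

theorem pth_pos {u m : ℕ} {rest : List ℕ} (hu : 1 ≤ u) (p : ℕ → Vert u rest)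
    (B : ℕ → Leaf u m rest) {n : ℕ} (h : n % u ≠ 0) : pth hu p B n =
      Sum.inr (B (n / u), ⟨n % u - 1, by have := Nat.mod_lt n hu; omega⟩) :=
  dif_neg h

theorem lay_src (u m : ℕ) (rest : List ℕ) (B : Leaf u m rest) (b : Fin u) :
    lay u (m :: rest) (srcG u (m :: rest) (B, b)) = u * lay u rest (srcG u rest B.1) + b.val := by
  by_cases h : b.val = 0
  · rw [src_zero u m rest B b h, h]
    rfl
  · rw [src_pos u m rest B b h]
    show u * lay u rest (srcG u rest B.1) + (b.val - 1) + 1 = _
    omega

end GrAux

open GrAux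

theorem lay_succ (u : ℕ) (rest : List ℕ) (γ : Grp u rest) :
    lay u rest (dstG u rest γ) = lay u rest (srcG u rest γ) + 1 := by
  induction rest with
  | nil => rfl
  | cons m rest ih =>
    obtain ⟨B, b⟩ : (Grp u rest × Fin m) × Fin u := γ
    rw [lay_src]
    by_cases h : b.val + 1 = u
    · rw [dst_last u m rest B b h]
      show u * lay u rest (dstG u rest B.1) = _
      rw [ih B.1, mul_add, mul_one]
      omega
    · rw [dst_mid u m rest B b h]
      rfl

theorem path_of_true (u : ℕ) (hu : 1 ≤ u) (rest : List ℕ) (m : ℕ) (y : Leaf u m rest → Bool)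
    (h : Fo u rest m y = true) :
    ∃ p : ℕ → Vert u rest, p 0 = vs u rest ∧ p (u ^ rest.length) = vt u rest ∧
      ∀ i < u ^ rest.length, ∃ γ : Grp u rest, (∃ j, y (γ, j) = true) ∧
        p i = srcG u rest γ ∧ p (i + 1) = dstG u rest γ := by
  induction rest generalizing m with
  | nil =>
    have h1 : ∃ i, y ((), i) = true := of_decide_eq_true h
    refine ⟨fun n => decide (0 < n), rfl, rfl, fun i hi => ?_⟩
    have hi0 : i = 0 := by
      have h2 : i < 1 := hi
      omega
    subst hi0
    exact ⟨(), h1, rfl, rfl⟩
  | cons m' rest ih =>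
    have h1 : Fo u rest m'
        (fun B => decide (∀ b : Fin u, ∃ i : Fin m, y ((B, b), i) = true)) = true := h
    obtain ⟨p, hp0, hpN, hp⟩ := ih m' _ h1
    have hN : 0 < u ^ rest.length := Nat.pow_pos hu
    have hp' : ∀ i, ∃ B : Leaf u m' rest, i < u ^ rest.length →
        (∀ b : Fin u, ∃ k : Fin m, y ((B, b), k) = true) ∧ p i = srcG u rest B.1 ∧
          p (i + 1) = dstG u rest B.1 := by
      intro i
      by_cases hi : i < u ^ rest.length
      · obtain ⟨γ, ⟨j, hj⟩, h2, h3⟩ := hp i hi
        exact ⟨(γ, j), fun _ => ⟨of_decide_eq_true hj, h2, h3⟩⟩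
      · obtain ⟨γ, ⟨j, hj⟩, h2, h3⟩ := hp 0 hN
        exact ⟨(γ, j), fun h => absurd h hi⟩
    choose B hB using hp'
    have hmod : ∀ n, n % u < u := fun n => Nat.mod_lt n hu
    refine ⟨pth hu p B, ?_, ?_, ?_⟩
    · rw [pth_zero hu p B (Nat.zero_mod u), Nat.zero_div, hp0]
      rfl
    · show pth hu p B (u ^ (rest.length + 1)) = Sum.inl (vt u rest)
      have e1 : u ^ (rest.length + 1) % u = 0 := by
        rw [pow_succ]; exact Nat.mul_mod_left _ _
      have e2 : u ^ (rest.length + 1) / u = u ^ rest.length := by
        rw [pow_succ]; exact Nat.mul_div_cancel _ hu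
      rw [pth_zero hu p B e1, e2, hpN]
    · intro n hn
      have hn' : n / u < u ^ rest.length := by
        rw [Nat.div_lt_iff_lt_mul hu]
        have : n < u ^ (rest.length + 1) := hn
        rwa [pow_succ] at this
      obtain ⟨hy, hsrc, hdst⟩ := hB (n / u) hn'
      refine ⟨(B (n / u), ⟨n % u, hmod n⟩), hy ⟨n % u, hmod n⟩, ?_, ?_⟩
      · by_cases h0 : n % u = 0
        · rw [pth_zero hu p B h0, src_zero u m' rest (B (n / u)) ⟨n % u, hmod n⟩ h0, hsrc]
        · rw [pth_pos hu p B h0, src_pos u m' rest (B (n / u)) ⟨n % u, hmod n⟩ h0]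
      · have hdm := Nat.div_add_mod n u
        have hlt := hmod n
        by_cases hl : n % u + 1 = u
        · have e0 : n + 1 = u * (n / u + 1) := by
            rw [mul_add, mul_one]; omega
          have e1 : (n + 1) % u = 0 := by rw [e0]; exact Nat.mul_mod_right _ _
          have e2 : (n + 1) / u = n / u + 1 := by
            rw [e0]; exact Nat.mul_div_cancel_left _ hu
          rw [pth_zero hu p B e1, dst_last u m' rest (B (n / u)) ⟨n % u, hmod n⟩ hl, e2, hdst]
        · have e0 : n + 1 = (n % u + 1) + u * (n / u) := by omega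
          have e1 : (n + 1) % u = n % u + 1 := by
            have e3 : (n % u + 1 + u * (n / u)) % u = n % u + 1 := by
              rw [Nat.add_mul_mod_self_left]
              exact Nat.mod_eq_of_lt (by omega)
            rwa [← e0] at e3
          have e2 : (n + 1) / u = n / u := by
            have e3 : (n % u + 1 + u * (n / u)) / u = n / u := by
              rw [Nat.add_mul_div_left _ _ hu, Nat.div_eq_of_lt (by omega), zero_add]
            rwa [← e0] at e3
          have e5 : (n + 1) % u ≠ 0 := by omega
          rw [pth_pos hu p B e5, dst_mid u m' rest (B (n / u)) ⟨n % u, hmod n⟩ hl]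
          congr 1
          refine Prod.ext ?_ (Fin.ext ?_)
          · show B ((n + 1) / u) = B (n / u)
            rw [e2]
          · show (n + 1) % u - 1 = n % u
            omega

theorem cut_of_false (u : ℕ) (hu : 1 ≤ u) (rest : List ℕ) (m : ℕ) (y : Leaf u m rest → Bool)
    (h : Fo u rest m y = false) :
    ∃ φ : Vert u rest → Bool, φ (vs u rest) = true ∧ φ (vt u rest) = false ∧
      ∀ γ : Grp u rest, (∃ j, y (γ, j) = true) → φ (srcG u rest γ) = true →
        φ (dstG u rest γ) = true := by
  induction rest generalizing m with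
  | nil =>
    have h1 : ¬ ∃ i, y ((), i) = true := of_decide_eq_false h
    refine ⟨fun b : Bool => !b, rfl, rfl, fun γ hγ _ => absurd hγ h1⟩
  | cons m' rest ih =>
    have h1 : Fo u rest m'
        (fun B => decide (∀ b : Fin u, ∃ i : Fin m, y ((B, b), i) = true)) = false := h
    obtain ⟨φ, hs, ht, hφ⟩ := ih m' _ h1
    have hb : ∀ B : Leaf u m' rest, ∃ b : Fin u,
        φ (srcG u rest B.1) = true → φ (dstG u rest B.1) = false →
          ¬ ∃ k, y ((B, b), k) = true := by
      intro B
      by_cases hc : φ (srcG u rest B.1) = true ∧ φ (dstG u rest B.1) = false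
      · have hz : ¬ ∀ b : Fin u, ∃ i : Fin m, y ((B, b), i) = true := by
          intro hz
          have h2 := hφ B.1 ⟨B.2, decide_eq_true hz⟩ hc.1
          rw [hc.2] at h2
          exact Bool.noConfusion h2
        obtain ⟨b, hb⟩ := not_forall.mp hz
        exact ⟨b, fun _ _ => hb⟩
      · exact ⟨⟨0, hu⟩, fun h2 h3 => absurd ⟨h2, h3⟩ hc⟩
    choose c hc using hb
    refine ⟨fun v => Sum.elim φ (fun x : Leaf u m' rest × Fin (u - 1) =>
      if φ (srcG u rest x.1.1) = true ∧ φ (dstG u rest x.1.1) = false then
        decide (x.2.val < (c x.1).val) else φ (srcG u rest x.1.1)) v, hs, ht, ?_⟩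
    intro γ hγ hsrc
    obtain ⟨B, b⟩ : (Grp u rest × Fin m') × Fin u := γ
    by_cases hcc : φ (srcG u rest B.1) = true ∧ φ (dstG u rest B.1) = false
    · have hne : b ≠ c B := by
        rintro rfl
        exact hc B hcc.1 hcc.2 hγ
      have hlt : b.val < (c B).val := by
        by_cases hb0 : b.val = 0
        · have h3 : (c B).val ≠ 0 := by
            intro h4
            exact hne (Fin.ext (by omega))
          omega
        · rw [src_pos u m' rest B b hb0] at hsrc
          have h3 : (if φ (srcG u rest B.1) = true ∧ φ (dstG u rest B.1) = false then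
              decide (b.val - 1 < (c B).val) else φ (srcG u rest B.1)) = true := hsrc
          rw [if_pos hcc] at h3
          have h4 := of_decide_eq_true h3
          have h5 : b.val ≠ (c B).val := fun h6 => hne (Fin.ext h6)
          omega
      have hcu := (c B).2
      have hb1 : b.val + 1 ≠ u := by omega
      rw [dst_mid u m' rest B b hb1]
      show (if φ (srcG u rest B.1) = true ∧ φ (dstG u rest B.1) = false then
              decide (b.val < (c B).val) else φ (srcG u rest B.1)) = true
      rw [if_pos hcc]
      exact decide_eq_true hlt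
    · have hs1 : φ (srcG u rest B.1) = true := by
        by_cases hb0 : b.val = 0
        · rw [src_zero u m' rest B b hb0] at hsrc
          exact hsrc
        · rw [src_pos u m' rest B b hb0] at hsrc
          have h3 : (if φ (srcG u rest B.1) = true ∧ φ (dstG u rest B.1) = false then
              decide (b.val - 1 < (c B).val) else φ (srcG u rest B.1)) = true := hsrc
          rw [if_neg hcc] at h3
          exact h3
      by_cases hb1 : b.val + 1 = u
      · rw [dst_last u m' rest B b hb1]
        show φ (dstG u rest B.1) = true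
        by_contra h4
        exact hcc ⟨hs1, Bool.eq_false_iff.mpr h4⟩
      · rw [dst_mid u m' rest B b hb1]
        show (if φ (srcG u rest B.1) = true ∧ φ (dstG u rest B.1) = false then
              decide (b.val < (c B).val) else φ (srcG u rest B.1)) = true
        rw [if_neg hcc]
        exact hs1

theorem card_vert (u : ℕ) (hu : 1 ≤ u) (rest : List ℕ) (hr : ∀ m ∈ rest, 1 ≤ m) :
    Fintype.card (Vert u rest) ≤ Fintype.card (Grp u rest) + 1 := by
  induction rest with
  | nil => exact le_of_eq rfl
  | cons m rest ih =>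
    have ih' := ih fun k hk => hr k (List.mem_cons_of_mem m hk)
    have hm : 1 ≤ m := hr m List.mem_cons_self
    have e1 : Fintype.card (Vert u (m :: rest)) =
        Fintype.card (Vert u rest) + Fintype.card (Grp u rest) * m * (u - 1) := by
      have e : Fintype.card (Vert u (m :: rest)) =
          Fintype.card (Vert u rest ⊕ (Leaf u m rest × Fin (u - 1))) :=
        Fintype.card_congr (Equiv.refl _)
      rw [e, Fintype.card_sum, Fintype.card_prod, Fintype.card_prod, Fintype.card_fin,
        Fintype.card_fin]
    have e2 : Fintype.card (Grp u (m :: rest)) = Fintype.card (Grp u rest) * m * u := by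
      have e : Fintype.card (Grp u (m :: rest)) =
          Fintype.card ((Grp u rest × Fin m) × Fin u) := Fintype.card_congr (Equiv.refl _)
      rw [e, Fintype.card_prod, Fintype.card_prod, Fintype.card_fin, Fintype.card_fin]
    rw [e1, e2]
    obtain ⟨w, rfl⟩ : ∃ w, u = w + 1 := ⟨u - 1, by omega⟩
    rw [Nat.add_sub_cancel]
    have h1 : Fintype.card (Grp (w + 1) rest) ≤ Fintype.card (Grp (w + 1) rest) * m :=
      Nat.le_mul_of_pos_right _ hm
    have h2 : Fintype.card (Grp (w + 1) rest) * m * (w + 1) =
        Fintype.card (Grp (w + 1) rest) * m * w + Fintype.card (Grp (w + 1) rest) * m := by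
      rw [mul_add, mul_one]
    omega

end P28cd
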