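import Mathlib
import Pool.Agent.Lib.P28cd.Gr
import Pool.Agent.Lib.P28cd.Emb

/-!
# Module P28cd.Gr2 : the simple graph of the formula, with a tail of `h` arcs

Vertices `W = Vert u rest ⊕ (Leaf u m rest ⊕ Fin h)`.  Arcs for `x : Leaf u m rest × Bool → Bool`:
 `inl v → inr (inl ℓ)` iff `v = srcG ℓ.1` and `x (ℓ, false)`;
 `inr (inl ℓ) → inl v` iff `v = dstG ℓ.1` and `x (ℓ, true)`;
 `inl v → inr (inr j)` iff `v = vt` and `j = 0`;  `inr (inr j) → inr (inr j')` iff `j' = j + 1`;
no other arcs.  Start `inl vs`; end `inl vt` if `h = 0`, `inr (inr (h-1))` otherwise.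
Layers: `2 lay v`, `2 lay (srcG ℓ.1) + 1`, `2 u^len + 1 + j`.
Each arc depends on at most one variable.  If the formula is true at `y ℓ = x (ℓ,false) && x (ℓ,true)`, `path_of_true`
gives a path of `2 u^len` arcs from `vs` to `vt` (each step `γ` with `y (γ,j) = true` is replaced by the two arcs
through the leaf `(γ, j)`), then the tail.  If it is false, `cut_of_false` gives `φ`; put `φ' (inl v) = φ v`, `φ' (inr (inl ℓ)) = φ (srcG ℓ.1) && x (ℓ,false)`,
`φ' (inr (inr j)) = false`.  (arc `inr (inl ℓ) → inl (dstG ℓ.1)` with `x (ℓ,true)`: then `y ℓ = true`, so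
`φ (dstG ℓ.1) = true`; arc `vt → tail`: `φ vt = false`.)
Then `embed_graph`, `K = 2 u^len + h`.
-/

set_option autoImplicit false

namespace P28cd

namespace Gr2Aux

/-- vertices of the simple graph -/
abbrev WW (u m h : ℕ) (rest : List ℕ) : Type := Vert u rest ⊕ (Leaf u m rest ⊕ Fin h)

/-- arcs -/
def arc (u m h : ℕ) (rest : List ℕ) (x : Leaf u m rest × Bool → Bool) :
    WW u m h rest → WW u m h rest → Bool
  | Sum.inl v, Sum.inr (Sum.inl l) => decide (v = srcG u rest l.1) && x (l, false)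
  | Sum.inr (Sum.inl l), Sum.inl v => decide (v = dstG u rest l.1) && x (l, true)
  | Sum.inl v, Sum.inr (Sum.inr j) => decide (v = vt u rest) && decide (j.val = 0)
  | Sum.inr (Sum.inr j), Sum.inr (Sum.inr j') => decide (j'.val = j.val + 1)
  | _, _ => false

/-- layers -/
def lay' (u m h : ℕ) (rest : List ℕ) : WW u m h rest → ℕ
  | Sum.inl v => 2 * lay u rest v
  | Sum.inr (Sum.inl l) => 2 * lay u rest (srcG u rest l.1) + 1
  | Sum.inr (Sum.inr j) => 2 * u ^ rest.length + 1 + j.val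

theorem dep_const {J : Type} (c : Bool) : Dep1 (fun _ : J → Bool => c) :=
  ⟨∅, by simp, fun _ _ _ => rfl⟩

theorem dep_and {J : Type} (c : Bool) (i : J) : Dep1 (fun x : J → Bool => c && x i) :=
  ⟨{i}, by simp, fun x x' h => by
    show (c && x i) = (c && x' i)
    rw [h i (by simp)]⟩

theorem arc_dep (u m h : ℕ) (rest : List ℕ) (p q : WW u m h rest) :
    Dep1 (fun x => arc u m h rest x p q) := by
  rcases p with v | l | j <;> rcases q with v' | l' | j'
  · exact dep_const _
  · exact dep_and _ _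
  · exact dep_const _
  · exact dep_and _ _
  · exact dep_const _
  · exact dep_const _
  · exact dep_const _
  · exact dep_const _
  · exact dep_const _

theorem arc_lay (u m h : ℕ) (rest : List ℕ) (x : Leaf u m rest × Bool → Bool)
    (p q : WW u m h rest) (hpq : arc u m h rest x p q = true) :
    lay' u m h rest q = lay' u m h rest p + 1 := by
  rcases p with v | l | j <;> rcases q with v' | l' | j' <;>
    simp only [arc, Bool.and_eq_true, decide_eq_true_eq, Bool.false_eq_true] at hpq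
  · obtain ⟨rfl, -⟩ := hpq
    simp only [lay']
  · obtain ⟨rfl, h0⟩ := hpq
    simp only [lay', lay_vt, h0]
  · obtain ⟨rfl, -⟩ := hpq
    simp only [lay', lay_succ]
    ring
  · simp only [lay', hpq]
    ring

theorem path_of (u m h : ℕ) (rest : List ℕ) (x : Leaf u m rest × Bool → Bool) (L : ℕ)
    (q : ℕ → Vert u rest) (q0 : q 0 = vs u rest) (qL : q L = vt u rest)
    (hq : ∀ i < L, ∃ γ : Grp u rest, (∃ j, (x ((γ, j), false) && x ((γ, j), true)) = true) ∧
      q i = srcG u rest γ ∧ q (i + 1) = dstG u rest γ)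
    (b : WW u m h rest) (hb0 : h = 0 → b = Sum.inl (vt u rest))
    (hb1 : ∀ hh : 0 < h, b = Sum.inr (Sum.inr ⟨h - 1, by omega⟩)) :
    ∃ p : ℕ → WW u m h rest, p 0 = Sum.inl (vs u rest) ∧ p (2 * L + h) = b ∧
      ∀ i < 2 * L + h, arc u m h rest x (p i) (p (i + 1)) = true := by
  have hq' : ∀ i, ∀ hi : i < L, ∃ l : Leaf u m rest, x (l, false) = true ∧ x (l, true) = true ∧
      q i = srcG u rest l.1 ∧ q (i + 1) = dstG u rest l.1 := by
    intro i hi
    obtain ⟨γ, ⟨j, hj⟩, h1, h2⟩ := hq i hi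
    rw [Bool.and_eq_true] at hj
    exact ⟨(γ, j), hj.1, hj.2, h1, h2⟩
  choose l hl1 hl2 hl3 hl4 using hq'
  let p : ℕ → WW u m h rest := fun n =>
    if n % 2 = 0 ∧ n ≤ 2 * L then Sum.inl (q (n / 2))
    else if h1 : n < 2 * L then Sum.inr (Sum.inl (l (n / 2) (by omega)))
    else if h2 : n - 2 * L - 1 < h then Sum.inr (Sum.inr ⟨n - 2 * L - 1, h2⟩)
    else Sum.inl (vt u rest)
  have pe : ∀ k, k ≤ L → p (2 * k) = Sum.inl (q k) := by
    intro k hk
    show (if _ then _ else _) = _
    rw [if_pos ⟨by omega, by omega⟩]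
    congr 2
    omega
  have po : ∀ k, ∀ hk : k < L, p (2 * k + 1) = Sum.inr (Sum.inl (l k hk)) := by
    intro k hk
    show (if _ then _ else _) = _
    rw [if_neg (by omega), dif_pos (by omega)]
    have : (2 * k + 1) / 2 = k := by omega
    simp only [this]
  have pt : ∀ k, ∀ hk : k < h, p (2 * L + 1 + k) = Sum.inr (Sum.inr ⟨k, hk⟩) := by
    intro k hk
    show (if _ then _ else _) = _
    have e : 2 * L + 1 + k - 2 * L - 1 = k := by omega
    rw [if_neg (by omega), dif_neg (by omega), dif_pos (by omega)]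
    simp only [e]
  refine ⟨p, ?_, ?_, ?_⟩
  · have := pe 0 (Nat.zero_le _)
    rw [q0] at this
    exact this
  · rcases Nat.eq_zero_or_pos h with hh | hh
    · rw [hb0 hh]
      have := pe L le_rfl
      rw [qL] at this
      have e : 2 * L + h = 2 * L := by omega
      rw [e]
      exact this
    · rw [hb1 hh]
      have := pt (h - 1) (by omega)
      have e : 2 * L + 1 + (h - 1) = 2 * L + h := by omega
      rw [e] at this
      exact this
  · intro i hi
    rcases lt_or_ge i (2 * L) with h1 | h1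
    · rcases Nat.even_or_odd' i with ⟨k, rfl | rfl⟩
      · have hk : k < L := by omega
        rw [pe k hk.le, po k hk]
        simp only [arc, Bool.and_eq_true, decide_eq_true_eq]
        exact ⟨hl3 k hk, hl1 k hk⟩
      · have hk : k < L := by omega
        have e : 2 * k + 1 + 1 = 2 * (k + 1) := by ring
        rw [e, pe (k + 1) (by omega), po k hk]
        simp only [arc, Bool.and_eq_true, decide_eq_true_eq]
        exact ⟨hl4 k hk, hl2 k hk⟩
    · rcases eq_or_lt_of_le h1 with h2 | h2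
      · have hh : 0 < h := by omega
        rw [← h2]
        have e := pt 0 hh
        rw [add_zero] at e
        rw [pe L le_rfl, e, qL]
        simp only [arc, decide_true, Bool.and_self]
      · obtain ⟨k, rfl⟩ : ∃ k, i = 2 * L + 1 + k := ⟨i - (2 * L + 1), by omega⟩
        have e : 2 * L + 1 + k + 1 = 2 * L + 1 + (k + 1) := by ring
        rw [e, pt k (by omega), pt (k + 1) (by omega)]
        simp only [arc, decide_true]

theorem cut_of (u m h : ℕ) (rest : List ℕ) (x : Leaf u m rest × Bool → Bool)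
    (φ : Vert u rest → Bool) (h0 : φ (vs u rest) = true) (h1 : φ (vt u rest) = false)
    (hφ : ∀ γ : Grp u rest, (∃ j, (x ((γ, j), false) && x ((γ, j), true)) = true) →
      φ (srcG u rest γ) = true → φ (dstG u rest γ) = true)
    (b : WW u m h rest) (hb0 : h = 0 → b = Sum.inl (vt u rest))
    (hb1 : ∀ hh : 0 < h, b = Sum.inr (Sum.inr ⟨h - 1, by omega⟩)) :
    ∃ ψ : WW u m h rest → Bool, ψ (Sum.inl (vs u rest)) = true ∧ ψ b = false ∧
      ∀ p q, arc u m h rest x p q = true → ψ p = true → ψ q = true := by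
  refine ⟨fun w => match w with
    | Sum.inl v => φ v
    | Sum.inr (Sum.inl l) => φ (srcG u rest l.1) && x (l, false)
    | Sum.inr (Sum.inr _) => false, h0, ?_, ?_⟩
  · rcases Nat.eq_zero_or_pos h with hh | hh
    · rw [hb0 hh]
      exact h1
    · rw [hb1 hh]
  · intro p q hpq hp
    rcases p with v | l | j <;> rcases q with v' | l' | j' <;>
      simp only [arc, Bool.and_eq_true, decide_eq_true_eq, Bool.false_eq_true] at hpq hp ⊢
    · obtain ⟨rfl, h2⟩ := hpq
      exact ⟨hp, h2⟩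
    · obtain ⟨rfl, -⟩ := hpq
      rw [h1] at hp
      exact absurd hp (by simp)
    · obtain ⟨rfl, h2⟩ := hpq
      refine hφ l.1 ⟨l.2, ?_⟩ hp.1
      rw [Bool.and_eq_true]
      exact ⟨hp.2, h2⟩

end Gr2Aux

theorem graph_map (u : ℕ) (hu : 1 ≤ u) (rest : List ℕ) (m h n : ℕ)
    (hn : Fintype.card (Vert u rest) + Fintype.card (Leaf u m rest) + h ≤ n)
    (s t : Fin n) (hst : s ≠ t) :
    ∃ (Ed Es : (Leaf u m rest × Bool → Bool) → Fin n → Fin n → Bool),
      (∀ v w, Dep1 (fun x => Ed x v w)) ∧ (∀ v w, Dep1 (fun x => Es x v w)) ∧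
      (∀ x v w, Es x v w = Es x w v) ∧
      ∀ x,
        (Fo u rest m (fun ℓ => x (ℓ, false) && x (ℓ, true)) = true →
          Walk (Ed x) (2 * u ^ rest.length + h) s t ∧
          Walk (Es x) (2 * u ^ rest.length + h) s t) ∧
        (Fo u rest m (fun ℓ => x (ℓ, false) && x (ℓ, true)) = false →
          (∀ k, ¬ Walk (Ed x) k s t) ∧ ¬ Walk (Es x) (2 * u ^ rest.length + h) s t) := by
  classical
  obtain ⟨b, hb0, hb1⟩ : ∃ b : Gr2Aux.WW u m h rest, (h = 0 → b = Sum.inl (vt u rest)) ∧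
      (∀ hh : 0 < h, b = Sum.inr (Sum.inr ⟨h - 1, by omega⟩)) := by
    rcases Nat.eq_zero_or_pos h with hh | hh
    · exact ⟨Sum.inl (vt u rest), fun _ => rfl, fun h' => absurd h' (by omega)⟩
    · exact ⟨Sum.inr (Sum.inr ⟨h - 1, by omega⟩), fun h' => absurd hh (by omega), fun _ => rfl⟩
  have hL : 1 ≤ u ^ rest.length := Nat.one_le_pow _ _ hu
  have hcard : Fintype.card (Gr2Aux.WW u m h rest) ≤ n := by
    rw [Fintype.card_sum, Fintype.card_sum, Fintype.card_fin]
    omega
  have hbl : Gr2Aux.lay' u m h rest b = 2 * u ^ rest.length + h := by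
    rcases Nat.eq_zero_or_pos h with hh | hh
    · rw [hb0 hh, Gr2Aux.lay', lay_vt, hh, add_zero]
    · rw [hb1 hh]
      show 2 * u ^ rest.length + 1 + (h - 1) = _
      omega
  have hal : Gr2Aux.lay' u m h rest (Sum.inl (vs u rest)) = 0 := by
    rw [Gr2Aux.lay', lay_vs, mul_zero]
  have hab : (Sum.inl (vs u rest) : Gr2Aux.WW u m h rest) ≠ b := by
    intro h'
    rw [← h', hal] at hbl
    omega
  obtain ⟨Ed, Es, h1, h2, h3, h4⟩ := embed_graph n hcard (Gr2Aux.arc u m h rest)
    (Gr2Aux.arc_dep u m h rest) (Gr2Aux.lay' u m h rest) (Gr2Aux.arc_lay u m h rest)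
    (Sum.inl (vs u rest)) b hab (2 * u ^ rest.length + h) hal hbl s t hst
  refine ⟨Ed, Es, h1, h2, h3, fun x => ⟨fun hx => ?_, fun hx => ?_⟩⟩
  · obtain ⟨q, q0, qL, hq⟩ := path_of_true u hu rest m _ hx
    exact (h4 x).1 (Gr2Aux.path_of u m h rest x _ q q0 qL hq b hb0 hb1)
  · obtain ⟨φ, f0, f1, hφ⟩ := cut_of_false u hu rest m _ hx
    exact (h4 x).2 (Gr2Aux.cut_of u m h rest x φ f0 f1 hφ b hb0 hb1)

end P28cd
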