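import Mathlib
import Pool.Agent.Lib.P28cd.Gr2

/-!
# Module P28cd.Loop : removing loops
-/

set_option autoImplicit false

namespace P28cd

theorem walk_mono_graph {n : ℕ} {E E' : Fin n → Fin n → Bool}
    (h : ∀ v w, E v w = true → E' v w = true) {k : ℕ} {s t : Fin n} (hw : Walk E k s t) :
    Walk E' k s t := by
  obtain ⟨j, hj, p, h0, h1, h2⟩ := hw
  exact ⟨j, hj, p, h0, h1, fun i hi => h _ _ (h2 i hi)⟩

theorem walk_cons {n : ℕ} {E : Fin n → Fin n → Bool} {k : ℕ} {s v t : Fin n}
    (h : E s v = true) (hw : Walk E k v t) : Walk E (k + 1) s t := by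
  obtain ⟨j, hj, p, h0, h1, h2⟩ := hw
  refine ⟨j + 1, by omega, fun i => if i = 0 then s else p (i - 1), by simp, by simp [h1], ?_⟩
  intro i hi
  rcases Nat.eq_zero_or_pos i with h' | h'
  · subst h'
    simp [h0, h]
  · have e1 : i ≠ 0 := by omega
    have e2 : i + 1 ≠ 0 := by omega
    simp only [e1, e2, if_false]
    have := h2 (i - 1) (by omega)
    have e3 : i - 1 + 1 = i + 1 - 1 := by omega
    rw [e3] at this
    exact this

theorem walk_loopless {n : ℕ} (E : Fin n → Fin n → Bool) (k : ℕ) (s t : Fin n) :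
    Walk (fun v w => E v w && !decide (v = w)) k s t ↔ Walk E k s t := by
  constructor
  · apply walk_mono_graph
    intro v w h
    simp only [Bool.and_eq_true] at h
    exact h.1
  · rintro ⟨j, hj, p, h0, h1, h2⟩
    induction j generalizing k s p with
    | zero => exact ⟨0, Nat.zero_le _, p, h0, h1, fun i hi => absurd hi (Nat.not_lt_zero _)⟩
    | succ j ih =>
      have ih' := ih (k - 1) (p 1) (by omega) (fun i => p (i + 1)) rfl h1
        (fun i hi => h2 (i + 1) (by omega))
      have hk : k - 1 + 1 = k := by omega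
      by_cases hp : s = p 1
      · rw [← hp] at ih'
        obtain ⟨j', hj', p', h0', h1', h2'⟩ := ih'
        exact ⟨j', by omega, p', h0', h1', h2'⟩
      · rw [← hk]
        refine walk_cons (v := p 1) ?_ ih'
        have := h2 0 (by omega)
        rw [h0] at this
        simp [this, hp]

theorem dep1_and_const {J : Type} {f : (J → Bool) → Bool} (hf : Dep1 f) (b : Bool) :
    Dep1 (fun x => f x && b) := by
  obtain ⟨K, hK, h⟩ := hf
  exact ⟨K, hK, fun x x' hx => by show (f x && b) = (f x' && b); rw [h x x' hx]⟩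

/-- `graph_map` with loopless graphs -/
theorem graph_map' (u : ℕ) (hu : 1 ≤ u) (rest : List ℕ) (m h n : ℕ)
    (hn : Fintype.card (Vert u rest) + Fintype.card (Leaf u m rest) + h ≤ n)
    (s t : Fin n) (hst : s ≠ t) :
    ∃ (Ed Es : (Leaf u m rest × Bool → Bool) → Fin n → Fin n → Bool),
      (∀ v w, Dep1 (fun x => Ed x v w)) ∧ (∀ v w, Dep1 (fun x => Es x v w)) ∧
      (∀ x v, Ed x v v = false) ∧ (∀ x v, Es x v v = false) ∧
      (∀ x v w, Es x v w = Es x w v) ∧
      ∀ x,
        (Fo u rest m (fun ℓ => x (ℓ, false) && x (ℓ, true)) = true →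
          Walk (Ed x) (2 * u ^ rest.length + h) s t ∧
          Walk (Es x) (2 * u ^ rest.length + h) s t) ∧
        (Fo u rest m (fun ℓ => x (ℓ, false) && x (ℓ, true)) = false →
          (∀ k, ¬ Walk (Ed x) k s t) ∧ ¬ Walk (Es x) (2 * u ^ rest.length + h) s t) := by
  obtain ⟨Ed, Es, hEd, hEs, hsym, hmap⟩ := graph_map u hu rest m h n hn s t hst
  refine ⟨fun x v w => Ed x v w && !decide (v = w), fun x v w => Es x v w && !decide (v = w),
    fun v w => dep1_and_const (hEd v w) _, fun v w => dep1_and_const (hEs v w) _,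
    fun x v => by simp, fun x v => by simp, ?_, ?_⟩
  · intro x v w
    show (Es x v w && !decide (v = w)) = (Es x w v && !decide (w = v))
    rw [hsym x v w]
    congr 2
    exact decide_eq_decide.2 eq_comm
  · intro x
    have h1 : ∀ k, Walk (fun v w => Ed x v w && !decide (v = w)) k s t ↔ Walk (Ed x) k s t :=
      fun k => walk_loopless _ _ _ _
    have h2 : ∀ k, Walk (fun v w => Es x v w && !decide (v = w)) k s t ↔ Walk (Es x) k s t :=
      fun k => walk_loopless _ _ _ _
    refine ⟨fun hx => ⟨(h1 _).2 ((hmap x).1 hx).1, (h2 _).2 ((hmap x).1 hx).2⟩,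
      fun hx => ⟨fun k hk => ((hmap x).2 hx).1 k ((h1 k).1 hk), fun hk =>
        ((hmap x).2 hx).2 ((h2 _).1 hk)⟩⟩

end P28cd
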