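import Mathlib
import Pool.Agent.Lib.P28cd.Defs

/-!
# Module P28cd.Form : the formula under the projections

PROOF.  `fo_congr`: cases on `rest`, unfold `Fo`; only `∃ i, y (γ, i) = true` enters.
`fo_stage`: `Fo u (m' :: rest) M y` unfolds to `Fo u rest m' (fun B => decide (∀ b, ∃ i, y ((B, b), i) = true))` and
`∃ i, (A ((B,b),i) && (!V (B,b) || (al B && z B))) = true ↔ V (B,b) = false ∨ (al B ∧ z B)` because some
`A ((B,b),i)` is true; for all `b` this is `al B ∧ z B` because some `V (B,b)` is true.
`fo_expand`: by `fo_congr`; for `γ`: if `al (γ,i) && spread rep cl z (γ,i)` is true then `z (γ, cl i)`; conversely if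
`z (γ, c)` then `i = rep (γ, c)` has `cl i = c`, `al (γ,i)`.
`card_grp`: induction, `card (Grp u (ms ν (i+1))) = card (Grp u (ms ν i)) * ν^(2 ex i + 6) * u ≤
ν^(ex i + 2 ex i + 6 + 1)`.
`base_case`: `f y = true` iff some `y ((), i) = true`; at `y = 0` take a certificate `K`, `|K| ≤ t < m`; some
`i` has `((), i) ∉ K`; switch it on.
`classes`: `m'' * mh` numbers in `m''` classes of `mh` numbers each (`finProdFinEquiv`).
-/

set_option autoImplicit false

namespace P28cd

open Finset

theorem fo_congr (u : ℕ) (rest : List ℕ) (m m' : ℕ) (y : Leaf u m rest → Bool)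
    (y' : Leaf u m' rest → Bool)
    (h : ∀ γ : Grp u rest, (∃ i, y (γ, i) = true) ↔ ∃ i, y' (γ, i) = true) :
    Fo u rest m y = Fo u rest m' y' := by
  cases rest with
  | nil =>
    simp only [Fo]
    exact decide_eq_decide.mpr (h ())
  | cons m0 rest =>
    simp only [Fo]
    congr 1
    funext B
    exact decide_eq_decide.mpr (forall_congr' fun b => h (B, b))

theorem fo_stage (u m' M : ℕ) (rest : List ℕ)
    (A : (Leaf u m' rest × Fin u) × Fin M → Bool) (V : Leaf u m' rest × Fin u → Bool)
    (al z : Leaf u m' rest → Bool)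
    (hA : ∀ x, ∃ i, A (x, i) = true) (hV : ∀ b, ∃ j, V (b, j) = true) :
    Fo u (m' :: rest) M (lift A (full V al z)) = Fo u rest m' (fun B => al B && z B) := by
  simp only [Fo]
  congr 1
  funext B
  rw [Bool.eq_iff_iff, decide_eq_true_iff]
  constructor
  · intro h
    obtain ⟨j, hj⟩ := hV B
    obtain ⟨i, hi⟩ := h j
    simp only [lift, full, Bool.and_eq_true, Bool.or_eq_true, Bool.not_eq_true'] at hi
    obtain ⟨_, hi2⟩ := hi
    rcases hi2 with hi2 | hi2
    · rw [hj] at hi2
      cases hi2
    · simpa using hi2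
  · intro h b
    obtain ⟨i, hi⟩ := hA (B, b)
    refine ⟨i, ?_⟩
    simp only [Bool.and_eq_true] at h
    simp only [lift, full, Bool.and_eq_true, Bool.or_eq_true, Bool.not_eq_true']
    exact ⟨hi, Or.inr h⟩

/-- the representative of its class follows the new variable, other leaves are `0` -/
def spread {Γ : Type} {m m'' : ℕ} (rep : Γ × Fin m'' → Fin m) (cl : Fin m → Fin m'')
    (z : Γ × Fin m'' → Bool) : Γ × Fin m → Bool :=
  fun x => decide (rep (x.1, cl x.2) = x.2) && z (x.1, cl x.2)

theorem dep1_spread {Γ : Type} {m m'' : ℕ} (rep : Γ × Fin m'' → Fin m) (cl : Fin m → Fin m'')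
    (x : Γ × Fin m) : Dep1 (fun z => spread rep cl z x) := by
  refine ⟨{(x.1, cl x.2)}, by simp, ?_⟩
  intro z z' hz
  have := hz (x.1, cl x.2) (by simp)
  simp only [spread, this]

theorem fo_expand (u m m'' : ℕ) (rest : List ℕ) (al : Leaf u m rest → Bool)
    (cl : Fin m → Fin m'') (rep : Grp u rest × Fin m'' → Fin m)
    (h1 : ∀ x, cl (rep x) = x.2) (h2 : ∀ x, al (x.1, rep x) = true)
    (z : Leaf u m'' rest → Bool) :
    Fo u rest m (fun B => al B && spread rep cl z B) = Fo u rest m'' z := by
  apply fo_congr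
  intro γ
  constructor
  · rintro ⟨i, hi⟩
    simp only [spread, Bool.and_eq_true] at hi
    exact ⟨cl i, hi.2.2⟩
  · rintro ⟨c, hc⟩
    refine ⟨rep (γ, c), ?_⟩
    have e1 : cl (rep (γ, c)) = c := h1 (γ, c)
    have e2 : al (γ, rep (γ, c)) = true := h2 (γ, c)
    simp only [spread, Bool.and_eq_true, decide_eq_true_eq]
    rw [e1]
    exact ⟨e2, rfl, hc⟩

theorem card_grp_succ (u m : ℕ) (rest : List ℕ) :
    Fintype.card (Grp u (m :: rest)) = Fintype.card (Leaf u m rest) * u := by
  have e : Fintype.card (Grp u (m :: rest)) = Fintype.card ((Grp u rest × Fin m) × Fin u) := rfl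
  rw [e, Fintype.card_prod, Fintype.card_fin]

theorem card_grp {u ν : ℕ} (hu : u ≤ ν) (i : ℕ) :
    Fintype.card (Grp u (ms ν i)) ≤ ν ^ ex i := by
  induction i with
  | zero =>
    have e : Fintype.card (Grp u (ms ν 0)) = Fintype.card Unit := rfl
    rw [e]
    simp [ex]
  | succ i ih =>
    have e : Fintype.card (Grp u (ms ν (i + 1))) =
        Fintype.card (Grp u (ν ^ (2 * ex i + 6) :: ms ν i)) := rfl
    rw [e, card_grp_succ, Fintype.card_prod, Fintype.card_fin]
    calc Fintype.card (Grp u (ms ν i)) * ν ^ (2 * ex i + 6) * u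
        ≤ ν ^ ex i * ν ^ (2 * ex i + 6) * ν := by gcongr
      _ = ν ^ ex (i + 1) := by
          rw [← pow_add, ← pow_succ]
          congr 1
          simp only [ex]
          ring

theorem base_case {u m t : ℕ} (htm : t < m) {f : (Leaf u m [] → Bool) → Bool} (hf : Cert t f)
    (h : ∀ y, f y = Fo u [] m y) : False := by
  classical
  obtain ⟨K, hK, hc⟩ := hf (fun _ => false)
  have h0 : f (fun _ => false) = false := by
    rw [h]
    simp [Fo]
  obtain ⟨i, hi⟩ : ∃ i : Fin m, (((), i) : Leaf u m []) ∉ K := by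
    by_contra hcon
    push Not at hcon
    have hsub : (Finset.univ.image fun i : Fin m => (((), i) : Leaf u m [])) ⊆ K := by
      intro x hx
      obtain ⟨i, _, rfl⟩ := Finset.mem_image.mp hx
      exact hcon i
    have hcard := Finset.card_le_card hsub
    rw [Finset.card_image_of_injective _ (fun a b hab => by
      simpa using congrArg Prod.snd hab), Finset.card_univ, Fintype.card_fin] at hcard
    omega
  have h1 := hc (fun x => decide (x = (((), i) : Leaf u m []))) (by
    intro x hx
    have : x ≠ (((), i) : Leaf u m []) := by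
      rintro rfl
      exact hi hx
    simp [this])
  rw [h0, h] at h1
  simp only [Fo, decide_eq_false_iff_not] at h1
  exact h1 ⟨i, by simp⟩

theorem classes (m'' mh : ℕ) : ∃ cl : Fin (m'' * mh) → Fin m'',
    ∀ c, (Finset.univ.filter fun i => cl i = c).card = mh := by
  refine ⟨fun i => (finProdFinEquiv.symm i).1, ?_⟩
  intro c
  have e : (Finset.univ.filter fun i : Fin (m'' * mh) => (finProdFinEquiv.symm i).1 = c) =
      Finset.univ.image fun j : Fin mh => finProdFinEquiv (c, j) := by
    ext i
    simp only [Finset.mem_filter, Finset.mem_univ, true_and, Finset.mem_image]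
    constructor
    · intro hi
      refine ⟨(finProdFinEquiv.symm i).2, ?_⟩
      rw [← hi]
      exact finProdFinEquiv.apply_symm_apply i
    · rintro ⟨j, rfl⟩
      rw [Equiv.symm_apply_apply]
  rw [e, Finset.card_image_of_injective, Finset.card_univ, Fintype.card_fin]
  intro a b hab
  have := finProdFinEquiv.injective hab
  exact congrArg Prod.snd this

end P28cd
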