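import Mathlib
import Pool.Agent.Lib.P28cd.Defs

/-!
# Module P28cd.Num : the parameters of one stage

`E₀ = ex a`, `E = ex (a+1) = 3 E₀ + 7`, `ν = η^100`.  All conditions below hold for `η ≥ η₀(a)`.
CHOICE: `β = ν^(-(E+3))`, `q = ν^(-(E₀+1))`, `μ = (ν^(E+1))^(-1/u)` (real power; so `μ^u = ν^(-(E+1))`),
`k = η^(E+2)`.
FACTS.  (m1) `0 < μ`; `μ ≤ 1/2` because `μ^u = ν^(-(E+1)) ≤ η^(-1) ≤ 2^(-u)`.
 (m2) `μ^t ≥ η^(-(E+1))` : `(μ^t)^100 = μ^(100 t) ≥ μ^u = (η^(-(E+1)))^100` since `100 t ≤ u`, `μ ≤ 1`.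
 (m3) `(1/μ)^(2t) ≤ η^(2(E+1))`.   (m4) `2^u ≤ η`, so `u ≤ log η / log 2 ≤ 2 log η` and `t ≤ u ≤ η`; `b ≤ b * u ≤ ν^E` (`u ≥ 1`).
With `W = 4 t k (2^u * 2 * (q/(1-q) (1/μ)^(2t)))`: `q/(1-q) ≤ 2 q`, `t ≤ η`, so
`W ≤ 16 * η * η^(E+2) * η * η^(2E+2) * q = 16 η^(3E+6) η^(-100(E₀+1)) ≤ η^(3E + 7 - 100 E₀ - 100)`, and
`3E + 7 = 9 E₀ + 28`, so `W ≤ η^(-72) ≤ 1` and `S * W^t ≤ η^t η^(-72 t) ≤ 1/10`.
The other five terms, each `≤ 1/10`:
 1. `b u (1-β)^M ≤ ν^E exp(-β M) = ν^E exp(-ν)` (`M = ν^(E+4)`, `β M = ν`);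
 2. `b μ^u ≤ ν^E ν^(-(E+1)) = 1/ν`;
 3. `nc (1-q)^mh ≤ ν^(2E₀+4) exp(-q mh) = ν^(2E₀+4) exp(-ν)` (`mh = ν^(E₀+2)`);
 4. `S ((b+1) (2/μ)^u)^(3t) (1-μ^t)^k ≤ η^t (2 ν^E * η * ν^(E+1))^(3t) exp(-k μ^t)`, and
    `k μ^t ≥ η^(E+2) η^(-(E+1)) = η`, so it is `≤ exp(t (1 + 3(200 E + 102)) log η - η)
    ≤ exp((600 E + 307) (log η)^2 * 2 - η)`;
 5. `S (b+1)^t (t β)^(2t) ≤ η^t (2 ν^E)^t (η ν^(-(E+3)))^(2t) ≤ (η * 2 ν^E * η^2 ν^(-2E-6))^t ≤ 1/ν`.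
-/

set_option autoImplicit false

namespace P28cd

namespace NumAux

open Filter Topology

/-- the threshold conditions -/
theorem thr (E₀ E : ℕ) : ∃ η₀ : ℕ, ∀ η ≥ η₀, (20 : ℝ) ≤ (η : ℝ) ∧
    ((η : ℝ) ^ 100) ^ E * Real.exp (-((η : ℝ) ^ 100)) ≤ 1 / 10 ∧
    ((η : ℝ) ^ 100) ^ (2 * E₀ + 4) * Real.exp (-((η : ℝ) ^ 100)) ≤ 1 / 10 ∧
    2 * (600 * (E : ℝ) + 307) * (Real.log η) ^ 2 ≤ (η : ℝ) / 2 := by
  have hN : Tendsto (fun n : ℕ => (n : ℝ) ^ 100) atTop atTop :=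
    (tendsto_pow_atTop (by norm_num : (100 : ℕ) ≠ 0)).comp tendsto_natCast_atTop_atTop
  have h1 : ∀ᶠ n : ℕ in atTop, (20 : ℝ) ≤ (n : ℝ) :=
    tendsto_natCast_atTop_atTop.eventually_ge_atTop 20
  have h2 : ∀ᶠ n : ℕ in atTop, ((n : ℝ) ^ 100) ^ E * Real.exp (-((n : ℝ) ^ 100)) ≤ 1 / 10 := by
    have := (Real.tendsto_pow_mul_exp_neg_atTop_nhds_zero E).comp hN
    exact this.eventually_le_const (by norm_num)
  have h3 : ∀ᶠ n : ℕ in atTop,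
      ((n : ℝ) ^ 100) ^ (2 * E₀ + 4) * Real.exp (-((n : ℝ) ^ 100)) ≤ 1 / 10 := by
    have := (Real.tendsto_pow_mul_exp_neg_atTop_nhds_zero (2 * E₀ + 4)).comp hN
    exact this.eventually_le_const (by norm_num)
  have h4 : ∀ᶠ n : ℕ in atTop,
      2 * (600 * (E : ℝ) + 307) * (Real.log n) ^ 2 ≤ (n : ℝ) / 2 := by
    have ho := (Real.isLittleO_pow_log_id_atTop (n := 2))
    have hc : (0 : ℝ) < 1 / (4 * (600 * (E : ℝ) + 307)) := by positivity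
    have hb := ho.bound hc
    have hb2 := tendsto_natCast_atTop_atTop.eventually hb
    filter_upwards [hb2, h1] with n hn hn1
    have hpos : (0 : ℝ) < 4 * (600 * (E : ℝ) + 307) := by positivity
    rw [id, Real.norm_of_nonneg (by positivity), Real.norm_of_nonneg (by positivity)] at hn
    have hn' : (4 * (600 * (E : ℝ) + 307)) * Real.log n ^ 2 ≤ n := by
      have := mul_le_mul_of_nonneg_left hn hpos.le
      calc (4 * (600 * (E : ℝ) + 307)) * Real.log n ^ 2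
          ≤ (4 * (600 * (E : ℝ) + 307)) * (1 / (4 * (600 * (E : ℝ) + 307)) * n) := this
        _ = n := by field_simp
    linarith
  obtain ⟨η₀, h⟩ := eventually_atTop.1 (h1.and (h2.and (h3.and h4)))
  exact ⟨η₀, fun η hη => h η hη⟩

/-- `(1 - x)^n ≤ exp (- (n x))` -/
theorem one_sub_pow_le {x : ℝ} (_ : 0 ≤ x) (h1 : x ≤ 1) (n : ℕ) :
    (1 - x) ^ n ≤ Real.exp (-(n * x)) := by
  have h : 1 - x ≤ Real.exp (-x) := by
    have := Real.add_one_le_exp (-x)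
    linarith
  calc (1 - x) ^ n ≤ (Real.exp (-x)) ^ n := pow_le_pow_left₀ (by linarith) h n
    _ = Real.exp (-(n * x)) := by
      rw [← Real.exp_nat_mul]
      congr 1
      ring

end NumAux

open NumAux in
theorem num_stage (a : ℕ) : ∃ η₀ : ℕ, ∀ η ≥ η₀, ∀ u t : ℕ, 1 ≤ t → 100 * t ≤ u → 2 ^ u ≤ η →
    ∃ (β μ q : ℝ) (k : ℕ), 0 ≤ β ∧ β ≤ 1 ∧ 0 < μ ∧ μ ≤ 1 / 2 ∧ 0 < q ∧ q ≤ 1 / 2 ∧ 1 ≤ k ∧
      4 * ((t * k : ℕ) : ℝ) * (2 ^ u * 2 * (q / (1 - q) * (1 / μ) ^ (2 * t))) ≤ 1 ∧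
      ∀ b nc S : ℕ, b * u ≤ (η ^ 100) ^ ex (a + 1) → nc ≤ (η ^ 100) ^ (2 * ex a + 4) →
        S ≤ η ^ t →
        (b : ℝ) * u * (1 - β) ^ ((η ^ 100) ^ (ex (a + 1) + 4)) +
        (b : ℝ) * μ ^ u +
        (nc : ℝ) * (1 - q) ^ ((η ^ 100) ^ (ex a + 2)) +
        (S : ℝ) * ((((b : ℝ) + 1) * (2 / μ) ^ u) ^ (3 * t) * (1 - μ ^ t) ^ k) +
        (S : ℝ) * (((b : ℝ) + 1) ^ t * ((t : ℝ) * β) ^ (2 * t)) +
        (S : ℝ) * (4 * ((t * k : ℕ) : ℝ) *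
          (2 ^ u * 2 * (q / (1 - q) * (1 / μ) ^ (2 * t)))) ^ t < 1 := by
  have hEE : ex (a + 1) = 3 * ex a + 7 := rfl
  rw [hEE]
  generalize ex a = E₀
  obtain ⟨η₀, hη₀⟩ := thr E₀ (3 * E₀ + 7)
  refine ⟨η₀, fun η hη u t ht1 hut h2u => ?_⟩
  obtain ⟨c1, c2, c3, c4⟩ := hη₀ η hη
  set E : ℕ := 3 * E₀ + 7 with hE
  set h : ℝ := (η : ℝ) with hh
  set N : ℝ := h ^ 100 with hN
  have hh0 : 0 < h := by linarith
  have hh1 : 1 ≤ h := by linarith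
  have hN1 : 1 ≤ N := one_le_pow₀ hh1
  have hN0 : 0 < N := by linarith
  have hhN : h ≤ N := by
    calc h = h ^ 1 := (pow_one h).symm
      _ ≤ h ^ 100 := pow_le_pow_right₀ hh1 (by norm_num)
  have hu1 : 1 ≤ u := by omega
  have h2ur : (2 : ℝ) ^ u ≤ h := by
    rw [hh]
    exact_mod_cast h2u
  have hur : (u : ℝ) ≤ h := by
    have : u < 2 ^ u := Nat.lt_two_pow_self
    have h' : (u : ℝ) ≤ (2 : ℝ) ^ u := by exact_mod_cast this.le
    linarith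
  have htr : (t : ℝ) ≤ h := by
    have : (t : ℝ) ≤ (u : ℝ) := by
      have : t ≤ u := by omega
      exact_mod_cast this
    linarith
  have ht0 : t ≠ 0 := by omega
  have hu0 : u ≠ 0 := by omega
  -- the parameters
  obtain ⟨μ, hμ0, hμu⟩ : ∃ μ : ℝ, 0 < μ ∧ μ ^ u = (N ^ (E + 1))⁻¹ := by
    refine ⟨((N ^ (E + 1))⁻¹) ^ ((u : ℝ)⁻¹), by positivity, ?_⟩
    exact Real.rpow_inv_natCast_pow (by positivity) hu0
  have hNE1 : h ≤ N ^ (E + 1) := by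
    calc h ≤ N := hhN
      _ = N ^ 1 := (pow_one N).symm
      _ ≤ N ^ (E + 1) := pow_le_pow_right₀ hN1 (by omega)
  have hμ2 : μ ≤ 1 / 2 := by
    by_contra hcon
    push Not at hcon
    have h1 : (1 / 2 : ℝ) ^ u < μ ^ u := pow_lt_pow_left₀ hcon (by norm_num) hu0
    rw [hμu] at h1
    have h2 : (N ^ (E + 1))⁻¹ ≤ ((2 : ℝ) ^ u)⁻¹ := inv_anti₀ (by positivity) (h2ur.trans hNE1)
    rw [one_div, inv_pow] at h1
    linarith
  have hμ1 : μ ≤ 1 := by linarith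
  have hμt : (h ^ (E + 1))⁻¹ ≤ μ ^ t := by
    refine le_of_pow_le_pow_left₀ (n := 100) (by norm_num) (by positivity) ?_
    calc ((h ^ (E + 1))⁻¹) ^ 100 = (N ^ (E + 1))⁻¹ := by
          rw [hN, inv_pow, ← pow_mul, ← pow_mul, mul_comm]
      _ = μ ^ u := hμu.symm
      _ ≤ μ ^ (t * 100) := pow_le_pow_of_le_one hμ0.le hμ1 (by omega)
      _ = (μ ^ t) ^ 100 := by rw [← pow_mul]
  have hμ2t : (1 / μ) ^ (2 * t) ≤ h ^ (2 * (E + 1)) := by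
    have e1 : (1 / μ) ^ (2 * t) = ((μ ^ t)⁻¹) ^ 2 := by
      rw [one_div, inv_pow, inv_pow, ← pow_mul, mul_comm]
    have e2 : (μ ^ t)⁻¹ ≤ h ^ (E + 1) := by
      have := inv_anti₀ (by positivity) hμt
      rwa [inv_inv] at this
    rw [e1]
    calc ((μ ^ t)⁻¹) ^ 2 ≤ (h ^ (E + 1)) ^ 2 := pow_le_pow_left₀ (by positivity) e2 2
      _ = h ^ (2 * (E + 1)) := by rw [← pow_mul, mul_comm]
  obtain ⟨q, hq⟩ : ∃ q : ℝ, q = (N ^ (E₀ + 1))⁻¹ := ⟨_, rfl⟩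
  obtain ⟨β, hβ⟩ : ∃ β : ℝ, β = (N ^ (E + 3))⁻¹ := ⟨_, rfl⟩
  have hq0 : 0 < q := by rw [hq]; positivity
  have hβ0 : 0 < β := by rw [hβ]; positivity
  have hq2 : q ≤ 1 / 2 := by
    rw [hq, one_div]
    refine inv_anti₀ (by norm_num) ?_
    calc (2 : ℝ) ≤ N := by linarith
      _ = N ^ 1 := (pow_one N).symm
      _ ≤ N ^ (E₀ + 1) := pow_le_pow_right₀ hN1 (by omega)
  have hβ1 : β ≤ 1 := by
    rw [hβ]
    exact inv_le_one_of_one_le₀ (one_le_pow₀ hN1)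
  have hqq : q / (1 - q) ≤ 2 * q := by
    rw [div_le_iff₀ (by linarith)]
    nlinarith
  have hqq0 : 0 ≤ q / (1 - q) := div_nonneg hq0.le (by linarith)
  -- W
  have hWnn : 0 ≤ 4 * ((t * η ^ (E + 2) : ℕ) : ℝ) *
      (2 ^ u * 2 * (q / (1 - q) * (1 / μ) ^ (2 * t))) := by positivity
  have hW : 4 * ((t * η ^ (E + 2) : ℕ) : ℝ) *
      (2 ^ u * 2 * (q / (1 - q) * (1 / μ) ^ (2 * t))) ≤ (h ^ 2)⁻¹ := by
    have k1 : 4 * ((t * η ^ (E + 2) : ℕ) : ℝ) *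
        (2 ^ u * 2 * (q / (1 - q) * (1 / μ) ^ (2 * t))) ≤
        4 * (h * h ^ (E + 2)) * (h * 2 * (2 * q * h ^ (2 * (E + 1)))) := by
      push_cast
      gcongr
    have k2 : 4 * (h * h ^ (E + 2)) * (h * 2 * (2 * q * h ^ (2 * (E + 1)))) =
        16 * (h ^ (3 * E + 6) * q) := by ring
    rw [k2] at k1
    refine k1.trans ?_
    rw [hq, hN, ← pow_mul]
    have k3 : h ^ (100 * (E₀ + 1)) = h ^ (3 * E + 6) * (h ^ (91 * E₀ + 71) * h ^ 2) := by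
      rw [← pow_add, ← pow_add]
      congr 1
      omega
    rw [k3, mul_inv, mul_inv]
    have k4 : (16 : ℝ) ≤ h ^ (91 * E₀ + 71) := by
      calc (16 : ℝ) ≤ h := by linarith
        _ = h ^ 1 := (pow_one h).symm
        _ ≤ h ^ (91 * E₀ + 71) := pow_le_pow_right₀ hh1 (by omega)
    have k5 : h ^ (3 * E + 6) * (h ^ (3 * E + 6))⁻¹ = 1 := mul_inv_cancel₀ (by positivity)
    calc 16 * (h ^ (3 * E + 6) * ((h ^ (3 * E + 6))⁻¹ * ((h ^ (91 * E₀ + 71))⁻¹ * (h ^ 2)⁻¹)))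
        = (h ^ (3 * E + 6) * (h ^ (3 * E + 6))⁻¹) *
          ((16 * (h ^ (91 * E₀ + 71))⁻¹) * (h ^ 2)⁻¹) := by ring
      _ = (16 * (h ^ (91 * E₀ + 71))⁻¹) * (h ^ 2)⁻¹ := by rw [k5, one_mul]
      _ ≤ 1 * (h ^ 2)⁻¹ := by
          refine mul_le_mul_of_nonneg_right ?_ (by positivity)
          rw [← div_eq_mul_inv]
          exact (div_le_one (by positivity)).2 k4
      _ = (h ^ 2)⁻¹ := one_mul _
  have hh2 : (h ^ 2)⁻¹ ≤ 1 := inv_le_one_of_one_le₀ (one_le_pow₀ hh1)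
  refine ⟨β, μ, q, η ^ (E + 2), hβ0.le, hβ1, hμ0, hμ2, hq0, hq2, ?_, hW.trans hh2, ?_⟩
  · have : 1 ≤ η := by
      have : (1 : ℝ) ≤ (η : ℝ) := hh1
      exact_mod_cast this
    exact Nat.one_le_pow _ _ this
  intro b nc S hb hnc hS
  have hbr : (b : ℝ) * u ≤ N ^ E := by
    have : ((b * u : ℕ) : ℝ) ≤ (((η ^ 100) ^ E : ℕ) : ℝ) := by exact_mod_cast hb
    push_cast at this
    exact this
  have hncr : (nc : ℝ) ≤ N ^ (2 * E₀ + 4) := by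
    have : ((nc : ℕ) : ℝ) ≤ (((η ^ 100) ^ (2 * E₀ + 4) : ℕ) : ℝ) := by exact_mod_cast hnc
    push_cast at this
    exact this
  have hSr : (S : ℝ) ≤ h ^ t := by
    have : ((S : ℕ) : ℝ) ≤ ((η ^ t : ℕ) : ℝ) := by exact_mod_cast hS
    push_cast at this
    exact this
  have hur1 : (1 : ℝ) ≤ (u : ℝ) := by exact_mod_cast hu1
  have hb0 : (0 : ℝ) ≤ b := Nat.cast_nonneg b
  have hbE : (b : ℝ) ≤ N ^ E := by
    calc (b : ℝ) = b * 1 := (mul_one _).symm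
      _ ≤ b * u := mul_le_mul_of_nonneg_left hur1 hb0
      _ ≤ N ^ E := hbr
  have hNE : 1 ≤ N ^ E := one_le_pow₀ hN1
  have hb1 : (b : ℝ) + 1 ≤ 2 * N ^ E := by linarith
  have hS0 : (0 : ℝ) ≤ S := Nat.cast_nonneg S
  have h10 : h⁻¹ ≤ 1 / 10 := by
    rw [one_div]
    exact inv_anti₀ (by norm_num) (by linarith)
  -- term 1
  have t1 : (b : ℝ) * u * (1 - β) ^ ((η ^ 100) ^ (E + 4)) ≤ 1 / 10 := by
    have e1 := one_sub_pow_le hβ0.le hβ1 ((η ^ 100) ^ (E + 4))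
    have e2 : (((η ^ 100) ^ (E + 4) : ℕ) : ℝ) * β = N := by
      push_cast
      rw [hβ]
      change N ^ (E + 4) * (N ^ (E + 3))⁻¹ = N
      rw [pow_succ N (E + 3)]
      field_simp
    rw [e2] at e1
    calc (b : ℝ) * u * (1 - β) ^ ((η ^ 100) ^ (E + 4))
        ≤ N ^ E * Real.exp (-N) := by
          refine mul_le_mul hbr e1 (pow_nonneg (by linarith) _) (by positivity)
      _ ≤ 1 / 10 := c2
  -- term 2
  have t2 : (b : ℝ) * μ ^ u ≤ 1 / 10 := by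
    rw [hμu]
    calc (b : ℝ) * (N ^ (E + 1))⁻¹ ≤ N ^ E * (N ^ (E + 1))⁻¹ :=
          mul_le_mul_of_nonneg_right hbE (by positivity)
      _ = N⁻¹ := by
          rw [pow_succ N E, mul_inv, ← mul_assoc, mul_inv_cancel₀ (by positivity), one_mul]
      _ ≤ h⁻¹ := inv_anti₀ hh0 hhN
      _ ≤ 1 / 10 := h10
  -- term 3
  have t3 : (nc : ℝ) * (1 - q) ^ ((η ^ 100) ^ (E₀ + 2)) ≤ 1 / 10 := by
    have e1 := one_sub_pow_le hq0.le (by linarith) ((η ^ 100) ^ (E₀ + 2))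
    have e2 : (((η ^ 100) ^ (E₀ + 2) : ℕ) : ℝ) * q = N := by
      push_cast
      rw [hq]
      change N ^ (E₀ + 2) * (N ^ (E₀ + 1))⁻¹ = N
      rw [pow_succ N (E₀ + 1)]
      field_simp
    rw [e2] at e1
    calc (nc : ℝ) * (1 - q) ^ ((η ^ 100) ^ (E₀ + 2))
        ≤ N ^ (2 * E₀ + 4) * Real.exp (-N) := by
          refine mul_le_mul hncr e1 (pow_nonneg (by linarith) _) (by positivity)
      _ ≤ 1 / 10 := c3
  -- term 4
  have t4 : (S : ℝ) * ((((b : ℝ) + 1) * (2 / μ) ^ u) ^ (3 * t) * (1 - μ ^ t) ^ (η ^ (E + 2))) ≤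
      1 / 10 := by
    have hμt1 : μ ^ t ≤ 1 := pow_le_one₀ hμ0.le hμ1
    have hμt0 : 0 < μ ^ t := pow_pos hμ0 t
    have e1 := one_sub_pow_le hμt0.le hμt1 (η ^ (E + 2))
    have e2 : h ≤ ((η ^ (E + 2) : ℕ) : ℝ) * μ ^ t := by
      push_cast
      calc h = h ^ (E + 2) * (h ^ (E + 1))⁻¹ := by
            rw [pow_succ h (E + 1)]
            field_simp
        _ ≤ h ^ (E + 2) * μ ^ t := mul_le_mul_of_nonneg_left hμt (by positivity)
    have e3 : (1 - μ ^ t) ^ (η ^ (E + 2)) ≤ Real.exp (-h) :=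
      e1.trans (Real.exp_le_exp.2 (by linarith))
    have e4 : ((b : ℝ) + 1) * (2 / μ) ^ u ≤ h ^ (200 * E + 102) := by
      have f1 : (2 / μ) ^ u ≤ h * N ^ (E + 1) := by
        rw [div_pow, hμu, div_inv_eq_mul]
        exact mul_le_mul_of_nonneg_right h2ur (by positivity)
      calc ((b : ℝ) + 1) * (2 / μ) ^ u ≤ (2 * N ^ E) * (h * N ^ (E + 1)) := by gcongr
        _ ≤ (h * N ^ E) * (h * N ^ (E + 1)) := by
            gcongr
            linarith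
        _ = h ^ (200 * E + 102) := by
            rw [hN, ← pow_mul, ← pow_mul]
            ring
    have e5 : (S : ℝ) * ((((b : ℝ) + 1) * (2 / μ) ^ u) ^ (3 * t) * (1 - μ ^ t) ^ (η ^ (E + 2))) ≤
        h ^ t * ((h ^ (200 * E + 102)) ^ (3 * t) * Real.exp (-h)) := by
      have : 0 ≤ 1 - μ ^ t := by linarith
      gcongr
    have e6 : h ^ t * ((h ^ (200 * E + 102)) ^ (3 * t) * Real.exp (-h)) =
        h ^ ((600 * E + 307) * t) * Real.exp (-h) := by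
      rw [← mul_assoc, ← pow_mul, ← pow_add]
      congr 2
      ring
    rw [e6] at e5
    refine e5.trans ?_
    have e7 : h ^ ((600 * E + 307) * t) =
        Real.exp (((600 * E + 307) * t : ℕ) * Real.log h) := by
      rw [Real.exp_nat_mul, Real.exp_log hh0]
    rw [e7, ← Real.exp_add]
    have hlog0 : 0 ≤ Real.log h := Real.log_nonneg hh1
    have e8 : (t : ℝ) ≤ 2 * Real.log h := by
      have g1 : (u : ℝ) * Real.log 2 ≤ Real.log h := by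
        rw [← Real.log_pow]
        exact Real.log_le_log (by positivity) h2ur
      have g2 : (1 / 2 : ℝ) ≤ Real.log 2 := by
        have := Real.log_two_gt_d9
        linarith
      have g3 : (t : ℝ) ≤ (u : ℝ) := by
        have : t ≤ u := by omega
        exact_mod_cast this
      nlinarith
    have e9 : (((600 * E + 307) * t : ℕ) : ℝ) * Real.log h + -h ≤ -(h / 2) := by
      push_cast
      have c4' : 2 * (600 * (E : ℝ) + 307) * (Real.log h) ^ 2 ≤ h / 2 := c4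
      have hc : (0 : ℝ) ≤ 600 * (E : ℝ) + 307 := by positivity
      have : (600 * (E : ℝ) + 307) * t * Real.log h ≤
          (600 * (E : ℝ) + 307) * (2 * Real.log h) * Real.log h := by gcongr
      have e : (600 * (E : ℝ) + 307) * (2 * Real.log h) * Real.log h =
          2 * (600 * (E : ℝ) + 307) * (Real.log h) ^ 2 := by ring
      linarith
    calc Real.exp ((((600 * E + 307) * t : ℕ) : ℝ) * Real.log h + -h)
        ≤ Real.exp (-(h / 2)) := Real.exp_le_exp.2 e9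
      _ = (Real.exp (h / 2))⁻¹ := Real.exp_neg _
      _ ≤ (10 : ℝ)⁻¹ := by
          refine inv_anti₀ (by norm_num) ?_
          have := Real.add_one_le_exp (h / 2)
          linarith
      _ = 1 / 10 := by norm_num
  -- term 5
  have t5 : (S : ℝ) * (((b : ℝ) + 1) ^ t * ((t : ℝ) * β) ^ (2 * t)) ≤ 1 / 10 := by
    have e1 : (S : ℝ) * (((b : ℝ) + 1) ^ t * ((t : ℝ) * β) ^ (2 * t)) ≤
        h ^ t * ((2 * N ^ E) ^ t * (h * β) ^ (2 * t)) := by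
      gcongr
    have e2 : h ^ t * ((2 * N ^ E) ^ t * (h * β) ^ (2 * t)) =
        (h * ((2 * N ^ E) * (h * β) ^ 2)) ^ t := by
      rw [pow_mul, ← mul_pow, ← mul_pow]
    rw [e2] at e1
    refine e1.trans ?_
    have e3 : h * ((2 * N ^ E) * (h * β) ^ 2) ≤ h⁻¹ := by
      have f1 : h * ((2 * N ^ E) * (h * β) ^ 2) ≤ h * ((h * N ^ E) * (h * β) ^ 2) := by
        gcongr
        linarith
      refine f1.trans ?_
      rw [hβ]
      have f2 : h * ((h * N ^ E) * (h * (N ^ (E + 3))⁻¹) ^ 2) =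
          (h ^ 4 * N⁻¹) * (N ^ (E + 5))⁻¹ := by
        have : N ^ (E + 3) * N ^ (E + 3) = N ^ E * (N * N ^ (E + 5)) := by ring
        rw [mul_pow, inv_pow, pow_two (N ^ (E + 3)), this]
        field_simp
      rw [f2]
      have f3 : h ^ 4 * N⁻¹ ≤ 1 := by
        rw [← div_eq_mul_inv, div_le_one hN0]
        exact pow_le_pow_right₀ hh1 (by norm_num)
      have f4 : h ≤ N ^ (E + 5) := by
        calc h ≤ N := hhN
          _ = N ^ 1 := (pow_one N).symm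
          _ ≤ N ^ (E + 5) := pow_le_pow_right₀ hN1 (by omega)
      calc (h ^ 4 * N⁻¹) * (N ^ (E + 5))⁻¹ ≤ 1 * h⁻¹ := by
            refine mul_le_mul f3 (inv_anti₀ hh0 f4) (by positivity) (by norm_num)
        _ = h⁻¹ := one_mul _
    calc (h * ((2 * N ^ E) * (h * β) ^ 2)) ^ t ≤ (h⁻¹) ^ t :=
          pow_le_pow_left₀ (by positivity) e3 t
      _ ≤ h⁻¹ := pow_le_of_le_one (by positivity) (inv_le_one_of_one_le₀ hh1) ht0
      _ ≤ 1 / 10 := h10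
  -- term 6
  have t6 : (S : ℝ) * (4 * ((t * η ^ (E + 2) : ℕ) : ℝ) *
      (2 ^ u * 2 * (q / (1 - q) * (1 / μ) ^ (2 * t)))) ^ t ≤ 1 / 10 := by
    calc (S : ℝ) * (4 * ((t * η ^ (E + 2) : ℕ) : ℝ) *
          (2 ^ u * 2 * (q / (1 - q) * (1 / μ) ^ (2 * t)))) ^ t
        ≤ h ^ t * ((h ^ 2)⁻¹) ^ t := by
          refine mul_le_mul hSr (pow_le_pow_left₀ hWnn hW t) (pow_nonneg hWnn _) (by positivity)
      _ = (h⁻¹) ^ t := by
          rw [← mul_pow]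
          congr 1
          field_simp
      _ ≤ h⁻¹ := pow_le_of_le_one (by positivity) (inv_le_one_of_one_le₀ hh1) ht0
      _ ≤ 1 / 10 := h10
  linarith

end P28cd
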