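import Mathlib
import Pool.Agent.Lib.P28cd.Col
import Pool.Agent.Lib.P28cd.Num
import Pool.Agent.Lib.P28cd.Form

/-!
# Module P28cd.Ind : no family with `2 a` levels computes the formula with `a` levels of ANDs

PROOF.  Induction on `a`; `ν = η^100`.  `a = 0`: all levels are `0`, so `val out` has `Cert t`, and it is the OR of
`ν^4` variables, `t < ν^4` (`t ≤ u < 2^u ≤ η`): `base_case`.
Step.  Let `η₀` be the maximum of the bound for `a`, of the bound of `num_stage a` and of `2`.  Write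
`E₀ = ex a`, `E = ex (a+1)`, `m = ν^(2 E₀ + 6)`, `m'' = ν^(E₀+4)`, `mh = ν^(E₀+2)`, `m = m'' * mh`, `M = ν^(E+4)`.
The family lives on `Leaf u M (m :: ms ν a) = (B × Fin u) × Fin M`, `B = Leaf u m (ms ν a)`,
and `ms ν (a+1) = m :: ms ν a`.  `cl : Fin m → Fin m''` from `classes` (cast along `m = m'' * mh`), the classes
`cls : Grp u (ms ν a) × Fin m'' → Finset B`, `cls (γ, c) = {(γ, i) | cl i = c}` have `mh` elements.
`collapse` with the numbers of `num_stage a` (`b = card B`, `b * u = card (Grp u (ms ν (a+1))) ≤ ν^E` by `card_grp`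
(`u ≤ 2^u ≤ η ≤ ν`), `nc = card (Grp u (ms ν a)) * m'' ≤ ν^(E₀ + E₀ + 4)`).  We get `A, V, al`; choose
`rep x` with `cl (rep x) = x.2`, `al (x.1, rep x)`.  Compose with `spread rep cl` (`fam_comp`, `dep1_spread`):
the family `fun g z => val g (lift A (full V al (spread rep cl z)))` on `Leaf u m'' (ms ν a)` with levels
`level g - 2 ≤ 2 a` computes `Fo u (ms ν (a+1)) M (lift ..) = Fo u (ms ν a) m (al && spread ..) =
Fo u (ms ν a) m'' z` (`fo_stage`, `fo_expand`).  Contradiction to the induction hypothesis.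
-/

set_option autoImplicit false

namespace P28cd

namespace IndAux

/-- the classes for `m = m'' * mh` -/
theorem classes' {m m'' mh : ℕ} (h : m = m'' * mh) : ∃ cl : Fin m → Fin m'',
    ∀ c, (Finset.univ.filter fun i => cl i = c).card = mh := by
  subst h
  exact classes m'' mh

/-- one stage: from `a + 1` to `a` -/
theorem step {u m m'' mh M E' : ℕ} {rest : List ℕ} (hm : m = m'' * mh)
    {S t k : ℕ} (ht : 1 ≤ t) (hk : 1 ≤ k)
    {β μ q : ℝ} (hβ0 : 0 ≤ β) (hβ1 : β ≤ 1) (hμ0 : 0 < μ) (hμ1 : μ ≤ 1 / 2)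
    (hq0 : 0 < q) (hq1 : q ≤ 1 / 2)
    (hθ : 4 * ((t * k : ℕ) : ℝ) * (2 ^ u * 2 * (q / (1 - q) * (1 / μ) ^ (2 * t))) ≤ 1)
    (hsum : ((Fintype.card (Leaf u m rest) : ℕ) : ℝ) * u * (1 - β) ^ M +
      ((Fintype.card (Leaf u m rest) : ℕ) : ℝ) * μ ^ u +
      ((Fintype.card (Leaf u m'' rest) : ℕ) : ℝ) * (1 - q) ^ mh +
      (S : ℝ) * (((((Fintype.card (Leaf u m rest) : ℕ) : ℝ) + 1) * (2 / μ) ^ u) ^ (3 * t) *
        (1 - μ ^ t) ^ k) +
      (S : ℝ) * ((((Fintype.card (Leaf u m rest) : ℕ) : ℝ) + 1) ^ t * ((t : ℝ) * β) ^ (2 * t)) +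
      (S : ℝ) * (4 * ((t * k : ℕ) : ℝ) *
        (2 ^ u * 2 * (q / (1 - q) * (1 / μ) ^ (2 * t)))) ^ t < 1)
    {level : Fin S → ℕ} {val : Fin S → (Leaf u M (m :: rest) → Bool) → Bool}
    (hF : Fam t level val) (hE : ∀ g, level g ≤ 2 * E' + 2)
    (ih : ∀ (level : Fin S → ℕ) (val : Fin S → (Leaf u m'' rest → Bool) → Bool),
      Fam t level val → (∀ g, level g ≤ 2 * E') → ∀ out, ¬ ∀ y, val out y = Fo u rest m'' y)
    (out : Fin S) : ¬ ∀ y, val out y = Fo u (m :: rest) M y := by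
  intro hout
  obtain ⟨cl, hcl⟩ := classes' hm
  let cls : Grp u rest × Fin m'' → Finset (Leaf u m rest) := fun c =>
    (Finset.univ.filter fun i => cl i = c.2).map
      ⟨fun i => (c.1, i), fun i j h => (Prod.ext_iff.1 h).2⟩
  have hcls : ∀ c, mh ≤ (cls c).card := by
    intro c
    simp only [cls, Finset.card_map]
    exact (hcl c.2).ge
  have hθ' : 4 * ((t * k : ℕ) : ℝ) *
      (2 ^ Fintype.card (Fin u) * 2 * (q / (1 - q) * (1 / μ) ^ (2 * t))) ≤ 1 := by
    rw [Fintype.card_fin]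
    exact hθ
  obtain ⟨A, V, al, hA, hV, hal, hFam⟩ := collapse (B := Leaf u m rest) (U := Fin u)
    (M := Fin M) (C := Leaf u m'' rest) (mh := mh) ht hk hβ0 hβ1 hμ0 hμ1 hq0 hq1
    (level := level) (val := val) hF cls hcls hθ' (by
      rw [Fintype.card_fin, Fintype.card_fin]
      exact hsum)
  have hrep : ∀ c : Grp u rest × Fin m'', ∃ i : Fin m, cl i = c.2 ∧ al (c.1, i) = true := by
    intro c
    obtain ⟨b, hb, hb2⟩ := hal c
    simp only [cls, Finset.mem_map, Finset.mem_filter, Finset.mem_univ, true_and,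
      Function.Embedding.coeFn_mk] at hb
    obtain ⟨i, hi, rfl⟩ := hb
    exact ⟨i, hi, hb2⟩
  choose rep h1 h2 using hrep
  have hFam2 := fam_comp hFam (spread rep cl) (fun i => dep1_spread rep cl i)
  refine ih _ _ hFam2 (fun g => by have := hE g; omega) out ?_
  intro y
  show val out (lift A (full V al (spread rep cl y))) = _
  rw [hout, fo_stage u m M rest A V al _ hA hV, fo_expand u m m'' rest al cl rep h1 h2]

end IndAux

theorem no_family (a : ℕ) : ∃ η₀ : ℕ, ∀ η ≥ η₀, ∀ u t : ℕ, 1 ≤ t → 100 * t ≤ u → 2 ^ u ≤ η →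
    ∀ S ≤ η ^ t, ∀ (level : Fin S → ℕ)
      (val : Fin S → (Leaf u ((η ^ 100) ^ (ex a + 4)) (ms (η ^ 100) a) → Bool) → Bool),
      Fam t level val → (∀ g, level g ≤ 2 * a) →
      ∀ out, ¬ ∀ y, val out y = Fo u (ms (η ^ 100) a) ((η ^ 100) ^ (ex a + 4)) y := by
  induction a with
  | zero =>
    refine ⟨2, fun η hη u t ht hut h2u S _ level val hF hlev out hout => ?_⟩
    have hut' : t < η := by
      have h1 : u < 2 ^ u := Nat.lt_two_pow_self
      omega
    have hm : t < (η ^ 100) ^ (ex 0 + 4) := by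
      have h2 : η ≤ (η ^ 100) ^ (ex 0 + 4) := by
        rw [← pow_mul]
        exact Nat.le_self_pow (by simp [ex]) η
      omega
    have hlev0 : level out = 0 := by
      have := hlev out
      omega
    exact base_case hm (hF.1 out hlev0) hout
  | succ a ih =>
    obtain ⟨η₁, h₁⟩ := ih
    obtain ⟨η₂, h₂⟩ := num_stage a
    refine ⟨max (max η₁ η₂) 2, fun η hη u t ht hut h2u S hS level val hF hlev out => ?_⟩
    have hη1 : η₁ ≤ η := le_trans (le_trans (le_max_left _ _) (le_max_left _ _)) hη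
    have hη2 : η₂ ≤ η := le_trans (le_trans (le_max_right _ _) (le_max_left _ _)) hη
    have hη3 : 2 ≤ η := le_trans (le_max_right _ _) hη
    obtain ⟨β, μ, q, k, hβ0, hβ1, hμ0, hμ1, hq0, hq1, hk, hθ, hsum⟩ :=
      h₂ η hη2 u t ht hut h2u
    have huν : u ≤ η ^ 100 := by
      have h1 : u < 2 ^ u := Nat.lt_two_pow_self
      have h2 : η ≤ η ^ 100 := Nat.le_self_pow (by norm_num) η
      omega
    have hm : (η ^ 100) ^ (2 * ex a + 6) =
        (η ^ 100) ^ (ex a + 4) * (η ^ 100) ^ (ex a + 2) := by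
      rw [← pow_add]
      congr 1
      ring
    have hb : Fintype.card (Leaf u ((η ^ 100) ^ (2 * ex a + 6)) (ms (η ^ 100) a)) * u ≤
        (η ^ 100) ^ ex (a + 1) := by
      rw [← card_grp_succ]
      exact card_grp huν (a + 1)
    have hnc : Fintype.card (Leaf u ((η ^ 100) ^ (ex a + 4)) (ms (η ^ 100) a)) ≤
        (η ^ 100) ^ (2 * ex a + 4) := by
      have h3 : Fintype.card (Leaf u ((η ^ 100) ^ (ex a + 4)) (ms (η ^ 100) a)) =
          Fintype.card (Grp u (ms (η ^ 100) a)) * (η ^ 100) ^ (ex a + 4) := by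
        rw [Fintype.card_prod, Fintype.card_fin]
      rw [h3]
      calc _ ≤ (η ^ 100) ^ ex a * (η ^ 100) ^ (ex a + 4) :=
            Nat.mul_le_mul_right _ (card_grp huν a)
        _ = (η ^ 100) ^ (2 * ex a + 4) := by
            rw [← pow_add]
            congr 1
            ring
    exact IndAux.step (E' := a) hm ht hk hβ0 hβ1 hμ0 hμ1 hq0 hq1 hθ (hsum _ _ S hb hnc hS)
      hF (fun g => by have := hlev g; omega)
      (fun level' val' hF' hlev' out' => h₁ η hη1 u t ht hut h2u S hS level' val' hF' hlev' out')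
      out

end P28cd
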