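import Mathlib
import Pool.Agent.Lib.P28cd.Prob

/-!
# Module P28cd.Zero : the first stage, gates on literals become small

Random string `ω : Λ × Bool → Bool`, product weights `w (ℓ, false) = bw q0`, `w (ℓ, true) = bw (1/2)`;
`al ℓ = ω (ℓ, false)`, `side ℓ = ω (ℓ, true)`.

PROOF.  Fix `g`.  If `f g` is an AND, pass to its negation (`Dep1` and `Cert` are closed under negation), so let it
be the OR of `T`, all members `Dep1`.  If `f g` is constantly true, `K = ∅` is a certificate.  Otherwise call `ℓ`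
touched if there are `c, v` with: `x (ℓ,c) = v → f g x = true` for all `x`; fix such `c ℓ, v ℓ`.
FACT: if `f g x = true` there are `ℓ, c, v` with `x (ℓ,c) = v` and (`x' (ℓ,c) = v → f g x' = true` for all `x'`): some `h ∈ T` is true at `x`, it depends on a
set `K`, `|K| ≤ 1`; `K = ∅` would make `f g` constantly true; `K = {(ℓ,c)}`, `v = x (ℓ,c)`.
(i) At least `N` touched leaves: let `F` be a set of `N` of them.  If some `ℓ ∈ F` is dead (`al ℓ = false`) and
`decide (c ℓ = side ℓ) = v ℓ` then `f g (sub0 al side y) = true` for all `y`.  This fails for all `ℓ ∈ F` with probability at most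
`(3/4)^N`: for each `ℓ` the two coordinates `(ℓ,false), (ℓ,true)` have to avoid one pattern of weight
`(1-q0)/2 ≥ 1/4`; induction on `F` with `sum_wt_pattern` (`pr (E ∧ not pattern) = pr E - pr (E ∧ pattern) =
(1 - (1-q0)/2) pr E` for `E` not depending on these two coordinates).
(ii) Less than `N` touched leaves: if at most `t` touched leaves are alive, then the set `K` of the alive touched
leaves is a certificate of `fun y => f g (sub0 al side y)` at every `y` (by FACT, and since
`sub0 al side y (ℓ,c)` does not depend on `y` if `ℓ` is dead, and depends on `y ℓ` only).  Otherwise `t+1` touched leaves are alive: probability at most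
`(number of subsets of size t+1) * q0^(t+1) ≤ N^(t+1) q0^(t+1)` (`pr_pattern`).
A class is without alive leaf with probability `(1-q0)^|cls c| ≤ (1-q0)^mh`.  Union bound.
-/

set_option autoImplicit false

namespace P28cd

open Finset

namespace ZeroAux

/-- the weights of the random string -/
noncomputable def wz {Λ : Type} (q0 : ℝ) : Λ × Bool → Bool → ℝ :=
  fun i b => if i.2 then (if b then 1 / 2 else 1 - 1 / 2) else (if b then q0 else 1 - q0)

theorem wz_nonneg {Λ : Type} {q0 : ℝ} (h0 : 0 ≤ q0) (h1 : q0 ≤ 1 / 2) (i : Λ × Bool) (b : Bool) :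
    0 ≤ wz q0 i b := by
  unfold wz
  split_ifs <;> linarith

theorem wz_sum {Λ : Type} (q0 : ℝ) (i : Λ × Bool) : wz q0 i false + wz q0 i true = 1 := by
  simp only [wz, Bool.false_eq_true, if_false, if_true]
  split_ifs <;> ring

theorem pr_false {I : Type} [Fintype I] [DecidableEq I] (w : I → Bool → ℝ)
    {P : (I → Bool) → Prop} (h : ∀ x, ¬ P x) : pr w P = 0 := by
  unfold pr
  exact Finset.sum_eq_zero fun x _ => by rw [ind_of_not (h x), mul_zero]

/-- the side that makes a dead leaf true at the touching literal -/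
def sd {Λ : Type} (cc vv : Λ → Bool) (ℓ : Λ) : Bool := if vv ℓ then cc ℓ else !cc ℓ

theorem dec_eq (c v s : Bool) (h : s = if v then c else !c) : decide (c = s) = v := by
  subst h
  cases c <;> cases v <;> rfl

theorem avoid {Λ : Type} [Fintype Λ] [DecidableEq Λ] {q0 : ℝ} (h0 : 0 ≤ q0) (h1 : q0 ≤ 1 / 2)
    (s : Λ → Bool) (F : Finset Λ) :
    pr (wz q0) (fun ω : Λ × Bool → Bool => ∀ ℓ ∈ F, ¬ (ω (ℓ, false) = false ∧ ω (ℓ, true) = s ℓ)) ≤
      (3 / 4) ^ F.card := by
  induction F using Finset.induction_on with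
  | empty =>
    rw [Finset.card_empty, pow_zero]
    exact pr_le_one (wz_nonneg h0 h1) (wz_sum q0) _
  | @insert a F ha ih =>
    rw [Finset.card_insert_of_notMem ha, pow_succ]
    set E : (Λ × Bool → Bool) → Prop :=
      fun ω => ∀ ℓ ∈ F, ¬ (ω (ℓ, false) = false ∧ ω (ℓ, true) = s ℓ) with hE
    have hpat := sum_wt_pattern (w := wz q0) (wz_sum q0)
      ({(a, false), (a, true)} : Finset (Λ × Bool)) (fun i => if i.2 then s a else false)
      (fun ω => ind (E ω)) (by
        intro i hi x b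
        have hi2 : i.1 = a := by
          rcases Finset.mem_insert.1 hi with h | h
          · rw [h]
          · rw [Finset.mem_singleton.1 h]
        have hne : ∀ ℓ ∈ F, ∀ c : Bool, (ℓ, c) ≠ i := by
          intro ℓ hℓ c hc
          apply ha
          rw [← hi2, ← hc]
          exact hℓ
        have : E (Function.update x i b) ↔ E x := by
          constructor
          · intro h ℓ hℓ
            have h2 := h ℓ hℓ
            rwa [Function.update_of_ne (hne ℓ hℓ false), Function.update_of_ne (hne ℓ hℓ true)]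
              at h2
          · intro h ℓ hℓ
            rw [Function.update_of_ne (hne ℓ hℓ false), Function.update_of_ne (hne ℓ hℓ true)]
            exact h ℓ hℓ
        simp only [this])
    have hprod : (∏ i ∈ ({(a, false), (a, true)} : Finset (Λ × Bool)),
        wz q0 i (if i.2 then s a else false)) = (1 - q0) * (1 / 2) := by
      rw [Finset.prod_pair (by simp)]
      unfold wz
      simp only [Bool.false_eq_true, if_false, if_true]
      cases s a
      · norm_num
      · norm_num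
    have hsplit : pr (wz q0) (fun ω : Λ × Bool → Bool => ∀ ℓ ∈ insert a F,
        ¬ (ω (ℓ, false) = false ∧ ω (ℓ, true) = s ℓ)) =
        pr (wz q0) E - ∑ x, wt (wz q0) x *
          (if ∀ i ∈ ({(a, false), (a, true)} : Finset (Λ × Bool)),
            x i = (if i.2 then s a else false) then ind (E x) else 0) := by
      unfold pr
      rw [← Finset.sum_sub_distrib]
      apply Finset.sum_congr rfl
      intro x _
      rw [← mul_sub]
      congr 1
      have hiff : (∀ i ∈ ({(a, false), (a, true)} : Finset (Λ × Bool)),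
          x i = (if i.2 then s a else false)) ↔ (x (a, false) = false ∧ x (a, true) = s a) := by
        simp
      by_cases hp : x (a, false) = false ∧ x (a, true) = s a
      · rw [if_pos (hiff.2 hp), sub_self]
        apply ind_of_not
        intro h
        exact h a (Finset.mem_insert_self a F) hp
      · rw [if_neg (fun h => hp (hiff.1 h)), sub_zero]
        by_cases hx : E x
        · rw [ind_of hx]
          apply ind_of
          intro ℓ hℓ
          rcases Finset.mem_insert.1 hℓ with h | h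
          · rw [h]
            exact hp
          · exact hx ℓ h
        · rw [ind_of_not hx]
          apply ind_of_not
          intro h
          exact hx fun ℓ hℓ => h ℓ (Finset.mem_insert_of_mem hℓ)
    rw [hsplit, hpat, hprod]
    have hE2 : ∑ x, wt (wz q0) x * ind (E x) = pr (wz q0) E := rfl
    rw [hE2]
    have hEn : 0 ≤ pr (wz q0) E := pr_nonneg (wz_nonneg h0 h1) _
    have hih : pr (wz q0) E ≤ (3 / 4) ^ F.card := ih
    nlinarith

theorem many {Λ : Type} [Fintype Λ] [DecidableEq Λ] {q0 : ℝ} (h0 : 0 ≤ q0) (h1 : q0 ≤ 1 / 2)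
    (U : Finset Λ) (t N : ℕ) (hN : U.card ≤ N) :
    pr (wz q0) (fun ω : Λ × Bool → Bool =>
      t + 1 ≤ (U.filter fun ℓ => ω (ℓ, false) = true).card) ≤ ((N : ℝ) * q0) ^ (t + 1) := by
  have step1 : pr (wz q0) (fun ω : Λ × Bool → Bool =>
      t + 1 ≤ (U.filter fun ℓ => ω (ℓ, false) = true).card) ≤
      pr (wz q0) (fun ω : Λ × Bool → Bool => ∃ K : {K // K ∈ Finset.powersetCard (t + 1) U},
        ∀ i ∈ K.1.image (fun ℓ => (ℓ, false)), ω i = true) := by
    apply pr_mono (wz_nonneg h0 h1)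
    intro ω hω
    obtain ⟨K, hK, hKc⟩ := Finset.exists_subset_card_eq hω
    refine ⟨⟨K, Finset.mem_powersetCard.2 ⟨hK.trans (Finset.filter_subset _ _), hKc⟩⟩, ?_⟩
    intro i hi
    obtain ⟨ℓ, hℓ, rfl⟩ := Finset.mem_image.1 hi
    exact (Finset.mem_filter.1 (hK hℓ)).2
  refine step1.trans ((pr_exists_le (wz_nonneg h0 h1) _).trans ?_)
  have hterm : ∀ K : {K // K ∈ Finset.powersetCard (t + 1) U},
      pr (wz q0) (fun ω : Λ × Bool → Bool =>
        ∀ i ∈ K.1.image (fun ℓ => (ℓ, false)), ω i = true) = q0 ^ (t + 1) := by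
    intro K
    have h2 := pr_pattern (w := wz q0) (wz_sum q0) (K.1.image fun ℓ => (ℓ, false))
      (fun _ => true)
    rw [h2, Finset.prod_image (by
      intro x _ y _ hxy
      exact (Prod.mk.inj hxy).1)]
    have h3 : ∀ ℓ ∈ K.1, wz q0 (ℓ, false) true = q0 := by
      intro ℓ _
      simp [wz]
    rw [Finset.prod_congr rfl h3, Finset.prod_const, (Finset.mem_powersetCard.1 K.2).2]
  rw [Finset.sum_congr rfl fun K _ => hterm K, Finset.sum_const, nsmul_eq_mul, mul_pow]
  apply mul_le_mul_of_nonneg_right _ (pow_nonneg h0 _)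
  have h4 : (Finset.univ : Finset {K // K ∈ Finset.powersetCard (t + 1) U}).card =
      U.card.choose (t + 1) := by
    rw [Finset.card_univ, Fintype.card_coe, Finset.card_powersetCard]
  rw [h4]
  have h5 : U.card.choose (t + 1) ≤ N ^ (t + 1) :=
    (Nat.choose_le_pow _ _).trans (Nat.pow_le_pow_left hN _)
  exact_mod_cast h5

theorem cert_not {I : Type} {t : ℕ} {f : (I → Bool) → Bool} (h : Cert t (fun x => !f x)) :
    Cert t f := by
  intro x
  obtain ⟨K, hK, hx⟩ := h x
  refine ⟨K, hK, fun x' hx' => ?_⟩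
  have h2 := hx x' hx'
  exact Bool.not_inj h2

theorem or_case {Λ : Type} [Fintype Λ] [DecidableEq Λ] {q0 : ℝ} (h0 : 0 ≤ q0) (h1 : q0 ≤ 1 / 2)
    (t N : ℕ) (F : (Λ × Bool → Bool) → Bool) (T : Set ((Λ × Bool → Bool) → Bool))
    (hT : ∀ h ∈ T, Dep1 h) (hF : ∀ x, F x = true ↔ ∃ h ∈ T, h x = true) :
    pr (wz q0) (fun ω : Λ × Bool → Bool => ¬ Cert t
      (fun y => F (sub0 (fun ℓ => ω (ℓ, false)) (fun ℓ => ω (ℓ, true)) y))) ≤
      (3 / 4) ^ N + ((N : ℝ) * q0) ^ (t + 1) := by
  classical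
  have hA : (0 : ℝ) ≤ (3 / 4) ^ N := by positivity
  have hB : (0 : ℝ) ≤ ((N : ℝ) * q0) ^ (t + 1) := by positivity
  by_cases hconst : ∀ x, F x = true
  · rw [pr_false]
    · linarith
    · intro ω hω
      apply hω
      intro y
      refine ⟨∅, by simp, fun y' _ => ?_⟩
      simp only [hconst]
  -- the key fact
  have fact : ∀ x, F x = true → ∃ (ℓ : Λ) (c v : Bool), x (ℓ, c) = v ∧
      ∀ x', x' (ℓ, c) = v → F x' = true := by
    intro x hx
    obtain ⟨h, hh, hhx⟩ := (hF x).1 hx
    obtain ⟨K, hK, hdep⟩ := hT h hh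
    rcases K.eq_empty_or_nonempty with hKe | ⟨i, hi⟩
    · exfalso
      apply hconst
      intro x'
      refine (hF x').2 ⟨h, hh, ?_⟩
      rw [← hhx]
      refine hdep x' x fun j hj => ?_
      rw [hKe] at hj
      exact absurd hj (Finset.notMem_empty j)
    · refine ⟨i.1, i.2, x i, rfl, fun x' hx' => ?_⟩
      refine (hF x').2 ⟨h, hh, ?_⟩
      rw [← hhx]
      refine hdep x' x fun j hj => ?_
      rw [Finset.card_le_one.1 hK j hj i hi]
      exact hx'
  set U : Finset Λ := Finset.univ.filter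
    (fun ℓ => ∃ c v : Bool, ∀ x, x (ℓ, c) = v → F x = true) with hU
  have hch : ∀ ℓ, ∃ c v : Bool, ℓ ∈ U → ∀ x, x (ℓ, c) = v → F x = true := by
    intro ℓ
    by_cases hℓ : ℓ ∈ U
    · obtain ⟨c, v, hcv⟩ := (Finset.mem_filter.1 hℓ).2
      exact ⟨c, v, fun _ => hcv⟩
    · exact ⟨true, true, fun h => absurd h hℓ⟩
  choose cc vv hcv using hch
  by_cases hN : N ≤ U.card
  · obtain ⟨F0, hF0, hF0c⟩ := Finset.exists_subset_card_eq hN
    have h2 := avoid h0 h1 (sd cc vv) F0
    rw [hF0c] at h2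
    refine (pr_mono (wz_nonneg h0 h1) ?_).trans (h2.trans (by linarith))
    intro ω hω ℓ hℓ hpat
    apply hω
    have htrue : ∀ y, F (sub0 (fun ℓ => ω (ℓ, false)) (fun ℓ => ω (ℓ, true)) y) = true := by
      intro y
      apply hcv ℓ (hF0 hℓ)
      unfold sub0
      simp only [hpat.1, Bool.false_eq_true, if_false]
      exact dec_eq _ _ _ hpat.2
    intro y
    refine ⟨∅, by simp, fun y' _ => ?_⟩
    simp only [htrue]
  · have h2 := many h0 h1 U t N (by omega)
    refine (pr_mono (wz_nonneg h0 h1) ?_).trans (h2.trans (by linarith))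
    intro ω hω
    by_contra hcard
    apply hω
    have key : ∀ y y' : Λ → Bool, (∀ i ∈ U.filter (fun ℓ => ω (ℓ, false) = true), y' i = y i) →
        F (sub0 (fun ℓ => ω (ℓ, false)) (fun ℓ => ω (ℓ, true)) y) = true →
        F (sub0 (fun ℓ => ω (ℓ, false)) (fun ℓ => ω (ℓ, true)) y') = true := by
      intro y y' hyy hy
      obtain ⟨ℓ, c, v, hv, hall⟩ := fact _ hy
      apply hall
      rw [← hv]
      have hℓU : ℓ ∈ U := Finset.mem_filter.2 ⟨Finset.mem_univ _, c, v, hall⟩
      unfold sub0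
      by_cases hal : ω (ℓ, false) = true
      · simp only [hal, if_true]
        rw [hyy ℓ (Finset.mem_filter.2 ⟨hℓU, hal⟩)]
      · simp only [Bool.not_eq_true] at hal
        simp only [hal, Bool.false_eq_true, if_false]
    intro y
    refine ⟨U.filter (fun ℓ => ω (ℓ, false) = true), by omega, fun y' hyy => ?_⟩
    by_cases hy : F (sub0 (fun ℓ => ω (ℓ, false)) (fun ℓ => ω (ℓ, true)) y) = true
    · simp only [hy, key y y' hyy hy]
    · have hy' : ¬ F (sub0 (fun ℓ => ω (ℓ, false)) (fun ℓ => ω (ℓ, true)) y') = true := by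
        intro h
        exact hy (key y' y (fun i hi => (hyy i hi).symm) h)
      simp only [Bool.not_eq_true] at hy hy'
      simp only [hy, hy']

theorem gate_case {Λ : Type} [Fintype Λ] [DecidableEq Λ] {q0 : ℝ} (h0 : 0 ≤ q0) (h1 : q0 ≤ 1 / 2)
    (t N : ℕ) (F : (Λ × Bool → Bool) → Bool) (T : Set ((Λ × Bool → Bool) → Bool))
    (hT : ∀ h ∈ T, Dep1 h) (hF : IsGate T F) :
    pr (wz q0) (fun ω : Λ × Bool → Bool => ¬ Cert t
      (fun y => F (sub0 (fun ℓ => ω (ℓ, false)) (fun ℓ => ω (ℓ, true)) y))) ≤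
      (3 / 4) ^ N + ((N : ℝ) * q0) ^ (t + 1) := by
  rcases hF with hF | hF
  · have h2 := or_case h0 h1 t N (fun x => !F x) {h | ∃ h' ∈ T, h = fun x => !h' x} (by
      rintro h ⟨h', hh', rfl⟩
      obtain ⟨K, hK, hdep⟩ := hT h' hh'
      exact ⟨K, hK, fun x x' hx => by simp only [hdep x x' hx]⟩) (by
      intro x
      constructor
      · intro hx
        have hx1 : ¬ F x = true := by
          intro h
          rw [h] at hx
          exact absurd hx (by decide)
        rw [hF x] at hx1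
        push Not at hx1
        obtain ⟨h', hh', hx2⟩ := hx1
        refine ⟨fun x => !h' x, ⟨h', hh', rfl⟩, ?_⟩
        simp only [ne_eq, Bool.not_eq_true] at hx2
        simp only [hx2, Bool.not_false]
      · rintro ⟨h, ⟨h', hh', rfl⟩, hx⟩
        by_contra hcon
        simp only [Bool.not_eq_true', Bool.not_eq_false] at hcon hx
        have h3 := (hF x).1 hcon h' hh'
        rw [h3] at hx
        exact absurd hx (by decide))
    refine (pr_mono (wz_nonneg h0 h1) ?_).trans h2
    intro ω hω hcert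
    exact hω (cert_not hcert)
  · exact or_case h0 h1 t N F T hT hF

theorem class_case {Λ : Type} [Fintype Λ] [DecidableEq Λ] {q0 : ℝ} (h0 : 0 ≤ q0)
    (h1 : q0 ≤ 1 / 2) (A : Finset Λ) (mh : ℕ) (hA : mh ≤ A.card) :
    pr (wz q0) (fun ω : Λ × Bool → Bool => ¬ ∃ ℓ ∈ A, ω (ℓ, false) = true) ≤
      (1 - q0) ^ mh := by
  have step1 : pr (wz q0) (fun ω : Λ × Bool → Bool => ¬ ∃ ℓ ∈ A, ω (ℓ, false) = true) ≤
      pr (wz q0) (fun ω : Λ × Bool → Bool =>
        ∀ i ∈ A.image (fun ℓ => (ℓ, false)), ω i = false) := by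
    apply pr_mono (wz_nonneg h0 h1)
    intro ω hω i hi
    obtain ⟨ℓ, hℓ, rfl⟩ := Finset.mem_image.1 hi
    by_contra hcon
    exact hω ⟨ℓ, hℓ, by simpa using hcon⟩
  refine step1.trans ?_
  have h2 := pr_pattern (w := wz q0) (wz_sum q0) (A.image fun ℓ => (ℓ, false))
    (fun _ => false)
  rw [h2, Finset.prod_image (by
    intro x _ y _ hxy
    exact (Prod.mk.inj hxy).1)]
  have h3 : ∀ ℓ ∈ A, wz q0 (ℓ, false) false = 1 - q0 := by
    intro ℓ _
    simp [wz]
  rw [Finset.prod_congr rfl h3, Finset.prod_const]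
  exact pow_le_pow_of_le_one (by linarith) (by linarith) hA

end ZeroAux

open ZeroAux in
theorem zero_stage {Λ C : Type} [Fintype Λ] [DecidableEq Λ] [Fintype C] {S t N mh : ℕ} {q0 : ℝ}
    (hq0 : 0 ≤ q0) (hq1 : q0 ≤ 1 / 2) (f : Fin S → (Λ × Bool → Bool) → Bool)
    (hf : ∀ g, ∃ T : Set ((Λ × Bool → Bool) → Bool), (∀ h ∈ T, Dep1 h) ∧ IsGate T (f g))
    (cls : C → Finset Λ) (hcls : ∀ c, mh ≤ (cls c).card)
    (hsum : (S : ℝ) * ((3 / 4) ^ N + ((N : ℝ) * q0) ^ (t + 1)) +
      (Fintype.card C : ℝ) * (1 - q0) ^ mh < 1) :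
    ∃ al side : Λ → Bool, (∀ c, ∃ ℓ ∈ cls c, al ℓ = true) ∧
      ∀ g, Cert t (fun y => f g (sub0 al side y)) := by
  by_contra hcon
  push Not at hcon
  have hall : ∀ ω : Λ × Bool → Bool,
      (∃ g, ¬ Cert t (fun y => f g (sub0 (fun ℓ => ω (ℓ, false)) (fun ℓ => ω (ℓ, true)) y))) ∨
      (∃ c, ¬ ∃ ℓ ∈ cls c, ω (ℓ, false) = true) := by
    intro ω
    by_contra h
    rw [not_or] at h
    obtain ⟨h2, h3⟩ := h
    push Not at h2 h3
    obtain ⟨g, hg⟩ := hcon (fun ℓ => ω (ℓ, false)) (fun ℓ => ω (ℓ, true)) h3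
    exact hg (h2 g)
  have htot : pr (wz q0) (fun ω : Λ × Bool → Bool =>
      (∃ g, ¬ Cert t (fun y => f g (sub0 (fun ℓ => ω (ℓ, false)) (fun ℓ => ω (ℓ, true)) y))) ∨
      (∃ c, ¬ ∃ ℓ ∈ cls c, ω (ℓ, false) = true)) = 1 := by
    unfold pr
    rw [← sum_wt (I := Λ × Bool) (w := wz q0) (wz_sum q0)]
    apply Finset.sum_congr rfl
    intro ω _
    rw [ind_of (hall ω), mul_one]
  have hle := pr_or_le (wz_nonneg hq0 hq1) (fun ω : Λ × Bool → Bool =>
      ∃ g, ¬ Cert t (fun y => f g (sub0 (fun ℓ => ω (ℓ, false)) (fun ℓ => ω (ℓ, true)) y)))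
    (fun ω => ∃ c, ¬ ∃ ℓ ∈ cls c, ω (ℓ, false) = true)
  rw [htot] at hle
  have hg : pr (wz q0) (fun ω : Λ × Bool → Bool =>
      ∃ g, ¬ Cert t (fun y => f g (sub0 (fun ℓ => ω (ℓ, false)) (fun ℓ => ω (ℓ, true)) y))) ≤
      (S : ℝ) * ((3 / 4) ^ N + ((N : ℝ) * q0) ^ (t + 1)) := by
    refine (pr_exists_le (wz_nonneg hq0 hq1) _).trans ?_
    have : ∀ g ∈ (Finset.univ : Finset (Fin S)), pr (wz q0) (fun ω : Λ × Bool → Bool => ¬ Cert t
        (fun y => f g (sub0 (fun ℓ => ω (ℓ, false)) (fun ℓ => ω (ℓ, true)) y))) ≤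
        (3 / 4) ^ N + ((N : ℝ) * q0) ^ (t + 1) := by
      intro g _
      obtain ⟨T, hT, hgate⟩ := hf g
      exact gate_case hq0 hq1 t N (f g) T hT hgate
    refine (Finset.sum_le_sum this).trans ?_
    rw [Finset.sum_const, Finset.card_univ, Fintype.card_fin, nsmul_eq_mul]
  have hc : pr (wz q0) (fun ω : Λ × Bool → Bool => ∃ c, ¬ ∃ ℓ ∈ cls c, ω (ℓ, false) = true) ≤
      (Fintype.card C : ℝ) * (1 - q0) ^ mh := by
    refine (pr_exists_le (wz_nonneg hq0 hq1) _).trans ?_
    refine (Finset.sum_le_sum fun c _ => class_case hq0 hq1 (cls c) mh (hcls c)).trans ?_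
    rw [Finset.sum_const, Finset.card_univ, nsmul_eq_mul]
  linarith

end P28cd
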