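import Mathlib
import Pool.Agent.Lib.P28cd.Ind
import Pool.Agent.Lib.P28cd.Zero

/-!
# Module P28cd.ZeroInd : no circuit with levels `0, .., 2a` computes the formula on edges

PROOF.  `ν = η^100`, `m = ν^(ex a + 6) = m'' * mh` with `m'' = ν^(ex a + 4)`, `mh = ν^2`;
`Λ = Leaf u m (ms ν a)`; classes `cls (γ, c) = {(γ, i) | cl i = c}` with `cl` of `classes`.  Apply
`zero_stage` with `N = η`, `q0 = 1/ν` to `f g = val g` for `level g = 0` (`Avail .. 0` contains only `Dep1`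
functions) and `f g = fun _ => true` (AND of the empty set) for `level g ≠ 0`.  Numbers:
`S ≤ η^t`, `card C = card (Grp u (ms ν a)) * m'' ≤ ν^(2 ex a + 4)`, and
`η^t ((3/4)^η + (η/ν)^(t+1)) + ν^(2 ex a + 4) (1 - 1/ν)^(ν^2) < 1` for large `η`:
`(1 - 1/ν)^(ν^2) ≤ exp (-ν)`, `η^t (η^(-99))^(t+1) ≤ η^(-99)`, `η^t (3/4)^η ≤ exp (t log η - η/4)`, `t ≤ u ≤ 2 log η`.
With `rep` (`cl (rep x) = x.2`, `al (x.1, rep x)`) put `R y = sub0 al side (spread rep cl y)`; every coordinate is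
`Dep1`, and `R y (ℓ,false) && R y (ℓ,true) = al ℓ && spread rep cl y ℓ`.  The functions `fun y => val g (R y)` form a `Fam t`
with the same levels: level `0` by `zero_stage` (composed with `spread`, `cert_comp`), higher levels: `isGate_comp`,
`Dep1 → Cert 1 → Cert t`.  By `fo_expand` it computes `Fo u (ms ν a) m''`; contradiction to `no_family`.
-/

set_option autoImplicit false

namespace P28cd

namespace ZeroIndAux

theorem dep1_cert {I : Type} {t : ℕ} (ht : 1 ≤ t) {f : (I → Bool) → Bool} (hf : Dep1 f) :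
    Cert t f := by
  obtain ⟨K, hK, h⟩ := hf
  intro x
  exact ⟨K, hK.trans ht, fun x' hx' => h x' x hx'⟩

theorem sub_and {Λ : Type} (al side : Λ → Bool) (y : Λ → Bool) (ℓ : Λ) :
    (sub0 al side y (ℓ, false) && sub0 al side y (ℓ, true)) = (al ℓ && y ℓ) := by
  unfold sub0
  cases h : al ℓ <;> cases h2 : side ℓ <;> simp [h, h2]

theorem dep1_sub {Λ J : Type} (al side : Λ → Bool) (s : (J → Bool) → Λ → Bool)
    (hs : ∀ ℓ, Dep1 (fun z => s z ℓ)) (i : Λ × Bool) :
    Dep1 (fun z => sub0 al side (s z) i) := by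
  obtain ⟨K, hK, h⟩ := hs i.1
  refine ⟨K, hK, fun x x' hx => ?_⟩
  have h' := h x x' hx
  simp only at h'
  simp only [sub0, h']

theorem core {u t S N m'' mh : ℕ} {rest : List ℕ} {q0 : ℝ} (ht : 1 ≤ t) (hq0 : 0 ≤ q0)
    (hq1 : q0 ≤ 1 / 2) (level : Fin S → ℕ)
    (val : Fin S → (Leaf u (m'' * mh) rest × Bool → Bool) → Bool)
    (hgate : ∀ g, ∃ T ⊆ Avail {f | Dep1 f} level val (level g), IsGate T (val g))
    (hsum : (S : ℝ) * ((3 / 4) ^ N + ((N : ℝ) * q0) ^ (t + 1)) +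
      ((Fintype.card (Grp u rest) * m'' : ℕ) : ℝ) * (1 - q0) ^ mh < 1)
    (out : Fin S)
    (hout : ∀ x, val out x = Fo u rest (m'' * mh) (fun ℓ => x (ℓ, false) && x (ℓ, true))) :
    ∃ val' : Fin S → (Leaf u m'' rest → Bool) → Bool,
      Fam t level val' ∧ ∀ y, val' out y = Fo u rest m'' y := by
  classical
  obtain ⟨cl, hcl⟩ := classes m'' mh
  obtain ⟨al, side, hal, hcert⟩ := zero_stage (Λ := Leaf u (m'' * mh) rest)
    (C := Grp u rest × Fin m'') (S := S) (t := t) (N := N) (mh := mh) hq0 hq1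
    (fun g => if level g = 0 then val g else fun _ => true)
    (by
      intro g
      by_cases hg : level g = 0
      · obtain ⟨T, hT, hgT⟩ := hgate g
        refine ⟨T, ?_, by simpa only [hg, if_true] using hgT⟩
        intro h hh
        rcases hT hh with h1 | ⟨g', hg', _⟩
        · exact h1
        · omega
      · refine ⟨∅, fun h hh => absurd hh (Set.notMem_empty h), ?_⟩
        left
        intro x
        simp [hg])
    (fun x => (Finset.univ.filter fun i => cl i = x.2).image fun i => (x.1, i))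
    (by
      intro c
      rw [Finset.card_image_of_injective _ (fun i j hij => (Prod.mk.inj hij).2), hcl])
    (by
      rw [Fintype.card_prod, Fintype.card_fin]
      exact hsum)
  have hrep : ∀ x : Grp u rest × Fin m'', ∃ i, cl i = x.2 ∧ al (x.1, i) = true := by
    intro x
    obtain ⟨ℓ, hℓ, h2⟩ := hal x
    obtain ⟨i, hi, rfl⟩ := Finset.mem_image.1 hℓ
    exact ⟨i, (Finset.mem_filter.1 hi).2, h2⟩
  choose rep hrep1 hrep2 using hrep
  have hR : ∀ i, Dep1 (fun z => sub0 al side (spread rep cl z) i) :=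
    dep1_sub al side (spread rep cl) (dep1_spread rep cl)
  refine ⟨fun g y => val g (sub0 al side (spread rep cl y)), ⟨?_, ?_⟩, ?_⟩
  · intro g hg
    have h1 := hcert g
    simp only [hg, if_true] at h1
    exact cert_comp (f := fun y => val g (sub0 al side y)) h1 (spread rep cl)
      (dep1_spread rep cl)
  · intro g _
    obtain ⟨T, hT, hgT⟩ := hgate g
    refine ⟨_, ?_, isGate_comp hgT (fun y => sub0 al side (spread rep cl y))⟩
    rintro _ ⟨h, hh, rfl⟩
    rcases hT hh with h1 | ⟨g', hg', rfl | rfl⟩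
    · exact Or.inl (cert_comp (dep1_cert ht h1) _ hR)
    · exact Or.inr ⟨g', hg', Or.inl rfl⟩
    · exact Or.inr ⟨g', hg', Or.inr rfl⟩
  · intro y
    simp only
    rw [hout, ← fo_expand u (m'' * mh) m'' rest al cl rep hrep1 hrep2 y]
    congr 1
    funext ℓ
    exact sub_and al side (spread rep cl y) ℓ

theorem num (e : ℕ) : ∃ η₀ : ℕ, ∀ η ≥ η₀, ∀ u t : ℕ, t ≤ u → 2 ^ u ≤ η →
    ∀ S ≤ η ^ t, ∀ c ≤ (η ^ 100) ^ (2 * e + 4),
    (S : ℝ) * ((3 / 4) ^ η + ((η : ℝ) * (1 / ((η : ℝ) ^ 100))) ^ (t + 1)) +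
      ((c : ℕ) : ℝ) * (1 - (1 / ((η : ℝ) ^ 100))) ^ ((η ^ 100) ^ 2) < 1 := by
  have h1 : ∀ᶠ x : ℝ in Filter.atTop, 2 * Real.log x ^ 2 ≤ x / 8 := by
    have h := (Real.isLittleO_pow_log_id_atTop (n := 2)).def (c := 1 / 16) (by norm_num)
    filter_upwards [h, Filter.eventually_ge_atTop (1 : ℝ)] with x hx hx1
    simp only [id, Real.norm_eq_abs] at hx
    rw [abs_of_nonneg (sq_nonneg _), abs_of_nonneg (by linarith)] at hx
    linarith
  have h2 : ∀ᶠ x : ℝ in Filter.atTop, (x ^ 100) ^ (2 * e + 4) * Real.exp (-(x ^ 100)) < 1 / 4 := by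
    have h := Real.tendsto_pow_mul_exp_neg_atTop_nhds_zero (2 * e + 4)
    have h' := h.comp (Filter.tendsto_pow_atTop (α := ℝ) (n := 100) (by norm_num))
    exact h'.eventually (gt_mem_nhds (by norm_num))
  have h3 := (tendsto_natCast_atTop_atTop (R := ℝ)).eventually (h1.and h2)
  obtain ⟨n0, hn0⟩ := Filter.eventually_atTop.1 h3
  refine ⟨max n0 16, fun η hη u t htu hu S hS c hc => ?_⟩
  obtain ⟨ha, hb⟩ := hn0 η ((le_max_left _ _).trans hη)
  have hη16 : 16 ≤ η := (le_max_right _ _).trans hη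
  have hx16 : (16 : ℝ) ≤ η := by exact_mod_cast hη16
  set x : ℝ := (η : ℝ) with hx
  have hx0 : 0 < x := by linarith
  have hx1 : 1 ≤ x := by linarith
  have hp : (1 : ℝ) ≤ x ^ 100 := one_le_pow₀ hx1
  have hSr : (S : ℝ) ≤ x ^ t := by
    rw [hx]; exact_mod_cast hS
  have hcr : (c : ℝ) ≤ (x ^ 100) ^ (2 * e + 4) := by
    rw [hx]; exact_mod_cast hc
  -- term 1
  have hlog : (t : ℝ) ≤ 2 * Real.log x := by
    have h4 : ((2 : ℝ)) ^ u ≤ x := by rw [hx]; exact_mod_cast hu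
    have h5 : (u : ℝ) * Real.log 2 ≤ Real.log x := by
      rw [← Real.log_pow]
      exact Real.log_le_log (by positivity) h4
    have h6 : (0.6931471803 : ℝ) < Real.log 2 := Real.log_two_gt_d9
    have h7 : (t : ℝ) ≤ u := by exact_mod_cast htu
    have h8 : (0 : ℝ) ≤ u := by positivity
    nlinarith
  have hlx : 0 ≤ Real.log x := Real.log_nonneg hx1
  have hT1 : x ^ t * (3 / 4) ^ η ≤ 1 / 4 := by
    have h4 : x ^ t ≤ Real.exp (2 * Real.log x ^ 2) := by
      have : x ^ t = Real.exp (t * Real.log x) := by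
        rw [mul_comm, Real.exp_mul, Real.exp_log hx0, Real.rpow_natCast]
      rw [this]
      apply Real.exp_le_exp.2
      nlinarith
    have h5 : (3 / 4 : ℝ) ^ η ≤ Real.exp (-(x / 4)) := by
      have h6 : (3 / 4 : ℝ) ≤ Real.exp (-(1 / 4)) := by
        have := Real.add_one_le_exp (-(1 / 4 : ℝ))
        linarith
      calc (3 / 4 : ℝ) ^ η ≤ (Real.exp (-(1 / 4))) ^ η := pow_le_pow_left₀ (by norm_num) h6 _
        _ = Real.exp (-(x / 4)) := by
          rw [← Real.exp_nat_mul]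
          congr 1
          rw [hx]; ring
    have h6 : x ^ t * (3 / 4) ^ η ≤ Real.exp (2 * Real.log x ^ 2) * Real.exp (-(x / 4)) :=
      mul_le_mul h4 h5 (by positivity) (Real.exp_pos _).le
    rw [← Real.exp_add] at h6
    have h7 : 2 * Real.log x ^ 2 + -(x / 4) ≤ -2 := by linarith
    have h8 : Real.exp (2 * Real.log x ^ 2 + -(x / 4)) ≤ Real.exp (-2) := Real.exp_le_exp.2 h7
    have h9 : Real.exp (-2) ≤ 1 / 4 := by
      rw [Real.exp_neg]
      have h10 : (4 : ℝ) ≤ Real.exp 2 := by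
        have h11 := Real.add_one_le_exp (1 : ℝ)
        have h12 : Real.exp 2 = Real.exp 1 * Real.exp 1 := by
          rw [← Real.exp_add]; norm_num
        rw [h12]; nlinarith
      rw [inv_eq_one_div]
      exact one_div_le_one_div_of_le (by norm_num) h10
    linarith
  -- term 2
  have hT2 : x ^ t * (x * (1 / (x ^ 100))) ^ (t + 1) ≤ 1 / 16 := by
    have h4 : x * (1 / (x ^ 100)) ≤ 1 / x := by
      rw [mul_one_div, div_le_div_iff₀ (by positivity) hx0]
      have : x ^ 2 ≤ x ^ 100 := pow_le_pow_right₀ hx1 (by norm_num)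
      nlinarith
    have h5 : (x * (1 / (x ^ 100))) ^ (t + 1) ≤ (1 / x) ^ (t + 1) :=
      pow_le_pow_left₀ (by positivity) h4 _
    have h6 : x ^ t * (1 / x) ^ (t + 1) = 1 / x := by
      rw [pow_succ, ← mul_assoc, ← mul_pow, mul_one_div_cancel hx0.ne', one_pow, one_mul]
    calc x ^ t * (x * (1 / (x ^ 100))) ^ (t + 1) ≤ x ^ t * (1 / x) ^ (t + 1) :=
          mul_le_mul_of_nonneg_left h5 (by positivity)
      _ = 1 / x := h6
      _ ≤ 1 / 16 := one_div_le_one_div_of_le (by norm_num) hx16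
  -- term 3
  have hT3 : (c : ℝ) * (1 - 1 / (x ^ 100)) ^ ((η ^ 100) ^ 2) ≤ 1 / 4 := by
    set v : ℝ := x ^ 100 with hv
    have hv0 : 0 < v := by positivity
    have h4 : 1 - 1 / v ≤ Real.exp (-(1 / v)) := by
      have := Real.add_one_le_exp (-(1 / v))
      linarith
    have h4' : 0 ≤ 1 - 1 / v := by
      have : 1 / v ≤ 1 := by
        rw [div_le_one hv0]; exact hp
      linarith
    have h5 : (1 - 1 / v) ^ ((η ^ 100) ^ 2) ≤ Real.exp (-v) := by
      calc (1 - 1 / v) ^ ((η ^ 100) ^ 2) ≤ (Real.exp (-(1 / v))) ^ ((η ^ 100) ^ 2) :=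
            pow_le_pow_left₀ h4' h4 _
        _ = Real.exp (-v) := by
          rw [← Real.exp_nat_mul]
          congr 1
          push_cast
          rw [← hx, ← hv]
          field_simp
    calc (c : ℝ) * (1 - 1 / v) ^ ((η ^ 100) ^ 2) ≤ v ^ (2 * e + 4) * Real.exp (-v) :=
          mul_le_mul hcr h5 (pow_nonneg h4' _) (by positivity)
      _ ≤ 1 / 4 := hb.le
  have hS1 : (S : ℝ) * ((3 / 4) ^ η + (x * (1 / (x ^ 100))) ^ (t + 1)) ≤
      x ^ t * ((3 / 4) ^ η + (x * (1 / (x ^ 100))) ^ (t + 1)) :=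
    mul_le_mul_of_nonneg_right hSr (by positivity)
  rw [mul_add] at hS1
  linarith

end ZeroIndAux

open ZeroIndAux in
theorem no_circuit (a : ℕ) : ∃ η₀ : ℕ, ∀ η ≥ η₀, ∀ u t : ℕ, 1 ≤ t → 100 * t ≤ u → 2 ^ u ≤ η →
    ∀ S ≤ η ^ t, ∀ (level : Fin S → ℕ)
      (val : Fin S →
        (Leaf u ((η ^ 100) ^ (ex a + 6)) (ms (η ^ 100) a) × Bool → Bool) → Bool),
      (∀ g, ∃ T ⊆ Avail {f | Dep1 f} level val (level g), IsGate T (val g)) →
      (∀ g, level g ≤ 2 * a) →
      ∀ out, ¬ ∀ x, val out x = Fo u (ms (η ^ 100) a) ((η ^ 100) ^ (ex a + 6))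
        (fun ℓ => x (ℓ, false) && x (ℓ, true)) := by
  obtain ⟨η1, h1⟩ := no_family a
  obtain ⟨η2, h2⟩ := num (ex a)
  refine ⟨max (max η1 η2) 2, fun η hη u t ht htu hu S hS level val hgate hlev out hout => ?_⟩
  have hη1 : η1 ≤ η := ((le_max_left _ _).trans (le_max_left _ _)).trans hη
  have hη2 : η2 ≤ η := ((le_max_right _ _).trans (le_max_left _ _)).trans hη
  have hη3 : 2 ≤ η := (le_max_right _ _).trans hη
  have huν : u ≤ η ^ 100 := by
    calc u ≤ 2 ^ u := Nat.lt_two_pow_self.le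
      _ ≤ η := hu
      _ = η ^ 1 := (pow_one η).symm
      _ ≤ η ^ 100 := Nat.pow_le_pow_right (by omega) (by norm_num)
  have hm : (η ^ 100) ^ (ex a + 6) = (η ^ 100) ^ (ex a + 4) * (η ^ 100) ^ 2 := by
    rw [← pow_add]
  have hcard : Fintype.card (Grp u (ms (η ^ 100) a)) * (η ^ 100) ^ (ex a + 4) ≤
      (η ^ 100) ^ (2 * ex a + 4) := by
    calc _ ≤ (η ^ 100) ^ ex a * (η ^ 100) ^ (ex a + 4) := Nat.mul_le_mul_right _ (card_grp huν a)
      _ = (η ^ 100) ^ (2 * ex a + 4) := by rw [← pow_add]; congr 1; omega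
  have hnum := h2 η hη2 u t (by omega) hu S hS _ hcard
  generalize (η ^ 100) ^ (ex a + 6) = m at hm val hgate hout
  subst hm
  have hx : (2 : ℝ) ≤ η := by exact_mod_cast hη3
  have hx2 : (2 : ℝ) ≤ (η : ℝ) ^ 100 :=
    calc (2 : ℝ) ≤ η := hx
      _ = (η : ℝ) ^ 1 := (pow_one _).symm
      _ ≤ (η : ℝ) ^ 100 := pow_le_pow_right₀ (by linarith) (by norm_num)
  obtain ⟨val', hF, hv⟩ := core (q0 := 1 / (η : ℝ) ^ 100) (N := η) ht (by positivity)
    (one_div_le_one_div_of_le (by norm_num) hx2) level val hgate hnum out hout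
  exact h1 η hη1 u t ht htu hu S hS level val' hF hlev out hv

end P28cd
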