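import Mathlib
import Pool.Agent.Lib.P28cd.ZeroInd
import Pool.Agent.Lib.P28cd.Loop
import Pool.Agent.Lib.P28cd.Up
import Pool.Agent.Lib.P28cd.FinNum

/-!
# Module P28cd.Fin : the lower bound for graphs
-/

set_option autoImplicit false

namespace P28cd

theorem length_ms (ν : ℕ) (i : ℕ) : (ms ν i).length = i := by
  induction i with
  | zero => rfl
  | succ i ih => simp [ms, ih]

theorem one_le_of_mem_ms {ν : ℕ} (hν : 1 ≤ ν) (i : ℕ) : ∀ m ∈ ms ν i, 1 ≤ m := by
  induction i with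
  | zero => intro m hm; simp [ms] at hm
  | succ i ih =>
    intro m hm
    rcases List.mem_cons.1 hm with h | h
    · rw [h]; exact Nat.one_le_pow _ _ hν
    · exact ih m h

theorem Dep1.not {I : Type} {f : (I → Bool) → Bool} (hf : Dep1 f) : Dep1 (fun x => !f x) := by
  obtain ⟨K, hK, h⟩ := hf
  refine ⟨K, hK, fun x x' hx => ?_⟩
  show (!f x) = !f x'
  rw [h x x' hx]

/-- a circuit on graphs gives a circuit on the variables of the formula -/
theorem comp_graph {J : Type} {n S : ℕ} {level : Fin S → ℕ}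
    {val : Fin S → (Fin n → Fin n → Bool) → Bool}
    (hgate : ∀ g, ∃ T ⊆ Avail (Lits n) level val (level g), IsGate T (val g))
    (E : (J → Bool) → Fin n → Fin n → Bool) (hE : ∀ v w, Dep1 (fun x => E x v w)) :
    ∀ g, ∃ T ⊆ Avail {f | Dep1 f} level (fun g x => val g (E x)) (level g),
      IsGate T (fun x => val g (E x)) := by
  intro g
  obtain ⟨T, hT, hG⟩ := hgate g
  refine ⟨_, ?_, isGate_comp hG E⟩
  rintro h' ⟨h, hh, rfl⟩
  rcases hT hh with hp | ⟨g', hg', hv⟩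
  · left
    obtain ⟨u, v, hp | hp⟩ := hp
    · show Dep1 _
      rw [hp]
      exact hE u v
    · show Dep1 _
      rw [hp]
      exact (hE u v).not
  · right
    refine ⟨g', hg', ?_⟩
    rcases hv with hv | hv
    · left; rw [hv]
    · right; rw [hv]

theorem lower_graph (a : ℕ) (ha : 1 ≤ a) : ∃ c : ℝ, 0 < c ∧ ∃ k₀ n₀ : ℕ,
    ∀ n ≥ n₀, ∀ k, k₀ ≤ k → 2 * k ≤ n → ∀ s t : Fin n, s ≠ t →
    ∀ (S : ℕ) (f : (Fin n → Fin n → Bool) → Bool), Circ (Lits n) (2 * a + 1) S f →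
      (((∀ E, (∀ v, E v v = false) → Walk E k s t → f E = true) ∧
          (∀ E, (∀ v, E v v = false) → (∀ j, ¬ Walk E j s t) → f E = false)) ∨
        (∀ E, (∀ v, E v v = false) → (∀ v w, E v w = E w v) → (f E = true ↔ Walk E k s t))) →
      (n : ℝ) ^ (c * min ((k : ℝ) ^ (1 / (a : ℝ))) (Real.log n)) ≤ S := by
  obtain ⟨η₀, hη₀⟩ := no_circuit a
  obtain ⟨c, hc, k₀, n₀, hnum⟩ := final_numbers a ha η₀
  refine ⟨c, hc, k₀, n₀, ?_⟩
  intro n hn k hk h2k s t hst S f hf hor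
  by_contra hlt
  push Not at hlt
  obtain ⟨η, u, t', h, hη, ht, htu, hu2, hk2, hcard, hpow⟩ := hnum n hn k hk h2k
  have hS : S ≤ η ^ t' := by
    have : (S : ℝ) < ((η ^ t' : ℕ) : ℝ) := lt_trans hlt hpow
    exact (Nat.cast_lt.1 this).le
  have hu1 : 1 ≤ u := by omega
  have huη : u ≤ η := (Nat.lt_two_pow_self (n := u)).le.trans hu2
  have hη1 : 1 ≤ η := le_trans hu1 huη
  have huν : u ≤ η ^ 100 := huη.trans (Nat.le_self_pow (by norm_num) η)
  have hν1 : 1 ≤ η ^ 100 := Nat.one_le_pow _ _ hη1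
  obtain ⟨level, val, out, hlev, hgate, rfl⟩ := hf
  have hlen : (ms (η ^ 100) a).length = a := length_ms _ _
  have hG := card_grp huν a
  have hcv := card_vert u hu1 (ms (η ^ 100) a) (one_le_of_mem_ms hν1 a)
  have hcl : Fintype.card (Leaf u ((η ^ 100) ^ (ex a + 6)) (ms (η ^ 100) a)) ≤
      (η ^ 100) ^ (2 * ex a + 6) := by
    rw [Fintype.card_prod, Fintype.card_fin]
    calc Fintype.card (Grp u (ms (η ^ 100) a)) * (η ^ 100) ^ (ex a + 6)
        ≤ (η ^ 100) ^ ex a * (η ^ 100) ^ (ex a + 6) := Nat.mul_le_mul_right _ hG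
      _ = (η ^ 100) ^ (2 * ex a + 6) := by rw [← pow_add]; congr 1; ring
  obtain ⟨Ed, Es, hEd, hEs, hld, hls, hsym, hmap⟩ := graph_map' u hu1 (ms (η ^ 100) a)
    ((η ^ 100) ^ (ex a + 6)) h n (by omega) s t hst
  rw [hlen, hk2] at hmap
  have hlev' : ∀ g, level g ≤ 2 * a := fun g => Nat.lt_succ_iff.1 (hlev g)
  rcases hor with ⟨h1, h2⟩ | h3
  · refine hη₀ η hη u t' ht htu hu2 S hS level (fun g x => val g (Ed x))
      (comp_graph hgate Ed hEd) hlev' out ?_
    intro x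
    cases hx : Fo u (ms (η ^ 100) a) ((η ^ 100) ^ (ex a + 6))
        (fun ℓ => x (ℓ, false) && x (ℓ, true)) with
    | true => exact h1 _ (hld x) ((hmap x).1 hx).1
    | false => exact h2 _ (hld x) ((hmap x).2 hx).1
  · refine hη₀ η hη u t' ht htu hu2 S hS level (fun g x => val g (Es x))
      (comp_graph hgate Es hEs) hlev' out ?_
    intro x
    cases hx : Fo u (ms (η ^ 100) a) ((η ^ 100) ^ (ex a + 6))
        (fun ℓ => x (ℓ, false) && x (ℓ, true)) with
    | true => exact (h3 _ (hls x) (hsym x)).2 ((hmap x).1 hx).2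
    | false =>
      have := (not_congr (h3 _ (hls x) (hsym x))).2 ((hmap x).2 hx).2
      simpa using this

end P28cd
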