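import Mathlib
import Pool.Agent.Lib.P28cd.Defs

/-!
# Module P28cd.FinNum3 : the final choice of the parameters for depth three

PROOF.  `c = 1/10^4`, `k₀ = 100` (anything that works).  Given `n, k`: `ν` = the largest number with `8 ν^5 ≤ n`, so
`8 (ν+1)^5 > n`; `u` = the minimum of `k/2` and the largest `u'` with `u'^3 ≤ ν`; `t = u/8`, `h = k - 2u`.
`ν*u + 1 + ν*u*ν^3 + h ≤ 3 ν^5 + k ≤ 3n/8 + n/2 ≤ n` (`u ≤ ν`).  `u ≥ 16` for large `n`, `t ≥ u/16`.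
`ν ≥ n^(1/6)` and the largest `u'` with `u'^3 ≤ ν` is `≥ n^(1/20)` for large `n`; `k/2 ≥ k/3`; so
`u ≥ min (k/3) (n^(1/20)) ≥ min k (n^(1/20)) / 3` and
`ν^t ≥ n^(t/6) ≥ n^(min k (n^(1/20)) / 288)`; with `c = 1/10^4` the fourth power of the left side is smaller.
-/

set_option autoImplicit false

namespace P28cd

namespace FinNum3Aux

/-- the largest number with a bounded power -/
theorem exists_root (c e n : ℕ) (hc : 1 ≤ c) (he : 1 ≤ e) :
    ∃ v : ℕ, c * v ^ e ≤ n ∧ n < c * (v + 1) ^ e := by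
  have h0 : c * 0 ^ e ≤ n := by
    rw [zero_pow (by omega)]; omega
  have hP : ∀ v, c * v ^ e ≤ n → v ≤ n := by
    intro v hv
    have h1 : v ≤ v ^ e := Nat.le_self_pow (by omega) v
    have h2 : v ^ e ≤ c * v ^ e := Nat.le_mul_of_pos_left _ (by omega)
    omega
  refine ⟨Nat.findGreatest (fun v => c * v ^ e ≤ n) n, ?_, ?_⟩
  · exact Nat.findGreatest_spec (P := fun v => c * v ^ e ≤ n) (Nat.zero_le n) h0
  · by_contra hcon
    rw [not_lt] at hcon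
    have h1 := hP _ hcon
    have h2 := Nat.le_findGreatest (P := fun v => c * v ^ e ≤ n) h1 hcon
    omega

end FinNum3Aux

theorem final_numbers3 (ν₀ : ℕ) : ∃ c : ℝ, 0 < c ∧ ∃ k₀ n₀ : ℕ,
    ∀ n ≥ n₀, ∀ k, k₀ ≤ k → 2 * k ≤ n → ∃ ν u t h : ℕ, ν₀ ≤ ν ∧ 1 ≤ ν ∧ 1 ≤ t ∧ 8 * t ≤ u ∧
      u ^ 3 ≤ ν ∧ 2 * u + h = k ∧
      ν * u + 1 + ν * u * ν ^ 3 + h ≤ n ∧
      ((n : ℝ) ^ (c * min (k : ℝ) ((n : ℝ) ^ (1 / 20 : ℝ)))) ^ 4 < ((ν ^ t : ℕ) : ℝ) := by
  refine ⟨1 / 10000, by norm_num, 100, 2 ^ 138 + 8 * ν₀ ^ 5, ?_⟩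
  intro n hn k hk hkn
  obtain ⟨ν, hν1, hν2⟩ := FinNum3Aux.exists_root 8 5 n (by norm_num) (by norm_num)
  obtain ⟨w, hw1, hw2⟩ := FinNum3Aux.exists_root 1 3 ν (by norm_num) (by norm_num)
  rw [one_mul] at hw1 hw2
  -- sizes
  have hν0 : ν₀ ≤ ν := by
    by_contra hcon
    have h1 : ν + 1 ≤ ν₀ := by omega
    have h2 : (ν + 1) ^ 5 ≤ ν₀ ^ 5 := Nat.pow_le_pow_left h1 5
    have h3 : (0 : ℕ) < 2 ^ 138 := by positivity
    omega
  have hνb : 2 ^ 27 ≤ ν := by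
    by_contra hcon
    have h1 : ν + 1 ≤ 2 ^ 27 := by omega
    have h2 : (ν + 1) ^ 5 ≤ (2 ^ 27) ^ 5 := Nat.pow_le_pow_left h1 5
    have h3 : 8 * (2 ^ 27) ^ 5 = 2 ^ 138 := by norm_num
    omega
  have hwb : 512 ≤ w := by
    by_contra hcon
    have h1 : w + 1 ≤ 512 := by omega
    have h2 : (w + 1) ^ 3 ≤ 512 ^ 3 := Nat.pow_le_pow_left h1 3
    have h3 : 512 ^ 3 = 2 ^ 27 := by norm_num
    omega
  have hnν : n ≤ ν ^ 6 := by
    have h1 : (ν + 1) ^ 5 ≤ (2 * ν) ^ 5 := Nat.pow_le_pow_left (by omega) 5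
    have h2 : (2 * ν) ^ 5 = 32 * ν ^ 5 := by ring
    have h3 : ν ^ 6 = ν * ν ^ 5 := by ring
    have h4 : 256 * ν ^ 5 ≤ ν * ν ^ 5 := Nat.mul_le_mul_right _ (by omega)
    omega
  have hνw : ν ≤ 8 * w ^ 3 := by
    have h1 : (w + 1) ^ 3 ≤ (2 * w) ^ 3 := Nat.pow_le_pow_left (by omega) 3
    have h2 : (2 * w) ^ 3 = 8 * w ^ 3 := by ring
    omega
  have hnw : n ≤ w ^ 20 := by
    calc n ≤ ν ^ 6 := hnν
      _ ≤ (8 * w ^ 3) ^ 6 := Nat.pow_le_pow_left hνw 6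
      _ = 512 ^ 2 * w ^ 18 := by ring
      _ ≤ w ^ 2 * w ^ 18 := Nat.mul_le_mul_right _ (Nat.pow_le_pow_left hwb 2)
      _ = w ^ 20 := by ring
  set u : ℕ := min (k / 2) w with hu
  have hu1 : u ≤ k / 2 := min_le_left _ _
  have hu2 : u ≤ w := min_le_right _ _
  have hu16 : 16 ≤ u := by rw [hu, le_min_iff]; omega
  have hu3 : u ^ 3 ≤ ν := (Nat.pow_le_pow_left hu2 3).trans hw1
  have huν : u ≤ ν := (Nat.le_self_pow (by norm_num) u).trans hu3
  refine ⟨ν, u, u / 8, k - 2 * u, hν0, by omega, by omega, by omega, hu3, by omega, ?_, ?_⟩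
  · have h1 : ν * u ≤ ν ^ 5 := by
      calc ν * u ≤ ν * ν := Nat.mul_le_mul_left _ huν
        _ = ν ^ 2 := by ring
        _ ≤ ν ^ 5 := Nat.pow_le_pow_right (by omega) (by norm_num)
    have h2 : ν * u * ν ^ 3 ≤ ν ^ 5 := by
      calc ν * u * ν ^ 3 ≤ ν * ν * ν ^ 3 := Nat.mul_le_mul_right _ (Nat.mul_le_mul_left _ huν)
        _ = ν ^ 5 := by ring
    have h3 : 1 ≤ ν ^ 5 := Nat.one_le_pow _ _ (by omega)
    omega
  · -- the exponent
    have hνR : (1 : ℝ) < (ν : ℝ) := by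
      have : 1 < ν := by omega
      exact_mod_cast this
    have hn1 : (1 : ℝ) ≤ (n : ℝ) := by
      have : 1 ≤ n := by
        have : 1 ≤ 2 ^ 138 := Nat.one_le_two_pow
        omega
      exact_mod_cast this
    have hn0 : (0 : ℝ) ≤ (n : ℝ) := by linarith
    set m : ℝ := min (k : ℝ) ((n : ℝ) ^ (1 / 20 : ℝ)) with hm
    have hm1 : 1 ≤ m := by
      rw [hm, le_min_iff]
      constructor
      · have : 1 ≤ k := by omega
        exact_mod_cast this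
      · exact Real.one_le_rpow hn1 (by norm_num)
    have hroot : (n : ℝ) ^ (1 / 20 : ℝ) ≤ (w : ℝ) := by
      have h1 : (n : ℝ) ≤ (w : ℝ) ^ 20 := by exact_mod_cast hnw
      have h2 : ((w : ℝ) ^ 20) ^ (1 / 20 : ℝ) = (w : ℝ) := by
        rw [← Real.rpow_natCast, ← Real.rpow_mul (by positivity)]
        norm_num
      rw [← h2]
      exact Real.rpow_le_rpow hn0 h1 (by norm_num)
    have hmu : m ≤ 3 * (u : ℝ) := by
      rcases le_total (k / 2) w with h | h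
      · have e : u = k / 2 := by rw [hu, min_eq_left h]
        have h1 : k ≤ 3 * u := by omega
        have h2 : (k : ℝ) ≤ 3 * (u : ℝ) := by exact_mod_cast h1
        exact (min_le_left _ _).trans h2
      · have e : u = w := by rw [hu, min_eq_right h]
        have h1 : m ≤ (w : ℝ) := (min_le_right _ _).trans hroot
        rw [e]
        have : (0 : ℝ) ≤ (w : ℝ) := by positivity
        linarith
    have hut : (u : ℝ) ≤ 16 * ((u / 8 : ℕ) : ℝ) := by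
      have h1 : u ≤ 16 * (u / 8) := by omega
      exact_mod_cast h1
    have e1 : ((n : ℝ) ^ (1 / 10000 * m)) ^ 4 = (n : ℝ) ^ (4 / 10000 * m) := by
      rw [← Real.rpow_natCast, ← Real.rpow_mul hn0]
      congr 1
      push_cast; ring
    have h5 : (n : ℝ) ≤ (ν : ℝ) ^ (6 : ℝ) := by
      have : (n : ℝ) ≤ (ν : ℝ) ^ 6 := by exact_mod_cast hnν
      rw [← Real.rpow_natCast] at this
      exact_mod_cast this
    rw [e1]
    calc (n : ℝ) ^ (4 / 10000 * m) ≤ ((ν : ℝ) ^ (6 : ℝ)) ^ (4 / 10000 * m) :=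
          Real.rpow_le_rpow hn0 h5 (by positivity)
      _ = (ν : ℝ) ^ (24 / 10000 * m) := by
          rw [← Real.rpow_mul (by positivity)]
          congr 1; ring
      _ < (ν : ℝ) ^ (((u / 8 : ℕ) : ℝ)) := by
          apply Real.rpow_lt_rpow_of_exponent_lt hνR
          linarith
      _ = ((ν ^ (u / 8) : ℕ) : ℝ) := by
          rw [Real.rpow_natCast]; push_cast; rfl

end P28cd
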