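import Mathlib
import Pool.Agent.Lib.P28cd.Comp
import Pool.Agent.Lib.P28cd.Form

/-!
# Module P28cd.Top3 : three levels, all fan-ins (top-down argument)

PROOF of `spread_set`.  Among the pairs `(R, a₀)`, `a₀ ∈ 𝒜`, with
`𝒜.card ≤ (2t)^|R| * #{a ∈ 𝒜 | a = a₀ on R}` (for example `R = ∅`) take one with `|R|` maximal and let
`𝒜' = {a ∈ 𝒜 | a = a₀ on R}`.  If `R = univ` then `𝒜' = {a₀}`, `𝒜.card ≤ (2t)^p`, so
`K^p ≤ S * 𝒜.card ≤ S (2t)^p`, against `hS`.  If `b ∉ R` and `2 t * #{a ∈ 𝒜' | a b = i} > 𝒜'.card` (so this set has an element `a₁`)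
then `(insert b R, a₁)` also qualifies, against maximality.  So `2 t * #{a ∈ 𝒜' | a b = i} ≤ |𝒜'|` for all
`b ∉ R`, `i`.  For a set `P` of at most `t` pairs `(b, i)` with `b ∉ R` the `a ∈ 𝒜'` with `a b = i` for some
`(b,i) ∈ P` are at most `|𝒜'|/2 < |𝒜'|`, so some `a ∈ 𝒜'` avoids all of them.

PROOF of `no_three_levels`.  `y : ((Unit × Fin m) × Fin u) × Fin M → Bool`; `Fo u [m] M y = true` iff some block
`B : Fin m` has in every group `b : Fin u` a one.  `fam_parts`: `D`, `G`; `val out` is `G out` or its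
negation, `G out` is the AND of a set `T`, members: `Cert t`, `D j` or `¬ D j`.  Write `F` for the formula.
CASE I: `F = ¬ G out`.  Block `B₀ = 0`; for `a : Fin u → Fin M` let `x_a` have ones exactly at `((B₀, b), a b)`.  `F x_a = true`, so
`G out x_a = false` and some `h ∈ T` has `h x_a = false`.  If `h` has `Cert t` (or `h = ¬ D j`, use a 1-certificate of
`D j`): the certificate `K`, `|K| ≤ t < u`, misses some group `(B₀, b)`; let `y` be `x_a` with the group `b` made zero;
`F y = false` so `G out y = true`, `h y = true`, but `y = x_a` on `K`, `h y = false`.  Contradiction.  So `h = D j`, `D j x_a = false` and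
(as `D j ∈ T`) `F y = false → D j y = true` for all `y`.  By pigeonhole some such `j` serves a set `𝒜` of `a` with `M^u ≤ S * 𝒜.card`.
`spread_set` (`p = u`, values `Fin M`, `h1`): `R`, `a₀`.  Let `y` have ones exactly at `((B₀,b), a₀ b)`, `b ∈ R`; since
`R ≠ univ`, `F y = false` (other blocks are zero, `u ≥ 1`), so `D j y = true`, 1-certificate `K`, `|K| ≤ t`; take
`a ∈ 𝒜`, `a = a₀` on `R`, avoiding all `(b,i)` with `((B₀,b),i) ∈ K`, `b ∉ R`.  Then `x_a = y` on `K`, so
`D j x_a = true`, contradiction to `a ∈ 𝒜`.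
CASE II: `F = G out`.  For `g : Fin m → Fin u` let `y_g` have zeros exactly in the groups `(B, g B)`.  `F y_g = false`, so some
`h ∈ T` has `h y_g = false`.  If `h` has `Cert t` or `h = ¬ D j`: the certificate misses a block `B` (`t < m`); make this block
all ones: `F = true`, so `h` is true there, contradiction.  So `h = D j`, `D j y_g = false`, and `F y = true → D j y = true` for
all `y`.  Pigeonhole: `𝒢` with `u^m ≤ S * 𝒢.card`.  `spread_set` (`p = m`, values `Fin u`, `h2`): `R`, `g₀`.  Let `y` have zeros exactly in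
the groups `(B, g₀ B)`, `B ∈ R`.  As `R ≠ univ`, `F y = true`, `D j y = true`, 1-certificate `K`; take `g ∈ 𝒢`, `g = g₀` on `R`,
avoiding all `(B,b)` with `((B,b),i) ∈ K`, `B ∉ R`.  Then `y_g = y` on `K`, contradiction.
-/

set_option autoImplicit false

namespace P28cd

open Finset

theorem spread_set {p K S t : ℕ} (ht : 1 ≤ t) (hS : (2 * t) ^ p * S < K ^ p)
    (𝒜 : Finset (Fin p → Fin K)) (hA : K ^ p ≤ S * 𝒜.card) :
    ∃ (R : Finset (Fin p)) (a₀ : Fin p → Fin K), R ≠ Finset.univ ∧ a₀ ∈ 𝒜 ∧
      ∀ P : Finset (Fin p × Fin K), P.card ≤ t → (∀ x ∈ P, x.1 ∉ R) →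
        ∃ a ∈ 𝒜, (∀ b ∈ R, a b = a₀ b) ∧ ∀ x ∈ P, a x.1 ≠ x.2 := by
  classical
  have hne : 𝒜.Nonempty := by
    rw [nonempty_iff_ne_empty]
    rintro rfl
    simp only [card_empty, mul_zero, nonpos_iff_eq_zero] at hA
    omega
  obtain ⟨a1, ha1⟩ := hne
  let good : Finset (Finset (Fin p) × (Fin p → Fin K)) := univ.filter fun q =>
    q.2 ∈ 𝒜 ∧ 𝒜.card ≤ (2 * t) ^ q.1.card * (𝒜.filter fun a => ∀ b ∈ q.1, a b = q.2 b).card
  have hgne : good.Nonempty := by
    refine ⟨(∅, a1), ?_⟩
    simp [good, ha1]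
  obtain ⟨q, hq, hmax⟩ := good.exists_max_image (fun q => q.1.card) hgne
  obtain ⟨R, a₀⟩ := q
  simp only [good, mem_filter, mem_univ, true_and] at hq
  obtain ⟨ha₀, hcard⟩ := hq
  have hR : R ≠ Finset.univ := by
    rintro rfl
    have h1 : (𝒜.filter fun a => ∀ b ∈ (univ : Finset (Fin p)), a b = a₀ b).card ≤ 1 := by
      rw [card_le_one]
      intro a ha b hb
      simp only [mem_filter, mem_univ, true_implies] at ha hb
      funext c
      rw [ha.2 c, hb.2 c]
    have h2 : 𝒜.card ≤ (2 * t) ^ p := by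
      calc 𝒜.card ≤ (2 * t) ^ (univ : Finset (Fin p)).card * _ := hcard
        _ ≤ (2 * t) ^ (univ : Finset (Fin p)).card * 1 := Nat.mul_le_mul_left _ h1
        _ = (2 * t) ^ p := by simp
    have h3 : S * 𝒜.card ≤ (2 * t) ^ p * S := by
      rw [mul_comm]
      exact Nat.mul_le_mul_right _ h2
    omega
  refine ⟨R, a₀, hR, ha₀, ?_⟩
  intro P hP hPR
  set A' := 𝒜.filter fun a => ∀ b ∈ R, a b = a₀ b with hA'
  have hpos : 1 ≤ A'.card := by
    rw [Nat.one_le_iff_ne_zero, card_ne_zero]
    exact ⟨a₀, by simp [hA', ha₀]⟩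
  have hfib : ∀ b, b ∉ R → ∀ i, 2 * t * (A'.filter fun a => a b = i).card ≤ A'.card := by
    intro b hb i
    by_contra hlt
    push Not at hlt
    have hne' : (A'.filter fun a => a b = i).Nonempty := by
      rw [nonempty_iff_ne_empty]
      intro h0
      rw [h0] at hlt
      simp at hlt
    obtain ⟨a₁, ha₁⟩ := hne'
    rw [mem_filter, hA', mem_filter] at ha₁
    obtain ⟨⟨ha₁A, ha₁R⟩, ha₁b⟩ := ha₁
    have hsub : (A'.filter fun a => a b = i) ⊆
        𝒜.filter fun a => ∀ c ∈ insert b R, a c = a₁ c := by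
      intro a ha
      rw [mem_filter, hA', mem_filter] at ha
      obtain ⟨⟨haA, haR⟩, hab⟩ := ha
      rw [mem_filter]
      refine ⟨haA, fun c hc => ?_⟩
      rcases mem_insert.1 hc with rfl | hc
      · rw [hab, ha₁b]
      · rw [haR c hc, ha₁R c hc]
    have hmem : (insert b R, a₁) ∈ good := by
      simp only [good, mem_filter, mem_univ, true_and]
      refine ⟨ha₁A, ?_⟩
      rw [card_insert_of_notMem hb]
      calc 𝒜.card ≤ (2 * t) ^ R.card * A'.card := hcard
        _ ≤ (2 * t) ^ R.card * (2 * t * (A'.filter fun a => a b = i).card) :=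
          Nat.mul_le_mul_left _ hlt.le
        _ = (2 * t) ^ (R.card + 1) * (A'.filter fun a => a b = i).card := by ring
        _ ≤ _ := Nat.mul_le_mul_left _ (card_le_card hsub)
    have := hmax _ hmem
    simp only [card_insert_of_notMem hb] at this
    omega
  by_contra hno
  push Not at hno
  have hcov : A' ⊆ P.biUnion fun x => A'.filter fun a => a x.1 = x.2 := by
    intro a ha
    have ha2 := ha
    rw [hA', mem_filter] at ha2
    obtain ⟨x, hx, hax⟩ := hno a ha2.1 ha2.2
    rw [mem_biUnion]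
    exact ⟨x, hx, mem_filter.2 ⟨ha, hax⟩⟩
  have h1 : A'.card ≤ ∑ x ∈ P, (A'.filter fun a => a x.1 = x.2).card :=
    (card_le_card hcov).trans card_biUnion_le
  have h2 : 2 * t * A'.card ≤ t * A'.card := by
    calc 2 * t * A'.card ≤ 2 * t * ∑ x ∈ P, (A'.filter fun a => a x.1 = x.2).card :=
          Nat.mul_le_mul_left _ h1
      _ = ∑ x ∈ P, 2 * t * (A'.filter fun a => a x.1 = x.2).card := by rw [mul_sum]
      _ ≤ ∑ _x ∈ P, A'.card := sum_le_sum fun x hx => hfib x.1 (hPR x hx) x.2
      _ = P.card * A'.card := by simp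
      _ ≤ t * A'.card := Nat.mul_le_mul_right _ hP
  have h3 : 1 ≤ t * A'.card := Nat.one_le_iff_ne_zero.2 (by positivity)
  have h4 : 2 * t * A'.card = 2 * (t * A'.card) := by ring
  omega

namespace Top3Aux

theorem pigeon {α : Type} [Fintype α] [DecidableEq α] {S : ℕ} (hS : 0 < S) (f : α → Fin S) :
    ∃ j, Fintype.card α ≤ S * (univ.filter fun a => f a = j).card := by
  by_contra hno
  push Not at hno
  have h1 : Fintype.card α = ∑ j, (univ.filter fun a => f a = j).card := by
    rw [← card_univ]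
    exact card_eq_sum_card_fiberwise (t := univ) (fun a _ => mem_coe.2 (mem_univ _))
  have hne : (univ : Finset (Fin S)).Nonempty := ⟨⟨0, hS⟩, mem_univ _⟩
  have h2 : ∑ j : Fin S, S * (univ.filter fun a => f a = j).card < ∑ _j : Fin S, Fintype.card α :=
    sum_lt_sum_of_nonempty hne fun j _ => hno j
  rw [← mul_sum, ← h1] at h2
  simp at h2

theorem aux {u m M t S : ℕ} (ht : 1 ≤ t) (htu : t < u) (htm : t < m)
    (h1 : (2 * t) ^ u * S < M ^ u) (h2 : (2 * t) ^ m * S < u ^ m)
    (level : Fin S → ℕ) (val : Fin S → (((Unit × Fin m) × Fin u) × Fin M → Bool) → Bool)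
    (hF : Fam t level val) (hlev : ∀ g, level g ≤ 2) (out : Fin S)
    (hval : ∀ y, val out y = decide (∃ B : Fin m, decide (∀ b : Fin u, ∃ i : Fin M,
      y ((((), B), b), i) = true) = true)) : False := by
  classical
  have hm : 0 < m := by omega
  have hu : 0 < u := by omega
  have hMp : 0 < M := by
    rcases Nat.eq_zero_or_pos M with rfl | h
    · rw [zero_pow (by omega)] at h1
      omega
    · exact h
  have hSp : 0 < S := lt_of_le_of_lt (Nat.zero_le _) out.2
  obtain ⟨D, G, hD, hG, hGv⟩ := fam_parts hF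
  obtain ⟨T, hT, hTG⟩ := hG out
  have hfalse : ∀ y, G out y = false → ∃ h ∈ T, h y = false := by
    intro y hy
    by_contra hno
    have : G out y = true := (hTG y).2 (fun h hh => by
      by_contra hne
      exact hno ⟨h, hh, by simpa using hne⟩)
    rw [this] at hy
    exact absurd hy (by decide)
  have hcert : ∀ h ∈ T, ∀ y, h y = false →
      (∃ K : Finset (((Unit × Fin m) × Fin u) × Fin M), K.card ≤ t ∧
        ∀ x', (∀ i ∈ K, x' i = y i) → h x' = false) ∨ ∃ j, h = D j := by
    intro h hh y hy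
    rcases hT h hh with hc | ⟨j, hj | hj⟩
    · obtain ⟨K, hK1, hK2⟩ := hc y
      exact Or.inl ⟨K, hK1, fun x' hx' => (hK2 x' hx').trans hy⟩
    · exact Or.inr ⟨j, hj⟩
    · left
      rw [hj] at hy
      have hDy : D j y = true := by simpa using hy
      obtain ⟨K, hK1, hK2⟩ := hD j y hDy
      refine ⟨K, hK1, fun x' hx' => ?_⟩
      rw [hj]
      simp [hK2 x' hx']
  have hvt : ∀ y, val out y = true ↔ ∃ B : Fin m, ∀ b : Fin u, ∃ i : Fin M,
      y ((((), B), b), i) = true := by
    intro y
    rw [hval y]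
    simp
  have hvf : ∀ y, val out y = false ↔ ∀ B : Fin m, ∃ b : Fin u, ∀ i : Fin M,
      y ((((), B), b), i) = false := by
    intro y
    rw [← Bool.not_eq_true, hvt y]
    push Not
    simp
  rcases hGv out (hlev out) with hGe | hGe
  · -- Case II
    have key : ∀ g : Fin m → Fin u, ∃ j, D j ∈ T ∧
        D j (fun i => decide (g i.1.1.2 ≠ i.1.2)) = false := by
      intro g
      have hf : G out (fun i => decide (g i.1.1.2 ≠ i.1.2)) = false := by
        rw [hGe, hvf]
        intro B
        exact ⟨g B, fun i => by simp⟩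
      obtain ⟨h, hh, hy⟩ := hfalse _ hf
      rcases hcert h hh _ hy with ⟨K, hK1, hK2⟩ | ⟨j, hj⟩
      · exfalso
        have hex : ∃ B : Fin m, B ∉ K.image fun i => i.1.1.2 := by
          by_contra hall
          push Not at hall
          have hc : (univ : Finset (Fin m)).card ≤ (K.image fun i => i.1.1.2).card :=
            card_le_card fun B _ => hall B
          rw [card_univ, Fintype.card_fin] at hc
          have := hc.trans card_image_le
          omega
        obtain ⟨B, hB⟩ := hex
        have hyt : G out (fun i => decide (g i.1.1.2 ≠ i.1.2) || decide (i.1.1.2 = B)) = true := by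
          rw [hGe, hvt]
          exact ⟨B, fun b => ⟨⟨0, hMp⟩, by simp⟩⟩
        have h3 := (hTG _).1 hyt h hh
        rw [hK2 _ (fun i hi => ?_)] at h3
        · exact absurd h3 (by decide)
        · have : i.1.1.2 ≠ B := by
            rintro rfl
            exact hB (mem_image_of_mem _ hi)
          simp [this]
      · exact ⟨j, hj ▸ hh, hj ▸ hy⟩
    choose f hfT hff using key
    obtain ⟨j, hj⟩ := pigeon hSp f
    have hcardg : Fintype.card (Fin m → Fin u) = u ^ m := by simp
    rw [hcardg] at hj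
    obtain ⟨R, g₀, hR, hg₀, hP⟩ := spread_set ht h2 _ hj
    have hjT : D j ∈ T := by
      rw [mem_filter] at hg₀
      rw [← hg₀.2]
      exact hfT g₀
    have hyt : G out (fun i => decide (¬ (i.1.1.2 ∈ R ∧ g₀ i.1.1.2 = i.1.2))) = true := by
      rw [hGe, hvt]
      have : ∃ B, B ∉ R := by
        by_contra hall
        push Not at hall
        exact hR (eq_univ_iff_forall.2 hall)
      obtain ⟨B, hB⟩ := this
      exact ⟨B, fun b => ⟨⟨0, hMp⟩, by simp [hB]⟩⟩
    obtain ⟨K, hK1, hK2⟩ := hD j _ ((hTG _).1 hyt _ hjT)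
    obtain ⟨g, hg, hgR, hgP⟩ := hP ((K.filter fun i => i.1.1.2 ∉ R).image fun i => (i.1.1.2, i.1.2))
      ((card_image_le.trans (card_filter_le _ _)).trans hK1) (by
        intro x hx
        rw [mem_image] at hx
        obtain ⟨i, hi, rfl⟩ := hx
        exact (mem_filter.1 hi).2)
    have h3 : D j (fun i => decide (g i.1.1.2 ≠ i.1.2)) = true := by
      apply hK2
      intro i hi
      by_cases hiR : i.1.1.2 ∈ R
      · simp [hiR, hgR _ hiR]
      · have := hgP (i.1.1.2, i.1.2) (mem_image.2 ⟨i, mem_filter.2 ⟨hi, hiR⟩, rfl⟩)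
        simp only at this
        simp [hiR, this]
    have h4 := hff g
    rw [mem_filter] at hg
    rw [hg.2, h3] at h4
    exact absurd h4 (by decide)
  · -- Case I
    have key : ∀ a : Fin u → Fin M, ∃ j, D j ∈ T ∧
        D j (fun i => decide (i.1.1.2 = ⟨0, hm⟩ ∧ a i.1.2 = i.2)) = false := by
      intro a
      have hf : G out (fun i => decide (i.1.1.2 = ⟨0, hm⟩ ∧ a i.1.2 = i.2)) = false := by
        rw [hGe, Bool.not_eq_false', hvt]
        exact ⟨⟨0, hm⟩, fun b => ⟨a b, by simp⟩⟩
      obtain ⟨h, hh, hy⟩ := hfalse _ hf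
      rcases hcert h hh _ hy with ⟨K, hK1, hK2⟩ | ⟨j, hj⟩
      · exfalso
        have hex : ∃ b : Fin u, b ∉ K.image fun i => i.1.2 := by
          by_contra hall
          push Not at hall
          have hc : (univ : Finset (Fin u)).card ≤ (K.image fun i => i.1.2).card :=
            card_le_card fun b _ => hall b
          rw [card_univ, Fintype.card_fin] at hc
          have := hc.trans card_image_le
          omega
        obtain ⟨b, hb⟩ := hex
        have hyt : G out (fun i => decide (i.1.1.2 = ⟨0, hm⟩ ∧ a i.1.2 = i.2) &&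
            decide (i.1.2 ≠ b)) = true := by
          rw [hGe, Bool.not_eq_true', hvf]
          intro B
          exact ⟨b, fun i => by simp⟩
        have h3 := (hTG _).1 hyt h hh
        rw [hK2 _ (fun i hi => ?_)] at h3
        · exact absurd h3 (by decide)
        · have : i.1.2 ≠ b := by
            rintro rfl
            exact hb (mem_image_of_mem _ hi)
          simp [this]
      · exact ⟨j, hj ▸ hh, hj ▸ hy⟩
    choose f hfT hff using key
    obtain ⟨j, hj⟩ := pigeon hSp f
    have hcardg : Fintype.card (Fin u → Fin M) = M ^ u := by simp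
    rw [hcardg] at hj
    obtain ⟨R, a₀, hR, ha₀, hP⟩ := spread_set ht h1 _ hj
    have hjT : D j ∈ T := by
      rw [mem_filter] at ha₀
      rw [← ha₀.2]
      exact hfT a₀
    have hyt : G out (fun i => decide (i.1.1.2 = ⟨0, hm⟩ ∧ i.1.2 ∈ R ∧ a₀ i.1.2 = i.2)) = true := by
      rw [hGe, Bool.not_eq_true', hvf]
      have : ∃ b, b ∉ R := by
        by_contra hall
        push Not at hall
        exact hR (eq_univ_iff_forall.2 hall)
      obtain ⟨b, hb⟩ := this
      intro B
      exact ⟨b, fun i => by simp [hb]⟩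
    obtain ⟨K, hK1, hK2⟩ := hD j _ ((hTG _).1 hyt _ hjT)
    obtain ⟨a, ha, haR, haP⟩ := hP ((K.filter fun i => i.1.2 ∉ R).image fun i => (i.1.2, i.2))
      ((card_image_le.trans (card_filter_le _ _)).trans hK1) (by
        intro x hx
        rw [mem_image] at hx
        obtain ⟨i, hi, rfl⟩ := hx
        exact (mem_filter.1 hi).2)
    have h3 : D j (fun i => decide (i.1.1.2 = ⟨0, hm⟩ ∧ a i.1.2 = i.2)) = true := by
      apply hK2
      intro i hi
      by_cases hiR : i.1.2 ∈ R
      · simp [hiR, haR _ hiR]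
      · have := haP (i.1.2, i.2) (mem_image.2 ⟨i, mem_filter.2 ⟨hi, hiR⟩, rfl⟩)
        simp only at this
        simp [hiR, this]
    have h4 := hff a
    rw [mem_filter] at ha
    rw [ha.2, h3] at h4
    exact absurd h4 (by decide)

end Top3Aux

theorem no_three_levels {u m M t S : ℕ} (ht : 1 ≤ t) (htu : t < u) (htm : t < m)
    (h1 : (2 * t) ^ u * S < M ^ u) (h2 : (2 * t) ^ m * S < u ^ m)
    (level : Fin S → ℕ) (val : Fin S → (Leaf u M [m] → Bool) → Bool)
    (hF : Fam t level val) (hlev : ∀ g, level g ≤ 2) (out : Fin S) :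
    ¬ ∀ y, val out y = Fo u [m] M y := by
  intro h
  exact Top3Aux.aux ht htu htm h1 h2 level val hF hlev out h

end P28cd
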