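import Mathlib
import Pool.Agent.Lib.P28cd.Top3
import Pool.Agent.Lib.P28cd.Zero

/-!
# Module P28cd.Zero3 : circuits with levels 0, 1, 2 on edges, large `u`

PROOF (compare ZeroInd).  `m'' = ν`, `mh = ν^2`, `ν^3 = m'' * mh`, `Λ = Leaf u (ν^3) [ν]`, classes
`cls (γ, c) = {(γ, i) | cl i = c}`, `γ : Grp u [ν]`, `c : Fin ν`; `card C = ν * u * ν ≤ ν^3`.  `zero_stage` with
`N = Nat.sqrt ν`, `q0 = 1/ν`, `f g = val g` for `level g = 0` and `f g = fun _ => true` otherwise.  Numbers, `ν` large: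
`t ≤ u ≤ ν^(1/3)`, `S ≤ ν^(t/4)`:
`S (3/4)^N ≤ exp (ν^(1/3) log ν / 4 - (ν^(1/2) - 1) / 4) ≤ 1/4`,
`S (N/ν)^(t+1) ≤ ν^(t/4) ν^(-(t+1)/2) ≤ ν^(-1/2) ≤ 1/4`, `ν^3 (1 - 1/ν)^(ν^2) ≤ ν^3 exp (-ν) ≤ 1/4`.
With `rep` and `R y = sub0 al side (spread rep cl y)` the functions `fun y => val g (R y)` form a `Fam t` with the same levels
(`cert_comp`, `isGate_comp`, `Dep1 → Cert 1 → Cert t`) and by `fo_expand` compute `Fo u [ν] ν`.  Contradiction to `no_three_levels` with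
`m = M = ν`: `(2t)^u S < ν^u` since `2t ≤ u ≤ ν^(1/3)`, `S ≤ ν^(t/4) ≤ ν^(u/4)`; `(2t)^ν S < u^ν` since `u ≥ 8 t`, so
`u^ν ≥ 4^ν (2t)^ν`, and `S ≤ ν^(t/4) < 4^ν`; `t < u`, `t < ν`.
-/

set_option autoImplicit false

namespace P28cd

namespace Zero3Aux

open Filter

/-- the first number -/
theorem numA : ∃ ν₀ : ℕ, ∀ ν ≥ ν₀, ∀ t S : ℕ, (8 * t) ^ 3 ≤ ν → S ^ 4 ≤ ν ^ t →
    (S : ℝ) * (3 / 4) ^ (Nat.sqrt ν) ≤ 1 / 4 := by
  have hlog : ∀ᶠ y : ℝ in atTop, Real.log y ≤ y ^ (1 / 3 : ℝ) := by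
    have h1 := (isLittleO_log_rpow_atTop (r := 1 / 3) (by norm_num)).bound (zero_lt_one)
    filter_upwards [h1, eventually_ge_atTop 1] with y hy hy1
    have h2 : 0 ≤ Real.log y := Real.log_nonneg hy1
    have h3 : 0 ≤ y ^ (1 / 3 : ℝ) := Real.rpow_nonneg (by linarith) _
    rw [Real.norm_of_nonneg h2, Real.norm_of_nonneg h3, one_mul] at hy
    exact hy
  obtain ⟨y₀, hy₀⟩ := eventually_atTop.1 hlog
  obtain ⟨n₀, hn₀⟩ := exists_nat_ge y₀
  refine ⟨(n₀ + 20) ^ 2, ?_⟩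
  intro ν hν t S ht hS
  set N := Nat.sqrt ν with hN
  have hNge : n₀ + 20 ≤ N := by
    rw [hN, Nat.le_sqrt']
    exact hν
  have hNlt : ν < (N + 1) ^ 2 := Nat.lt_succ_sqrt' ν
  set y : ℝ := (N : ℝ) + 1 with hy
  have hy0 : 0 < y := by positivity
  have hly : Real.log y ≤ y ^ (1 / 3 : ℝ) := by
    apply hy₀
    have : (n₀ : ℝ) + 20 ≤ N := by exact_mod_cast hNge
    linarith
  -- bound of `t`
  have ht1 : (8 * (t : ℝ)) ^ 3 ≤ y ^ 2 := by
    have h1 : (8 * t) ^ 3 ≤ (N + 1) ^ 2 := ht.trans hNlt.le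
    have h2 : (((8 * t) ^ 3 : ℕ) : ℝ) ≤ (((N + 1) ^ 2 : ℕ) : ℝ) := by exact_mod_cast h1
    push_cast at h2
    exact h2
  have ht2 : 8 * (t : ℝ) ≤ y ^ (2 / 3 : ℝ) := by
    have h1 : (y ^ (2 / 3 : ℝ)) ^ 3 = y ^ 2 := by
      rw [← Real.rpow_natCast (y ^ (2 / 3 : ℝ)) 3, ← Real.rpow_mul hy0.le,
        ← Real.rpow_natCast y 2]
      norm_num
    rw [← h1] at ht1
    exact le_of_pow_le_pow_left₀ (by norm_num) (Real.rpow_nonneg hy0.le _) ht1
  have hlogν : (t : ℝ) * Real.log ν ≤ y / 4 := by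
    by_cases hν0 : ν = 0
    · rw [hν0, Nat.cast_zero, Real.log_zero, mul_zero]
      positivity
    have hνpos : (0 : ℝ) < ν := by exact_mod_cast Nat.pos_of_ne_zero hν0
    have h1 : Real.log ν ≤ 2 * Real.log y := by
      have h2 : (ν : ℝ) ≤ y ^ 2 := by
        have h3 : ((ν : ℕ) : ℝ) ≤ (((N + 1) ^ 2 : ℕ) : ℝ) := by exact_mod_cast hNlt.le
        push_cast at h3
        exact h3
      calc Real.log ν ≤ Real.log (y ^ 2) := Real.log_le_log hνpos h2
        _ = 2 * Real.log y := by rw [Real.log_pow]; norm_num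
    have h2 : y ^ (2 / 3 : ℝ) * y ^ (1 / 3 : ℝ) = y := by
      rw [← Real.rpow_add hy0]
      norm_num
    have h3 : (0 : ℝ) ≤ t := Nat.cast_nonneg t
    have h4 : (0 : ℝ) ≤ y ^ (1 / 3 : ℝ) := Real.rpow_nonneg hy0.le _
    calc (t : ℝ) * Real.log ν ≤ t * (2 * Real.log y) := mul_le_mul_of_nonneg_left h1 h3
      _ ≤ t * (2 * y ^ (1 / 3 : ℝ)) := by
          apply mul_le_mul_of_nonneg_left _ h3
          linarith
      _ = (8 * t) * y ^ (1 / 3 : ℝ) / 4 := by ring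
      _ ≤ y ^ (2 / 3 : ℝ) * y ^ (1 / 3 : ℝ) / 4 := by
          apply div_le_div_of_nonneg_right _ (by norm_num)
          exact mul_le_mul_of_nonneg_right ht2 h4
      _ = y / 4 := by rw [h2]
  have hνt : ((ν ^ t : ℕ) : ℝ) ≤ Real.exp (y / 4) := by
    by_cases hν0 : ν = 0
    · have h20 : 1 ≤ (n₀ + 20) ^ 2 := Nat.one_le_pow _ _ (by omega)
      omega
    have hνpos : (0 : ℝ) < ν := by exact_mod_cast Nat.pos_of_ne_zero hν0
    rw [Nat.cast_pow]
    calc (ν : ℝ) ^ t = Real.exp (t * Real.log ν) := by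
          rw [mul_comm, Real.exp_mul, Real.exp_log hνpos, Real.rpow_natCast]
      _ ≤ Real.exp (y / 4) := Real.exp_le_exp.2 hlogν
  have he : (81 / 256 : ℝ) ≤ Real.exp (-1) := by
    rw [Real.exp_neg, le_inv_comm₀ (by norm_num) (Real.exp_pos _)]
    have := Real.exp_one_lt_d9
    norm_num at this ⊢
    linarith
  have hp4 : ((S : ℝ) * (3 / 4) ^ N) ^ 4 ≤ (1 / 4) ^ 4 := by
    have h1 : ((S : ℝ) * (3 / 4) ^ N) ^ 4 = (S : ℝ) ^ 4 * (81 / 256) ^ N := by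
      rw [mul_pow, ← pow_mul, mul_comm N 4, pow_mul]
      norm_num
    have h2 : (S : ℝ) ^ 4 ≤ Real.exp (y / 4) := by
      refine le_trans ?_ hνt
      exact_mod_cast hS
    have h3 : (81 / 256 : ℝ) ^ N ≤ Real.exp (-(N : ℝ)) := by
      calc (81 / 256 : ℝ) ^ N ≤ Real.exp (-1) ^ N := pow_le_pow_left₀ (by norm_num) he N
        _ = Real.exp (-(N : ℝ)) := by rw [← Real.exp_nat_mul]; congr 1; ring
    rw [h1]
    calc (S : ℝ) ^ 4 * (81 / 256) ^ N ≤ Real.exp (y / 4) * Real.exp (-(N : ℝ)) :=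
          mul_le_mul h2 h3 (by positivity) (Real.exp_pos _).le
      _ = Real.exp (y / 4 + -(N : ℝ)) := (Real.exp_add _ _).symm
      _ ≤ Real.exp (-6) := by
          apply Real.exp_le_exp.2
          have : (20 : ℝ) ≤ N := by
            have : 20 ≤ N := by omega
            exact_mod_cast this
          rw [hy]
          linarith
      _ ≤ (1 / 4) ^ 4 := by
          have h5 : Real.exp (-6) = (Real.exp 1)⁻¹ ^ 6 := by
            rw [← Real.exp_neg, ← Real.exp_nat_mul]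
            norm_num
          have h6 : (Real.exp 1)⁻¹ ≤ 10 / 27 := by
            rw [inv_le_comm₀ (Real.exp_pos _) (by norm_num)]
            have := Real.exp_one_gt_d9
            norm_num at this ⊢
            linarith
          rw [h5]
          calc (Real.exp 1)⁻¹ ^ 6 ≤ (10 / 27 : ℝ) ^ 6 :=
                pow_le_pow_left₀ (inv_nonneg.2 (Real.exp_pos _).le) h6 6
            _ ≤ (1 / 4) ^ 4 := by norm_num
  exact le_of_pow_le_pow_left₀ (by norm_num) (by norm_num) hp4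

/-- the third number -/
theorem numC : ∃ ν₀ : ℕ, ∀ ν ≥ ν₀, (ν : ℝ) ^ 3 * (1 - 1 / (ν : ℝ)) ^ (ν ^ 2) ≤ 1 / 4 := by
  have h1 := Real.tendsto_pow_mul_exp_neg_atTop_nhds_zero 3
  have h2 : ∀ᶠ x : ℝ in atTop, x ^ 3 * Real.exp (-x) < 1 / 4 :=
    h1.eventually (gt_mem_nhds (by norm_num))
  obtain ⟨x₀, hx₀⟩ := eventually_atTop.1 h2
  obtain ⟨n₀, hn₀⟩ := exists_nat_ge x₀
  refine ⟨n₀ + 1, ?_⟩
  intro ν hν
  have hν1 : (1 : ℝ) ≤ ν := by
    have : 1 ≤ ν := by omega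
    exact_mod_cast this
  have hνn : (n₀ : ℝ) ≤ ν := by
    have : n₀ ≤ ν := by omega
    exact_mod_cast this
  have h3 := hx₀ ν (by linarith)
  refine le_trans ?_ h3.le
  apply mul_le_mul_of_nonneg_left _ (by positivity)
  have h4 : 0 ≤ 1 - 1 / (ν : ℝ) := by
    rw [sub_nonneg, div_le_one (by linarith)]
    exact hν1
  have h5 : 1 - 1 / (ν : ℝ) ≤ Real.exp (-(1 / (ν : ℝ))) := by
    have := Real.add_one_le_exp (-(1 / (ν : ℝ)))
    linarith
  calc (1 - 1 / (ν : ℝ)) ^ (ν ^ 2) ≤ Real.exp (-(1 / (ν : ℝ))) ^ (ν ^ 2) :=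
        pow_le_pow_left₀ h4 h5 _
    _ = Real.exp (-(ν : ℝ)) := by
        rw [← Real.exp_nat_mul]
        congr 1
        push_cast
        field_simp

/-- the second number -/
theorem numB {ν t S : ℕ} (hν : 16 ≤ ν) (hS : S ^ 4 ≤ ν ^ t) :
    (S : ℝ) * ((Nat.sqrt ν : ℝ) * (1 / (ν : ℝ))) ^ (t + 1) ≤ 1 / 4 := by
  set N := Nat.sqrt ν with hN
  have hν0 : (0 : ℝ) < ν := by
    have : 0 < ν := by omega
    exact_mod_cast this
  have hN2 : (N : ℝ) ^ 2 ≤ ν := by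
    have : N ^ 2 ≤ ν := Nat.sqrt_le' ν
    exact_mod_cast this
  have hp4 : ((S : ℝ) * ((N : ℝ) * (1 / (ν : ℝ))) ^ (t + 1)) ^ 4 ≤ (1 / 4) ^ 4 := by
    have h1 : ((N : ℝ) * (1 / (ν : ℝ))) ^ 4 ≤ (1 / (ν : ℝ)) ^ 2 := by
      have h2 : ((N : ℝ) * (1 / (ν : ℝ))) ^ 4 = ((N : ℝ) ^ 2) ^ 2 * (1 / (ν : ℝ)) ^ 4 := by ring
      have h3 : (1 / (ν : ℝ)) ^ 2 = (ν : ℝ) ^ 2 * (1 / (ν : ℝ)) ^ 4 := by
        field_simp
      rw [h2, h3]
      exact mul_le_mul_of_nonneg_right (pow_le_pow_left₀ (by positivity) hN2 2) (by positivity)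
    have h4 : ((S : ℝ) * ((N : ℝ) * (1 / (ν : ℝ))) ^ (t + 1)) ^ 4 =
        (S : ℝ) ^ 4 * (((N : ℝ) * (1 / (ν : ℝ))) ^ 4) ^ (t + 1) := by
      rw [mul_pow, ← pow_mul, ← pow_mul, mul_comm (t + 1) 4]
    have h5 : (S : ℝ) ^ 4 ≤ (ν : ℝ) ^ t := by exact_mod_cast hS
    rw [h4]
    calc (S : ℝ) ^ 4 * (((N : ℝ) * (1 / (ν : ℝ))) ^ 4) ^ (t + 1) ≤
        (ν : ℝ) ^ t * ((1 / (ν : ℝ)) ^ 2) ^ (t + 1) :=
          mul_le_mul h5 (pow_le_pow_left₀ (by positivity) h1 _) (by positivity) (by positivity)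
      _ = (1 / (ν : ℝ)) ^ (t + 2) := by
          have : ((1 / (ν : ℝ)) ^ 2) ^ (t + 1) = (1 / (ν : ℝ)) ^ t * (1 / (ν : ℝ)) ^ (t + 2) := by
            rw [← pow_mul, ← pow_add]
            congr 1
            ring
          rw [this, ← mul_assoc, ← mul_pow, mul_one_div_cancel hν0.ne', one_pow, one_mul]
      _ ≤ (1 / 16) ^ (t + 2) := by
          apply pow_le_pow_left₀ (by positivity)
          apply one_div_le_one_div_of_le (by norm_num)
          exact_mod_cast hν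
      _ ≤ (1 / 16) ^ 2 := pow_le_pow_of_le_one (by norm_num) (by norm_num) (by omega)
      _ ≤ (1 / 4) ^ 4 := by norm_num
  exact le_of_pow_le_pow_left₀ (by norm_num) (by norm_num) hp4

theorem h1 {ν u t S : ℕ} (hν : 16 ≤ ν) (ht : 1 ≤ t) (htu : 8 * t ≤ u) (hu : u ^ 3 ≤ ν)
    (hS : S ^ 4 ≤ ν ^ t) : (2 * t) ^ u * S < ν ^ u := by
  have h2 : ((2 * t) ^ u * S) ^ 4 < (ν ^ u) ^ 4 := by
    have ha : (2 * t) ^ 3 ≤ ν := (Nat.pow_le_pow_left (by omega) 3).trans hu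
    have hb : 2 * t ≤ ν := by
      have : u ≤ u ^ 3 := Nat.le_self_pow (by norm_num) u
      omega
    calc ((2 * t) ^ u * S) ^ 4 = ((2 * t) ^ 3) ^ u * (2 * t) ^ u * S ^ 4 := by
          rw [mul_pow, ← pow_mul, ← pow_mul, ← pow_add]
          congr 2
          ring
      _ ≤ ν ^ u * ν ^ u * ν ^ t :=
          Nat.mul_le_mul (Nat.mul_le_mul (Nat.pow_le_pow_left ha u) (Nat.pow_le_pow_left hb u)) hS
      _ = ν ^ (2 * u + t) := by
          rw [← pow_add, ← pow_add]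
          congr 1
          ring
      _ < ν ^ (u * 4) := Nat.pow_lt_pow_right (by omega) (by omega)
      _ = (ν ^ u) ^ 4 := by rw [pow_mul]
  exact lt_of_pow_lt_pow_left₀ 4 (Nat.zero_le _) h2

theorem h2 {ν u t S : ℕ} (hν : 16 ≤ ν) (ht : 1 ≤ t) (htu : 8 * t ≤ u) (hu : u ^ 3 ≤ ν)
    (hS : S ^ 4 ≤ ν ^ t) : (2 * t) ^ ν * S < u ^ ν := by
  have hS4 : S < 4 ^ ν := by
    have h3 : S ^ 4 < (4 ^ ν) ^ 4 := by
      set N := Nat.sqrt ν with hN
      have hNlt : ν < (N + 1) ^ 2 := Nat.lt_succ_sqrt' ν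
      have hN2 : N ^ 2 ≤ ν := Nat.sqrt_le' ν
      have htN : t ≤ N := by
        by_contra hlt
        push Not at hlt
        have h4 : (N + 1) ^ 2 ≤ t ^ 3 :=
          (Nat.pow_le_pow_left hlt 2).trans (Nat.pow_le_pow_right ht (by norm_num))
        have h5 : t ^ 3 ≤ u ^ 3 := Nat.pow_le_pow_left (by omega) 3
        omega
      have h6 : ν < 4 ^ (N + 1) := by
        calc ν < (N + 1) ^ 2 := hNlt
          _ ≤ (2 ^ (N + 1)) ^ 2 := Nat.pow_le_pow_left (Nat.lt_two_pow_self).le 2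
          _ = 4 ^ (N + 1) := by rw [← pow_mul, mul_comm, pow_mul]; norm_num
      have h7 : (N + 1) * t ≤ 2 * ν := by
        have : (N + 1) * t ≤ (N + 1) * N := Nat.mul_le_mul_left _ htN
        have h8 : N ≤ N ^ 2 := Nat.le_self_pow (by norm_num) N
        nlinarith
      calc S ^ 4 ≤ ν ^ t := hS
        _ ≤ (4 ^ (N + 1)) ^ t := Nat.pow_le_pow_left h6.le t
        _ = 4 ^ ((N + 1) * t) := by rw [← pow_mul]
        _ ≤ 4 ^ (2 * ν) := Nat.pow_le_pow_right (by norm_num) h7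
        _ < 4 ^ (ν * 4) := Nat.pow_lt_pow_right (by norm_num) (by omega)
        _ = (4 ^ ν) ^ 4 := by rw [pow_mul]
    exact lt_of_pow_lt_pow_left₀ 4 (Nat.zero_le _) h3
  have hpos : 0 < (2 * t) ^ ν := Nat.pow_pos (by omega)
  calc (2 * t) ^ ν * S < (2 * t) ^ ν * 4 ^ ν := Nat.mul_lt_mul_of_pos_left hS4 hpos
    _ = (2 * t * 4) ^ ν := (mul_pow _ _ _).symm
    _ ≤ u ^ ν := Nat.pow_le_pow_left (by omega) ν

theorem dep1_cert {I : Type} {f : (I → Bool) → Bool} (hf : Dep1 f) : Cert 1 f := by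
  obtain ⟨K, hK, h⟩ := hf
  intro x
  exact ⟨K, hK, fun x' hx' => h x' x hx'⟩

end Zero3Aux

theorem no_circuit3 : ∃ ν₀ : ℕ, ∀ ν ≥ ν₀, ∀ u t : ℕ, 1 ≤ t → 8 * t ≤ u → u ^ 3 ≤ ν →
    ∀ S : ℕ, S ^ 4 ≤ ν ^ t → ∀ (level : Fin S → ℕ)
      (val : Fin S → (Leaf u (ν ^ 3) [ν] × Bool → Bool) → Bool),
      (∀ g, ∃ T ⊆ Avail {f | Dep1 f} level val (level g), IsGate T (val g)) →
      (∀ g, level g ≤ 2) →
      ∀ out, ¬ ∀ x, val out x = Fo u [ν] (ν ^ 3) (fun ℓ => x (ℓ, false) && x (ℓ, true)) := by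
  obtain ⟨νA, hA⟩ := Zero3Aux.numA
  obtain ⟨νC, hC⟩ := Zero3Aux.numC
  refine ⟨max (max νA νC) 16, ?_⟩
  intro ν hν u t ht htu hu3 S hS level val hgates hlev out hout
  have hν16 : 16 ≤ ν := le_trans (le_max_right _ _) hν
  have hνA : νA ≤ ν := le_trans (le_trans (le_max_left _ _) (le_max_left _ _)) hν
  have hνC : νC ≤ ν := le_trans (le_trans (le_max_right _ _) (le_max_left _ _)) hν
  have huν : u ≤ ν := (Nat.le_self_pow (by norm_num) u).trans hu3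
  obtain ⟨cl, hcl⟩ : ∃ cl : Fin (ν ^ 3) → Fin ν,
      ∀ c, (Finset.univ.filter fun i => cl i = c).card = ν ^ 2 := by
    have h := classes ν (ν ^ 2)
    rwa [show ν * ν ^ 2 = ν ^ 3 by ring] at h
  let f : Fin S → (Leaf u (ν ^ 3) [ν] × Bool → Bool) → Bool :=
    fun g => if level g = 0 then val g else fun _ => true
  let cls : Grp u [ν] × Fin ν → Finset (Leaf u (ν ^ 3) [ν]) :=
    fun x => (Finset.univ.filter fun i => cl i = x.2).image fun i => (x.1, i)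
  have hf : ∀ g, ∃ T : Set ((Leaf u (ν ^ 3) [ν] × Bool → Bool) → Bool),
      (∀ h ∈ T, Dep1 h) ∧ IsGate T (f g) := by
    intro g
    by_cases hg : level g = 0
    · obtain ⟨T, hT, hgate⟩ := hgates g
      refine ⟨T, ?_, ?_⟩
      · intro h hh
        rcases hT hh with h2 | ⟨g', hg', _⟩
        · exact h2
        · rw [hg] at hg'
          exact absurd hg' (Nat.not_lt_zero _)
      · have : f g = val g := if_pos hg
        rw [this]
        exact hgate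
    · refine ⟨∅, fun h hh => absurd hh (Set.notMem_empty h), ?_⟩
      have : f g = fun _ => true := if_neg hg
      rw [this]
      left
      intro x
      constructor
      · intro _ h hh
        exact absurd hh (Set.notMem_empty h)
      · intro _
        rfl
  have hclsc : ∀ c, ν ^ 2 ≤ (cls c).card := by
    intro c
    show ν ^ 2 ≤ ((Finset.univ.filter fun i => cl i = c.2).image fun i => (c.1, i)).card
    rw [Finset.card_image_of_injective _ (by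
      intro i j hij
      exact (Prod.mk.inj hij).2), hcl c.2]
  have hν0 : (0 : ℝ) < ν := by
    have : 0 < ν := by omega
    exact_mod_cast this
  have hq0 : (0 : ℝ) ≤ 1 / (ν : ℝ) := by positivity
  have hq1 : 1 / (ν : ℝ) ≤ 1 / 2 := by
    apply one_div_le_one_div_of_le (by norm_num)
    have : 2 ≤ ν := by omega
    exact_mod_cast this
  have hcardC : Fintype.card (Grp u [ν] × Fin ν) ≤ ν ^ 3 := by
    have h1 : Fintype.card (Grp u []) = 1 := rfl
    rw [Fintype.card_prod, Fintype.card_fin, card_grp_succ, Fintype.card_prod, Fintype.card_fin,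
      h1, one_mul]
    calc ν * u * ν ≤ ν * ν * ν := Nat.mul_le_mul_right _ (Nat.mul_le_mul_left _ huν)
      _ = ν ^ 3 := by ring
  have hsum : (S : ℝ) * ((3 / 4) ^ (Nat.sqrt ν) + ((Nat.sqrt ν : ℝ) * (1 / (ν : ℝ))) ^ (t + 1)) +
      (Fintype.card (Grp u [ν] × Fin ν) : ℝ) * (1 - 1 / (ν : ℝ)) ^ (ν ^ 2) < 1 := by
    have a1 := hA ν hνA t S ((Nat.pow_le_pow_left htu 3).trans hu3) hS
    have a2 := Zero3Aux.numB hν16 hS
    have a3 := hC ν hνC
    have a4 : (Fintype.card (Grp u [ν] × Fin ν) : ℝ) * (1 - 1 / (ν : ℝ)) ^ (ν ^ 2) ≤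
        (ν : ℝ) ^ 3 * (1 - 1 / (ν : ℝ)) ^ (ν ^ 2) := by
      apply mul_le_mul_of_nonneg_right
      · exact_mod_cast hcardC
      · apply pow_nonneg
        linarith
    rw [mul_add]
    linarith
  obtain ⟨al, side, hal, hcert⟩ := zero_stage hq0 hq1 f hf cls hclsc hsum
  have hrep : ∀ x : Grp u [ν] × Fin ν, ∃ i : Fin (ν ^ 3), cl i = x.2 ∧ al (x.1, i) = true := by
    intro x
    obtain ⟨ℓ, hℓ, hℓ2⟩ := hal x
    obtain ⟨i, hi, rfl⟩ := Finset.mem_image.1 hℓ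
    exact ⟨i, (Finset.mem_filter.1 hi).2, hℓ2⟩
  choose rep hrep1 hrep2 using hrep
  let R : (Leaf u ν [ν] → Bool) → Leaf u (ν ^ 3) [ν] × Bool → Bool :=
    fun y => sub0 al side (spread rep cl y)
  have hR : ∀ i, Dep1 (fun y => R y i) := by
    intro i
    show Dep1 (fun y => if al i.1 then (if i.2 then true else spread rep cl y i.1)
      else decide (i.2 = side i.1))
    by_cases h1 : al i.1 = true
    · by_cases h2 : i.2 = true
      · simp only [h1, h2, if_true]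
        exact ⟨∅, by simp, fun _ _ _ => rfl⟩
      · simp only [h1, h2, if_true, if_false, Bool.false_eq_true]
        exact dep1_spread rep cl i.1
    · simp only [h1, if_false, Bool.false_eq_true]
      exact ⟨∅, by simp, fun _ _ _ => rfl⟩
  have hFam : Fam t level (fun g y => val g (R y)) := by
    refine ⟨fun g hg => ?_, fun g _ => ?_⟩
    · have h1 := cert_comp (hcert g) (spread rep cl) (dep1_spread rep cl)
      have h2 : f g = val g := if_pos hg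
      rw [h2] at h1
      exact h1
    · obtain ⟨T, hT, hgate⟩ := hgates g
      refine ⟨_, ?_, isGate_comp hgate R⟩
      rintro _ ⟨h, hh, rfl⟩
      rcases hT hh with h2 | ⟨g', hg', rfl | rfl⟩
      · exact Or.inl ((cert_comp (Zero3Aux.dep1_cert h2) R hR).mono ht)
      · exact Or.inr ⟨g', hg', Or.inl rfl⟩
      · exact Or.inr ⟨g', hg', Or.inr rfl⟩
  refine no_three_levels (M := ν) ht (by omega) (by omega)
    (Zero3Aux.h1 hν16 ht htu hu3 hS) (Zero3Aux.h2 hν16 ht htu hu3 hS) level _ hFam hlev out ?_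
  intro y
  show val out (R y) = Fo u [ν] ν y
  rw [hout (R y), ← fo_expand u (ν ^ 3) ν [ν] al cl rep hrep1 hrep2 y]
  congr 1
  funext ℓ
  show (sub0 al side (spread rep cl y) (ℓ, false) && sub0 al side (spread rep cl y) (ℓ, true)) =
    (al ℓ && spread rep cl y ℓ)
  unfold sub0
  cases h1 : al ℓ with
  | true => simp [h1]
  | false =>
    cases h2 : side ℓ <;> simp [h1, h2]

end P28cd
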