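import Mathlib
import Pool.Agent.Lib.P28cd.Fin
import Pool.Agent.Lib.P28cd.Zero3
import Pool.Agent.Lib.P28cd.FinNum3

/-!
# Module P28cd.Fin3 : depth three, all `k` up to a power of `n`
-/

set_option autoImplicit false

namespace P28cd

theorem lower_graph3 : ∃ c : ℝ, 0 < c ∧ ∃ k₀ n₀ : ℕ,
    ∀ n ≥ n₀, ∀ k, k₀ ≤ k → 2 * k ≤ n → ∀ s t : Fin n, s ≠ t →
    ∀ (S : ℕ) (f : (Fin n → Fin n → Bool) → Bool), Circ (Lits n) 3 S f →
      (((∀ E, (∀ v, E v v = false) → Walk E k s t → f E = true) ∧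
          (∀ E, (∀ v, E v v = false) → (∀ j, ¬ Walk E j s t) → f E = false)) ∨
        (∀ E, (∀ v, E v v = false) → (∀ v w, E v w = E w v) → (f E = true ↔ Walk E k s t))) →
      (n : ℝ) ^ (c * min (k : ℝ) ((n : ℝ) ^ (1 / 20 : ℝ))) ≤ S := by
  obtain ⟨ν₀, hν₀⟩ := no_circuit3
  obtain ⟨c, hc, k₀, n₀, hnum⟩ := final_numbers3 ν₀
  refine ⟨c, hc, k₀, n₀, ?_⟩
  intro n hn k hk h2k s t hst S f hf hor
  by_contra hlt
  push Not at hlt
  obtain ⟨ν, u, t', h, hν, hν1, ht, htu, hu3, hk2, hcard, hpow⟩ := hnum n hn k hk h2k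
  have hS : S ^ 4 ≤ ν ^ t' := by
    have h4 : (S : ℝ) ^ 4 <
        ((n : ℝ) ^ (c * min (k : ℝ) ((n : ℝ) ^ (1 / 20 : ℝ)))) ^ 4 :=
      pow_lt_pow_left₀ hlt (Nat.cast_nonneg S) (by norm_num)
    have : ((S ^ 4 : ℕ) : ℝ) < ((ν ^ t' : ℕ) : ℝ) := by
      rw [Nat.cast_pow]
      exact lt_trans h4 hpow
    exact (Nat.cast_lt.1 this).le
  have hu1 : 1 ≤ u := by omega
  obtain ⟨level, val, out, hlev, hgate, rfl⟩ := hf
  have hg : Fintype.card (Grp u [ν]) = ν * u := by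
    rw [card_grp_succ, Fintype.card_prod, Fintype.card_fin]
    have : Fintype.card (Grp u []) = 1 := rfl
    rw [this, one_mul]
  have hcv := card_vert u hu1 [ν] (by intro m hm; simp at hm; omega)
  rw [hg] at hcv
  have hcl : Fintype.card (Leaf u (ν ^ 3) [ν]) = ν * u * ν ^ 3 := by
    rw [Fintype.card_prod, Fintype.card_fin, hg]
  obtain ⟨Ed, Es, hEd, hEs, hld, hls, hsym, hmap⟩ := graph_map' u hu1 [ν] (ν ^ 3) h n (by omega) s t hst
  have hlen : 2 * u ^ [ν].length + h = k := by simpa using hk2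
  rw [hlen] at hmap
  have hlev' : ∀ g, level g ≤ 2 := fun g => Nat.lt_succ_iff.1 (hlev g)
  rcases hor with ⟨h1, h2⟩ | h3
  · refine hν₀ ν hν u t' ht htu hu3 S hS level (fun g x => val g (Ed x))
      (comp_graph hgate Ed hEd) hlev' out ?_
    intro x
    cases hx : Fo u [ν] (ν ^ 3) (fun ℓ => x (ℓ, false) && x (ℓ, true)) with
    | true => exact h1 _ (hld x) ((hmap x).1 hx).1
    | false => exact h2 _ (hld x) ((hmap x).2 hx).1
  · refine hν₀ ν hν u t' ht htu hu3 S hS level (fun g x => val g (Es x))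
      (comp_graph hgate Es hEs) hlev' out ?_
    intro x
    cases hx : Fo u [ν] (ν ^ 3) (fun ℓ => x (ℓ, false) && x (ℓ, true)) with
    | true => exact (h3 _ (hls x) (hsym x)).2 ((hmap x).1 hx).2
    | false =>
      have := (not_congr (h3 _ (hls x) (hsym x))).2 ((hmap x).2 hx).2
      simpa using this

end P28cd
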