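import Mathlib
import Pool.Agent.Lib.P28cd.Gr2

/-!
# Module P28cd.Und : undirected graphs, no walk at all when the formula is false
-/

set_option autoImplicit false

namespace P28cd

theorem srcG_zero (u m : ℕ) (rest : List ℕ) (B : Grp u rest × Fin m) (b : Fin u)
    (h : b.val = 0) : srcG u (m :: rest) (B, b) = Sum.inl (srcG u rest B.1) := by
  show (if h : b.val = 0 then (Sum.inl (srcG u rest B.1) : Vert u (m :: rest))
    else Sum.inr (B, ⟨b.val - 1, _⟩)) = _
  rw [dif_pos h]

theorem srcG_pos (u m : ℕ) (rest : List ℕ) (B : Grp u rest × Fin m) (b : Fin u)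
    (h : b.val ≠ 0) : srcG u (m :: rest) (B, b) =
      Sum.inr (B, ⟨b.val - 1, by have := b.2; omega⟩) := by
  show (if h : b.val = 0 then (Sum.inl (srcG u rest B.1) : Vert u (m :: rest))
    else Sum.inr (B, ⟨b.val - 1, _⟩)) = _
  rw [dif_neg h]

theorem dstG_last (u m : ℕ) (rest : List ℕ) (B : Grp u rest × Fin m) (b : Fin u)
    (h : b.val + 1 = u) : dstG u (m :: rest) (B, b) = Sum.inl (dstG u rest B.1) := by
  show (if h : b.val + 1 = u then (Sum.inl (dstG u rest B.1) : Vert u (m :: rest))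
    else Sum.inr (B, ⟨b.val, _⟩)) = _
  rw [dif_pos h]

theorem dstG_lt (u m : ℕ) (rest : List ℕ) (B : Grp u rest × Fin m) (b : Fin u)
    (h : b.val + 1 ≠ u) : dstG u (m :: rest) (B, b) =
      Sum.inr (B, ⟨b.val, by have := b.2; omega⟩) := by
  show (if h : b.val + 1 = u then (Sum.inl (dstG u rest B.1) : Vert u (m :: rest))
    else Sum.inr (B, ⟨b.val, _⟩)) = _
  rw [dif_neg h]

/-- extension of a labelling to the inner vertices of the paths -/
def ext (u m : ℕ) (rest : List ℕ) (φ : Vert u rest → Bool) (b0 : Grp u rest × Fin m → Fin u) :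
    Vert u (m :: rest) → Bool
  | Sum.inl v => φ v
  | Sum.inr x => if x.2.val < (b0 x.1).val then φ (srcG u rest x.1.1) else φ (dstG u rest x.1.1)

theorem ext_inl (u m : ℕ) (rest : List ℕ) (φ : Vert u rest → Bool)
    (b0 : Grp u rest × Fin m → Fin u) (v : Vert u rest) :
    ext u m rest φ b0 (Sum.inl v) = φ v := rfl

theorem ext_inr (u m : ℕ) (rest : List ℕ) (φ : Vert u rest → Bool)
    (b0 : Grp u rest × Fin m → Fin u) (B : Grp u rest × Fin m) (j : Fin (u - 1)) :
    ext u m rest φ b0 (Sum.inr (B, j)) =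
      if j.val < (b0 B).val then φ (srcG u rest B.1) else φ (dstG u rest B.1) := rfl

theorem ext_src (u m : ℕ) (rest : List ℕ) (φ : Vert u rest → Bool)
    (b0 : Grp u rest × Fin m → Fin u) (B : Grp u rest × Fin m) (b : Fin u)
    (hne : b ≠ b0 B) : ext u m rest φ b0 (srcG u (m :: rest) (B, b)) =
      if b.val < (b0 B).val then φ (srcG u rest B.1) else φ (dstG u rest B.1) := by
  have hne' : b.val ≠ (b0 B).val := fun h' => hne (Fin.ext h')
  by_cases hh : b.val = 0
  · rw [srcG_zero _ _ _ _ _ hh, ext_inl, if_pos (by omega)]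
  · rw [srcG_pos _ _ _ _ _ hh, ext_inr]
    by_cases h3 : b.val < (b0 B).val
    · rw [if_pos h3, if_pos (show b.val - 1 < _ by omega)]
    · rw [if_neg h3, if_neg (show ¬ b.val - 1 < _ by omega)]

theorem ext_dst (u m : ℕ) (rest : List ℕ) (φ : Vert u rest → Bool)
    (b0 : Grp u rest × Fin m → Fin u) (B : Grp u rest × Fin m) (b : Fin u)
    (hne : b ≠ b0 B) : ext u m rest φ b0 (dstG u (m :: rest) (B, b)) =
      if b.val < (b0 B).val then φ (srcG u rest B.1) else φ (dstG u rest B.1) := by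
  have hne' : b.val ≠ (b0 B).val := fun h' => hne (Fin.ext h')
  have hlt := (b0 B).2
  by_cases hh : b.val + 1 = u
  · rw [dstG_last _ _ _ _ _ hh, ext_inl, if_neg (by omega)]
  · rw [dstG_lt _ _ _ _ _ hh, ext_inr]

theorem ext_eq (u m : ℕ) (rest : List ℕ) (φ : Vert u rest → Bool)
    (b0 : Grp u rest × Fin m → Fin u) (B : Grp u rest × Fin m) (b : Fin u)
    (he : φ (srcG u rest B.1) = φ (dstG u rest B.1)) :
    ext u m rest φ b0 (srcG u (m :: rest) (B, b)) =
      ext u m rest φ b0 (dstG u (m :: rest) (B, b)) := by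
  have e1 : ext u m rest φ b0 (srcG u (m :: rest) (B, b)) = φ (srcG u rest B.1) := by
    by_cases hh : b.val = 0
    · rw [srcG_zero _ _ _ _ _ hh, ext_inl]
    · rw [srcG_pos _ _ _ _ _ hh, ext_inr, ← he, ite_self]
  have e2 : ext u m rest φ b0 (dstG u (m :: rest) (B, b)) = φ (srcG u rest B.1) := by
    by_cases hh : b.val + 1 = u
    · rw [dstG_last _ _ _ _ _ hh, ext_inl, he]
    · rw [dstG_lt _ _ _ _ _ hh, ext_inr, ← he, ite_self]
  rw [e1, e2]

/-- the two end points of every OR node with a one get the same label -/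
theorem cut_sym (u : ℕ) (hu : 1 ≤ u) (rest : List ℕ) : ∀ (m : ℕ) (y : Leaf u m rest → Bool),
    Fo u rest m y = false →
    ∃ φ : Vert u rest → Bool, φ (vs u rest) = true ∧ φ (vt u rest) = false ∧
      ∀ γ : Grp u rest, (∃ j, y (γ, j) = true) → φ (srcG u rest γ) = φ (dstG u rest γ) := by
  induction rest with
  | nil =>
    intro m y h
    refine ⟨fun b => !b, rfl, rfl, ?_⟩
    rintro γ hγ
    exfalso
    have : ¬ ∃ i, y ((), i) = true := by
      simpa [Fo] using h
    exact this hγ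
  | cons m' rest ih =>
    intro m y h
    classical
    obtain ⟨φ, h0, h1, hφ⟩ := ih m'
      (fun B => decide (∀ b : Fin u, ∃ i : Fin m, y ((B, b), i) = true)) h
    have hb : ∀ B : Grp u rest × Fin m', ∃ b0 : Fin u,
        (¬ ∀ b : Fin u, ∃ i : Fin m, y ((B, b), i) = true) →
          ¬ ∃ i : Fin m, y ((B, b0), i) = true := by
      intro B
      by_cases hB : ∀ b : Fin u, ∃ i : Fin m, y ((B, b), i) = true
      · exact ⟨⟨0, hu⟩, fun h' => absurd hB h'⟩
      · obtain ⟨b0, hb0⟩ := not_forall.1 hB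
        exact ⟨b0, fun _ => hb0⟩
    choose b0 hb0 using hb
    refine ⟨ext u m' rest φ b0, h0, h1, ?_⟩
    rintro ⟨B, b⟩ hγ
    by_cases hB : ∀ b : Fin u, ∃ i : Fin m, y ((B, b), i) = true
    · exact ext_eq u m' rest φ b0 B b (hφ B.1 ⟨B.2, by simpa using hB⟩)
    · have hne : b ≠ b0 B := by
        rintro rfl
        exact hb0 B hB hγ
      exact (ext_src u m' rest φ b0 B b hne).trans (ext_dst u m' rest φ b0 B b hne).symm

namespace UndAux

open EmbAux Gr2Aux

section

variable {W J : Type} {n : ℕ} {arc : (J → Bool) → W → W → Bool} {ψ : W → Fin n}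

theorem no_walk_sym (hψ : Function.Injective ψ) {a b : W} {x : J → Bool}
    (h : ∃ φ : W → Bool, φ a = true ∧ φ b = false ∧ ∀ p q, arc x p q = true → φ p = φ q)
    (k : ℕ) :
    ¬ Walk (fun v w => Ed arc ψ x v w || Ed arc ψ x w v) k (ψ a) (ψ b) := by
  rintro ⟨j, -, p, hp0, hpj, hp⟩
  obtain ⟨φ, ha, hb, hφ⟩ := h
  have key : ∀ i ≤ j, ∃ r, ψ r = p i ∧ φ r = true := by
    intro i
    induction i with
    | zero => exact fun _ => ⟨a, hp0.symm, ha⟩
    | succ i ih =>
      intro hi
      obtain ⟨r, hr, hr'⟩ := ih (by omega)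
      have := hp i (by omega)
      simp only [Bool.or_eq_true, ed_iff] at this
      rcases this with ⟨p', q', h1, h2, h3⟩ | ⟨p', q', h1, h2, h3⟩
      · have e : p' = r := hψ (h1.trans hr.symm)
        subst e
        exact ⟨q', h2, (hφ _ _ h3).symm.trans hr'⟩
      · have e : q' = r := hψ (h2.trans hr.symm)
        subst e
        exact ⟨p', h1, (hφ _ _ h3).trans hr'⟩
  obtain ⟨r, hr, hr'⟩ := key j le_rfl
  have : r = b := hψ (hr.trans hpj)
  subst this
  rw [hb] at hr'
  exact absurd hr' (by simp)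

end

theorem cut_of_sym (u m h : ℕ) (rest : List ℕ) (x : Leaf u m rest × Bool → Bool)
    (φ : Vert u rest → Bool) (h0 : φ (vs u rest) = true) (h1 : φ (vt u rest) = false)
    (hφ : ∀ γ : Grp u rest, (∃ j, (x ((γ, j), false) && x ((γ, j), true)) = true) →
      φ (srcG u rest γ) = φ (dstG u rest γ))
    (b : WW u m h rest) (hb0 : h = 0 → b = Sum.inl (vt u rest))
    (hb1 : ∀ hh : 0 < h, b = Sum.inr (Sum.inr ⟨h - 1, by omega⟩)) :
    ∃ ψ : WW u m h rest → Bool, ψ (Sum.inl (vs u rest)) = true ∧ ψ b = false ∧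
      ∀ p q, arc u m h rest x p q = true → ψ p = ψ q := by
  refine ⟨fun w => match w with
    | Sum.inl v => φ v
    | Sum.inr (Sum.inl l) => if x (l, false) = true then φ (srcG u rest l.1) else φ (dstG u rest l.1)
    | Sum.inr (Sum.inr _) => false, h0, ?_, ?_⟩
  · rcases Nat.eq_zero_or_pos h with hh | hh
    · rw [hb0 hh]
      exact h1
    · rw [hb1 hh]
  · intro p q hpq
    rcases p with v | l | j <;> rcases q with v' | l' | j' <;>
      simp only [arc, Bool.and_eq_true, decide_eq_true_eq, Bool.false_eq_true] at hpq ⊢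
    · obtain ⟨rfl, h2⟩ := hpq
      rw [if_pos h2]
    · obtain ⟨rfl, -⟩ := hpq
      exact h1
    · obtain ⟨rfl, h2⟩ := hpq
      split_ifs with h3
      · exact hφ l.1 ⟨l.2, by rw [Bool.and_eq_true]; exact ⟨h3, h2⟩⟩
      · rfl

end UndAux

open EmbAux Gr2Aux UndAux in
/-- the undirected graphs of the formula; no walk of any length when the formula is false -/
theorem graph_map_sym (u : ℕ) (hu : 1 ≤ u) (rest : List ℕ) (m h n : ℕ)
    (hn : Fintype.card (Vert u rest) + Fintype.card (Leaf u m rest) + h ≤ n)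
    (s t : Fin n) (hst : s ≠ t) :
    ∃ Es : (Leaf u m rest × Bool → Bool) → Fin n → Fin n → Bool,
      (∀ v w, Dep1 (fun x => Es x v w)) ∧ (∀ x v, Es x v v = false) ∧
      (∀ x v w, Es x v w = Es x w v) ∧
      ∀ x,
        (Fo u rest m (fun ℓ => x (ℓ, false) && x (ℓ, true)) = true →
          Walk (Es x) (2 * u ^ rest.length + h) s t) ∧
        (Fo u rest m (fun ℓ => x (ℓ, false) && x (ℓ, true)) = false →
          ∀ k, ¬ Walk (Es x) k s t) := by
  classical
  obtain ⟨b, hb0, hb1⟩ : ∃ b : WW u m h rest, (h = 0 → b = Sum.inl (vt u rest)) ∧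
      (∀ hh : 0 < h, b = Sum.inr (Sum.inr ⟨h - 1, by omega⟩)) := by
    rcases Nat.eq_zero_or_pos h with hh | hh
    · exact ⟨Sum.inl (vt u rest), fun _ => rfl, fun h' => absurd h' (by omega)⟩
    · exact ⟨Sum.inr (Sum.inr ⟨h - 1, by omega⟩), fun h' => absurd hh (by omega), fun _ => rfl⟩
  have hcard : Fintype.card (WW u m h rest) ≤ n := by
    rw [Fintype.card_sum, Fintype.card_sum, Fintype.card_fin]
    omega
  have hL : 1 ≤ u ^ rest.length := Nat.one_le_pow _ _ hu
  have hbl : lay' u m h rest b = 2 * u ^ rest.length + h := by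
    rcases Nat.eq_zero_or_pos h with hh | hh
    · rw [hb0 hh, lay', lay_vt, hh, add_zero]
    · rw [hb1 hh]
      show 2 * u ^ rest.length + 1 + (h - 1) = _
      omega
  have hal : lay' u m h rest (Sum.inl (vs u rest)) = 0 := by
    rw [lay', lay_vs, mul_zero]
  have hab : (Sum.inl (vs u rest) : WW u m h rest) ≠ b := by
    intro h'
    rw [← h', hal] at hbl
    omega
  obtain ⟨ψ, hψ, rfl, rfl⟩ := exists_inj n hcard (Sum.inl (vs u rest)) b hab s t hst
  refine ⟨fun x v w => Ed (arc u m h rest) ψ x v w || Ed (arc u m h rest) ψ x w v,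
    fun v w => dep_es hψ (arc_dep u m h rest) (lay' u m h rest) (arc_lay u m h rest) v w,
    ?_, fun x v w => Bool.or_comm _ _, fun x => ⟨fun hx => ?_, fun hx => ?_⟩⟩
  · intro x v
    show (Ed (arc u m h rest) ψ x v v || Ed (arc u m h rest) ψ x v v) = false
    rw [Bool.or_self, Bool.eq_false_iff, ne_eq, ed_iff]
    rintro ⟨p, q, h1, h2, h3⟩
    have e : p = q := hψ (h1.trans h2.symm)
    subst e
    have := arc_lay u m h rest x p p h3
    omega
  · obtain ⟨q, q0, qL, hq⟩ := path_of_true u hu rest m _ hx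
    obtain ⟨p, p0, pK, hp⟩ := path_of u m h rest x _ q q0 qL hq b hb0 hb1
    refine ⟨_, le_rfl, fun i => ψ (p i), congrArg ψ p0, congrArg ψ pK, fun i hi => ?_⟩
    show (_ || _) = true
    rw [ed_eq hψ, hp i hi, Bool.true_or]
  · obtain ⟨φ, f0, f1, hφ⟩ := cut_sym u hu rest m _ hx
    exact no_walk_sym hψ (cut_of_sym u m h rest x φ f0 f1 hφ b hb0 hb1)

end P28cd
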