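import Mathlib
import Pool.Agent.Lib.P28cd.Und
import Pool.Agent.Lib.P28cd.Fin
import Pool.Agent.Lib.P28cd.Zero3
import Pool.Agent.Lib.P28cd.FinNum3

/-!
# Module P28cd.FinU : the lower bounds for undirected graphs, promise version

The circuit only has to separate the symmetric loopless graphs with a walk of length at most `k`
from `s` to `t` from the symmetric loopless graphs in which `s` and `t` are in different
components.
-/

set_option autoImplicit false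

namespace P28cd

/-- `f` is true on the undirected graphs with a walk of length at most `k` and false on the undirected
graphs with no walk at all from `s` to `t` -/
def SepU {n : ℕ} (k : ℕ) (s t : Fin n) (f : (Fin n → Fin n → Bool) → Bool) : Prop :=
  ∀ E, (∀ v, E v v = false) → (∀ v w, E v w = E w v) →
    (Walk E k s t → f E = true) ∧ ((∀ j, ¬ Walk E j s t) → f E = false)

theorem sepU_of_sep {n k : ℕ} {s t : Fin n} {f : (Fin n → Fin n → Bool) → Bool}
    (h1 : ∀ E, (∀ v, E v v = false) → Walk E k s t → f E = true)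
    (h2 : ∀ E, (∀ v, E v v = false) → (∀ j, ¬ Walk E j s t) → f E = false) : SepU k s t f :=
  fun E hl _ => ⟨h1 E hl, h2 E hl⟩

theorem sepU_of_exact {n k : ℕ} {s t : Fin n} {f : (Fin n → Fin n → Bool) → Bool}
    (h : ∀ E, (∀ v, E v v = false) → (∀ v w, E v w = E w v) → (f E = true ↔ Walk E k s t)) :
    SepU k s t f := by
  intro E hl hs
  refine ⟨(h E hl hs).2, fun hn => ?_⟩
  rw [Bool.eq_false_iff]
  exact fun hf => hn k ((h E hl hs).1 hf)

theorem lower_graph_sym (a : ℕ) (ha : 1 ≤ a) : ∃ c : ℝ, 0 < c ∧ ∃ k₀ n₀ : ℕ,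
    ∀ n ≥ n₀, ∀ k, k₀ ≤ k → 2 * k ≤ n → ∀ s t : Fin n, s ≠ t →
    ∀ (S : ℕ) (f : (Fin n → Fin n → Bool) → Bool), Circ (Lits n) (2 * a + 1) S f →
      SepU k s t f →
      (n : ℝ) ^ (c * min ((k : ℝ) ^ (1 / (a : ℝ))) (Real.log n)) ≤ S := by
  obtain ⟨η₀, hη₀⟩ := no_circuit a
  obtain ⟨c, hc, k₀, n₀, hnum⟩ := final_numbers a ha η₀
  refine ⟨c, hc, k₀, n₀, ?_⟩
  intro n hn k hk h2k s t hst S f hf hsep
  by_contra hlt
  push Not at hlt
  obtain ⟨η, u, t', h, hη, ht, htu, hu2, hk2, hcard, hpow⟩ := hnum n hn k hk h2k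
  have hS : S ≤ η ^ t' := by
    have : (S : ℝ) < ((η ^ t' : ℕ) : ℝ) := lt_trans hlt hpow
    exact (Nat.cast_lt.1 this).le
  have hu1 : 1 ≤ u := by omega
  have huη : u ≤ η := (Nat.lt_two_pow_self (n := u)).le.trans hu2
  have hη1 : 1 ≤ η := le_trans hu1 huη
  have huν : u ≤ η ^ 100 := huη.trans (Nat.le_self_pow (by norm_num) η)
  have hν1 : 1 ≤ η ^ 100 := Nat.one_le_pow _ _ hη1
  obtain ⟨level, val, out, hlev, hgate, rfl⟩ := hf
  have hlen : (ms (η ^ 100) a).length = a := length_ms _ _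
  have hG := card_grp huν a
  have hcv := card_vert u hu1 (ms (η ^ 100) a) (one_le_of_mem_ms hν1 a)
  have hcl : Fintype.card (Leaf u ((η ^ 100) ^ (ex a + 6)) (ms (η ^ 100) a)) ≤
      (η ^ 100) ^ (2 * ex a + 6) := by
    rw [Fintype.card_prod, Fintype.card_fin]
    calc Fintype.card (Grp u (ms (η ^ 100) a)) * (η ^ 100) ^ (ex a + 6)
        ≤ (η ^ 100) ^ ex a * (η ^ 100) ^ (ex a + 6) := Nat.mul_le_mul_right _ hG
      _ = (η ^ 100) ^ (2 * ex a + 6) := by rw [← pow_add]; congr 1; ring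
  obtain ⟨Es, hEs, hls, hsym, hmap⟩ := graph_map_sym u hu1 (ms (η ^ 100) a)
    ((η ^ 100) ^ (ex a + 6)) h n (by omega) s t hst
  rw [hlen, hk2] at hmap
  have hlev' : ∀ g, level g ≤ 2 * a := fun g => Nat.lt_succ_iff.1 (hlev g)
  refine hη₀ η hη u t' ht htu hu2 S hS level (fun g x => val g (Es x))
    (comp_graph hgate Es hEs) hlev' out ?_
  intro x
  cases hx : Fo u (ms (η ^ 100) a) ((η ^ 100) ^ (ex a + 6))
      (fun ℓ => x (ℓ, false) && x (ℓ, true)) with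
  | true => exact (hsep _ (hls x) (hsym x)).1 ((hmap x).1 hx)
  | false => exact (hsep _ (hls x) (hsym x)).2 ((hmap x).2 hx)

theorem lower_graph3_sym : ∃ c : ℝ, 0 < c ∧ ∃ k₀ n₀ : ℕ,
    ∀ n ≥ n₀, ∀ k, k₀ ≤ k → 2 * k ≤ n → ∀ s t : Fin n, s ≠ t →
    ∀ (S : ℕ) (f : (Fin n → Fin n → Bool) → Bool), Circ (Lits n) 3 S f →
      SepU k s t f →
      (n : ℝ) ^ (c * min (k : ℝ) ((n : ℝ) ^ (1 / 20 : ℝ))) ≤ S := by
  obtain ⟨ν₀, hν₀⟩ := no_circuit3
  obtain ⟨c, hc, k₀, n₀, hnum⟩ := final_numbers3 ν₀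
  refine ⟨c, hc, k₀, n₀, ?_⟩
  intro n hn k hk h2k s t hst S f hf hsep
  by_contra hlt
  push Not at hlt
  obtain ⟨ν, u, t', h, hν, hν1, ht, htu, hu3, hk2, hcard, hpow⟩ := hnum n hn k hk h2k
  have hS : S ^ 4 ≤ ν ^ t' := by
    have h4 : (S : ℝ) ^ 4 <
        ((n : ℝ) ^ (c * min (k : ℝ) ((n : ℝ) ^ (1 / 20 : ℝ)))) ^ 4 :=
      pow_lt_pow_left₀ hlt (Nat.cast_nonneg S) (by norm_num)
    have : ((S ^ 4 : ℕ) : ℝ) < ((ν ^ t' : ℕ) : ℝ) := by
      rw [Nat.cast_pow]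
      exact lt_trans h4 hpow
    exact (Nat.cast_lt.1 this).le
  have hu1 : 1 ≤ u := by omega
  obtain ⟨level, val, out, hlev, hgate, rfl⟩ := hf
  have hg : Fintype.card (Grp u [ν]) = ν * u := by
    rw [card_grp_succ, Fintype.card_prod, Fintype.card_fin]
    have : Fintype.card (Grp u []) = 1 := rfl
    rw [this, one_mul]
  have hcv := card_vert u hu1 [ν] (by intro m hm; simp at hm; omega)
  rw [hg] at hcv
  have hcl : Fintype.card (Leaf u (ν ^ 3) [ν]) = ν * u * ν ^ 3 := by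
    rw [Fintype.card_prod, Fintype.card_fin, hg]
  obtain ⟨Es, hEs, hls, hsym, hmap⟩ := graph_map_sym u hu1 [ν] (ν ^ 3) h n (by omega) s t hst
  have hlen : 2 * u ^ [ν].length + h = k := by simpa using hk2
  rw [hlen] at hmap
  have hlev' : ∀ g, level g ≤ 2 := fun g => Nat.lt_succ_iff.1 (hlev g)
  refine hν₀ ν hν u t' ht htu hu3 S hS level (fun g x => val g (Es x))
    (comp_graph hgate Es hEs) hlev' out ?_
  intro x
  cases hx : Fo u [ν] (ν ^ 3) (fun ℓ => x (ℓ, false) && x (ℓ, true)) with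
  | true => exact (hsep _ (hls x) (hsym x)).1 ((hmap x).1 hx)
  | false => exact (hsep _ (hls x) (hsym x)).2 ((hmap x).2 hx)

end P28cd
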