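import Mathlib

/-!
# Module P28cd.SepNum : the numbers of the separation of the two problems
-/

set_option autoImplicit false

namespace P28cd

open Filter

theorem sep_numbers (d : ℕ) (hd : 3 ≤ d) (A : ℕ) (c₁ : ℝ) (hc₁ : 0 < c₁) :
    ∃ c : ℝ, 0 < c ∧ ∃ k₀ n₀ : ℕ, ∀ n ≥ n₀, ∀ k : ℕ, k₀ ≤ k →
      (k : ℝ) ≤ (c * Real.log n) ^ (d - 1) →
      2 * k ≤ n ∧ ∀ S₀ S : ℕ,
        (S₀ : ℝ) ≤ (n : ℝ) ^ ((k : ℝ) ^ (1 / ((d : ℝ) - 1)) + 4) →
        (n : ℝ) ^ (c₁ * min ((k : ℝ) ^ (1 / ((d / 2 : ℕ) : ℝ))) (Real.log n)) ≤ S →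
        S₀ ^ A < S := by
  have hd1 : (0 : ℝ) < (d : ℝ) - 1 := by
    have : (3 : ℝ) ≤ d := by exact_mod_cast hd
    linarith
  have hm : (0 : ℝ) < ((d / 2 : ℕ) : ℝ) := by
    have : 1 ≤ d / 2 := by omega
    exact_mod_cast this
  have hmd : ((d / 2 : ℕ) : ℝ) < (d : ℝ) - 1 := by
    have : d / 2 + 1 < d := by omega
    have h2 : ((d / 2 + 1 : ℕ) : ℝ) < d := by exact_mod_cast this
    push_cast at h2
    push_cast
    linarith
  have hexp : 1 / ((d : ℝ) - 1) < 1 / ((d / 2 : ℕ) : ℝ) := one_div_lt_one_div_of_lt hm hmd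
  set α : ℝ := 1 / ((d : ℝ) - 1) with hα
  set β : ℝ := 1 / ((d / 2 : ℕ) : ℝ) with hβ
  have hα0 : 0 < α := by positivity
  set c : ℝ := c₁ / (2 * ((A : ℝ) + 1)) with hcdef
  have hA : (0 : ℝ) < (A : ℝ) + 1 := by positivity
  have hc : 0 < c := by positivity
  -- powers of k
  have hlim1 : ∀ᶠ k : ℕ in atTop, 5 * (A : ℝ) < c₁ * (k : ℝ) ^ (β - α) := by
    have h1 : Tendsto (fun k : ℕ => c₁ * (k : ℝ) ^ (β - α)) atTop atTop :=
      Tendsto.const_mul_atTop hc₁
        ((tendsto_rpow_atTop (sub_pos.2 hexp)).comp tendsto_natCast_atTop_atTop)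
    exact h1.eventually_gt_atTop _
  obtain ⟨k₀, hk₀⟩ := eventually_atTop.1 hlim1
  have hlim2 : ∀ᶠ n : ℕ in atTop, 4 * (A : ℝ) < c₁ / 2 * Real.log n := by
    have h1 : Tendsto (fun n : ℕ => c₁ / 2 * Real.log n) atTop atTop :=
      Tendsto.const_mul_atTop (by positivity)
        (Real.tendsto_log_atTop.comp tendsto_natCast_atTop_atTop)
    exact h1.eventually_gt_atTop _
  have hlim3 : ∀ᶠ n : ℕ in atTop, 2 * (c * Real.log n) ^ (d - 1) ≤ n := by
    have h1 := (Real.isLittleO_pow_log_id_atTop (n := d - 1)).def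
      (show (0 : ℝ) < 1 / (2 * c ^ (d - 1)) by positivity)
    have h2 := tendsto_natCast_atTop_atTop (R := ℝ) |>.eventually h1
    filter_upwards [h2, eventually_ge_atTop 1] with n hn hn1
    have hlog : 0 ≤ Real.log n := Real.log_nonneg (by exact_mod_cast hn1)
    simp only [id, norm_pow, Real.norm_of_nonneg hlog, Real.norm_natCast] at hn
    rw [div_mul_eq_mul_div, one_mul, le_div_iff₀ (by positivity)] at hn
    calc 2 * (c * Real.log n) ^ (d - 1) = Real.log n ^ (d - 1) * (2 * c ^ (d - 1)) := by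
          rw [mul_pow]; ring
      _ ≤ n := hn
  obtain ⟨n₁, hn₁⟩ := eventually_atTop.1 (hlim2.and hlim3)
  refine ⟨c, hc, max k₀ 1, max n₁ 2, ?_⟩
  intro n hn k hk hkc
  obtain ⟨h2, h3⟩ := hn₁ n (le_trans (le_max_left _ _) hn)
  have hn2 : 2 ≤ n := le_trans (le_max_right _ _) hn
  have hk1 : 1 ≤ k := le_trans (le_max_right _ _) hk
  have h1 := hk₀ k (le_trans (le_max_left _ _) hk)
  have hkr : (1 : ℝ) ≤ k := by exact_mod_cast hk1
  have hlog : 0 < Real.log n := Real.log_pos (by exact_mod_cast hn2)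
  refine ⟨?_, ?_⟩
  · have : ((2 * k : ℕ) : ℝ) ≤ n := by
      push_cast
      linarith
    exact_mod_cast this
  intro S₀ S hS₀ hS
  set x : ℝ := (k : ℝ) ^ α with hx
  have hx1 : 1 ≤ x := Real.one_le_rpow hkr hα0.le
  -- `x ≤ c log n`
  have hxc : x ≤ c * Real.log n := by
    have h5 : x ≤ ((c * Real.log n) ^ (d - 1)) ^ α :=
      Real.rpow_le_rpow (by positivity) hkc hα0.le
    have h6 : ((c * Real.log n) ^ (d - 1)) ^ α = c * Real.log n := by
      have h7 : ((d - 1 : ℕ) : ℝ) = (d : ℝ) - 1 := by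
        rw [Nat.cast_sub (by omega)]; simp
      rw [hα, ← h7, one_div]
      exact Real.pow_rpow_inv_natCast (by positivity) (by omega)
    rwa [h6] at h5
  have key : (A : ℝ) * (x + 4) < c₁ * min ((k : ℝ) ^ β) (Real.log n) := by
    rw [mul_min_of_nonneg _ _ hc₁.le]
    refine lt_min ?_ ?_
    · have h8 : (k : ℝ) ^ β = x * (k : ℝ) ^ (β - α) := by
        rw [hx, ← Real.rpow_add (by linarith)]
        congr 1
        ring
      rw [h8]
      have h9 : (A : ℝ) * (x + 4) ≤ x * (5 * A) := by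
        have : (0 : ℝ) ≤ A := Nat.cast_nonneg A
        nlinarith
      have h10 : x * (5 * A) < x * (c₁ * (k : ℝ) ^ (β - α)) :=
        mul_lt_mul_of_pos_left h1 (by linarith)
      calc (A : ℝ) * (x + 4) ≤ x * (5 * A) := h9
        _ < x * (c₁ * (k : ℝ) ^ (β - α)) := h10
        _ = c₁ * (x * (k : ℝ) ^ (β - α)) := by ring
    · have h11 : (A : ℝ) * x ≤ c₁ / 2 * Real.log n := by
        have h12 : (A : ℝ) * x ≤ ((A : ℝ) + 1) * (c * Real.log n) := by
          have : (0 : ℝ) ≤ A := Nat.cast_nonneg A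
          nlinarith
        have h13 : ((A : ℝ) + 1) * (c * Real.log n) = c₁ / 2 * Real.log n := by
          rw [hcdef]
          field_simp
        linarith
      linarith
  have hnr : (1 : ℝ) < n := by exact_mod_cast hn2
  have hpow : ((S₀ ^ A : ℕ) : ℝ) < S := by
    push_cast
    calc (S₀ : ℝ) ^ A ≤ ((n : ℝ) ^ (x + 4)) ^ A := pow_le_pow_left₀ (Nat.cast_nonneg _) hS₀ A
      _ = (n : ℝ) ^ ((A : ℝ) * (x + 4)) := by
          rw [← Real.rpow_natCast, ← Real.rpow_mul (by linarith)]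
          congr 1
          ring
      _ < (n : ℝ) ^ (c₁ * min ((k : ℝ) ^ β) (Real.log n)) :=
          Real.rpow_lt_rpow_of_exponent_lt hnr key
      _ ≤ S := hS
  exact_mod_cast hpow

end P28cd
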